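import Mathlib
import Pool.Agent.MP_93dc40_an.Defs

section

namespace Pool.Agent.MP_93dc40_an

theorem exists_sum (W : ℤ) (hW : 0 ≤ W) : ∀ (g : ℕ) (σ : ℤ), |σ| ≤ g * W →
    ∃ l : List ℤ, l.length = g ∧ (∀ x ∈ l, |x| ≤ W) ∧ l.sum = σ ∧
      0 ≤ (l.map fun x => x ^ 2).sum ∧ (l.map fun x => x ^ 2).sum ≤ W * |σ| ∧
      (2 : ℤ) ∣ (l.map fun x => x ^ 2).sum - σ
  | 0, σ, h => by
    have : σ = 0 := by simpa using h
    exact ⟨[], rfl, by simp, by simp [this], by simp, by simp [this], by simp [this]⟩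
  | g + 1, σ, h => by
    obtain ⟨x, h1, h2, h3⟩ : ∃ x : ℤ, |x| ≤ W ∧ |σ - x| ≤ g * W ∧ |σ - x| + |x| = |σ| := by
      have hg : (0 : ℤ) ≤ g * W := by positivity
      push_cast at h
      rw [add_mul, one_mul] at h
      by_cases a : W ≤ σ
      · refine ⟨W, by rw [abs_of_nonneg hW], ?_, ?_⟩
        · rw [abs_of_nonneg (by omega)] at h ⊢ <;> omega
        · rw [abs_of_nonneg (by omega), abs_of_nonneg hW, abs_of_nonneg (by omega)]; ring
      by_cases b : σ ≤ -W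
      · refine ⟨-W, by rw [abs_neg, abs_of_nonneg hW], ?_, ?_⟩
        · rw [abs_of_nonpos (by omega)] at h ⊢ <;> omega
        · rw [abs_of_nonpos (by omega), abs_neg, abs_of_nonneg hW, abs_of_nonpos (by omega)]; ring
      · exact ⟨σ, abs_le.2 ⟨by omega, by omega⟩, by simpa using hg, by simp⟩
    obtain ⟨l, l1, l2, l3, l4, l5, l6⟩ := exists_sum W hW g (σ - x) h2
    have hx : x ^ 2 ≤ W * |x| := by
      rw [← sq_abs, sq]
      exact mul_le_mul_of_nonneg_right h1 (abs_nonneg _)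
    refine ⟨x :: l, by simp [l1], fun y hy => ?_, by simp [l3], ?_, ?_, ?_⟩
    · rcases List.mem_cons.1 hy with rfl | hy
      exacts [h1, l2 y hy]
    · rw [List.map_cons, List.sum_cons]
      positivity
    · rw [List.map_cons, List.sum_cons, ← h3, mul_add]
      linarith
    · rw [List.map_cons, List.sum_cons]
      obtain ⟨a, ha⟩ := l6
      obtain ⟨b, hb⟩ := Int.even_mul_pred_self x
      exact ⟨a + b, by linear_combination ha + hb⟩

theorem exists_zero (W : ℤ) (hW : 1 ≤ W) (u v r : ℕ) :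
    ∃ l : List ℤ, l.length = 2 * u + 2 * v + r ∧ (∀ x ∈ l, |x| ≤ W) ∧ l.sum = 0 ∧
      (l.map fun x => x ^ 2).sum = 2 * (u * W ^ 2 + v) := by
  refine ⟨List.replicate u W ++ List.replicate u (-W) ++ List.replicate v 1 ++
    List.replicate v (-1) ++ List.replicate r 0, by simp; omega, fun x hx => ?_, by simp, ?_⟩
  · simp only [List.mem_append, List.mem_replicate] at hx
    rcases hx with (((⟨-, rfl⟩ | ⟨-, rfl⟩) | ⟨-, rfl⟩) | ⟨-, rfl⟩) | ⟨-, rfl⟩ <;>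
      rw [abs_le] <;> constructor <;> omega
  · simp
    ring

/-- two prescribed moments with signs -/
theorem core (t W B D R : ℤ) (G P Q : ℕ) (hW : 1 ≤ W) (hB : 2 ≤ B) (hN : (P : ℤ) + Q + 4 ≤ B)
    (ht : t ≤ B) (htW : 3 * W ≤ t) (hG : B ≤ W * G) (hP : 19 * (G : ℤ) + 2 * W ^ 2 ≤ P)
    (hQ : 4 * G ≤ Q) (hD : |D| ≤ t) (hR : 0 ≤ R) (hR' : R ≤ 3 * t * ((P : ℤ) + Q + 4)) :
    ∃ l : List (ℤ × ℤ), l.length = P + Q + 4 ∧ (∀ x ∈ l, |x.1| ≤ W ∧ -1 ≤ x.2 ∧ x.2 ≤ 2) ∧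
      (l.map fun x => x.2 ^ 2).sum = (P : ℤ) + Q + 4 ∧ (l.map fun x => x.2).sum = (P : ℤ) - Q + 2 ∧
      (l.map fun x => x.2 * x.1).sum = D ∧
      (l.map fun x => x.1 ^ 2).sum + 2 * t * (l.map fun x => x.1).sum = R := by
  have t0 : 0 < t := by omega
  obtain ⟨φ, φ0, φ1, φ2⟩ : ∃ φ : ℤ, 0 ≤ φ ∧ φ ≤ 1 ∧ (2 : ℤ) ∣ R - D - φ :=
    ⟨(R - D) % 2, by omega, by omega, by omega⟩
  have φ3 : φ ^ 2 = φ := by
    obtain rfl | rfl : φ = 0 ∨ φ = 1 := by omega
    all_goals norm_num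
  obtain ⟨T, hT⟩ : ∃ T, T = R - φ * (1 + 2 * t) - 2 * t * D - 9 * W * B := ⟨_, rfl⟩
  obtain ⟨Y, ρ, hY, ρ0, ρ1⟩ : ∃ Y ρ : ℤ, T = 4 * t * Y + ρ ∧ 0 ≤ ρ ∧ ρ < 4 * t :=
    ⟨T / (4 * t), T % (4 * t), (Int.mul_ediv_add_emod _ _).symm,
      Int.emod_nonneg _ (by omega), Int.emod_lt_of_pos _ (by omega)⟩
  obtain ⟨D1, D2⟩ := abs_le.1 hD
  have a1 : t * (P + Q + 4) ≤ t * B := mul_le_mul_of_nonneg_left hN t0.le
  have a2 : t * D ≤ t * B := mul_le_mul_of_nonneg_left (D2.trans ht) t0.le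
  have a3 : t * (-B) ≤ t * D := mul_le_mul_of_nonneg_left (by omega) t0.le
  have a4 : 3 * W * B ≤ t * B := mul_le_mul_of_nonneg_right htW (by omega)
  have a5 : 0 ≤ W * B := by positivity
  have a6 : 0 ≤ φ * (1 + 2 * t) := by positivity
  have a7 : φ * (1 + 2 * t) ≤ 1 * (1 + 2 * t) := mul_le_mul_of_nonneg_right φ1 (by omega)
  have a8 : t * 2 ≤ t * B := mul_le_mul_of_nonneg_left hB t0.le
  have hY1 : |Y| ≤ 4 * B := by
    rw [abs_le]
    constructor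
    · by_contra h
      have : t * Y ≤ t * (-(4 * B)) := mul_le_mul_of_nonneg_left (by omega) t0.le
      nlinarith
    · by_contra h
      have : t * (4 * B) ≤ t * Y := mul_le_mul_of_nonneg_left (by omega) t0.le
      nlinarith
  have hX1 : |Y + D| ≤ 5 * B := (abs_add_le _ _).trans (by omega)
  have hQ' : (4 : ℤ) * G ≤ Q := by exact_mod_cast hQ
  obtain ⟨ly, y1, y2, y3, y4, y5, y6⟩ := exists_sum W (by omega) Q Y (hY1.trans (by nlinarith))
  obtain ⟨lx, x1, x2, x3, x4, x5, x6⟩ := exists_sum W (by omega) (5 * G) (Y + D)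
    (hX1.trans (by push_cast; nlinarith))
  have y7 : W * |Y| ≤ W * (4 * B) := mul_le_mul_of_nonneg_left hY1 (by omega)
  have x7 : W * |Y + D| ≤ W * (5 * B) := mul_le_mul_of_nonneg_left hX1 (by omega)
  obtain ⟨n, hn⟩ : (2 : ℤ) ∣ 9 * W * B + ρ - (ly.map fun x => x ^ 2).sum -
      (lx.map fun x => x ^ 2).sum := by
    obtain ⟨a, ha⟩ := y6
    obtain ⟨b, hb⟩ := x6
    obtain ⟨c, hc⟩ := φ2
    exact ⟨c - φ * t - t * D - 2 * t * Y - a - b - Y, by
      linear_combination hc - ha - hb + hT - hY⟩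
  have n0 : 0 ≤ n := by linarith
  have a9 : B ≤ W * B := le_mul_of_one_le_left (by omega) hW
  have n1 : n ≤ 7 * (W * B) := by linarith
  have W2 : 0 < W ^ 2 := by positivity
  obtain ⟨u, v, huv, v1⟩ : ∃ u v : ℕ, n = u * W ^ 2 + v ∧ (v : ℤ) < W ^ 2 := by
    refine ⟨(n / W ^ 2).toNat, (n % W ^ 2).toNat, ?_, ?_⟩
    · rw [Int.toNat_of_nonneg (Int.ediv_nonneg n0 W2.le),
        Int.toNat_of_nonneg (Int.emod_nonneg _ W2.ne')]
      exact (Int.ediv_mul_add_emod _ _).symm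
    · rw [Int.toNat_of_nonneg (Int.emod_nonneg _ W2.ne')]
      exact Int.emod_lt_of_pos _ W2
  have u1 : (u : ℤ) ≤ 7 * G := by
    have b1 : W * B ≤ W * (W * G) := mul_le_mul_of_nonneg_left hG (by omega)
    have b2 : (u : ℤ) * W ^ 2 ≤ 7 * G * W ^ 2 := by
      have : (0 : ℤ) ≤ v := by positivity
      nlinarith
    exact le_of_mul_le_mul_right b2 W2
  obtain ⟨r, hr⟩ : ∃ r : ℕ, P = 5 * G + (2 * u + 2 * v + r) := by
    have : 5 * G + (2 * u + 2 * v) ≤ P := by omega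
    exact ⟨P - (5 * G + (2 * u + 2 * v)), by omega⟩
  obtain ⟨lz, z1, z2, z3, z4⟩ := exists_zero W hW u v r
  have neg : (ly.map fun x => -x).sum = -Y := by rw [← y3, List.sum_neg]
  refine ⟨(lx ++ lz).map (fun x => (x, 1)) ++ ly.map (fun x => (x, -1)) ++
    [(0, 2), (φ, 0), (0, 0), (0, 0)], by simp [x1, y1, z1]; omega, fun x hx => ?_, ?_, ?_, ?_, ?_⟩
  · simp only [List.mem_append, List.mem_map, List.mem_cons, List.not_mem_nil, or_false] at hx
    have hφ : |φ| ≤ W := abs_le.2 ⟨by omega, by omega⟩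
    have h0 : |(0 : ℤ)| ≤ W := by simp; omega
    rcases hx with (⟨a, ha | ha, rfl⟩ | ⟨a, ha, rfl⟩) | rfl | rfl | rfl | rfl
    exacts [⟨x2 a ha, by simp, by simp⟩, ⟨z2 a ha, by simp, by simp⟩, ⟨y2 a ha, by simp, by simp⟩,
      ⟨h0, by simp, by simp⟩, ⟨hφ, by simp, by simp⟩, ⟨h0, by simp, by simp⟩,
      ⟨h0, by simp, by simp⟩]
  · simp [Function.comp_def, x1, y1, z1, hr]
    ring
  · simp [Function.comp_def, x1, y1, z1, hr]
    ring
  · simp [Function.comp_def, x3, z3, neg]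
  · simp only [List.map_append, List.map_map, Function.comp_def, List.sum_append, List.map_id',
      x3, y3, z3, z4, List.map_cons, List.sum_cons, List.map_nil, List.sum_nil]
    linear_combination φ3 - hn - 2 * huv - hY + hT

end Pool.Agent.MP_93dc40_an

end

section

namespace Pool.Agent.MP_93dc40_an

theorem shift_sums (t : ℤ) : ∀ l : List (ℤ × ℤ),
    (l.map fun x => x.2 * (t + x.1)).sum =
        t * (l.map fun x => x.2).sum + (l.map fun x => x.2 * x.1).sum ∧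
      (l.map fun x => (t + x.1) ^ 2).sum =
        l.length * t ^ 2 + ((l.map fun x => x.1 ^ 2).sum + 2 * t * (l.map fun x => x.1).sum)
  | [] => by simp
  | x :: l => by
    obtain ⟨h1, h2⟩ := shift_sums t l
    simp only [List.map_cons, List.sum_cons, h1, h2, List.length_cons]
    push_cast
    constructor <;> ring

/-- one group of children -/
theorem group (s ρ m K E W : ℤ) (G N : ℕ) (hK : 1 ≤ K) (hW : 1 ≤ W) (hE : 0 ≤ E)
    (s1 : ρ ^ 2 ≤ s) (s2 : s ≤ 4 * ρ ^ 2) (G1 : 400 * (K * G) ≤ ρ) (G2 : 5 * (K * ρ) ≤ W * G)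
    (G3 : E + K + W ^ 2 + W + 10 ≤ G) (m1 : ρ ≤ 2 * m) (m2 : m ≤ 4 * (K * ρ))
    (N1 : m - E ≤ K * N) (N2 : N ≤ m + E) :
    ∃ l : List (ℤ × ℤ), l ≠ [] ∧
      (∀ x ∈ l, ρ ≤ 2 * x.1 ∧ x.1 ≤ 4 * (K * ρ) ∧ -1 ≤ x.2 ∧ x.2 ≤ 2) ∧ l.length = N ∧
      (l.map fun x => x.2 ^ 2).sum = (N : ℤ) ∧ (l.map fun x => x.2 * x.1).sum = m ∧
      (l.map fun x => x.1 ^ 2).sum = s * m := by
  have W2 : 0 < W ^ 2 := by positivity
  have G0 : (0 : ℤ) ≤ G := by positivity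
  have KG : (G : ℤ) ≤ K * G := le_mul_of_one_le_left G0 hK
  have ρ0 : 0 < ρ := by omega
  have Kρ : ρ ≤ K * ρ := le_mul_of_one_le_left ρ0.le hK
  have m0 : 0 < m := by omega
  have N3 : 199 * (G : ℤ) ≤ N := by
    have : K * (199 * G) ≤ K * N := by linarith
    exact le_of_mul_le_mul_left this (by omega)
  have N0 : (0 : ℤ) < N := by omega
  have s0 : 0 ≤ s := (sq_nonneg ρ).trans s1
  have sm0 : 0 ≤ s * m := by positivity
  obtain ⟨t, t0, t1, t2⟩ : ∃ t : ℤ, 0 ≤ t ∧ N * t ^ 2 ≤ s * m ∧ s * m < N * (t + 1) ^ 2 := by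
    obtain ⟨a, ha⟩ := Int.eq_ofNat_of_zero_le sm0
    have N0' : 0 < N := by exact_mod_cast N0
    refine ⟨Nat.sqrt (a / N), by positivity, ?_, ?_⟩
    · rw [ha]
      have := (Nat.mul_le_mul_left N (Nat.sqrt_le' (a / N))).trans (Nat.mul_div_le a N)
      exact_mod_cast this
    · rw [ha]
      have h1 := Nat.lt_succ_sqrt' (a / N)
      have := (Nat.div_lt_iff_lt_mul N0').1 h1
      rw [mul_comm] at this
      exact_mod_cast this
  have t3 : ρ + 2 * W ≤ 2 * t := by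
    by_contra h
    have b1 : (4 * (t + 1)) ^ 2 ≤ (3 * ρ) ^ 2 := pow_le_pow_left₀ (by omega) (by omega) 2
    have b2 : 2 * N * (4 * (t + 1)) ^ 2 ≤ 3 * m * (3 * ρ) ^ 2 :=
      mul_le_mul (by omega) b1 (by positivity) (by positivity)
    have b3 : m * ρ ^ 2 ≤ m * s := mul_le_mul_of_nonneg_left s1 m0.le
    nlinarith
  have t4 : t ≤ 3 * (K * ρ) := by
    have b1 : m * t ^ 2 ≤ 2 * (K * N) * t ^ 2 :=
      mul_le_mul_of_nonneg_right (by omega) (sq_nonneg _)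
    have b2 : K * (N * t ^ 2) ≤ K * (s * m) := mul_le_mul_of_nonneg_left t1 (by omega)
    have b3 : m * t ^ 2 ≤ m * (2 * (K * s)) := by linarith
    have b4 : t ^ 2 ≤ 2 * (K * s) := le_of_mul_le_mul_left b3 m0
    have b5 : K * s ≤ K * (4 * ρ ^ 2) := mul_le_mul_of_nonneg_left s2 (by omega)
    have b6 : K * ρ ^ 2 ≤ K * (K * ρ ^ 2) :=
      mul_le_mul_of_nonneg_left (le_mul_of_one_le_left (sq_nonneg _) hK) (by omega)
    have b7 : 0 ≤ K * (K * ρ ^ 2) := by positivity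
    exact (abs_le_of_sq_le_sq' (b := 3 * (K * ρ)) (by nlinarith) (by omega)).2
  have tp : 0 < t := by omega
  obtain ⟨j, r, hj, r0, r1⟩ : ∃ j r : ℤ, m = t * j + r ∧ 0 ≤ r ∧ r < t :=
    ⟨m / t, m % t, (Int.mul_ediv_add_emod _ _).symm, Int.emod_nonneg _ tp.ne',
      Int.emod_lt_of_pos _ tp⟩
  have j0 : 0 ≤ j := by
    by_contra h
    have : t * j ≤ t * (-1) := mul_le_mul_of_nonneg_left (by omega) t0
    omega
  have j1 : j ≤ 8 * K := by
    have b1 : K * ρ ≤ K * (2 * t) := mul_le_mul_of_nonneg_left (by omega) (by omega)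
    have : t * j ≤ t * (8 * K) := by linarith
    exact le_of_mul_le_mul_left this tp
  obtain ⟨σ, σ0, σ1, σ2, σ3⟩ : ∃ σ : ℤ, 0 ≤ σ ∧ σ ≤ 8 * K + 1 ∧ (2 : ℤ) ∣ N - σ ∧ |m - t * σ| ≤ t := by
    by_cases h : (2 : ℤ) ∣ N - j
    · exact ⟨j, j0, by omega, h, abs_le.2 ⟨by omega, by omega⟩⟩
    · refine ⟨j + 1, by omega, by omega, by omega, abs_le.2 ?_⟩
      rw [mul_add, mul_one]
      omega
  obtain ⟨P, hP⟩ : ∃ P : ℕ, 2 * (P : ℤ) = N - 6 + σ := ⟨((N - 6 + σ) / 2).toNat, by omega⟩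
  obtain ⟨Q, hQ⟩ : ∃ Q : ℕ, 2 * (Q : ℤ) = N - 2 - σ := ⟨((N - 2 - σ) / 2).toNat, by omega⟩
  have hN : (P : ℤ) + Q + 4 = N := by omega
  have hσ : (P : ℤ) - Q + 2 = σ := by omega
  obtain ⟨l, l1, l2, l3, l4, l5, l6⟩ := core t W (5 * (K * ρ)) (m - t * σ) (s * m - N * t ^ 2) G P Q
    hW (by omega) (by omega) (by omega) (by omega) G2 (by omega) (by omega) σ3 (by omega) (by
      rw [hN]
      have : N * 1 ≤ N * t := mul_le_mul_of_nonneg_left (by omega) N0.le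
      nlinarith)
  obtain ⟨h1, h2⟩ := shift_sums t l
  have hl : l.length = N := by omega
  refine ⟨l.map fun x => (t + x.1, x.2), ?_, fun x hx => ?_, by simpa using hl, ?_, ?_, ?_⟩
  · rintro h
    rw [List.map_eq_nil_iff] at h
    rw [h] at l1
    simp at l1
  · obtain ⟨y, hy, rfl⟩ := List.mem_map.1 hx
    obtain ⟨y1, y2, y3⟩ := l2 y hy
    rw [abs_le] at y1
    exact ⟨by dsimp only; omega, by dsimp only; omega, y2, y3⟩
  · rw [List.map_map, ← hN, ← l3]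
    rfl
  · rw [List.map_map]
    refine h1.trans ?_
    rw [l4, l5, hσ]
    ring
  · rw [List.map_map]
    refine h2.trans ?_
    rw [l6, hl]
    ring

end Pool.Agent.MP_93dc40_an

end

section

namespace Pool.Agent.MP_93dc40_an

open Finset

theorem sum_getElem {α : Type} (f : α → ℤ) : ∀ (l : List α) (B : ℕ), l.length ≤ B →
    ∑ b ∈ range B, (l[b]?.map f).getD 0 = (l.map f).sum
  | [], B, _ => by simp
  | a :: l, 0, h => by simp at h
  | a :: l, B + 1, h => by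
    rw [sum_range_succ']
    simp only [List.getElem?_cons_succ, List.getElem?_cons_zero, Option.map_some, Option.getD_some,
      List.map_cons, List.sum_cons]
    rw [sum_getElem f l B (by simpa using h), add_comm]

/-- a finite system of types with lists of children contains an irreducible binary matrix -/
theorem realize {α : Type} (S : Finset α) (hS : S.Nonempty) (ℓ : α → List α)
    (h1 : ∀ v ∈ S, ℓ v ≠ []) (h2 : ∀ v ∈ S, ∀ w ∈ ℓ v, w ∈ S) :
    ∃ (k : ℕ) (N : Matrix (Fin k) (Fin k) ℕ) (π : Fin k → α), 0 < k ∧ IsBinary N ∧ IsIrred N ∧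
      (∀ i, π i ∈ S) ∧ (∀ i, ∀ w ∈ ℓ (π i), ∃ j, N i j = 1 ∧ π j = w) ∧
      ∀ i (f : α → ℤ), ∑ j, (N i j : ℤ) * f (π j) = ((ℓ (π i)).map f).sum := by
  classical
  obtain ⟨B, hB⟩ : ∃ B, ∀ v ∈ S, (ℓ v).length ≤ B :=
    ⟨∑ v ∈ S, (ℓ v).length, fun v hv =>
      single_le_sum (f := fun v => (ℓ v).length) (fun _ _ => Nat.zero_le _) hv⟩
  let rel : α × ℕ → α × ℕ → Prop := fun x y => (ℓ x.1)[y.2]? = some y.1
  have step : ∀ x y, x.1 ∈ S → rel x y → y ∈ S ×ˢ range B := fun x y hx h => by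
    obtain ⟨hl, he⟩ := List.getElem?_eq_some_iff.1 h
    exact mem_product.2 ⟨h2 _ hx _ (he ▸ List.getElem_mem hl), mem_range.2 (hl.trans_le (hB _ hx))⟩
  have reach : ∀ x y, x.1 ∈ S → Relation.TransGen rel x y → y ∈ S ×ˢ range B := fun x y hx h => by
    induction h with
    | single h => exact step _ _ hx h
    | tail _ h ih => exact step _ _ (mem_product.1 ih).1 h
  let R : α × ℕ → Finset (α × ℕ) := fun x => (S ×ˢ range B).filter (Relation.TransGen rel x)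
  have memR : ∀ x y, x.1 ∈ S → (y ∈ R x ↔ Relation.TransGen rel x y) := fun x y hx =>
    ⟨fun h => (mem_filter.1 h).2, fun h => mem_filter.2 ⟨reach x y hx h, h⟩⟩
  obtain ⟨v0, hv0⟩ := hS
  obtain ⟨x, hx, hmin⟩ := exists_min_image (S ×ˢ range (B + 1)) (fun x => (R x).card)
    ⟨(v0, 0), mem_product.2 ⟨hv0, by simp⟩⟩
  have hxS : x.1 ∈ S := (mem_product.1 hx).1
  have RS : ∀ y ∈ R x, y.1 ∈ S := fun y hy => (mem_product.1 (mem_filter.1 hy).1).1
  have closed : ∀ y ∈ R x, ∀ z, Relation.TransGen rel y z → z ∈ R x := fun y hy z h =>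
    (memR x z hxS).2 (((memR x y hxS).1 hy).trans h)
  have conn : ∀ y ∈ R x, ∀ z ∈ R x, Relation.TransGen rel y z := fun y hy z hz => by
    have hy' := mem_product.1 (mem_filter.1 hy).1
    have hsub : R y ⊆ R x := fun w hw => closed y hy w ((memR y w hy'.1).1 hw)
    have := eq_of_subset_of_card_le hsub (hmin y (mem_product.2 ⟨hy'.1, by
      have := mem_range.1 hy'.2
      exact mem_range.2 (by omega)⟩))
    exact (memR y z hy'.1).1 (this ▸ hz)
  have child : ∀ y : α × ℕ, ∀ w ∈ ℓ y.1, ∃ b, rel y (w, b) := fun y w hw =>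
    List.getElem?_of_mem hw
  let e := (R x).equivFin
  obtain ⟨N, hN⟩ : ∃ N : Matrix (Fin (R x).card) (Fin (R x).card) ℕ,
      ∀ i j, N i j = if rel (e.symm i).1 (e.symm j).1 then 1 else 0 :=
    ⟨fun i j => if rel (e.symm i).1 (e.symm j).1 then 1 else 0, fun _ _ => rfl⟩
  refine ⟨(R x).card, N, fun i => (e.symm i).1.1, ?_, fun i j => ?_, fun i j => ?_, fun i => RS _ (e.symm i).2,
    fun i w hw => ?_, fun i f => ?_⟩
  · obtain ⟨w, hw⟩ := List.exists_mem_of_ne_nil _ (h1 _ hxS)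
    obtain ⟨b, hb⟩ := child x w hw
    exact card_pos.2 ⟨_, (memR x _ hxS).2 (.single hb)⟩
  · rw [hN]
    split_ifs <;> simp
  · suffices H : ∀ z, Relation.TransGen rel (e.symm i).1 z → ∀ j, (e.symm j).1 = z →
        ∃ n, 1 ≤ n ∧ 0 < (N ^ n) i j from
      H _ (conn _ (e.symm i).2 _ (e.symm j).2) j rfl
    intro z hz
    induction hz with
    | single h =>
      intro j hj
      refine ⟨1, le_rfl, ?_⟩
      rw [pow_one]
      simp [hN, hj, h]
    | @tail b c hb h ih =>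
      intro j hj
      have hbR := closed _ (e.symm i).2 b hb
      obtain ⟨n, n1, n2⟩ := ih (e ⟨b, hbR⟩) (by simp)
      refine ⟨n + 1, by omega, ?_⟩
      rw [pow_succ, Matrix.mul_apply]
      refine sum_pos' (fun _ _ => Nat.zero_le _) ⟨e ⟨b, hbR⟩, mem_univ _, Nat.mul_pos n2 ?_⟩
      simp [hN, hj, h]
  · obtain ⟨b, hb⟩ := child _ w hw
    refine ⟨e ⟨(w, b), closed _ (e.symm i).2 _ (.single hb)⟩, ?_, by simp⟩
    simp [hN, hb]
  · have hi := (e.symm i).2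
    simp only [hN]
    generalize (e.symm i).1 = y at hi ⊢
    rw [← sum_getElem f _ B (hB _ (RS y hi))]
    calc _ = ∑ z : R x, if rel y z.1 then f z.1.1 else 0 := by
          rw [← e.symm.sum_comp]
          exact sum_congr rfl fun j _ => by split_ifs <;> simp
      _ = ∑ z ∈ R x, if rel y z then f z.1 else 0 :=
          sum_coe_sort (R x) fun z => if rel y z then f z.1 else 0
      _ = ∑ z ∈ S ×ˢ range B, if rel y z then f z.1 else 0 :=
          sum_subset (filter_subset _ _) fun z _ hz =>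
            if_neg fun h => hz (closed y hi z (.single h))
      _ = _ := by
          rw [sum_product_right]
          refine sum_congr rfl fun b _ => ?_
          rcases hb : (ℓ y.1)[b]? with _ | w
          · simp [rel, hb]
          · have hw : w ∈ S := h2 _ (RS y hi) _ (List.mem_of_getElem? hb)
            simp [rel, hb, hw]

end Pool.Agent.MP_93dc40_an

end

section

namespace Pool.Agent.MP_93dc40_an

open Finset Filter Topology

/-- the number of blocks with a given root symbol, by recursion -/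
def ys (d : ℕ) {k : ℕ} (M : Matrix (Fin k) (Fin k) ℕ) : ℕ → Fin k → ℕ
  | 0, _ => 1
  | n + 1, r => (∑ j, M r j * ys d M n j) ^ d

/-- blocks of points whose root symbol satisfies `p` -/
def Pat (d : ℕ) {k : ℕ} (M : Matrix (Fin k) (Fin k) ℕ) (n : ℕ) (p : Fin k → Prop) :
    Set ({g : List (Fin d) // g.length ≤ n} → Fin k) :=
  (fun (t : List (Fin d) → Fin k) (g : {g : List (Fin d) // g.length ≤ n}) => t g.1) ''
    {t | t ∈ TreeShift d M ∧ p (t [])}

theorem exists_point (d : ℕ) {k : ℕ} (M : Matrix (Fin k) (Fin k) ℕ) (hr : ∀ r, ∃ j, M r j = 1)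
    (r : Fin k) : ∃ t ∈ TreeShift d M, t [] = r := by
  choose σ hσ using hr
  refine ⟨fun g => σ^[g.length] r, fun g i => ?_, rfl⟩
  simp [Function.iterate_succ_apply', hσ]

theorem pat_fiber (d : ℕ) {k : ℕ} (M : Matrix (Fin k) (Fin k) ℕ) (n : ℕ) (p : Fin k → Prop)
    [DecidablePred p] :
    (Pat d M n p).ncard = ∑ j, if p j then (Pat d M n (· = j)).ncard else 0 := by
  have : Finite {g : List (Fin d) // g.length ≤ n} := List.finite_length_le (Fin d) n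
  have h : Pat d M n p = ⋃ j, Pat d M n (fun a => p a ∧ a = j) := by
    ext f
    simp only [Pat, Set.mem_image, Set.mem_ofPred_eq, Set.mem_iUnion]
    exact ⟨fun ⟨t, ⟨h1, h2⟩, h3⟩ => ⟨_, t, ⟨h1, h2, rfl⟩, h3⟩,
      fun ⟨_, t, ⟨h1, h2, _⟩, h3⟩ => ⟨t, ⟨h1, h2⟩, h3⟩⟩
  rw [h, Set.ncard_iUnion_of_finite (fun _ => Set.toFinite _), finsum_eq_sum_of_fintype]
  · refine sum_congr rfl fun j _ => ?_
    split_ifs with hj
    · congr 2
      ext a
      exact ⟨fun h => h.2, fun h => ⟨h ▸ hj, h⟩⟩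
    · have : (fun a => p a ∧ a = j) = fun _ => False := by
        ext a
        exact ⟨fun h => hj (h.2 ▸ h.1), False.elim⟩
      rw [this]
      simp [Pat]
  · intro i j hij
    refine Set.disjoint_left.2 ?_
    rintro f ⟨t, ⟨-, -, h2⟩, rfl⟩ ⟨u, ⟨-, -, h3⟩, h4⟩
    exact hij (h2.symm.trans ((congrFun h4 ⟨[], Nat.zero_le _⟩).symm.trans h3))

theorem pat_succ (d : ℕ) {k : ℕ} (M : Matrix (Fin k) (Fin k) ℕ) (n : ℕ) (r : Fin k) :
    (Pat d M (n + 1) (· = r)).ncard = (Pat d M n (fun a => M r a = 1)).ncard ^ d := by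
  let Φ : ({g : List (Fin d) // g.length ≤ n + 1} → Fin k) →
      Fin d → {g : List (Fin d) // g.length ≤ n} → Fin k :=
    fun f i g => f ⟨i :: g.1, by simpa using g.2⟩
  have inj : Set.InjOn Φ (Pat d M (n + 1) (· = r)) := by
    rintro _ ⟨t, ⟨-, h1⟩, rfl⟩ _ ⟨u, ⟨-, h2⟩, rfl⟩ h
    funext g
    rcases g with ⟨_ | ⟨i, g⟩, hg⟩
    · exact h1.trans h2.symm
    · exact congrFun (congrFun h i) ⟨g, by simpa using hg⟩
  have im : Φ '' Pat d M (n + 1) (· = r) =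
      Set.univ.pi fun _ => Pat d M n (fun a => M r a = 1) := by
    ext F
    constructor
    · rintro ⟨_, ⟨t, ⟨h1, h2⟩, rfl⟩, rfl⟩ i -
      exact ⟨fun g => t (i :: g), ⟨fun g j => h1 (i :: g) j, h2 ▸ h1 [] i⟩, rfl⟩
    · intro h
      choose u hu hF using fun i => h i (Set.mem_univ _)
      refine ⟨_, ⟨fun g => g.casesOn r fun i g => u i g, ⟨fun g j => ?_, rfl⟩, rfl⟩, ?_⟩
      · rcases g with _ | ⟨i, g⟩
        exacts [(hu j).2, (hu i).1 g j]
      · funext i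
        exact hF i
  rw [← inj.ncard_image, im, ← Nat.card_coe_set_eq, Nat.card_congr (Equiv.Set.univPi _),
    Nat.card_pi]
  simp

theorem pat_eq (d : ℕ) {k : ℕ} (M : Matrix (Fin k) (Fin k) ℕ) (hb : IsBinary M)
    (hr : ∀ r, ∃ j, M r j = 1) : ∀ n r, (Pat d M n (· = r)).ncard = ys d M n r
  | 0, r => by
    obtain ⟨t, h1, h2⟩ := exists_point d M hr r
    rw [ys, Set.ncard_eq_one]
    refine ⟨fun _ => r, Set.eq_singleton_iff_unique_mem.2 ⟨⟨t, ⟨h1, h2⟩, ?_⟩, ?_⟩⟩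
    · funext g
      have : g.1 = [] := List.length_eq_zero_iff.1 (Nat.le_zero.1 g.2)
      simp [this, h2]
    · rintro _ ⟨u, ⟨-, h3⟩, rfl⟩
      funext g
      have : g.1 = [] := List.length_eq_zero_iff.1 (Nat.le_zero.1 g.2)
      simpa [this] using h3
  | n + 1, r => by
    rw [pat_succ, pat_fiber, ys]
    congr 1
    refine sum_congr rfl fun j _ => ?_
    rw [pat_eq d M hb hr n j]
    rcases hb r j with h | h <;> simp [h]

theorem blocks_eq (d : ℕ) {k : ℕ} (M : Matrix (Fin k) (Fin k) ℕ) (hb : IsBinary M)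
    (hr : ∀ r, ∃ j, M r j = 1) (n : ℕ) : blocks d M n = ∑ r, ys d M n r := by
  have : blocks d M n = (Pat d M n fun _ => True).ncard := by simp [blocks, Pat]
  rw [this, pat_fiber]
  simp [pat_eq d M hb hr]

theorem ys_pos (d : ℕ) {k : ℕ} (M : Matrix (Fin k) (Fin k) ℕ) (hr : ∀ r, ∃ j, M r j = 1) :
    ∀ n r, 0 < ys d M n r
  | 0, _ => Nat.one_pos
  | n + 1, r => by
    obtain ⟨j, hj⟩ := hr r
    exact pow_pos (sum_pos' (fun _ _ => Nat.zero_le _)
      ⟨j, mem_univ _, by rw [hj, one_mul]; exact ys_pos d M hr n j⟩) _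

theorem den_tendsto : Tendsto (fun n : ℕ => ((2 : ℝ) ^ (n + 1) - 1)⁻¹) atTop (𝓝 0) :=
  tendsto_inv_atTop_zero.comp (tendsto_atTop_add_const_right _ (-1)
    ((tendsto_pow_atTop_atTop_of_one_lt one_lt_two).comp (tendsto_add_atTop_nat 1)))

theorem seq_limit (p : ℕ → ℕ) (k : ℕ) (hk : 0 < k) (hp : ∀ n, 0 < p n)
    (h : ∀ n, p (n + 1) ≤ k * p n ^ 2) :
    ∃ L, Tendsto (fun n : ℕ => Real.log (p n) / ((2 : ℝ) ^ (n + 1) - 1)) atTop (𝓝 L) := by
  have k1 : (1 : ℝ) ≤ k := by exact_mod_cast hk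
  have p1 : ∀ n, (1 : ℝ) ≤ p n := fun n => by exact_mod_cast hp n
  have k0 := Real.log_nonneg k1
  have anti : Antitone fun n : ℕ => (Real.log k + Real.log (p n)) / 2 ^ (n + 1) := by
    refine antitone_nat_of_succ_le fun n => ?_
    have h1 : (p (n + 1) : ℝ) ≤ k * p n ^ 2 := by exact_mod_cast h n
    have h2 := Real.log_le_log (by linarith [p1 (n + 1)]) h1
    rw [Real.log_mul (by linarith) (by have := p1 n; positivity), Real.log_pow] at h2
    rw [div_le_div_iff₀ (by positivity) (by positivity), pow_succ _ (n + 1)]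
    have : (0 : ℝ) < 2 ^ (n + 1) := by positivity
    push_cast at h2
    nlinarith
  have lim := tendsto_atTop_ciInf anti ⟨0, by
    rintro _ ⟨n, rfl⟩
    have := Real.log_nonneg (p1 n)
    positivity⟩
  refine ⟨_, ((lim.mul (den_tendsto.const_add 1)).sub (den_tendsto.const_mul (Real.log k))).congr
    fun n => ?_⟩
  have h1 : (1 : ℝ) < 2 ^ (n + 1) := one_lt_pow₀ one_lt_two n.succ_ne_zero
  have h2 : (2 : ℝ) ^ (n + 1) - 1 ≠ 0 := by linarith
  field_simp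
  ring

theorem seq_compare (p q : ℕ → ℕ) (C : ℕ) (hp : ∀ n, 0 < p n) (hq : ∀ n, 0 < q n)
    (h1 : ∀ n, p (n + 1) ≤ C * q (n + 1)) (h2 : ∀ n, q (n + 1) ≤ C * p (n + 1)) (L : ℝ)
    (h : Tendsto (fun n : ℕ => Real.log (p n) / ((2 : ℝ) ^ (n + 1) - 1)) atTop (𝓝 L)) :
    Tendsto (fun n : ℕ => Real.log (q n) / ((2 : ℝ) ^ (n + 1) - 1)) atTop (𝓝 L) := by
  have key : ∀ a b : ℕ, 0 < a → 0 < b → a ≤ C * b → Real.log a ≤ Real.log C + Real.log b :=
    fun a b ha hb hab => by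
      have hC : 0 < C := Nat.pos_of_mul_pos_right (ha.trans_le hab)
      rw [← Real.log_mul (by positivity) (by positivity)]
      exact Real.log_le_log (by positivity) (by exact_mod_cast hab)
  have lo := h.sub (den_tendsto.const_mul (Real.log C))
  have hi := h.add (den_tendsto.const_mul (Real.log C))
  simp only [mul_zero, sub_zero, add_zero] at lo hi
  have pos : ∀ n : ℕ, (0 : ℝ) < 2 ^ (n + 1) - 1 := fun n =>
    sub_pos.2 (one_lt_pow₀ one_lt_two n.succ_ne_zero)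
  refine tendsto_of_tendsto_of_tendsto_of_le_of_le' lo hi ?_ ?_
  · filter_upwards [eventually_ge_atTop 1] with n hn
    obtain ⟨n, rfl⟩ := Nat.exists_eq_add_of_le' hn
    rw [← div_eq_mul_inv, ← sub_div]
    exact div_le_div_of_nonneg_right (by linarith [key _ _ (hp _) (hq _) (h1 n)]) (pos _).le
  · filter_upwards [eventually_ge_atTop 1] with n hn
    obtain ⟨n, rfl⟩ := Nat.exists_eq_add_of_le' hn
    rw [← div_eq_mul_inv, ← add_div]
    exact div_le_div_of_nonneg_right (by linarith [key _ _ (hq _) (hp _) (h2 n)]) (pos _).le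

/-- two matrices without zero rows whose block counts agree up to a factor -/
theorem same_entropy {k k' : ℕ} (M : Matrix (Fin k) (Fin k) ℕ) (N : Matrix (Fin k') (Fin k') ℕ)
    (hk : 0 < k) (hk' : 0 < k') (bM : IsBinary M) (bN : IsBinary N) (rM : ∀ r, ∃ j, M r j = 1)
    (rN : ∀ r, ∃ j, N r j = 1) (C : ℕ)
    (h1 : ∀ n, ∑ r, ys 2 M (n + 1) r ≤ C * ∑ r, ys 2 N (n + 1) r)
    (h2 : ∀ n, ∑ r, ys 2 N (n + 1) r ≤ C * ∑ r, ys 2 M (n + 1) r) :
    ∃ h, HasEntropy 2 M h ∧ HasEntropy 2 N h := by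
  have pM : ∀ n, 0 < ∑ r, ys 2 M n r := fun n =>
    sum_pos (fun r _ => ys_pos 2 M rM n r) ⟨⟨0, hk⟩, mem_univ _⟩
  have pN : ∀ n, 0 < ∑ r, ys 2 N n r := fun n =>
    sum_pos (fun r _ => ys_pos 2 N rN n r) ⟨⟨0, hk'⟩, mem_univ _⟩
  obtain ⟨L, hL⟩ := seq_limit (fun n => ∑ r, ys 2 M n r) k hk pM fun n => by
    refine (sum_le_card_nsmul _ _ ((∑ r, ys 2 M n r) ^ 2) fun r _ => ?_).trans (by simp)
    refine Nat.pow_le_pow_left (sum_le_sum fun j _ => ?_) 2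
    rcases bM r j with h | h <;> simp [h]
  have hL' := seq_compare _ (fun n => ∑ r, ys 2 N n r) C pM pN h1 h2 L hL
  obtain ⟨t, ht, -⟩ := exists_point 2 M rM ⟨0, hk⟩
  obtain ⟨u, hu, -⟩ := exists_point 2 N rN ⟨0, hk'⟩
  refine ⟨L, ⟨⟨t, ht⟩, hL.congr fun n => ?_⟩, ⟨u, hu⟩, hL'.congr fun n => ?_⟩
  · rw [blocks_eq 2 M bM rM]
    norm_num
  · rw [blocks_eq 2 N bN rN]
    norm_num

end Pool.Agent.MP_93dc40_an

end

section

namespace Pool.Agent.MP_93dc40_an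

open Finset

theorem glue {α β : Type} (g : α → List β) (T : Finset α) :
    ∃ l : List (α × β), (∀ w, w ∈ l ↔ w.1 ∈ T ∧ w.2 ∈ g w.1) ∧
      ∀ f : α × β → ℤ, (l.map f).sum = ∑ j ∈ T, ((g j).map fun b => f (j, b)).sum := by
  classical
  induction T using Finset.induction_on with
  | empty => exact ⟨[], by simp, by simp⟩
  | insert a T ha ih =>
    obtain ⟨l, l1, l2⟩ := ih
    refine ⟨(g a).map (Prod.mk a) ++ l, fun w => ?_, fun f => ?_⟩
    · rw [List.mem_append, l1, List.mem_map, mem_insert]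
      constructor
      · rintro (⟨b, hb, rfl⟩ | ⟨h1, h2⟩)
        exacts [⟨.inl rfl, hb⟩, ⟨.inr h1, h2⟩]
      · rintro ⟨h1 | h1, h2⟩
        exacts [.inl ⟨w.2, h1 ▸ h2, by rw [← h1]⟩, .inr ⟨h1, h2⟩]
    · rw [sum_insert ha, List.map_append, List.sum_append, l2, List.map_map]
      rfl

theorem split {α : Type} (T : Finset α) (hT : T.Nonempty) (n : ℕ) :
    ∃ a : α → ℕ, ∑ j ∈ T, a j = n ∧ ∀ j, a j ≤ n ∧ n ≤ T.card * a j + T.card := by
  classical
  obtain ⟨j0, h0⟩ := hT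
  have hc : 0 < T.card := card_pos.2 ⟨j0, h0⟩
  have h1 := Nat.div_add_mod n T.card
  have h2 := Nat.mod_lt n hc
  have h3 : n / T.card ≤ T.card * (n / T.card) := Nat.le_mul_of_pos_left _ hc
  refine ⟨fun j => n / T.card + if j = j0 then n % T.card else 0, ?_, fun j => ⟨?_, ?_⟩⟩
  · rw [sum_add_distrib]
    simp [h0, h1]
  · dsimp only
    split_ifs <;> omega
  · rw [mul_add]
    omega

theorem quad_sum (s x e : ℤ) : ∀ l : List (ℤ × ℤ),
    (l.map fun b => (b.1 * x + (s * b.2 - b.1) * e) ^ 2).sum =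
      (x - e) ^ 2 * (l.map fun b => b.1 ^ 2).sum +
        2 * (x - e) * s * e * (l.map fun b => b.2 * b.1).sum +
          s ^ 2 * e ^ 2 * (l.map fun b => b.2 ^ 2).sum
  | [] => by simp
  | b :: l => by
    simp only [List.map_cons, List.sum_cons, quad_sum s x e l]
    ring

/-- the admissible pairs `(m, ε)` -/
def Ok (K ρ : ℤ) (b : ℤ × ℤ) : Prop := ρ ≤ 2 * b.1 ∧ b.1 ≤ 4 * (K * ρ) ∧ -1 ≤ b.2 ∧ b.2 ≤ 2

/-- the children of one type -/
theorem children {α : Type} (s ρ K c W : ℤ) (G : ℕ) (hK : 1 ≤ K) (hW : 1 ≤ W) (hc : 1 ≤ c)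
    (s1 : ρ ^ 2 ≤ s) (s2 : s ≤ 4 * ρ ^ 2) (G1 : 400 * (K * G) ≤ ρ) (G2 : 5 * (K * ρ) ≤ W * G)
    (G3 : 2 * c + K + K + W ^ 2 + W + 10 ≤ G) (T : Finset α) (hT : T.Nonempty)
    (hTK : (T.card : ℤ) ≤ K) (b : ℤ × ℤ) (hb : Ok K ρ b) :
    ∃ l : List (α × ℤ × ℤ), (∀ w ∈ l, w.1 ∈ T ∧ Ok K ρ w.2) ∧ (∀ j ∈ T, ∃ w ∈ l, w.1 = j) ∧
      (l.map fun _ => (1 : ℤ)).sum = b.1 + c * b.2 ∧ ∀ (x : α → ℤ) (e : ℤ),
        (l.map fun w => (w.2.1 * x w.1 + (s * w.2.2 - w.2.1) * e) ^ 2).sum =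
          s * (b.1 * ∑ j ∈ T, (x j ^ 2 - e ^ 2) + s * (b.1 + c * b.2) * e ^ 2) := by
  obtain ⟨b1, b2, b3, b4⟩ := hb
  have c1 : c * (-1) ≤ c * b.2 := mul_le_mul_of_nonneg_left b3 (by omega)
  have c2 : c * b.2 ≤ c * 2 := mul_le_mul_of_nonneg_left b4 (by omega)
  have W2 : 0 < W ^ 2 := by positivity
  have KG : (G : ℤ) ≤ K * G := le_mul_of_one_le_left (by positivity) hK
  obtain ⟨n, hn⟩ := Int.eq_ofNat_of_zero_le (show 0 ≤ b.1 + c * b.2 by omega)
  obtain ⟨a, a1, a2⟩ := split T hT n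
  have := fun j => group s ρ b.1 K (2 * c + K) W G (a j) hK hW (by omega) s1 s2 G1 G2 G3 b1 b2
    (by
      have h1 : (n : ℤ) ≤ T.card * a j + T.card := by exact_mod_cast (a2 j).2
      have h2 : (T.card : ℤ) * a j ≤ K * a j := mul_le_mul_of_nonneg_right hTK (by positivity)
      omega)
    (by
      have := (a2 j).1
      omega)
  choose g g0 g1 g2 g3 g4 g5 using this
  obtain ⟨l, l1, l2⟩ := glue g T
  have a3 : ∑ j ∈ T, (a j : ℤ) = b.1 + c * b.2 := by rw [hn, ← a1]; push_cast; rfl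
  refine ⟨l, fun w hw => ⟨((l1 w).1 hw).1, g1 _ _ ((l1 w).1 hw).2⟩, fun j hj => ?_, ?_,
    fun x e => ?_⟩
  · obtain ⟨y, hy⟩ := List.exists_mem_of_ne_nil _ (g0 j)
    exact ⟨(j, y), (l1 _).2 ⟨hj, hy⟩, rfl⟩
  · rw [l2, ← a3]
    exact sum_congr rfl fun j _ => by simp [g2]
  · rw [l2, ← a3, mul_sum, mul_sum, sum_mul, ← sum_add_distrib, mul_sum]
    refine sum_congr rfl fun j _ => ?_
    dsimp only
    rw [quad_sum, g3, g4, g5]
    ring

theorem params (K c : ℕ) : ∃ D₀ : ℕ, ∀ D ≥ D₀, ∃ (s ρ K' W : ℤ) (G : ℕ), (K : ℤ) ≤ K' ∧ 1 ≤ K' ∧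
    1 ≤ W ∧ s = D - c ∧ ρ ^ 2 ≤ s ∧ s ≤ 4 * ρ ^ 2 ∧ 400 * (K' * G) ≤ ρ ∧ 5 * (K' * ρ) ≤ W * G ∧
    2 * (c : ℤ) + K' + K' + W ^ 2 + W + 10 ≤ G ∧ (c : ℤ) ^ 2 ≤ D := by
  obtain ⟨K', hK⟩ : ∃ K', K' = K + 1 := ⟨_, rfl⟩
  obtain ⟨W, hW⟩ : ∃ W, W = 4000 * K' ^ 2 := ⟨_, rfl⟩
  obtain ⟨G0, hG⟩ : ∃ G0, G0 = 2 * c + K' + K' + W ^ 2 + W + 10 := ⟨_, rfl⟩
  refine ⟨c + c ^ 2 + (400 * K' * G0) ^ 2, fun D hD => ?_⟩
  obtain ⟨s, hs⟩ : ∃ s, D = s + c := ⟨D - c, by omega⟩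
  have K0 : 0 < 400 * K' := by omega
  have h1 : 400 * K' * G0 ≤ Nat.sqrt s := Nat.le_sqrt'.2 (by omega)
  have h2 : G0 ≤ Nat.sqrt s / (400 * K') := (Nat.le_div_iff_mul_le K0).2 (by rwa [mul_comm])
  have h3 := Nat.mul_div_le (Nat.sqrt s) (400 * K')
  have h4 := Nat.lt_mul_div_succ (Nat.sqrt s) K0
  have h5 := Nat.sqrt_le' s
  have h6 := Nat.lt_succ_sqrt' s
  have W1 : 1 ≤ W := by rw [hW, hK]; exact Nat.succ_le_of_lt (by positivity)
  generalize Nat.sqrt s / (400 * K') = G at h2 h3 h4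
  generalize Nat.sqrt s = ρ at h1 h3 h4 h5 h6
  have h7 : 1 ≤ ρ := by nlinarith
  have h8 : s ≤ 4 * ρ ^ 2 := by rw [Nat.succ_eq_add_one] at h6; nlinarith
  have h9 : ρ ≤ 800 * K' * G := by
    have : 400 * K' * 1 ≤ 400 * K' * G := Nat.mul_le_mul_left _ (by omega)
    nlinarith
  have h10 : 5 * (K' * ρ) ≤ W * G := by
    have := Nat.mul_le_mul_left K' h9
    rw [hW]
    nlinarith
  refine ⟨s, ρ, K', W, G, by omega, by omega, by omega, by omega, by exact_mod_cast h5,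
    by exact_mod_cast h8, by rw [← mul_assoc]; exact_mod_cast h3, by exact_mod_cast h10,
    by exact_mod_cast hG ▸ h2, by exact_mod_cast (show c ^ 2 ≤ D by omega)⟩

theorem sum_cmp {k k' : ℕ} (a : Fin k → ℕ) (b : Fin k' → ℕ) (C r : ℕ) (hr : k ≤ r)
    (h : ∀ i, ∃ j, a i ≤ C * b j) : ∑ i, a i ^ 2 ≤ r * C ^ 2 * ∑ j, b j ^ 2 := by
  refine (sum_le_card_nsmul _ _ (C ^ 2 * ∑ j, b j ^ 2) fun i _ => ?_).trans ?_
  · obtain ⟨j, hj⟩ := h i
    refine (Nat.pow_le_pow_left hj 2).trans ?_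
    rw [mul_pow]
    exact Nat.mul_le_mul_left _
      (single_le_sum (f := fun j => b j ^ 2) (fun _ _ => Nat.zero_le _) (mem_univ j))
  · rw [mul_assoc]
    simpa using Nat.mul_le_mul_right _ hr

theorem pow_step {k : ℕ} (A B : Matrix (Fin k) (Fin k) ℕ) (i j : Fin k) (h : 0 < (A * B) i j) :
    ∃ l, 0 < A i l ∧ 0 < B l j := by
  rw [Matrix.mul_apply] at h
  obtain ⟨l, -, hl⟩ := exists_ne_zero_of_sum_ne_zero h.ne'
  exact ⟨l, Nat.pos_of_ne_zero (left_ne_zero_of_mul hl), Nat.pos_of_ne_zero (right_ne_zero_of_mul hl)⟩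

theorem main (K c : ℕ) (hc : 1 ≤ c) : ∃ D₀ : ℕ, ∀ D ≥ D₀,
    ∀ (k : ℕ) (M : Matrix (Fin k) (Fin k) ℕ) (U : Finset (Fin k)), IsBinary M → U.Nonempty →
      (∀ i ∈ U, ∀ j ∈ U, ∃ n, 1 ≤ n ∧ 0 < (M ^ n) i j) →
      (∀ i ∈ U, ∑ j, M i j = D ∧ ∑ j ∈ U, M i j ≤ K) →
      (∀ i ∉ U, ∑ j, M i j = c ∧ ∀ j ∈ U, M i j = 0) →
      ∃ (k' : ℕ) (N : Matrix (Fin k') (Fin k') ℕ) (h : ℝ),
        IsBinary N ∧ IsIrred N ∧ HasEntropy 2 M h ∧ HasEntropy 2 N h := by
  classical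
  obtain ⟨D₀, hD₀⟩ := params K c
  refine ⟨D₀, fun D hD k M U bM hU irr top low => ?_⟩
  obtain ⟨s, ρ, K', W, G, K1, K2, W1, hs, s1, s2, G1, G2, G3, cD⟩ := hD₀ D hD
  have c1 : (1 : ℤ) ≤ c := by exact_mod_cast hc
  have W2 : 0 < W ^ 2 := by positivity
  have KG : (G : ℤ) ≤ K' * G := le_mul_of_one_le_left (by positivity) K2
  have ρ1 : 1 ≤ ρ := by omega
  have Kρ : ρ ≤ K' * ρ := le_mul_of_one_le_left (by omega) K2
  have ρ2 : ρ ≤ s := (le_self_pow₀ ρ1 two_ne_zero).trans s1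
  have one : ∀ i j, 0 < M i j → M i j = 1 := fun i j h => (bM i j).resolve_left h.ne'
  have back : ∀ l, ∀ j ∈ U, 0 < M l j → l ∈ U := fun l j hj h => by
    by_contra hl
    exact h.ne' ((low l hl).2 j hj)
  have up : ∀ n l, ∀ j ∈ U, 0 < (M ^ n) l j → l ∈ U := fun n => by
    induction n with
    | zero =>
      intro l j hj h
      rw [pow_zero, Matrix.one_apply] at h
      split_ifs at h with h'
      exacts [h' ▸ hj, absurd h (lt_irrefl 0)]
    | succ n ih =>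
      intro l j hj h
      rw [pow_succ] at h
      obtain ⟨a, h1, h2⟩ := pow_step _ _ _ _ h
      exact ih l a (back a j hj h2) h1
  let T : Fin k → Finset (Fin k) := fun i => U.filter fun j => M i j = 1
  have Tne : ∀ i ∈ U, (T i).Nonempty := fun i hi => by
    obtain ⟨n, n1, hn⟩ := irr i hi i hi
    obtain ⟨n, rfl⟩ := Nat.exists_eq_add_of_le' n1
    rw [pow_succ'] at hn
    obtain ⟨a, h1, h2⟩ := pow_step _ _ _ _ hn
    exact ⟨a, mem_filter.2 ⟨up n a i hi h2, one _ _ h1⟩⟩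
  have TK : ∀ i ∈ U, ((T i).card : ℤ) ≤ K' := fun i hi => by
    have : (T i).card ≤ K := by
      rw [card_filter]
      refine le_trans (sum_le_sum fun j _ => ?_) (top i hi).2
      split_ifs <;> omega
    omega
  have rM : ∀ r, ∃ j, M r j = 1 := fun r => by
    by_cases hr : r ∈ U
    · obtain ⟨j, hj⟩ := Tne r hr
      exact ⟨j, (mem_filter.1 hj).2⟩
    · obtain ⟨j, -, hj⟩ := exists_ne_zero_of_sum_ne_zero (s := univ) (f := fun j => M r j)
        (by rw [(low r hr).1]; omega)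
      exact ⟨j, (bM r j).resolve_left hj⟩
  obtain ⟨X, hX⟩ : ∃ X : ℕ → Fin k → ℕ, ∀ n r, X n r = ∑ j, M r j * ys 2 M n j := ⟨_, fun _ _ => rfl⟩
  have X0 : ∀ r, X 0 r = ∑ j, M r j := fun r => by simp [hX, ys]
  have Xs : ∀ n r, X (n + 1) r = ∑ j, M r j * X n j ^ 2 := fun n r => by simp only [hX, ys]
  obtain ⟨e, e0, es⟩ : ∃ e : ℕ → ℕ, e 0 = c ∧ ∀ n, e (n + 1) = c * e n ^ 2 :=
    ⟨fun n => Nat.rec c (fun _ a => c * a ^ 2) n, rfl, fun _ => rfl⟩
  have Xlow : ∀ n, ∀ r ∉ U, X n r = e n := fun n => by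
    induction n with
    | zero => exact fun r hr => by rw [X0, e0, (low r hr).1]
    | succ n ih =>
      intro r hr
      rw [Xs, es, ← (low r hr).1, sum_mul]
      refine sum_congr rfl fun j _ => ?_
      by_cases hj : j ∈ U
      · simp [(low r hr).2 j hj]
      · rw [ih j hj]
  have Xtop : ∀ n, ∀ i ∈ U, (X (n + 1) i : ℤ) =
      ∑ j ∈ T i, ((X n j : ℤ) ^ 2 - (e n : ℤ) ^ 2) + D * (e n : ℤ) ^ 2 := fun n i hi => by
    have : T i = univ.filter fun j => j ∈ U ∧ M i j = 1 := by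
      ext j
      simp [T]
    rw [Xs, ← (top i hi).1, this, sum_filter]
    push_cast
    rw [sum_mul, ← sum_add_distrib]
    refine sum_congr rfl fun j _ => ?_
    by_cases hj : j ∈ U
    · rcases bM i j with h | h <;> simp [h, hj]
    · simp [hj, Xlow n j hj]
  have cmp : ∀ n, ∀ i ∈ U, D * e n ≤ c * X n i := fun n => by
    induction n with
    | zero => exact fun i hi => by rw [X0, e0, (top i hi).1, mul_comm]
    | succ n ih =>
      intro i hi
      obtain ⟨j, hj⟩ := Tne i hi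
      obtain ⟨j1, j2⟩ := mem_filter.1 hj
      have h1 : M i j * X n j ^ 2 ≤ X (n + 1) i := by
        rw [Xs]
        exact single_le_sum (f := fun j => M i j * X n j ^ 2) (fun _ _ => Nat.zero_le _) (mem_univ j)
      rw [j2, one_mul] at h1
      have h2 := Nat.pow_le_pow_left (ih j j1) 2
      have h3 : c ^ 2 * X n j ^ 2 ≤ D * X n j ^ 2 := Nat.mul_le_mul_right _ (by exact_mod_cast cD)
      have h4 : D * e n ^ 2 ≤ X n j ^ 2 :=
        Nat.le_of_mul_le_mul_left (c := D) (by nlinarith) (by omega)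
      rw [es, mul_left_comm]
      exact Nat.mul_le_mul_left _ (h4.trans h1)
  let S : Finset (Fin k × ℤ × ℤ) :=
    (U ×ˢ Icc 0 (4 * (K' * ρ)) ×ˢ Icc (-1) 2).filter fun v => Ok K' ρ v.2
  have memS : ∀ v, v ∈ S ↔ v.1 ∈ U ∧ Ok K' ρ v.2 := fun v => by
    simp only [S, mem_filter, mem_product, mem_Icc]
    exact ⟨fun h => ⟨h.1.1, h.2⟩, fun h => ⟨⟨h.1, ⟨by have := h.2.1; omega, h.2.2.1⟩, h.2.2.2⟩, h.2⟩⟩
  have := fun (v : Fin k × ℤ × ℤ) (hv : v ∈ S) => children s ρ K' c W G K2 W1 c1 s1 s2 G1 G2 G3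
    (T v.1) (Tne _ ((memS v).1 hv).1) (TK _ ((memS v).1 hv).1) v.2 ((memS v).1 hv).2
  choose! ℓ l1 l2 l3 l4 using this
  obtain ⟨i0, hi0⟩ := hU
  obtain ⟨k', N, π, k0, bN, iN, πS, πc, πs⟩ := realize S
    ⟨(i0, ρ, 0), (memS _).2 ⟨hi0, by dsimp only; omega, by dsimp only; omega, by simp, by simp⟩⟩ ℓ
    (fun v hv => by
      obtain ⟨j, hj⟩ := Tne _ ((memS v).1 hv).1
      obtain ⟨w, hw, -⟩ := l2 v hv j hj
      exact List.ne_nil_of_mem hw)
    (fun v hv w hw => (memS w).2 ⟨(mem_filter.1 (l1 v hv w hw).1).1, (l1 v hv w hw).2⟩)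
  have πU : ∀ v, (π v).1 ∈ U := fun v => ((memS _).1 (πS v)).1
  have nxt : ∀ v, ∀ j ∈ T (π v).1, ∃ w, N v w = 1 ∧ (π w).1 = j := fun v j hj => by
    obtain ⟨y, hy, rfl⟩ := l2 _ (πS v) j hj
    obtain ⟨w, h1, rfl⟩ := πc v y hy
    exact ⟨w, h1, rfl⟩
  have rN : ∀ v, ∃ w, N v w = 1 := fun v => by
    obtain ⟨j, hj⟩ := Tne _ (πU v)
    obtain ⟨w, hw, -⟩ := nxt v j hj
    exact ⟨w, hw⟩
  have onto : ∀ j ∈ U, ∃ w, (π w).1 = j := by
    have : ∀ n, ∀ j ∈ U, 0 < (M ^ n) (π ⟨0, k0⟩).1 j → ∃ w, (π w).1 = j := fun n => by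
      induction n with
      | zero =>
        intro j hj h
        rw [pow_zero, Matrix.one_apply] at h
        split_ifs at h with h'
        exacts [⟨_, h'⟩, absurd h (lt_irrefl 0)]
      | succ n ih =>
        intro j hj h
        rw [pow_succ] at h
        obtain ⟨a, h1, h2⟩ := pow_step _ _ _ _ h
        obtain ⟨v, rfl⟩ := ih a (back a j hj h2) h1
        obtain ⟨w, -, hw⟩ := nxt v j (mem_filter.2 ⟨hj, one _ _ h2⟩)
        exact ⟨w, hw⟩
    intro j hj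
    obtain ⟨n, -, hn⟩ := irr _ (πU ⟨0, k0⟩) j hj
    exact this n j hj hn
  obtain ⟨Q, hQ⟩ : ∃ Q : ℕ → Fin k' → ℕ, ∀ n r, Q n r = ∑ j, N r j * ys 2 N n j :=
    ⟨_, fun _ _ => rfl⟩
  have inv : ∀ n v, s * Q n v =
      (π v).2.1 * X n (π v).1 + (s * (π v).2.2 - (π v).2.1) * e n := fun n => by
    induction n with
    | zero =>
      intro v
      have h := (πs v fun _ => 1).trans (l3 _ (πS v))
      have h' : (Q 0 v : ℤ) = ∑ j, (N v j : ℤ) * 1 := by simp [hQ, ys]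
      rw [h', h, X0, e0, (top _ (πU v)).1, hs]
      ring
    | succ n ih =>
      intro v
      have h := (πs v _).trans (l4 _ (πS v) (fun j => X n j) (e n))
      have h' : (Q (n + 1) v : ℤ) = ∑ j, (N v j : ℤ) * (Q n j : ℤ) ^ 2 := by
        simp only [hQ, ys]
        push_cast
        rfl
      simp only [← ih] at h
      refine mul_left_cancel₀ (show s ≠ 0 by omega) ?_
      rw [Xtop n _ (πU v), es, h', mul_sum, mul_sum]
      refine (sum_congr rfl fun j _ => by ring).trans (h.trans ?_)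
      have hD' : (D : ℤ) = s + c := by omega
      rw [hD']
      push_cast
      ring
  obtain ⟨C, hC⟩ := Int.eq_ofNat_of_zero_le (show 0 ≤ 4 * (K' * ρ) + 2 * s by omega)
  have eX : ∀ n, ∀ i ∈ U, 2 * e n ≤ X n i := fun n i hi => by
    have h1 : 2 * c * e n ≤ D * e n := Nat.mul_le_mul_right _ (by omega)
    exact Nat.le_of_mul_le_mul_left (c := c) (by nlinarith [cmp n i hi]) hc
  have bnd : ∀ n v, X n (π v).1 ≤ C * Q n v ∧ Q n v ≤ C * X n (π v).1 := fun n v => by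
    obtain ⟨b1, b2, b3, b4⟩ := ((memS _).1 (πS v)).2
    have h1 := inv n v
    have h2 : (D : ℤ) * e n ≤ c * X n (π v).1 := by exact_mod_cast cmp n _ (πU v)
    have h3 : 2 * (e n : ℤ) ≤ X n (π v).1 := by exact_mod_cast eX n _ (πU v)
    zify
    rw [← hC]
    have q0 : (0 : ℤ) ≤ Q n v := by positivity
    have e0 : (0 : ℤ) ≤ e n := by positivity
    generalize (Q n v : ℤ) = q at *
    generalize (e n : ℤ) = ε at *
    generalize (X n (π v).1 : ℤ) = x at *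
    generalize (π v).2.1 = m at *
    generalize (π v).2.2 = η at *
    have se : 0 ≤ s * ε := mul_nonneg (by omega) e0
    have a1 : s * ε * (-1) ≤ s * ε * η := mul_le_mul_of_nonneg_left b3 se
    have a2 : s * ε * η ≤ s * ε * 2 := mul_le_mul_of_nonneg_left b4 se
    have a3 : s * ε ≤ D * ε := mul_le_mul_of_nonneg_right (by omega) e0
    have a4 : m * (2 * ε) ≤ m * x := mul_le_mul_of_nonneg_left h3 (by omega)
    have a5 : (2 * c + 2) * x ≤ m * x := mul_le_mul_of_nonneg_right (by omega) (by omega)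
    have a6 : s * q ≤ (4 * (K' * ρ) + 2 * s) * q := mul_le_mul_of_nonneg_right (by omega) q0
    have a7 : 1 * q ≤ s * q := mul_le_mul_of_nonneg_right (by omega) q0
    have a8 : m * x ≤ 4 * (K' * ρ) * x := mul_le_mul_of_nonneg_right b2 (by omega)
    have a9 : s * ε ≤ s * x := mul_le_mul_of_nonneg_left (by omega) (by omega)
    have a10 : 0 ≤ m * ε := mul_nonneg (by omega) e0
    constructor <;> linarith
  obtain ⟨h, h1, h2⟩ := same_entropy M N (Fin.pos i0) k0 bM bN rM rN ((k + k') * C ^ 2)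
    (fun n => by
      simp only [ys, ← hX, ← hQ]
      refine sum_cmp _ _ C _ (by omega) fun r => ?_
      by_cases hr : r ∈ U
      · obtain ⟨w, rfl⟩ := onto r hr
        exact ⟨w, (bnd n w).1⟩
      · refine ⟨⟨0, k0⟩, le_trans ?_ (bnd n _).1⟩
        have := eX n _ (πU ⟨0, k0⟩)
        rw [Xlow n r hr]
        omega)
    (fun n => by
      simp only [ys, ← hX, ← hQ]
      exact sum_cmp _ _ C _ (by omega) fun v => ⟨_, (bnd n v).2⟩)
  exact ⟨k', N, h, bN, iN, h1, h2⟩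

end Pool.Agent.MP_93dc40_an

end
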