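import Pool.Agent.Mg.F93dc40.G3c607e
import Mathlib

section

namespace Pool.Agent.MP_93dc40_an

open Finset Filter Topology

/-- `d`-th roots of the numbers `ys d` -/
def rtd (d : ℕ) {k : ℕ} (M : Matrix (Fin k) (Fin k) ℕ) : ℕ → Fin k → ℕ
  | 0, _ => 1
  | n + 1, r => ∑ j, M r j * rtd d M n j ^ d

theorem ys_rtd (d : ℕ) {k : ℕ} (M : Matrix (Fin k) (Fin k) ℕ) : ∀ n r, ys d M n r = rtd d M n r ^ d
  | 0, _ => by simp [ys, rtd]
  | n + 1, r => by simp only [ys, rtd, ys_rtd d M n]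

theorem den_tendsto' {D : ℝ} (hD : 1 < D) :
    Tendsto (fun n : ℕ => (D ^ (n + 1) - 1)⁻¹) atTop (𝓝 0) :=
  tendsto_inv_atTop_zero.comp (tendsto_atTop_add_const_right _ (-1)
    ((tendsto_pow_atTop_atTop_of_one_lt hD).comp (tendsto_add_atTop_nat 1)))

theorem seq_limit' (d : ℕ) (hd : 2 ≤ d) (p : ℕ → ℕ) (k : ℕ) (hk : 0 < k) (hp : ∀ n, 0 < p n)
    (h : ∀ n, p (n + 1) ≤ k * p n ^ d) :
    ∃ L, Tendsto (fun n : ℕ => Real.log (p n) / ((d : ℝ) ^ (n + 1) - 1)) atTop (𝓝 L) := by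
  have k1 : (1 : ℝ) ≤ k := by exact_mod_cast hk
  have d2 : (2 : ℝ) ≤ d := by exact_mod_cast hd
  have p1 : ∀ n, (1 : ℝ) ≤ p n := fun n => by exact_mod_cast hp n
  have k0 := Real.log_nonneg k1
  have anti : Antitone fun n : ℕ => (Real.log k + Real.log (p n)) / (d : ℝ) ^ (n + 1) := by
    refine antitone_nat_of_succ_le fun n => ?_
    have h1 : (p (n + 1) : ℝ) ≤ k * p n ^ d := by exact_mod_cast h n
    have h2 := Real.log_le_log (by linarith [p1 (n + 1)]) h1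
    rw [Real.log_mul (by linarith) (by have := p1 n; positivity), Real.log_pow] at h2
    rw [pow_succ' _ (n + 1), ← div_div]
    refine div_le_div_of_nonneg_right ?_ (by positivity)
    rw [div_le_iff₀ (by positivity)]
    nlinarith
  have lim := tendsto_atTop_ciInf anti ⟨0, by
    rintro _ ⟨n, rfl⟩
    have := Real.log_nonneg (p1 n)
    positivity⟩
  have den := den_tendsto' (show (1 : ℝ) < d by linarith)
  refine ⟨_, ((lim.mul (den.const_add 1)).sub (den.const_mul (Real.log k))).congr fun n => ?_⟩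
  have h1 : (1 : ℝ) < (d : ℝ) ^ (n + 1) := one_lt_pow₀ (by linarith) n.succ_ne_zero
  have h2 : (d : ℝ) ^ (n + 1) - 1 ≠ 0 := by linarith
  field_simp
  ring

theorem seq_compare' {D : ℝ} (hD : 1 < D) (p q : ℕ → ℕ) (C m : ℕ) (hp : ∀ n, 0 < p n)
    (hq : ∀ n, 0 < q n) (h1 : ∀ n ≥ m, p n ≤ C * q n) (h2 : ∀ n ≥ m, q n ≤ C * p n) (L : ℝ)
    (h : Tendsto (fun n : ℕ => Real.log (p n) / (D ^ (n + 1) - 1)) atTop (𝓝 L)) :
    Tendsto (fun n : ℕ => Real.log (q n) / (D ^ (n + 1) - 1)) atTop (𝓝 L) := by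
  have key : ∀ a b : ℕ, 0 < a → 0 < b → a ≤ C * b → Real.log a ≤ Real.log C + Real.log b :=
    fun a b ha hb hab => by
      have hC : 0 < C := Nat.pos_of_mul_pos_right (ha.trans_le hab)
      rw [← Real.log_mul (by positivity) (by positivity)]
      exact Real.log_le_log (by positivity) (by exact_mod_cast hab)
  have lo := h.sub ((den_tendsto' hD).const_mul (Real.log C))
  have hi := h.add ((den_tendsto' hD).const_mul (Real.log C))
  simp only [mul_zero, sub_zero, add_zero] at lo hi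
  have pos : ∀ n : ℕ, (0 : ℝ) < D ^ (n + 1) - 1 := fun n =>
    sub_pos.2 (one_lt_pow₀ hD n.succ_ne_zero)
  refine tendsto_of_tendsto_of_tendsto_of_le_of_le' lo hi ?_ ?_
  · filter_upwards [eventually_ge_atTop m] with n hn
    rw [← div_eq_mul_inv, ← sub_div]
    exact div_le_div_of_nonneg_right (by linarith [key _ _ (hp _) (hq _) (h1 n hn)]) (pos _).le
  · filter_upwards [eventually_ge_atTop m] with n hn
    rw [← div_eq_mul_inv, ← add_div]
    exact div_le_div_of_nonneg_right (by linarith [key _ _ (hq _) (hp _) (h2 n hn)]) (pos _).le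

theorem sum_cmp' {k k' : ℕ} (d : ℕ) (a : Fin k → ℕ) (b : Fin k' → ℕ) (C r : ℕ) (hr : k ≤ r)
    (h : ∀ i, ∃ j, a i ≤ C * b j) : ∑ i, a i ^ d ≤ r * C ^ d * ∑ j, b j ^ d := by
  refine (sum_le_card_nsmul _ _ (C ^ d * ∑ j, b j ^ d) fun i _ => ?_).trans ?_
  · obtain ⟨j, hj⟩ := h i
    refine (Nat.pow_le_pow_left hj d).trans ?_
    rw [mul_pow]
    exact Nat.mul_le_mul_left _
      (single_le_sum (f := fun j => b j ^ d) (fun _ _ => Nat.zero_le _) (mem_univ j))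
  · rw [mul_assoc]
    simpa using Nat.mul_le_mul_right _ hr

theorem same_entropy' (d : ℕ) (hd : 2 ≤ d) {k k' : ℕ} (M : Matrix (Fin k) (Fin k) ℕ)
    (N : Matrix (Fin k') (Fin k') ℕ) (hk : 0 < k) (hk' : 0 < k') (bM : IsBinary M) (bN : IsBinary N)
    (rM : ∀ r, ∃ j, M r j = 1) (rN : ∀ r, ∃ j, N r j = 1) (C m : ℕ)
    (h1 : ∀ n ≥ m, ∀ i, ∃ j, rtd d M n i ≤ C * rtd d N n j)
    (h2 : ∀ n ≥ m, ∀ j, ∃ i, rtd d N n j ≤ C * rtd d M n i) :
    ∃ h, HasEntropy d M h ∧ HasEntropy d N h := by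
  have pM : ∀ n, 0 < ∑ r, ys d M n r := fun n =>
    sum_pos (fun r _ => ys_pos d M rM n r) ⟨⟨0, hk⟩, mem_univ _⟩
  have pN : ∀ n, 0 < ∑ r, ys d N n r := fun n =>
    sum_pos (fun r _ => ys_pos d N rN n r) ⟨⟨0, hk'⟩, mem_univ _⟩
  obtain ⟨L, hL⟩ := seq_limit' d hd (fun n => ∑ r, ys d M n r) k hk pM fun n => by
    refine (sum_le_card_nsmul _ _ ((∑ r, ys d M n r) ^ d) fun r _ => ?_).trans (by simp)
    refine Nat.pow_le_pow_left (sum_le_sum fun j _ => ?_) d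
    rcases bM r j with h | h <;> simp [h]
  have hL' := seq_compare' (by exact_mod_cast hd) _ (fun n => ∑ r, ys d N n r) ((k + k') * C ^ d) m
    pM pN (fun n hn => by simpa only [ys_rtd] using sum_cmp' d _ _ C _ (by omega) (h1 n hn))
    (fun n hn => by simpa only [ys_rtd] using sum_cmp' d _ _ C _ (by omega) (h2 n hn)) L hL
  obtain ⟨t, ht, -⟩ := exists_point d M rM ⟨0, hk⟩
  obtain ⟨u, hu, -⟩ := exists_point d N rN ⟨0, hk'⟩
  refine ⟨L * (d - 1), ⟨⟨t, ht⟩, (hL.mul_const _).congr fun n => ?_⟩, ⟨u, hu⟩,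
    (hL'.mul_const _).congr fun n => ?_⟩
  · rw [blocks_eq d M bM rM, div_div_eq_mul_div, div_mul_eq_mul_div]
  · rw [blocks_eq d N bN rN, div_div_eq_mul_div, div_mul_eq_mul_div]

/-- a weighted system of types with a positive orbit -/
structure Sys (d : ℕ) {α : Type} (S : Finset α) (W : α → α → ℚ) (g : ℕ → α → ℚ) : Prop where
  ne : S.Nonempty
  nn : ∀ v w, 0 ≤ W v w
  pos : ∀ n, ∀ v ∈ S, 0 < g n v
  step : ∀ n, ∀ v ∈ S, g (n + 1) v = ∑ w ∈ S, W v w * g n w ^ d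

theorem Sys.kid {d : ℕ} {α : Type} {S : Finset α} {W : α → α → ℚ} {g : ℕ → α → ℚ}
    (h : Sys d S W g) (v : α) (hv : v ∈ S) : ∃ w ∈ S, 0 < W v w := by
  obtain ⟨w, h1, h2⟩ := exists_ne_zero_of_sum_ne_zero ((h.step 0 v hv).symm.trans_ne (h.pos 1 v hv).ne')
  exact ⟨w, h1, (h.nn v w).lt_of_ne' (left_ne_zero_of_mul h2)⟩

theorem nat_bound' {α : Type} (S : Finset α) (f : α → ℚ) : ∃ C : ℕ, 2 ≤ C ∧ ∀ x ∈ S, f x ≤ C := by
  obtain ⟨C, hC⟩ := exists_nat_ge (∑ x ∈ S, |f x|)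
  refine ⟨C + 2, by omega, fun x hx => ?_⟩
  have := single_le_sum (f := fun x => |f x|) (fun _ _ => abs_nonneg _) hx
  push_cast
  linarith [le_abs_self (f x)]

/-- one step back in time -/
theorem Sys.back {d : ℕ} (hd : 1 ≤ d) {α : Type} {S : Finset α} {W : α → α → ℚ} {g : ℕ → α → ℚ}
    (h : Sys d S W g) : ∃ (W' : α × Bool → α × Bool → ℚ) (g' : ℕ → α × Bool → ℚ),
      Sys d (S ×ˢ univ) W' g' ∧ ∀ n v, g' (n + 1) v = g n v.1 := by
  obtain ⟨ρ, hρ⟩ : ∃ ρ : α → ℚ, ∀ v, ρ v = g 0 v / ∑ w ∈ S, W v w := ⟨_, fun _ => rfl⟩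
  have s0 : ∀ v ∈ S, 0 < ∑ w ∈ S, W v w := fun v hv =>
    sum_pos' (fun w _ => h.nn v w) (h.kid v hv)
  have ρ0 : ∀ v ∈ S, 0 < ρ v := fun v hv => hρ v ▸ div_pos (h.pos 0 v hv) (s0 v hv)
  obtain ⟨C, c2, hC⟩ := nat_bound' S fun v => ρ v + (ρ v)⁻¹
  have c2' : (2 : ℚ) ≤ C := by exact_mod_cast c2
  have c3 : (C : ℚ) ≤ (C : ℚ) ^ d := le_self_pow₀ (by linarith) (by omega)
  have c4 : ((C : ℚ)⁻¹) ^ d ≤ (C : ℚ)⁻¹ := by
    rw [inv_pow]
    exact inv_anti₀ (by linarith) c3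
  have c5 : (C : ℚ)⁻¹ < 1 := inv_lt_one_of_one_lt₀ (by linarith)
  have c6 : 0 < (C : ℚ) ^ d - ((C : ℚ)⁻¹) ^ d := by linarith
  obtain ⟨θ, hθ⟩ : ∃ θ : α → ℚ, ∀ v, θ v =
    (ρ v - ((C : ℚ)⁻¹) ^ d) / ((C : ℚ) ^ d - ((C : ℚ)⁻¹) ^ d) := ⟨_, fun _ => rfl⟩
  have θ0 : ∀ v ∈ S, 0 ≤ θ v ∧ θ v ≤ 1 := fun v hv => by
    have h1 := hC v hv
    have h2 := ρ0 v hv
    have h3 := inv_pos.2 h2
    have h4 : (C : ℚ)⁻¹ ≤ ρ v := inv_le_of_inv_le₀ h2 (by linarith)
    rw [hθ, div_le_one c6]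
    exact ⟨div_nonneg (by linarith) c6.le, by linarith⟩
  refine ⟨fun v w => W v.1 w.1 * |if w.2 then θ v.1 else 1 - θ v.1|,
    fun n v => n.casesOn (if v.2 then (C : ℚ) else (C : ℚ)⁻¹) fun n => g n v.1,
    ⟨h.ne.product univ_nonempty, fun v w => mul_nonneg (h.nn _ _) (abs_nonneg _), fun n v hv => ?_,
      fun n v hv => ?_⟩, fun _ _ => rfl⟩
  · rcases n with _ | n
    · simp only [Nat.rec_zero]
      split_ifs <;> positivity
    · exact h.pos n _ (mem_product.1 hv).1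
  · have hv' := (mem_product.1 hv).1
    obtain ⟨t1, t2⟩ := θ0 _ hv'
    simp only [sum_product, Fintype.sum_bool, if_true, Bool.false_eq_true, if_false,
      abs_of_nonneg t1, abs_of_nonneg (sub_nonneg.2 t2)]
    rcases n with _ | n
    · have : θ v.1 * (C : ℚ) ^ d + (1 - θ v.1) * ((C : ℚ)⁻¹) ^ d = ρ v.1 := by
        have := div_mul_cancel₀ (ρ v.1 - ((C : ℚ)⁻¹) ^ d) c6.ne'
        rw [← hθ] at this
        linear_combination this
      simp only [Nat.rec_zero, mul_assoc, ← mul_add, this, ← sum_mul]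
      rw [hρ, mul_div_cancel₀ _ (s0 _ hv').ne']
    · rw [h.step n _ hv']
      exact sum_congr rfl fun w _ => by dsimp only; ring

theorem Sys.backs {d : ℕ} (hd : 1 ≤ d) {α : Type} {S : Finset α} {W : α → α → ℚ} {g : ℕ → α → ℚ}
    (h : Sys d S W g) : ∀ m : ℕ, ∃ (β : Type) (S' : Finset β) (W' : β → β → ℚ) (g' : ℕ → β → ℚ)
      (π : β → α), Sys d S' W' g' ∧ (∀ v ∈ S', π v ∈ S) ∧ ∀ n v, g' (n + m) v = g n (π v)
  | 0 => ⟨α, S, W, g, id, h, fun _ h => h, fun _ _ => rfl⟩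
  | m + 1 => by
    obtain ⟨β, S', W', g', π, h1, h2, h3⟩ := h.backs hd m
    obtain ⟨W'', g'', h4, h5⟩ := h1.back hd
    exact ⟨_, _, W'', g'', fun v => π v.1, h4, fun v hv => h2 _ (mem_product.1 hv).1,
      fun n v => (h5 (n + m) v).trans (h3 n _)⟩

/-- the scaling factors -/
def sc (d L : ℕ) : ℕ → ℕ
  | 0 => 1
  | n + 1 => L * sc d L n ^ d

theorem Sys.sim {d : ℕ} {α : Type} {S : Finset α} {W : α → α → ℚ} {g : ℕ → α → ℚ}
    (h : Sys d S W g) : ∃ L₀ : ℕ, 1 ≤ L₀ ∧ ∀ L, 1 ≤ L → L₀ ∣ L →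
      ∃ (k : ℕ) (N : Matrix (Fin k) (Fin k) ℕ) (π : Fin k → α), 0 < k ∧ IsBinary N ∧ IsIrred N ∧
        (∀ v, ∃ w, N v w = 1) ∧ (∀ i, π i ∈ S) ∧
        ∀ n i, g 0 (π i) * rtd d N n i = sc d L n * g n (π i) := by
  obtain ⟨L₀, L1, hL₀⟩ := denoms (S ×ˢ S) (fun p => W p.1 p.2 * g 0 p.2 ^ d / g 0 p.1)
    fun p hp => by
      obtain ⟨p1, p2⟩ := mem_product.1 hp
      have := h.nn p.1 p.2
      have := h.pos 0 _ p1
      have := h.pos 0 _ p2
      positivity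
  refine ⟨L₀, L1, fun L L2 L3 => ?_⟩
  obtain ⟨n, hn⟩ := hL₀ L L3
  have kid : ∀ v ∈ S, ∃ w ∈ S, n (v, w) ≠ 0 := fun v hv => by
    obtain ⟨w, hw, h1⟩ := h.kid v hv
    refine ⟨w, hw, fun h2 => ?_⟩
    have h3 := hn (v, w) (mem_product.2 ⟨hv, hw⟩)
    have := h.pos 0 _ hv
    have := h.pos 0 _ hw
    rw [h2, Nat.cast_zero] at h3
    exact h3.not_lt (by positivity)
  obtain ⟨k, N, π, k0, bN, iN, πS, πc, πs⟩ := realize' S h.ne (fun v w => n (v, w)) kid
  refine ⟨k, N, π, k0, bN, iN, fun v => ?_, πS, fun m => ?_⟩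
  · obtain ⟨w, w1, w2⟩ := kid _ (πS v)
    obtain ⟨j, hj, -⟩ := πc v w w1 w2
    exact ⟨j, hj⟩
  induction m with
  | zero => simp [rtd, sc]
  | succ m ih =>
    intro i
    have h4 : (rtd d N (m + 1) i : ℚ) =
        ∑ j, (N i j : ℚ) * (sc d L m * g m (π j) / g 0 (π j)) ^ d := by
      rw [rtd]
      push_cast
      refine sum_congr rfl fun j _ => ?_
      rw [← ih j, mul_div_cancel_left₀ _ (h.pos 0 _ (πS j)).ne']
    rw [h4, πs i fun w => (sc d L m * g m w / g 0 w) ^ d, h.step m _ (πS i), mul_sum, mul_sum]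
    refine sum_congr rfl fun w hw => ?_
    have := (h.pos 0 _ (πS i)).ne'
    have := (h.pos 0 _ hw).ne'
    rw [hn (π i, w) (mem_product.2 ⟨πS i, hw⟩), sc, div_pow, mul_pow]
    push_cast
    field_simp

end Pool.Agent.MP_93dc40_an

end

section

namespace Pool.Agent.MP_93dc40_an

open Finset

theorem cone_all {ι : Type} [DecidableEq ι] (K : Set (ι → ℚ)) (K0 : 0 ∈ K)
    (add : ∀ x ∈ K, ∀ y ∈ K, x + y ∈ K) (smul : ∀ c : ℚ, 0 ≤ c → ∀ x ∈ K, c • x ∈ K) (s : Finset ι) :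
    (∀ y : ι → ℚ, (∀ i ∉ s, y i = 0) → ∀ ε > 0, ∃ x ∈ K, (∀ i ∉ s, x i = 0) ∧ ∀ i, |x i - y i| < ε) →
      ∀ y : ι → ℚ, (∀ i ∉ s, y i = 0) → y ∈ K := by
  induction s using Finset.induction_on with
  | empty => exact fun _ y hy => (show y = 0 from funext fun i => hy i (by simp)) ▸ K0
  | insert a s ha ih =>
    intro dense
    have near : ∀ (y : ι → ℚ), (∀ i ∉ s, y i = 0) → ∀ ε > 0, ∀ σ : ℚ, |σ| = 1 →
        ∃ x ∈ K, (∀ i ∉ insert a s, x i = 0) ∧ 0 < σ * x a ∧ ∀ i, |x i - y i| < ε := by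
      intro y hy ε hε σ hσ
      obtain ⟨x, x1, x2, x3⟩ := dense (y + Pi.single a (σ * (ε / 2))) (fun i hi => by
        rw [mem_insert, not_or] at hi
        simp [hy i hi.2, hi.1]) (ε / 2) (by linarith)
      have hσ' : σ = 1 ∨ σ = -1 := by rwa [abs_eq zero_le_one] at hσ
      refine ⟨x, x1, x2, ?_, fun i => ?_⟩
      · have := abs_lt.1 (x3 a)
        simp only [Pi.add_apply, hy a ha, Pi.single_eq_same] at this
        rcases hσ' with rfl | rfl <;> linarith [this.1, this.2]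
      · have := abs_lt.1 (x3 i)
        rw [abs_lt]
        by_cases h : i = a
        · subst h
          simp only [Pi.add_apply, Pi.single_eq_same] at this
          rcases hσ' with rfl | rfl <;> constructor <;> linarith [this.1, this.2]
        · simp only [Pi.add_apply, Pi.single_eq_of_ne h] at this
          constructor <;> linarith [this.1, this.2]
    have hs := ih fun y hy ε hε => by
      obtain ⟨x, x1, x2, x3, x4⟩ := near y hy ε hε 1 (by simp)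
      obtain ⟨z, z1, z2, z3, z4⟩ := near y hy ε hε (-1) (by simp)
      have h : 0 < x a - z a := by linarith
      obtain ⟨p, hp⟩ : ∃ p, p = x a / (x a - z a) := ⟨_, rfl⟩
      have p0 : 0 < p := hp ▸ div_pos (by linarith) h
      have p1 : p < 1 := hp ▸ (div_lt_one h).2 (by linarith)
      refine ⟨(1 - p) • x + p • z, add _ (smul _ (by linarith) _ x1) _ (smul _ p0.le _ z1),
        fun i hi => ?_, fun i => ?_⟩
      · by_cases h' : i = a
        · subst h'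
          simp only [Pi.add_apply, Pi.smul_apply, smul_eq_mul, hp]
          field_simp
          ring
        · simp [x2 i (by simp [h', hi]), z2 i (by simp [h', hi])]
      · have h1 := abs_lt.1 (x4 i)
        have h2 := abs_lt.1 (z4 i)
        simp only [Pi.add_apply, Pi.smul_apply, smul_eq_mul]
        rw [abs_lt]
        constructor <;> nlinarith [h1.1, h1.2, h2.1, h2.2]
    intro y hy
    obtain ⟨x, x1, x2, x3⟩ : ∃ x ∈ K, (∀ i ∉ insert a s, x i = 0) ∧ x a ≠ 0 ∧ 0 ≤ y a / x a := by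
      rcases le_total 0 (y a) with h | h
      · obtain ⟨x, x1, x2, x3, -⟩ := near 0 (by simp) 1 one_pos 1 (by simp)
        exact ⟨x, x1, x2, by linarith, div_nonneg h (by linarith)⟩
      · obtain ⟨x, x1, x2, x3, -⟩ := near 0 (by simp) 1 one_pos (-1) (by simp)
        exact ⟨x, x1, x2, by linarith, div_nonneg_of_nonpos h (by linarith)⟩
    have := add _ (smul _ x3.2 _ x1) _ (hs (y - (y a / x a) • x) fun i hi => by
      by_cases h' : i = a
      · subst h'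
        simp [x3.1]
      · simp [x2 i (by simp [h', hi]), hy i (by simp [h', hi])])
    simpa using this

theorem dual_all {ι : Type} [Fintype ι] [DecidableEq ι] (K : Set (ι → ℚ)) (K0 : 0 ∈ K)
    (add : ∀ x ∈ K, ∀ y ∈ K, x + y ∈ K) (smul : ∀ c : ℚ, 0 ≤ c → ∀ x ∈ K, c • x ∈ K)
    (h : ∀ f : (ι → ℝ) →L[ℝ] ℝ, (∀ x ∈ K, 0 ≤ f fun i => x i) → f = 0) (y : ι → ℚ) : y ∈ K := by
  refine cone_all K K0 add smul univ (fun y _ ε hε => ?_) y (by simp)
  let C : Set (ι → ℝ) := (fun (x : ι → ℚ) i => (x i : ℝ)) '' K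
  have hadd : ∀ x ∈ closure C, ∀ z ∈ closure C, x + z ∈ closure C := fun x hx z hz =>
    map_mem_closure₂ continuous_add hx hz (by
      rintro _ ⟨a, ha, rfl⟩ _ ⟨b, hb, rfl⟩
      exact ⟨a + b, add a ha b hb, by funext i; simp⟩)
  have hsmul : ∀ c : ℝ, 0 ≤ c → ∀ x ∈ closure C, c • x ∈ closure C := fun c hc x hx => by
    have hc' : c ∈ closure (Set.Ioi (0 : ℝ) ∩ Set.range ((↑) : ℚ → ℝ)) :=
      closure_minimal (Rat.denseRange_cast.open_subset_closure_inter isOpen_Ioi) isClosed_closure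
        (by rwa [closure_Ioi])
    refine map_mem_closure₂ (f := fun (c : ℝ) (x : ι → ℝ) => c • x) continuous_smul hc' hx ?_
    rintro _ ⟨hq, q, rfl⟩ _ ⟨a, ha, rfl⟩
    exact ⟨q • a, smul q (by exact_mod_cast le_of_lt (show (0 : ℝ) < q from hq)) a ha, by funext i; simp⟩
  have hy : (fun i => (y i : ℝ)) ∈ closure C := by
    by_contra hy
    obtain ⟨f, u, f1, f2⟩ := geometric_hahn_banach_point_closed
      (fun a ha b hb s t hs ht _ => hadd _ (hsmul s hs a ha) _ (hsmul t ht b hb)) isClosed_closure hy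
    have u0 := f2 0 (subset_closure ⟨0, K0, by funext i; simp⟩)
    rw [map_zero] at u0
    have := h f fun x hx => by
      by_contra hn
      rw [not_le] at hn
      have := f2 _ (hsmul (u / f fun i => x i) (div_nonneg_of_nonpos u0.le hn.le) _
        (subset_closure ⟨x, hx, rfl⟩))
      rw [map_smul, smul_eq_mul, div_mul_cancel₀ _ hn.ne] at this
      exact lt_irrefl _ this
    rw [this] at f1
    exact lt_asymm u0 f1
  have hε' : (0 : ℝ) < ε := by exact_mod_cast hε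
  obtain ⟨_, ⟨x, hx, rfl⟩, hd⟩ := Metric.mem_closure_iff.1 hy ε hε'
  refine ⟨x, hx, by simp, fun i => ?_⟩
  have := (dist_pi_lt_iff hε').1 hd i
  rw [dist_comm, Real.dist_eq] at this
  dsimp only at this
  exact_mod_cast this

/-- a finite family whose convex hull contains a box around the origin -/
theorem box_hull {ι P : Type} [Fintype ι] [DecidableEq ι] (φ : P → ι → ℚ) (p0 : P) (h0 : φ p0 = 0)
    (h : ∀ f : (ι → ℝ) →L[ℝ] ℝ, (∀ p, 0 ≤ f fun i => φ p i) → f = 0) :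
    ∃ (S : Finset P) (η : ℚ), 0 < η ∧ p0 ∈ S ∧ ∀ T : ι → ℚ, (∀ i, |T i| ≤ η) →
      ∃ W : P → ℚ, (∀ p, 0 ≤ W p) ∧ ∑ p ∈ S, W p = 1 ∧ ∑ p ∈ S, W p • φ p = T := by
  classical
  have := dual_all {y | ∃ w : P →₀ ℚ, (∀ p, 0 ≤ w p) ∧ Finsupp.linearCombination ℚ φ w = y}
    ⟨0, by simp, by simp⟩
    (by
      rintro _ ⟨a, ha, rfl⟩ _ ⟨b, hb, rfl⟩
      exact ⟨a + b, fun p => add_nonneg (ha p) (hb p), map_add _ _ _⟩)
    (by
      rintro c hc _ ⟨a, ha, rfl⟩
      exact ⟨c • a, fun p => mul_nonneg hc (ha p), map_smul _ _ _⟩)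
    fun f hf => h f fun p => hf _ ⟨Finsupp.single p 1, fun q => by
      rw [Finsupp.single_apply]
      split_ifs <;> simp, by simp⟩
  choose w w0 hw using this
  let S : Finset P := insert p0 (univ.biUnion fun i : ι =>
    (w (Pi.single i 1)).support ∪ (w (-Pi.single i 1)).support)
  have sum1 : ∀ y, (w y).support ⊆ S → ∑ p ∈ S, w y p • φ p = y := fun y hy => by
    refine Eq.trans ?_ (hw y)
    rw [Finsupp.linearCombination_apply, Finsupp.sum_of_support_subset _ hy _ (by simp)]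
  obtain ⟨m, hm⟩ : ∃ m, m = ∑ p ∈ S, ∑ i, (w (Pi.single i 1) p + w (-Pi.single i 1) p) := ⟨_, rfl⟩
  have m0 : 0 ≤ m := hm ▸ sum_nonneg fun p _ => sum_nonneg fun i _ => add_nonneg (w0 _ _) (w0 _ _)
  refine ⟨S, 1 / (m + 1), by positivity, mem_insert_self _ _, fun T hT => ?_⟩
  obtain ⟨V, hV⟩ : ∃ V : P → ℚ, ∀ p, V p =
    ∑ i, (max (T i) 0 * w (Pi.single i 1) p + max (-T i) 0 * w (-Pi.single i 1) p) :=
    ⟨_, fun _ => rfl⟩
  have V0 : ∀ p, 0 ≤ V p := fun p => hV p ▸ sum_nonneg fun i _ =>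
    add_nonneg (mul_nonneg (le_max_right _ _) (w0 _ _)) (mul_nonneg (le_max_right _ _) (w0 _ _))
  have V1 : ∑ p ∈ S, V p ≤ 1 := by
    refine le_trans ?_ (show 1 / (m + 1) * m ≤ 1 by
      rw [one_div, inv_mul_le_iff₀ (by positivity)]
      linarith)
    rw [hm, mul_sum]
    refine sum_le_sum fun p _ => ?_
    rw [hV, mul_sum]
    refine sum_le_sum fun i _ => ?_
    have := abs_le.1 (hm ▸ hT i)
    rw [mul_add]
    exact add_le_add (mul_le_mul_of_nonneg_right (max_le this.2 (by linarith [this.1, this.2])) (w0 _ _))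
      (mul_le_mul_of_nonneg_right (max_le (by linarith [this.1]) (by linarith [this.1, this.2]))
        (w0 _ _))
  refine ⟨fun p => V p + if p = p0 then 1 - ∑ p ∈ S, V p else 0, fun p => add_nonneg (V0 p) ?_,
    ?_, ?_⟩
  · split_ifs <;> linarith
  · rw [sum_add_distrib]
    simp [S]
  · have e : ∀ p, (V p + if p = p0 then 1 - ∑ p ∈ S, V p else 0) • φ p = ∑ i,
        (max (T i) 0 • w (Pi.single i 1) p • φ p + max (-T i) 0 • w (-Pi.single i 1) p • φ p) :=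
      fun p => by
        rw [add_smul, hV, sum_smul]
        split_ifs with hp
        · simp [hp, h0]
        · simp only [zero_smul, add_zero, add_smul, mul_smul]
    simp only [e]
    rw [sum_comm, ← univ_sum_single T]
    refine sum_congr rfl fun i _ => ?_
    have hi : (w (Pi.single i 1)).support ∪ (w (-Pi.single i 1)).support ⊆ S := fun p hp =>
      mem_insert_of_mem (mem_biUnion.2 ⟨i, mem_univ _, hp⟩)
    rw [sum_add_distrib, ← smul_sum, ← smul_sum, sum1 _ (subset_union_left.trans hi),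
      sum1 _ (subset_union_right.trans hi), univ_sum_single, smul_neg, ← sub_eq_add_neg, ← sub_smul,
      max_zero_sub_max_neg_zero_eq_self, ← Pi.single_smul, smul_eq_mul, mul_one]

end Pool.Agent.MP_93dc40_an

end
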