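import Pool.Agent.Mg.F93dc40.G04530b

namespace Pool.Agent.MP_93dc40_an

open Finset Filter Topology

/-- realization from multiplicities -/
theorem realize' {α : Type} (S : Finset α) (hS : S.Nonempty) (n : α → α → ℕ)
    (h : ∀ v ∈ S, ∃ w ∈ S, n v w ≠ 0) :
    ∃ (k : ℕ) (N : Matrix (Fin k) (Fin k) ℕ) (π : Fin k → α), 0 < k ∧ IsBinary N ∧ IsIrred N ∧
      (∀ i, π i ∈ S) ∧ (∀ i, ∀ w ∈ S, n (π i) w ≠ 0 → ∃ j, N i j = 1 ∧ π j = w) ∧
      ∀ i (f : α → ℚ), ∑ j, (N i j : ℚ) * f (π j) = ∑ w ∈ S, n (π i) w * f w := by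
  classical
  choose l l1 l2 using fun v => glue (fun w => List.replicate (n v w) ()) S
  have mem : ∀ v w, w ∈ (l v).map Prod.fst ↔ w ∈ S ∧ n v w ≠ 0 := fun v w => by
    simp [l1, List.mem_replicate]
  obtain ⟨k, N, π, k0, bN, iN, πS, πc, πs⟩ := realize S hS (fun v => (l v).map Prod.fst)
    (fun v hv => by
      obtain ⟨w, h1, h2⟩ := h v hv
      exact List.ne_nil_of_mem ((mem v w).2 ⟨h1, h2⟩))
    (fun v _ w hw => ((mem v w).1 hw).1)
  refine ⟨k, N, π, k0, bN, iN, πS, fun i w h1 h2 => πc i w ((mem _ w).2 ⟨h1, h2⟩), fun i f => ?_⟩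
  have cnt : ∀ w ∈ S, ∑ j, (N i j : ℚ) * (if π j = w then 1 else 0) = n (π i) w := fun w hw => by
    have := πs i fun u => if u = w then 1 else 0
    rw [List.map_map, l2] at this
    simp only [Function.comp_def, List.map_replicate, List.sum_replicate, nsmul_eq_mul, mul_ite,
      mul_one, mul_zero, sum_ite_eq', hw, if_true] at this ⊢
    exact_mod_cast this
  rw [sum_congr (s₁ := S) rfl fun w hw => by rw [← cnt w hw, sum_mul], sum_comm]
  refine sum_congr rfl fun j _ => ?_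
  simp [πS j]

/-- a three-point law with prescribed covariance -/
theorem law {ι : Type} [DecidableEq ι] (Z : Finset ι) (i0 : ι) (h0 : i0 ∉ Z) (a b : ℚ) (ha : 0 ≤ a)
    (hb : 0 < b) (p : ι → ℚ) (hp : ∀ z ∈ Z, 0 ≤ p z) (hs : ∑ z ∈ Z, p z ≤ 1) :
    ∃ P : ι × ℚ → ℚ, (∀ τ ∈ insert (i0, (0 : ℚ)) (Z ×ˢ {-a, b}), 0 ≤ P τ) ∧
      ∀ (x : ℚ) (y : ι → ℚ), ∑ τ ∈ insert (i0, (0 : ℚ)) (Z ×ˢ {-a, b}), P τ * (x + τ.2 * y τ.1) ^ 2 =
        x ^ 2 + a * b * ∑ z ∈ Z, p z * y z ^ 2 := by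
  have hne : -a ≠ b := by linarith [ha, hb] |> fun h : -a < b => h.ne
  have hab : a + b ≠ 0 := by positivity
  refine ⟨fun τ => if τ.1 = i0 then 1 - ∑ z ∈ Z, p z else
    p τ.1 * (if τ.2 = b then a else b) / (a + b), fun τ hτ => ?_, fun x y => ?_⟩
  · dsimp only
    split_ifs with h1 h2
    · linarith
    all_goals
      have := hp τ.1 (mem_product.1 ((mem_insert.1 hτ).resolve_left fun h => h1 (by rw [h]))).1
      positivity
  · rw [sum_insert (by simp [h0]), sum_product, mul_sum]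
    have : ∀ z ∈ Z, ∑ s ∈ ({-a, b} : Finset ℚ), (if (z, s).1 = i0 then 1 - ∑ z ∈ Z, p z else
        p (z, s).1 * (if (z, s).2 = b then a else b) / (a + b)) * (x + (z, s).2 * y (z, s).1) ^ 2 =
        p z * x ^ 2 + a * b * (p z * y z ^ 2) := fun z hz => by
      have hz0 : z ≠ i0 := fun h => h0 (h ▸ hz)
      rw [sum_pair hne]
      simp only [hz0, hne, if_false, if_true]
      field_simp
      ring
    rw [sum_congr rfl this, sum_add_distrib, ← sum_mul]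
    simp only [if_true]
    ring

theorem denoms {α : Type} (S : Finset α) (W : α → ℚ) (h : ∀ a ∈ S, 0 ≤ W a) :
    ∃ L₀ : ℕ, 1 ≤ L₀ ∧ ∀ L, L₀ ∣ L → ∃ n : α → ℕ, ∀ a ∈ S, (n a : ℚ) = L * W a := by
  refine ⟨∏ a ∈ S, (W a).den, prod_pos fun a _ => (W a).den_pos, fun L hL => ?_⟩
  have : ∀ a, ∃ n : ℕ, a ∈ S → (n : ℚ) = L * W a := fun a => by
    by_cases ha : a ∈ S
    · obtain ⟨m, hm⟩ := (dvd_prod_of_mem (fun a => (W a).den) ha).trans hL
      obtain ⟨r, hr⟩ := Int.eq_ofNat_of_zero_le (Rat.num_nonneg.2 (h a ha))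
      refine ⟨m * r, fun _ => ?_⟩
      have h1 : ((W a).den : ℚ) * W a = r := by
        rw [Rat.den_mul_eq_num, hr]
        rfl
      rw [hm]
      push_cast
      rw [← h1]
      ring
    · exact ⟨0, fun h => absurd h ha⟩
  choose n hn using this
  exact ⟨n, hn⟩

/-- adjusting the two families of slopes -/
theorem slopes {ι : Type} [Fintype ι] (U Z : Finset ι) (lam Lam B c : ι → ℚ) (A : ι → ι → ℚ)
    (h : ∀ i ∈ U, ∀ z ∈ Z, Lam i * c z < ∑ j ∈ U, A i j * (lam j * Lam j)) :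
    ∃ θ t : ℚ, 0 < θ ∧ θ ≤ 1 ∧ 0 < t ∧ (∀ i, θ * lam i ≠ 1) ∧ ∀ i ∈ U, ∀ z ∈ Z,
      B i + t * Lam i * c z ≤ ∑ j ∈ U, A i j * (θ * lam j * (t * Lam j)) := by
  have e1 : ∀ᶠ θ : ℚ in 𝓝[<] 1, ∀ i ∈ U, ∀ z ∈ Z,
      Lam i * c z < θ * ∑ j ∈ U, A i j * (lam j * Lam j) := by
    refine (eventually_all_finset _).2 fun i hi => (eventually_all_finset _).2 fun z hz => ?_
    refine eventually_nhdsWithin_of_eventually_nhds ?_
    exact (continuous_id.mul continuous_const).continuousAt.eventually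
      (lt_mem_nhds (by simpa using h i hi z hz))
  have e2 : ∀ᶠ θ : ℚ in 𝓝[<] 1, ∀ i, θ * lam i ≠ 1 := by
    refine eventually_all.2 fun i => ?_
    by_cases hi : lam i = 1
    · filter_upwards [self_mem_nhdsWithin] with θ hθ
      rw [hi, mul_one]
      exact ne_of_lt hθ
    · exact eventually_nhdsWithin_of_eventually_nhds
        ((continuous_id.mul continuous_const).continuousAt.eventually_ne (by simpa using hi))
  have e3 : ∀ᶠ θ : ℚ in 𝓝[<] 1, 0 < θ :=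
    eventually_nhdsWithin_of_eventually_nhds (lt_mem_nhds one_pos)
  obtain ⟨θ, ⟨⟨θ1, θ2⟩, θ3⟩, θ4⟩ := (((e1.and e2).and e3).and self_mem_nhdsWithin).exists
  have e4 : ∀ᶠ t : ℚ in atTop, ∀ i ∈ U, ∀ z ∈ Z,
      B i ≤ t * (θ * ∑ j ∈ U, A i j * (lam j * Lam j) - Lam i * c z) := by
    refine (eventually_all_finset _).2 fun i hi => (eventually_all_finset _).2 fun z hz => ?_
    exact (tendsto_id.atTop_mul_const (sub_pos.2 (θ1 i hi z hz))).eventually_ge_atTop _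
  obtain ⟨t, t1, t2⟩ := (e4.and (eventually_gt_atTop 0)).exists
  refine ⟨θ, t, θ3, le_of_lt θ4, t2, θ2, fun i hi z hz => ?_⟩
  have h1 := t1 i hi z hz
  have h2 : ∑ j ∈ U, A i j * (θ * lam j * (t * Lam j)) =
      t * (θ * ∑ j ∈ U, A i j * (lam j * Lam j)) := by
    rw [mul_sum, mul_sum]
    exact sum_congr rfl fun j _ => by ring
  rw [h2]
  linarith

end Pool.Agent.MP_93dc40_an
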