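import Pool.Agent.Mg.F93dc40.G8158ea

section

namespace Pool.Agent.MP_93dc40_an.St

open Finset MvPolynomial

variable {ι : Type} [Fintype ι] [DecidableEq ι] {d : ℕ} {Q : Matrix ι ι ℕ} {T' T : Finset ι}

theorem psi_X (η : ℚ) (i : ι) : psi d Q T' T η (X i) =
    ∑ j, ((Q i j : ℚ) * η ^ (if i ∈ T' then if j ∈ T then 0 else d else d - 1)) •
      monomial (Finsupp.single j d) 1 := by
  unfold psi
  rw [aeval_X]
  exact Finset.sum_congr rfl fun j _ => by rw [X_pow_eq_monomial, smul_eq_C_mul]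

omit [Fintype ι] in
theorem mon_JJ (j : ι) (s : ℕ) (h : j ∉ T ∨ s = 0) (hs : s ≤ d) :
    monomial (Finsupp.single j d) (1 : ℚ) ∈ JJ T s d := by
  refine Submodule.subset_span ⟨_, ?_, by simp, rfl⟩
  rw [yd_single]
  rcases h with h | h
  · simp [h, hs]
  · omega

theorem psi_mon (closed : ∀ i ∉ T', ∀ j ∈ T, Q i j = 0) (η : ℚ) (n : ι →₀ ℕ) :
    psi d Q T' T η (monomial n 1) ∈ JJ T (d * yd T' n) (d * n.degree) := by
  induction n using Finsupp.induction_linear with
  | zero => simpa using EE_le_JJ le_rfl EE_one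
  | add f g hf hg =>
    rw [yd_add, map_add, mul_add, mul_add, ← one_mul (1 : ℚ), ← monomial_mul, map_mul]
    exact JJ_mul hf hg
  | single i k =>
    rw [← X_pow_eq_monomial, map_pow, yd_single, Finsupp.degree_single, mul_comm d k]
    have : psi d Q T' T η (X i) ∈ JJ T (if i ∈ T' then 0 else d) d := by
      rw [psi_X]
      refine Submodule.sum_mem _ fun j _ => ?_
      by_cases hi : i ∈ T'
      · exact Submodule.smul_mem _ _ (mon_JJ j _ (by simp [hi]) (by simp [hi]))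
      · by_cases hj : j ∈ T
        · simp [closed i hi j hj]
        · exact Submodule.smul_mem _ _ (mon_JJ j _ (Or.inl hj) (by simp [hi]))
    refine JJ_mono ?_ (JJ_pow this k)
    split_ifs <;> simp [mul_comm]

theorem psi0_X (hd : 1 ≤ d) {i : ι} (hi : i ∈ T') :
    psi d Q T' T 0 (X i) = ∑ j ∈ T, C (Q i j : ℚ) * X j ^ d := by
  unfold psi
  rw [aeval_X, ← Finset.sum_add_sum_compl T, Finset.sum_eq_zero (s := Tᶜ), add_zero]
  · exact Finset.sum_congr rfl fun j hj => by simp [hi, hj]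
  · intro j hj
    simp [hi, Finset.mem_compl.1 hj, zero_pow (by omega : d ≠ 0)]

theorem psi_top (closed : ∀ i ∉ T', ∀ j ∈ T, Q i j = 0) (η : ℚ) {N : ℕ}
    {f : MvPolynomial ι ℚ} (hf : f ∈ EE T' 0 N) :
    psi d Q T' T η f - psi d Q T' T 0 f ∈ JJ T d (d * N) := by
  have key : ∀ n : ι →₀ ℕ, yd T' n = 0 →
      psi d Q T' T η (monomial n 1) - psi d Q T' T 0 (monomial n 1) ∈ JJ T d (d * n.degree) := by
    intro n
    induction n using Finsupp.induction_linear with
    | zero => simp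
    | add f g hf hg =>
      intro h
      rw [yd_add] at h
      rw [map_add, mul_add, ← one_mul (1 : ℚ), ← monomial_mul, map_mul, map_mul]
      have e : ∀ a b a' b' : MvPolynomial ι ℚ, a * b - a' * b' = (a - a') * b + a' * (b - b') := by
        intros; ring
      rw [e]
      exact add_mem (JJ_mono (by omega) (JJ_mul (hf (by omega)) (psi_mon closed η g)))
        (JJ_mono (by omega) (JJ_mul (psi_mon closed 0 f) (hg (by omega))))
    | single i k =>
      intro h
      rcases Nat.eq_zero_or_pos k with rfl | hk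
      · simp
      have hi : i ∈ T' := by
        rw [yd_single] at h
        by_contra hc
        simp [hc] at h
        omega
      have h1 : psi d Q T' T η (X i) - psi d Q T' T 0 (X i) ∈ JJ T d d := by
        rw [psi_X, psi_X, ← Finset.sum_sub_distrib]
        refine Submodule.sum_mem _ fun j _ => ?_
        by_cases hj : j ∈ T
        · simp [hi, hj]
        · rw [← sub_smul]
          exact Submodule.smul_mem _ _ (mon_JJ j _ (Or.inl hj) le_rfl)
      have h2 : ∀ η', psi d Q T' T η' (X i) ∈ GG T 1 0 0 0 d := fun η' => by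
        have := psi_mon (d := d) closed η' (Finsupp.single i 1)
        rw [Finsupp.degree_single, mul_one] at this
        exact JJ_le_GG (JJ_mono (Nat.zero_le _) this)
      rw [← X_pow_eq_monomial, map_pow, map_pow, Finsupp.degree_single, mul_comm d k]
      exact GG_le_JJ EE_one (GG_tele (h2 η) (h2 0) (GG_mono (Nat.zero_le _) le_rfl (JJ_le_GG h1)) k)
  induction hf using Submodule.span_induction with
  | mem f h =>
    obtain ⟨n, h1, h2, rfl⟩ := h
    exact h2 ▸ key n h1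
  | zero => simp
  | add f g _ _ hf hg =>
    rw [map_add, map_add, add_sub_add_comm]
    exact add_mem hf hg
  | smul c f _ hf =>
    rw [map_smul, map_smul, ← smul_sub]
    exact Submodule.smul_mem _ _ hf

/-- the image of a perturbed base differs from the top image of the base by an element of the
target space -/
theorem psi_base (closed : ∀ i ∉ T', ∀ j ∈ T, Q i j = 0) (η : ℚ)
    {R χ r q π : MvPolynomial ι ℚ} {δ δ' δq N D : ℕ} (hR : R ∈ EE T' 0 δ) (hχ : χ ∈ EE T' 0 N)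
    (hχ' : psi d Q T' T 0 χ ∈ EE T 0 (d * N)) (hq : q ∈ EE T 0 δq) (hδ : d * δ' + δq = d * δ)
    (hD : N + d * δ = D) (hr : psi d Q T' T 0 R = r ^ d * q) (hπ : π ∈ GG T' R δ d 1 D) :
    psi d Q T' T η (χ * R ^ d + π) - psi d Q T' T 0 (χ * R ^ d) ∈
      GG T r δ' (d * d) d (d * D) := by
  have h0 : psi d Q T' T 0 R ∈ GG T r δ' d 0 (d * δ) :=
    hr ▸ GG_cast (GG_mul (GG_self d) (EE_GG hq)) (by omega) (by omega) hδ
  have h1 : psi d Q T' T η R - psi d Q T' T 0 R ∈ GG T r δ' d d (d * δ) :=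
    JJ_le_GG (psi_top closed η hR)
  have h2 : psi d Q T' T η R ∈ GG T r δ' d 0 (d * δ) := by
    have := add_mem (GG_mono le_rfl (Nat.zero_le _) h1) h0
    rwa [sub_add_cancel] at this
  have h3 : psi d Q T' T η π ∈ GG T r δ' (d * d) d (d * D) := by
    have : GG T' R δ d 1 D ≤ (GG T r δ' (d * d) d (d * D)).comap (psi d Q T' T η).toLinearMap := by
      refine Submodule.span_le.2 ?_
      rintro _ ⟨b, n, k0, k1, k2, rfl⟩
      change psi d Q T' T η _ ∈ GG T r δ' (d * d) d (d * D)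
      rw [map_mul, map_pow]
      refine GG_cast (GG_mul (GG_pow h2 b) (JJ_le_GG (psi_mon closed η n))) (by nlinarith)
        (by nlinarith) (by rw [← k2]; ring)
    exact this hπ
  have e : psi d Q T' T η (χ * R ^ d + π) - psi d Q T' T 0 (χ * R ^ d) =
      (psi d Q T' T η χ - psi d Q T' T 0 χ) * psi d Q T' T η R ^ d +
      psi d Q T' T 0 χ * (psi d Q T' T η R ^ d - psi d Q T' T 0 R ^ d) + psi d Q T' T η π := by
    simp only [map_add, map_mul, map_pow]; ring
  rw [e]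
  refine add_mem (add_mem ?_ ?_) h3
  · exact GG_cast (GG_mul (JJ_le_GG (psi_top closed η hχ)) (GG_pow h2 d)) (by omega) (by omega)
      (by rw [← hD]; ring)
  · exact GG_cast (GG_mul (EE_GG hχ') (GG_tele h2 h0 h1 d)) (by omega) (by omega)
      (by rw [← hD]; ring)

end Pool.Agent.MP_93dc40_an.St

end

section

namespace Pool.Agent.MP_93dc40_an.St

open Finset MvPolynomial NNRat

section fs
variable {ι : Type}

/-- the support lies in `A` -/
def On (A : ℕ × ι → Prop) (ν : ℕ × ι →₀ ℕ) : Prop := ∀ s, ν s ≠ 0 → A s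

/-- weight depending on the level -/
noncomputable def wt (ω : ℕ → ℕ) (ν : ℕ × ι →₀ ℕ) : ℕ := Finsupp.weight (fun s => ω s.1) ν

/-- shift of the levels -/
noncomputable def sh (ν : ℕ × ι →₀ ℕ) : ℕ × ι →₀ ℕ := ν.mapDomain fun s => (s.1 + 1, s.2)

/-- exponents at level zero -/
noncomputable def lift (ρ : ι →₀ ℕ) : ℕ × ι →₀ ℕ := ρ.mapDomain fun k => (0, k)

/-- multiplicities scaled to the level `J` -/
noncomputable def up (d J : ℕ) (ν : ℕ × ι →₀ ℕ) : ℕ × ι →₀ ℕ :=
  Finsupp.onFinset ν.support (fun s => d ^ (J - s.1) * ν s) (by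
    intro s hs
    rw [Finsupp.mem_support_iff]
    intro h
    simp [h] at hs)

variable {A A' : ℕ × ι → Prop} {ν ν' : ℕ × ι →₀ ℕ} {ω ω' : ℕ → ℕ}

theorem On.zero : On A 0 := fun _ h => (h rfl).elim

theorem on_add : On A (ν + ν') ↔ On A ν ∧ On A ν' := by
  refine ⟨fun h => ⟨fun s hs => h s ?_, fun s hs => h s ?_⟩, fun h s hs => ?_⟩
  · rw [Finsupp.add_apply]; omega
  · rw [Finsupp.add_apply]; omega
  · rw [Finsupp.add_apply] at hs
    by_cases h1 : ν s = 0
    · exact h.2 s (by omega)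
    · exact h.1 s h1

theorem On.add (h : On A ν) (h' : On A ν') : On A (ν + ν') := on_add.2 ⟨h, h'⟩

theorem On.single {s : ℕ × ι} (h : A s) (n : ℕ) : On A (Finsupp.single s n) := fun t ht => by
  obtain rfl : s = t := by
    by_contra hc
    exact ht (Finsupp.single_eq_of_ne' hc)
  exact h

theorem On.smul (h : On A ν) (n : ℕ) : On A (n • ν) := fun s hs => h s (by
  intro h0; simp [h0] at hs)

theorem On.imp (h : On A ν) (hA : ∀ s, A s → A' s) : On A' ν := fun s hs => hA s (h s hs)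

theorem On.and (h : On A ν) (h' : On A' ν) : On (fun s => A s ∧ A' s) ν :=
  fun s hs => ⟨h s hs, h' s hs⟩

theorem On.up (h : On A ν) (d J : ℕ) : On A (up d J ν) := fun s hs => h s (by
  intro h0; simp [St.up, h0] at hs)

theorem On.ind {C : (ℕ × ι →₀ ℕ) → Prop} (h0 : C 0) (hs : ∀ s, A s → C (Finsupp.single s 1))
    (ha : ∀ ν ν', On A ν → On A ν' → C ν → C ν' → C (ν + ν')) (h : On A ν) : C ν := by
  induction ν using Finsupp.induction_linear with
  | zero => exact h0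
  | add f g hf hg =>
    rw [on_add] at h
    exact ha f g h.1 h.2 (hf h.1) (hg h.2)
  | single s n =>
    induction n with
    | zero => simpa using h0
    | succ n ih =>
      have hA : A s := h s (by simp)
      rw [Finsupp.single_add]
      exact ha _ _ (On.single hA _) (On.single hA _) (ih (On.single hA _)) (hs s hA)

theorem wt_add : wt ω (ν + ν') = wt ω ν + wt ω ν' := map_add _ _ _

@[simp] theorem wt_zero : wt ω (0 : ℕ × ι →₀ ℕ) = 0 := map_zero _

theorem wt_smul (n : ℕ) : wt ω (n • ν) = n * wt ω ν := by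
  unfold wt; rw [map_nsmul, smul_eq_mul]

@[simp] theorem wt_single (s : ℕ × ι) (n : ℕ) : wt ω (Finsupp.single s n) = n * ω s.1 := by
  unfold wt; rw [Finsupp.weight_single, smul_eq_mul]

theorem wt_le (a b : ℕ) (h : On (fun s => a * ω s.1 ≤ b * ω' s.1) ν) : a * wt ω ν ≤ b * wt ω' ν := by
  refine On.ind (C := fun ν => a * wt ω ν ≤ b * wt ω' ν) (by simp) (fun s hs => by simpa using hs)
    (fun ν ν' _ _ h1 h2 => ?_) h
  rw [wt_add, wt_add, mul_add, mul_add]
  omega

theorem wt_le' (h : On (fun s => ω s.1 ≤ ω' s.1) ν) : wt ω ν ≤ wt ω' ν := by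
  simpa using wt_le 1 1 (by simpa using h)

theorem wt_one : wt (fun _ => 1) ν = ν.degree := by
  unfold wt; rw [Finsupp.degree_eq_weight_one]

theorem wt_const {c : ℕ} (h : On (fun s => ω s.1 = c) ν) : wt ω ν = c * ν.degree := by
  rw [← wt_one]
  refine le_antisymm ?_ ?_
  · simpa using wt_le 1 c (ω' := fun _ => 1) (h.imp fun s hs => by simp [hs])
  · simpa using wt_le c 1 (ω := fun _ => 1) (h.imp fun s hs => by simp [hs])

theorem on_of_wt (h : wt ω ν = 0) : On (fun s => ω s.1 = 0) ν := fun s hs => by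
  have := Finsupp.le_weight_of_ne_zero' (fun s : ℕ × ι => ω s.1) hs
  unfold wt at h
  omega

theorem cls_single {n J : ℕ} (h : ∀ ω, wt ω ν = n * ω J) : On (fun s => s.1 = J) ν ∧ ν.degree = n :=
  ⟨(on_of_wt (ω := fun l => if l = J then 0 else 1) (by simp [h])).imp fun s hs => by simpa using hs,
    by rw [← wt_one, h, mul_one]⟩

theorem sh_add : sh (ν + ν') = sh ν + sh ν' := Finsupp.mapDomain_add

theorem sh_smul (n : ℕ) : sh (n • ν) = n • sh ν := Finsupp.mapDomain_smul _ _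

@[simp] theorem sh_zero : sh (0 : ℕ × ι →₀ ℕ) = 0 := Finsupp.mapDomain_zero

@[simp] theorem sh_single (s : ℕ × ι) (n : ℕ) :
    sh (Finsupp.single s n) = Finsupp.single (s.1 + 1, s.2) n := Finsupp.mapDomain_single

theorem wt_sh : wt ω (sh ν) = wt (fun l => ω (l + 1)) ν := by
  induction ν using Finsupp.induction_linear with
  | zero => simp
  | add f g hf hg => rw [sh_add, wt_add, wt_add, hf, hg]
  | single s n => simp

theorem On.sh (h : On (fun s => A (s.1 + 1, s.2)) ν) : On A (sh ν) :=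
  On.ind (C := fun ν => On A (St.sh ν)) (by simpa using On.zero)
    (fun s hs => by rw [sh_single]; exact On.single hs 1)
    (fun _ _ _ _ h1 h2 => by rw [sh_add]; exact h1.add h2) h

@[simp] theorem up_apply (d J : ℕ) (s : ℕ × ι) : up d J ν s = d ^ (J - s.1) * ν s := rfl

theorem up_add (d J : ℕ) : up d J (ν + ν') = up d J ν + up d J ν' := by
  ext s; simp [mul_add]

@[simp] theorem up_zero (d J : ℕ) : up d J (0 : ℕ × ι →₀ ℕ) = 0 := by
  ext s; simp

@[simp] theorem up_single (d J : ℕ) (s : ℕ × ι) (n : ℕ) :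
    up d J (Finsupp.single s n) = Finsupp.single s (d ^ (J - s.1) * n) := by
  ext t
  by_cases h : s = t
  · subst h; simp
  · simp [Finsupp.single_eq_of_ne' h]

theorem wt_up (d J : ℕ) : wt ω (up d J ν) = wt (fun l => d ^ (J - l) * ω l) ν := by
  induction ν using Finsupp.induction_linear with
  | zero => simp
  | add f g hf hg => rw [up_add, wt_add, wt_add, hf, hg]
  | single s n => rw [up_single, wt_single, wt_single]; ring

theorem up_level0 (d J : ℕ) (h : On (fun s => s.1 = 0) ν) : up d J ν = d ^ J • ν := by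
  ext s
  by_cases h0 : ν s = 0
  · simp [h0]
  · simp [h s h0]

theorem sh_up (d J : ℕ) (h : On (fun s => s.1 < J) ν) : sh (up d J ν) = d • up d J (sh ν) := by
  refine On.ind (C := fun ν => sh (up d J ν) = d • up d J (sh ν)) (by simp) (fun s hs => ?_)
    (fun _ _ _ _ h1 h2 => by rw [up_add, sh_add, sh_add, up_add, smul_add, h1, h2]) h
  obtain ⟨e, he⟩ : ∃ e, J - s.1 = e + 1 := ⟨J - s.1 - 1, by omega⟩
  have : J - (s.1 + 1) = e := by omega
  rw [up_single, sh_single, sh_single, up_single, Finsupp.smul_single, he, this, pow_succ']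
  simp

theorem le_up {d : ℕ} (hd : 1 ≤ d) (J : ℕ) : ν ≤ up d J ν := fun s => by
  rw [up_apply]
  exact Nat.le_mul_of_pos_left _ (by positivity)

theorem lift_add (ρ ρ' : ι →₀ ℕ) : lift (ρ + ρ') = lift ρ + lift ρ' := Finsupp.mapDomain_add

theorem lift_smul (n : ℕ) (ρ : ι →₀ ℕ) : lift (n • ρ) = n • lift ρ := Finsupp.mapDomain_smul _ _

theorem lift_deg (ρ : ι →₀ ℕ) : (lift ρ).degree = ρ.degree := Finsupp.degree_mapDomain _ _

theorem On.lift {ρ : ι →₀ ℕ} (h : ∀ k, ρ k ≠ 0 → A (0, k)) : On A (lift ρ) := fun s hs => by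
  classical
  have := Finsupp.mapDomain_support (Finsupp.mem_support_iff.2 hs)
  obtain ⟨k, hk, rfl⟩ := Finset.mem_image.1 this
  exact h k (Finsupp.mem_support_iff.1 hk)

theorem peel {n : ℕ} (h : ν.degree = n + 1) :
    ∃ s ν', ν = Finsupp.single s 1 + ν' ∧ ν'.degree = n := by
  have : ν ≠ 0 := by rintro rfl; simp at h
  obtain ⟨s, hs⟩ := Finsupp.ne_iff.1 this
  obtain ⟨ν', rfl⟩ := exists_add_of_le (Finsupp.single_le_iff.2 (Nat.one_le_iff_ne_zero.2 hs))
  exact ⟨s, ν', rfl, by rw [map_add, Finsupp.degree_single] at h; omega⟩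

end fs

variable {ι : Type} [Fintype ι] [DecidableEq ι] {P : ℕ} (d : ℕ) (Q : ZMod P → Matrix ι ι ℕ)
  (T : ZMod P → Finset ι) (r : ZMod P)

/-- the top part of the `l`-step count of the vertex `k` -/
noncomputable def tok : ℕ → ι → MvPolynomial ι ℚ
  | 0, k => X k
  | l + 1, k => ∑ j ∈ T (r + l), C (Q (r + l) k j : ℚ) * tok l j ^ d

/-- products of tokens -/
noncomputable def tp (ν : ℕ × ι →₀ ℕ) : MvPolynomial ι ℚ :=
  ν.prod fun s n => tok d Q T r s.1 s.2 ^ n

/-- all tokens sit on top vertices -/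
abbrev Val (ν : ℕ × ι →₀ ℕ) : Prop := On (fun s => s.2 ∈ T (r + s.1)) ν

/-- the cone of `j`-th powers of products with the level profile of `ζ` -/
noncomputable def Cn (j : ℕ) (ζ : ℕ × ι →₀ ℕ) : Submodule ℚ≥0 (MvPolynomial ι ℚ) :=
  Submodule.span ℚ≥0 {f | ∃ ζ', Val T r ζ' ∧ (∀ ω, wt ω ζ' = wt ω ζ) ∧ f = tp d Q T r ζ' ^ j}

/-- `F` lies in the cone and has positive weight on `ζ` -/
def Hs (j : ℕ) (F : MvPolynomial ι ℚ) (ζ : ℕ × ι →₀ ℕ) : Prop :=
  Val T r ζ ∧ ∃ c : ℚ≥0, 0 < c ∧ ∃ G ∈ Cn d Q T r j ζ, F = c • tp d Q T r ζ ^ j + G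

variable {d Q T r} {j : ℕ} {F F' : MvPolynomial ι ℚ} {ν ν' ζ ζ' ξ : ℕ × ι →₀ ℕ}

section
omit [Fintype ι] [DecidableEq ι]

theorem tp_add : tp d Q T r (ν + ν') = tp d Q T r ν * tp d Q T r ν' :=
  Finsupp.prod_add_index' (by simp) (fun _ _ _ => pow_add _ _ _)

@[simp] theorem tp_zero : tp d Q T r 0 = 1 := Finsupp.prod_zero_index

@[simp] theorem tp_single (s : ℕ × ι) (n : ℕ) :
    tp d Q T r (Finsupp.single s n) = tok d Q T r s.1 s.2 ^ n := Finsupp.prod_single_index (by simp)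

theorem tp_smul (n : ℕ) : tp d Q T r (n • ν) = tp d Q T r ν ^ n := by
  induction n with
  | zero => simp
  | succ n ih => rw [succ_nsmul, tp_add, ih, pow_succ]

theorem tp_lift (ρ : ι →₀ ℕ) : tp d Q T r (lift ρ) = monomial ρ 1 := by
  induction ρ using Finsupp.induction_linear with
  | zero => simp [lift]
  | add f g hf hg => rw [lift_add, tp_add, hf, hg, monomial_mul, one_mul]
  | single k n => simp [lift, tok, X_pow_eq_monomial]

theorem Cn_congr (h : ∀ ω, wt ω ζ = wt ω ζ') : Cn d Q T r j ζ = Cn d Q T r j ζ' := by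
  unfold Cn
  simp only [h]

theorem Cn_self (h : Val T r ζ) : tp d Q T r ζ ^ j ∈ Cn d Q T r j ζ :=
  Submodule.subset_span ⟨ζ, h, fun _ => rfl, rfl⟩

theorem Cn_mul (h : F ∈ Cn d Q T r j ζ) (h' : F' ∈ Cn d Q T r j ζ') :
    F * F' ∈ Cn d Q T r j (ζ + ζ') := by
  refine mul_span ?_ h h'
  rintro _ ⟨a, a1, a2, rfl⟩ _ ⟨b, b1, b2, rfl⟩
  exact Submodule.subset_span ⟨a + b, a1.add b1, fun ω => by rw [wt_add, wt_add, a2, b2],
    by rw [tp_add, mul_pow]⟩

theorem Hs.mem (h : Hs d Q T r j F ζ) : F ∈ Cn d Q T r j ζ := by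
  obtain ⟨h1, c, -, G, hG, rfl⟩ := h
  exact add_mem (Submodule.smul_mem _ _ (Cn_self h1)) hG

theorem Hs.refl (h : Val T r ζ) : Hs d Q T r j (tp d Q T r ζ ^ j) ζ :=
  ⟨h, 1, one_pos, 0, zero_mem _, by simp⟩

theorem Hs.comb (h : Hs d Q T r j F ζ) {c : ℚ≥0} (hc : 0 < c) (h' : F' ∈ Cn d Q T r j ζ) :
    Hs d Q T r j (c • F + F') ζ := by
  obtain ⟨h1, c', hc', G, hG, rfl⟩ := h
  exact ⟨h1, c * c', mul_pos hc hc', c • G + F', add_mem (Submodule.smul_mem _ _ hG) h',
    by rw [smul_add, mul_smul, add_assoc]⟩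

theorem Hs.mul (h : Hs d Q T r j F ζ) (h' : Hs d Q T r j F' ζ') :
    Hs d Q T r j (F * F') (ζ + ζ') := by
  have m' := h'.mem
  obtain ⟨h1, c, hc, G, hG, rfl⟩ := h
  obtain ⟨h1', c', hc', G', hG', e⟩ := h'
  refine ⟨h1.add h1', c * c', mul_pos hc hc', c • (tp d Q T r ζ ^ j * G') + G * F',
    add_mem (Submodule.smul_mem _ _ (Cn_mul (Cn_self h1) hG')) (Cn_mul hG m'), ?_⟩
  rw [add_mul, ← add_assoc]
  congr 1
  rw [e, tp_add, mul_pow, smul_mul_assoc, mul_add, smul_add, mul_smul_comm, mul_smul]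

theorem Hs.one : Hs d Q T r j 1 0 := by
  simpa using Hs.refl (d := d) (Q := Q) (T := T) (r := r) (j := j) On.zero

theorem Hs.pow (h : Hs d Q T r j F ζ) (n : ℕ) : Hs d Q T r j (F ^ n) (n • ζ) := by
  induction n with
  | zero => simpa using Hs.one
  | succ n ih => rw [succ_nsmul, pow_succ]; exact ih.mul h

theorem Hs.trans (h : Hs d Q T r 1 F ζ)
    (h' : ∀ ζ', Val T r ζ' → (∀ ω, wt ω ζ' = wt ω ζ) → Hs d Q T r j (tp d Q T r ζ' * F') ξ) :
    Hs d Q T r j (F * F') ξ := by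
  obtain ⟨h1, c, hc, G, hG, rfl⟩ := h
  rw [add_mul, smul_mul_assoc, pow_one]
  refine (h' ζ h1 fun _ => rfl).comb hc ?_
  have : Cn d Q T r 1 ζ ≤ (Cn d Q T r j ξ).comap (LinearMap.mulRight ℚ≥0 F') := by
    refine Submodule.span_le.2 ?_
    rintro _ ⟨a, a1, a2, rfl⟩
    rw [pow_one]
    exact (h' a a1 a2).mem
  exact this hG

theorem Hs.flat (h : Hs d Q T r j F ζ) : Hs d Q T r 1 F (j • ζ) := by
  obtain ⟨h1, c, hc, G, hG, rfl⟩ := h
  refine ⟨h1.smul j, c, hc, G, Submodule.span_mono ?_ hG, by rw [tp_smul, pow_one]⟩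
  rintro _ ⟨a, a1, a2, rfl⟩
  exact ⟨j • a, a1.smul j, fun ω => by rw [wt_smul, wt_smul, a2], by rw [tp_smul, pow_one]⟩

theorem Hs.sum {S : Finset ι} {q : ι → ℕ} {f : ι → MvPolynomial ι ℚ} {x : ι} (hx : x ∈ S)
    (hq : 0 < q x) (h : Hs d Q T r j (f x) ζ) (h' : ∀ y ∈ S, f y ∈ Cn d Q T r j ζ) :
    Hs d Q T r j (∑ y ∈ S, C (q y : ℚ) * f y) ζ := by
  classical
  have e : ∀ y, C (q y : ℚ) * f y = (q y : ℚ≥0) • f y := fun y => by
    rw [Nat.cast_smul_eq_nsmul, map_natCast, nsmul_eq_mul]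
  simp only [e]
  rw [← Finset.add_sum_erase _ _ hx]
  exact h.comb (by exact_mod_cast hq) (Submodule.sum_mem _ fun y hy =>
    Submodule.smul_mem _ _ (h' y (Finset.mem_of_mem_erase hy)))

/-- only the terms of positive weight are needed -/
theorem Cn_refine (h : F ∈ Cn d Q T r j ζ) : F ∈ Submodule.span ℚ ((· ^ j) ''
    {e | ∃ ε, Hs d Q T r j F ε ∧ (∀ ω, wt ω ε = wt ω ζ) ∧ e = tp d Q T r ε}) := by
  have key : ∀ G ∈ Cn d Q T r j ζ, ∀ c : ℚ≥0, 0 < c → ∀ H ∈ Cn d Q T r j ζ, F = c • G + H →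
      G ∈ Submodule.span ℚ ((· ^ j) ''
        {e | ∃ ε, Hs d Q T r j F ε ∧ (∀ ω, wt ω ε = wt ω ζ) ∧ e = tp d Q T r ε}) := by
    intro G hG
    induction hG using Submodule.span_induction with
    | mem f hf =>
      obtain ⟨a, a1, a2, rfl⟩ := hf
      intro c hc H hH e
      rw [← Cn_congr a2] at hH
      exact Submodule.subset_span ⟨_, ⟨a, ⟨a1, c, hc, H, hH, e⟩, a2, rfl⟩, rfl⟩
    | zero => intros; exact zero_mem _
    | add f g hf hg if' ig =>
      intro c hc H hH e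
      exact add_mem (if' c hc (c • g + H) (add_mem (Submodule.smul_mem _ _ hg) hH)
        (by rw [e, smul_add, add_assoc])) (ig c hc (c • f + H)
        (add_mem (Submodule.smul_mem _ _ hf) hH) (by rw [e, smul_add, add_left_comm, add_assoc]))
    | smul a f _ if' =>
      intro c hc H hH e
      rcases eq_or_ne a 0 with rfl | ha
      · simp
      · rw [← NNRat.cast_smul_eq_nnqsmul ℚ]
        exact Submodule.smul_mem _ _ (if' (c * a) (mul_pos hc (pos_iff_ne_zero.2 ha)) H hH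
          (by rw [e, mul_smul]))
  exact key F h 1 one_pos 0 (zero_mem _) (by simp)

end

end Pool.Agent.MP_93dc40_an.St

end

section

namespace Pool.Agent.MP_93dc40_an.St

open Finset MvPolynomial NNRat

variable {ι : Type} [Fintype ι] [DecidableEq ι] {P : ℕ} {d L : ℕ} {Q : ZMod P → Matrix ι ι ℕ}
  {T : ZMod P → Finset ι} {r : ZMod P} {ν μ γ γ' : ℕ × ι →₀ ℕ}

section
omit [Fintype ι] [DecidableEq ι]

theorem walk_ex (fr : Frame Q T L) (r : ZMod P) (n : ℕ) : ∀ i ∈ T (r + n), ∃ k, twalk Q T r n i k := by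
  induction n with
  | zero => exact fun i _ => ⟨i, rfl⟩
  | succ n ih =>
    intro i hi
    rw [Nat.cast_succ, ← add_assoc] at hi
    obtain ⟨j, hj, hq⟩ := fr.kid _ i hi
    obtain ⟨k, hk⟩ := ih j hj
    exact ⟨k, j, hj, hq, hk⟩

theorem atom (fr : Frame Q T L) (l j : ℕ) : ∀ i k, twalk Q T (r + l) (j + 1) i k →
    Hs d Q T r d (tok d Q T r (l + j + 1) i) (Finsupp.single (l, k) (d ^ j)) := by
  induction j with
  | zero =>
    rintro i k ⟨x, hx, hq, rfl⟩
    rw [Nat.cast_zero, add_zero] at hx hq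
    have e : ∀ y, tok d Q T r l y ^ d = tp d Q T r (Finsupp.single (l, y) (d ^ 0)) ^ d := by simp
    refine Hs.sum (f := fun y => tok d Q T r l y ^ d) hx hq ?_ fun y hy => ?_
    · rw [e]; exact Hs.refl (On.single hx _)
    · rw [e, Cn_congr (ζ' := Finsupp.single (l, y) (d ^ 0)) (by simp)]
      exact Cn_self (On.single hy _)
  | succ j ih =>
    rintro i k ⟨x, hx, hq, hw⟩
    have e : r + l + ((j + 1 : ℕ) : ZMod P) = r + ((l + j + 1 : ℕ) : ZMod P) := by push_cast; ring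
    have e' : ∀ y : ι, Finsupp.single (l, y) (d ^ (j + 1)) = d • Finsupp.single (l, y) (d ^ j) := by
      intro y; rw [Finsupp.smul_single, pow_succ', smul_eq_mul]
    rw [e] at hx hq
    refine Hs.sum (f := fun y => tok d Q T r (l + j + 1) y ^ d) hx hq ?_ fun y hy => ?_
    · rw [e']; exact (ih x k hw).pow d
    · obtain ⟨k', hk⟩ := walk_ex fr (r + l) (j + 1) y (e ▸ hy)
      rw [Cn_congr (ζ' := Finsupp.single (l, k') (d ^ (j + 1))) (by simp), e']
      exact ((ih y k' hk).pow d).mem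

theorem atoms (fr : Frame Q T L) (J n : ℕ) : ∀ ν γ : ℕ × ι →₀ ℕ, Val T r ν →
    On (fun s => s.1 = J + 1) ν → Val T r γ → On (fun s => s.1 + L ≤ J + 1) γ → ν.degree = n →
    γ.degree = n → Hs d Q T r d (tp d Q T r ν) (up d J γ) := by
  induction n with
  | zero =>
    intro ν γ _ _ _ _ h1 h2
    rw [(Finsupp.degree_eq_zero_iff _).1 h1, (Finsupp.degree_eq_zero_iff _).1 h2]
    simpa using Hs.one
  | succ n ih =>
    intro ν γ a1 a2 b1 b2 h1 h2
    obtain ⟨⟨l, i⟩, ν', rfl, h1'⟩ := peel h1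
    obtain ⟨⟨l', k⟩, γ', rfl, h2'⟩ := peel h2
    rw [Val, on_add] at a1 b1
    rw [on_add] at a2 b2
    rw [tp_add, up_add, up_single, tp_single, pow_one, mul_one]
    refine Hs.mul ?_ (ih ν' γ' a1.2 a2.2 b1.2 b2.2 h1' h2')
    obtain rfl : l = J + 1 := a2.1 (l, i) (by simp)
    have c1 : l' + L ≤ J + 1 := b2.1 (l', k) (by simp)
    have c2 : i ∈ T (r + (J + 1 : ℕ)) := a1.1 (J + 1, i) (by simp)
    have c3 : k ∈ T (r + l') := b1.1 (l', k) (by simp)
    have := fr.pos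
    obtain ⟨j, rfl⟩ : ∃ j, J = l' + j := ⟨J - l', by omega⟩
    rw [Nat.add_sub_cancel_left]
    refine atom fr l' j i k (fr.prim _ _ (by omega) i ?_ k c3)
    have e : r + l' + ((j + 1 : ℕ) : ZMod P) = r + ((l' + j + 1 : ℕ) : ZMod P) := by push_cast; ring
    rwa [e]

theorem mix (fr : Frame Q T L) (J : ℕ) (h : Val T r ν) (h' : On (fun s => J ≤ s.1) ν) :
    ∃ ζ, Hs d Q T r 1 (tp d Q T r ν) ζ ∧ ∀ ω, wt ω ζ = wt (fun a => d ^ (a - J)) ν * ω J := by
  refine On.ind (C := fun ν => ∃ ζ, Hs d Q T r 1 (tp d Q T r ν) ζ ∧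
    ∀ ω, wt ω ζ = wt (fun a => d ^ (a - J)) ν * ω J) ⟨0, by simpa using Hs.one, by simp⟩ ?_ ?_
    (h.and h')
  · rintro ⟨l, i⟩ ⟨h1, h2⟩
    rcases eq_or_lt_of_le h2 with rfl | h3
    · exact ⟨_, by simpa using Hs.refl (j := 1) (On.single h1 1), by simp⟩
    · obtain ⟨j, rfl⟩ : ∃ j, l = J + j + 1 := ⟨l - J - 1, by simp only at h3; omega⟩
      have e : r + J + ((j + 1 : ℕ) : ZMod P) = r + ((J + j + 1 : ℕ) : ZMod P) := by push_cast; ring
      obtain ⟨k, hk⟩ := walk_ex fr (r + J) (j + 1) i (e ▸ h1)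
      refine ⟨d • Finsupp.single (J, k) (d ^ j), by
        rw [tp_single, pow_one]; exact (atom fr J j i k hk).flat, fun ω => ?_⟩
      have : J + j + 1 - J = j + 1 := by omega
      rw [wt_smul, wt_single, wt_single, this, pow_succ', one_mul, mul_assoc]
  · rintro ν ν' - - ⟨a, a1, a2⟩ ⟨b, b1, b2⟩
    exact ⟨a + b, tp_add (d := d) ▸ a1.mul b1, fun ω => by rw [wt_add, wt_add, a2, b2, add_mul]⟩

theorem atoms' (fr : Frame Q T L) (J : ℕ) (h : Val T r ν) (h' : On (fun s => J + 1 ≤ s.1) ν)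
    (g : Val T r γ) (g' : On (fun s => s.1 + L ≤ J + 1) γ)
    (e : γ.degree = wt (fun a => d ^ (a - (J + 1))) ν) :
    Hs d Q T r d (tp d Q T r ν) (up d J γ) := by
  obtain ⟨ζ, h1, h2⟩ := mix (d := d) fr (J + 1) h h'
  rw [← mul_one (tp d Q T r ν)]
  refine h1.trans fun a a1 a2 => ?_
  have := cls_single (fun ω => (a2 ω).trans (h2 ω))
  rw [mul_one]
  exact atoms fr J _ a γ a1 this.1 g g' this.2 e

theorem two (fr : Frame Q T L) (n : ℕ) (h : Val T r ν) (h' : On (fun s => 2 * L + 1 ≤ s.1) ν)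
    (k : Val T r μ) (k' : On (fun s => s.1 = L + 1) μ) (g : Val T r γ) (g' : On (fun s => s.1 ≤ L) γ)
    (f : Val T r γ') (f' : On (fun s => s.1 = 0) γ')
    (e : γ.degree + n = wt (fun a => d ^ (a - (2 * L + 1))) ν)
    (e' : γ'.degree = d ^ L * n + μ.degree) :
    Hs d Q T r d (tp d Q T r ν * tp d Q T r μ) (up d (2 * L) γ + d ^ L • γ') := by
  obtain ⟨ζ, h1, h2⟩ := mix (d := d) fr (2 * L + 1) h h'
  refine h1.trans fun a a1 a2 => ?_
  obtain ⟨c1, c2⟩ := cls_single (fun ω => (a2 ω).trans (h2 ω))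
  obtain ⟨u, hu, u1⟩ := Finsupp.exists_le_degree_eq a γ.degree (by omega)
  obtain ⟨v, rfl⟩ := exists_add_of_le hu
  rw [Val, on_add] at a1
  rw [on_add] at c1
  rw [map_add] at c2
  rw [tp_add, mul_assoc, ← tp_add, ← up_level0 d L f']
  refine (atoms fr (2 * L) _ u γ a1.1 c1.1 g (g'.imp fun s hs => by omega) u1 rfl).mul
    (atoms' fr L (a1.2.add k) ((c1.2.imp fun s hs => by omega).add (k'.imp fun s hs => by omega)) f
      (f'.imp fun s hs => by omega) ?_)
  rw [wt_add, wt_const (c := d ^ L) (c1.2.imp fun s hs => by rw [hs]; congr 1; omega),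
    wt_const (c := 1) (k'.imp fun s hs => by simp [hs]), e', one_mul]
  congr 2
  omega

theorem val_sh (h : Val T (r + 1) ν) : Val T r (sh ν) :=
  On.sh (h.imp fun s hs => by rwa [Nat.cast_succ, add_comm _ 1, ← add_assoc])

theorem along (fr : Frame Q T L) (h : Val T (r + 1) ν) :
    ∃ ε, Hs d Q T r d (tp d Q T r (sh ν)) ε ∧ ∀ ω, wt ω ε = wt ω ν := by
  refine On.ind (C := fun ν => ∃ ε, Hs d Q T r d (tp d Q T r (sh ν)) ε ∧ ∀ ω, wt ω ε = wt ω ν)
    ⟨0, by simpa using Hs.one, by simp⟩ ?_ ?_ h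
  · rintro ⟨l, i⟩ h1
    obtain ⟨k, hk⟩ := walk_ex fr (r + l) (0 + 1) i (by
      rwa [zero_add, Nat.cast_one, add_right_comm])
    exact ⟨_, by simpa using atom fr l 0 i k hk, by simp⟩
  · rintro ν ν' - - ⟨a, a1, a2⟩ ⟨b, b1, b2⟩
    exact ⟨a + b, by rw [sh_add, tp_add]; exact a1.mul b1, fun ω => by rw [wt_add, wt_add, a2, b2]⟩

theorem tok_low (fr : Frame Q T L) (y : ι → ℚ) (θ : ℚ) (h0 : 0 ≤ θ) (hy : ∀ k ∈ T r, θ ≤ y k)
    (l : ℕ) : ∀ k ∈ T (r + l), θ ^ d ^ l ≤ eval y (tok d Q T r l k) := by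
  induction l with
  | zero => intro k hk; simpa [tok] using hy k (by simpa using hk)
  | succ l ih =>
    intro k hk
    rw [Nat.cast_succ, ← add_assoc] at hk
    obtain ⟨j, hj, hq⟩ := fr.kid _ k hk
    have h1 : ∀ j ∈ T (r + l), θ ^ d ^ (l + 1) ≤ eval y (tok d Q T r l j) ^ d := fun j hj => by
      rw [pow_succ, pow_mul]
      exact pow_le_pow_left₀ (by positivity) (ih j hj) d
    simp only [tok, map_sum, map_mul, eval_C, map_pow]
    refine le_trans ?_ (Finset.single_le_sum (fun i hi =>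
      mul_nonneg (Nat.cast_nonneg _) (le_trans (by positivity) (h1 i hi))) hj)
    refine (h1 j hj).trans (le_mul_of_one_le_left (le_trans (by positivity) (h1 j hj)) ?_)
    exact_mod_cast hq

theorem tp_low (fr : Frame Q T L) (y : ι → ℚ) (θ : ℚ) (h0 : 0 ≤ θ) (hy : ∀ k ∈ T r, θ ≤ y k)
    (h : Val T r ν) : θ ^ wt (d ^ ·) ν ≤ eval y (tp d Q T r ν) := by
  refine On.ind (C := fun ν => θ ^ wt (d ^ ·) ν ≤ eval y (tp d Q T r ν)) (by simp)
    (fun s hs => by simpa using tok_low fr y θ h0 hy s.1 s.2 hs) (fun ν ν' _ _ h1 h2 => ?_) h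
  rw [wt_add, tp_add, pow_add, map_mul]
  exact mul_le_mul h1 h2 (by positivity) (le_trans (by positivity) h1)

theorem Hs.kid {κ : Type} {B : Finset κ} {ph : κ → ZMod P} {p : κ → MvPolynomial ι ℚ}
    {F R : MvPolynomial ι ℚ} {ξ : ℕ × ι →₀ ℕ} (h : Hs d Q T r d F ξ) {b : κ} (hb : b ∈ B)
    (hr : ph b = r) (hp : p b = tp d Q T r ξ * R)
    (all : ∀ ζ, Val T r ζ → (∀ ω, wt ω ζ = wt ω ξ) → ∃ a ∈ B, ph a = r ∧ p a = tp d Q T r ζ * R) :
    Kid d B ph p r (F * R ^ d) b := by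
  classical
  obtain ⟨-, c, hc, G, hG, rfl⟩ := h
  have key : ∃ w : κ → ℚ, (∀ a, 0 ≤ w a) ∧ (∀ a, ph a ≠ r → w a = 0) ∧
      ∑ a ∈ B, w a • p a ^ d = G * R ^ d := by
    induction hG using Submodule.span_induction with
    | mem f hf =>
      obtain ⟨ζ, h1, h2, rfl⟩ := hf
      obtain ⟨a, ha, a1, a2⟩ := all ζ h1 h2
      refine ⟨Pi.single a 1, fun x => ?_, fun x hx => Pi.single_eq_of_ne (by rintro rfl; exact hx a1) _,
        ?_⟩
      · rw [Pi.single_apply]; split_ifs <;> simp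
      · rw [Finset.sum_eq_single a (fun x _ hx => by simp [hx]) (fun h => (h ha).elim), a2, mul_pow]
        simp
    | zero => exact ⟨0, by simp, by simp, by simp⟩
    | add f g _ _ hf hg =>
      obtain ⟨w, w1, w2, w3⟩ := hf
      obtain ⟨v, v1, v2, v3⟩ := hg
      exact ⟨w + v, fun a => add_nonneg (w1 a) (v1 a), fun a ha => by simp [w2 a ha, v2 a ha],
        by simp only [Pi.add_apply, add_smul, Finset.sum_add_distrib, w3, v3, add_mul]⟩
    | smul a f _ hf =>
      obtain ⟨w, w1, w2, w3⟩ := hf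
      refine ⟨fun x => a * w x, fun x => mul_nonneg a.2 (w1 x), fun x hx => by simp [w2 x hx], ?_⟩
      rw [← NNRat.cast_smul_eq_nnqsmul ℚ, smul_mul_assoc, ← w3, Finset.smul_sum]
      simp only [mul_smul]
  obtain ⟨w, w1, w2, w3⟩ := key
  refine ⟨hb, hr, Pi.single b (c : ℚ) + w, fun x => add_nonneg ?_ (w1 x), ?_, fun x hx => ?_, ?_⟩
  · rw [Pi.single_apply]; split_ifs <;> simp
  · simp only [Pi.add_apply, Pi.single_eq_same]
    exact add_pos_of_pos_of_nonneg (by exact_mod_cast hc) (w1 b)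
  · rw [Pi.add_apply, w2 x hx, Pi.single_eq_of_ne (by rintro rfl; exact hx hr), add_zero]
  · simp only [Pi.add_apply, add_smul, Finset.sum_add_distrib, w3, add_mul]
    rw [Finset.sum_eq_single b (fun x _ hx => by simp [hx]) (fun h => (h hb).elim), hp, mul_pow,
      ← NNRat.cast_smul_eq_nnqsmul ℚ, smul_mul_assoc]
    simp

end

omit [Fintype ι] in
theorem tok_EE (l : ℕ) : ∀ k ∈ T (r + l), tok d Q T r l k ∈ EE (T r) 0 (d ^ l) := by
  induction l with
  | zero =>
    intro k hk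
    have := EE_mon (T := T r) (Finsupp.single k 1)
    rw [yd_single, if_pos (by simpa using hk), Finsupp.degree_single] at this
    exact this
  | succ l ih =>
    intro k _
    refine Submodule.sum_mem _ fun j hj => ?_
    rw [← smul_eq_C_mul, pow_succ']
    exact Submodule.smul_mem _ _ (EE_pow0 (ih j hj) d)

omit [Fintype ι] in
theorem tp_EE (h : Val T r ν) : tp d Q T r ν ∈ EE (T r) 0 (wt (d ^ ·) ν) :=
  On.ind (C := fun ν => tp d Q T r ν ∈ EE (T r) 0 (wt (d ^ ·) ν)) (by simpa using EE_one)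
    (fun s hs => by simpa using tok_EE s.1 s.2 hs)
    (fun ν ν' _ _ h1 h2 => by rw [wt_add, tp_add]; exact EE_mul0 h1 h2) h

theorem psi_tok (hd : 1 ≤ d) (l : ℕ) : ∀ k ∈ T (r + 1 + l),
    psi d (Q r) (T (r + 1)) (T r) 0 (tok d Q T (r + 1) l k) = tok d Q T r (l + 1) k := by
  induction l with
  | zero =>
    intro k hk
    simpa [tok] using psi0_X hd (by simpa using hk)
  | succ l ih =>
    intro k _
    have e : r + ((l + 1 : ℕ) : ZMod P) = r + 1 + l := by push_cast; ring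
    rw [tok, tok, map_sum, e]
    refine Finset.sum_congr rfl fun j hj => ?_
    rw [map_mul, map_pow, ih j hj]
    simp

theorem psi_tp (hd : 1 ≤ d) (h : Val T (r + 1) ν) :
    psi d (Q r) (T (r + 1)) (T r) 0 (tp d Q T (r + 1) ν) = tp d Q T r (sh ν) :=
  On.ind (C := fun ν => psi d (Q r) (T (r + 1)) (T r) 0 (tp d Q T (r + 1) ν) = tp d Q T r (sh ν))
    (by simp) (fun s hs => by simpa using psi_tok hd s.1 s.2 hs)
    (fun ν ν' _ _ h1 h2 => by rw [sh_add, tp_add, tp_add, map_mul, h1, h2]) h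

end Pool.Agent.MP_93dc40_an.St

end

section

namespace Pool.Agent.MP_93dc40_an.St

open Finset MvPolynomial

/-- the constants of the game -/
structure Cst (d L m B a c cm X : ℕ) : Prop where
  hd : 3 ≤ d
  hL : 1 ≤ L
  hB : 2 * (d ^ (2 * L) + 1) ≤ B
  ha : 2 * B ^ L * (L * m + m + 2) ≤ a
  hc : a * d ^ (2 * L) + m * (d * d) + m + 2 ≤ c
  hcm : c + a * d ^ L ≤ cm
  hX : a * d ^ L + 2 * L * cm + c ≤ X

/-- indicator of the levels below `i` -/
def hdw (i j : ℕ) : ℕ := if j < i then 1 else 0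

/-- indicator of the levels from `i` on -/
def tlw (i j : ℕ) : ℕ := if i ≤ j then 1 else 0

variable {ι : Type} {P : ℕ}

/-- the invariants of a base: loose tokens `l` and units `u` -/
structure Inv (d L B a cm X : ℕ) (T : ZMod P → Finset ι) (r : ZMod P) (l u : ℕ × ι →₀ ℕ) : Prop where
  v1 : Val T r l
  v2 : Val T r u
  lev : On (fun s => s.1 ≤ L) l
  om : wt (fun i => B ^ (L - i)) l ≤ a * d ^ (2 * L + X + 1)
  hd : ∀ i ≤ 2 * L, wt (hdw i) u ≤ i * cm
  tl : ∀ i, 2 * L ≤ i → wt (tlw i) u ≤ 2 * L + X + 1 - i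
  mass : wt (d ^ ·) l + d ^ (2 * L + X + 1) * u.degree = X * d ^ (2 * L + X + 1)

variable {d L m B a c cm X : ℕ} {T : ZMod P → Finset ι} {r : ZMod P} {l u ν : ℕ × ι →₀ ℕ}

theorem split_on (p : ℕ → Prop) (ν : ℕ × ι →₀ ℕ) :
    ∃ ν1 ν2, ν = ν1 + ν2 ∧ On (fun s => p s.1) ν1 ∧ On (fun s => ¬ p s.1) ν2 := by
  classical
  refine ⟨ν.filter fun s => p s.1, ν.filter fun s => ¬ p s.1,
    (Finsupp.filter_add_filter_not _ _).symm, fun s hs => ?_, fun s hs h => ?_⟩
  · by_contra h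
    simp [h] at hs
  · simp [h] at hs

theorem on_tl {i : ℕ} (h : wt (tlw i) ν = 0) : On (fun s => s.1 < i) ν :=
  (on_of_wt h).imp fun s hs => by
    by_contra hc
    simp [tlw, not_lt.1 hc] at hs

theorem tl_on {i : ℕ} (h : On (fun s => s.1 < i) ν) : wt (tlw i) ν = 0 := by
  simpa using wt_const (ω := tlw i) (c := 0) (h.imp fun s hs => by simp [tlw, hs])

theorem hd_tl (i : ℕ) (ν : ℕ × ι →₀ ℕ) : wt (hdw i) ν + wt (tlw i) ν = ν.degree := by
  induction ν using Finsupp.induction_linear with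
  | zero => simp
  | add f g hf hg => rw [wt_add, wt_add, map_add]; omega
  | single s n =>
    simp only [wt_single, hdw, tlw, Finsupp.degree_single]
    split_ifs <;> omega

theorem Inv.age (h : Inv d L B a cm X T r l u) : On (fun s => s.1 < 2 * L + X + 1) u :=
  on_tl (by have := h.tl (2 * L + X + 1) (by omega); omega)

theorem Cst.B1 (C : Cst d L m B a c cm X) (i : ℕ) : 1 ≤ B ^ i :=
  Nat.one_le_pow _ _ (by have := C.hB; omega)

theorem Cst.d1 (C : Cst d L m B a c cm X) (i : ℕ) : 1 ≤ d ^ i :=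
  Nat.one_le_pow _ _ (by have := C.hd; omega)

theorem Inv.drop (C : Cst d L m B a c cm X) (h : Inv d L B a cm X T r l u) :
    ∃ k v, u = k + v ∧ v.degree = c ∧ On (fun s => 2 * L ≤ s.1) v ∧
      ∀ i, 2 * L ≤ i → wt (tlw i) k ≤ 2 * L + X - i := by
  have h1 : 1 * wt (d ^ ·) l ≤ d ^ L * wt (fun i => B ^ (L - i)) l :=
    wt_le _ _ (h.lev.imp fun s hs => by
      rw [one_mul]
      exact (Nat.pow_le_pow_right (by have := C.hd; omega) hs).trans
        (Nat.le_mul_of_pos_right _ (C.B1 _)))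
  have h2 : X ≤ a * d ^ L + u.degree := by
    have h3 := Nat.mul_le_mul_left (d ^ L) h.om
    have h4 := h.mass
    refine Nat.le_of_mul_le_mul_right (c := d ^ (2 * L + X + 1)) ?_ (C.d1 _)
    rw [add_mul, mul_comm a, mul_assoc, mul_comm u.degree]
    omega
  have h3 := hd_tl (2 * L) u
  have h4 := h.hd _ le_rfl
  have h5 := C.hX
  have h6 := C.hc
  have hne : u.support.Nonempty := by
    rw [Finsupp.support_nonempty_iff]
    rintro rfl
    simp at h3 h2
    omega
  obtain ⟨s, hs, hmax⟩ := Finset.exists_max_image u.support Prod.fst hne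
  have hon : On (fun t => t.1 < s.1 + 1) u := fun t ht =>
    Nat.lt_succ_of_le (hmax t (Finsupp.mem_support_iff.2 ht))
  have hs2 : 2 * L ≤ s.1 := by
    by_contra hc
    have := tl_on (i := 2 * L) (hon.imp fun t ht => by omega)
    omega
  obtain ⟨u1, rfl⟩ := exists_add_of_le
    (Finsupp.single_le_iff.2 (Nat.one_le_iff_ne_zero.2 (Finsupp.mem_support_iff.1 hs)))
  obtain ⟨n1, n2, rfl, o1, o2⟩ := split_on (2 * L ≤ ·) u1
  have h7 : wt (tlw (2 * L)) (Finsupp.single s 1 + (n1 + n2)) = 1 + n1.degree := by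
    rw [wt_add, wt_add, tl_on (o2.imp fun t ht => by omega),
      wt_const (c := 1) (o1.imp fun t ht => by simp [tlw, ht])]
    simp [tlw, hs2]
  obtain ⟨w, hw, w1⟩ := Finsupp.exists_le_degree_eq n1 (c - 1) (by omega)
  obtain ⟨w', rfl⟩ := exists_add_of_le hw
  refine ⟨w' + n2, Finsupp.single s 1 + w, by abel, by rw [map_add, Finsupp.degree_single]; omega,
    (On.single hs2 1).add (on_add.1 o1).1, fun i hi => ?_⟩
  by_cases hi' : i ≤ s.1
  · have := h.tl i hi
    simp only [wt_add, wt_single, tlw, hi', if_true] at this ⊢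
    omega
  · have := tl_on (i := i) (hon.imp fun t ht => by omega)
    simp only [wt_add] at this ⊢
    omega

theorem divmod [Fintype ι] (hd : 1 ≤ d) (h : On (fun s => s.1 < L) ν) :
    ∃ μ ρ, ν = d • μ + ρ ∧ ρ.degree ≤ L * Fintype.card ι * d := by
  refine ⟨ν.mapRange (· / d) (by simp), ν.mapRange (· % d) (by simp), ?_, ?_⟩
  · ext s
    simp [Nat.div_add_mod]
  · rw [Finsupp.degree_apply]
    refine (Finset.sum_le_card_nsmul _ _ d fun s _ => (Nat.mod_lt _ hd).le).trans ?_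
    refine Nat.mul_le_mul_right _ ((Finset.card_le_card (t := Finset.range L ×ˢ Finset.univ)
      fun s hs => ?_).trans (by simp))
    simpa using h s (Finsupp.mem_support_iff.1 (Finsupp.support_mapRange hs))

/-- the invariants pass to a child -/
theorem Inv.child {k v l' w : ℕ × ι →₀ ℕ} (C : Cst d L m B a c cm X)
    (h : Inv d L B a cm X T (r + 1) l (k + v)) (hk : ∀ i, 2 * L ≤ i → wt (tlw i) k ≤ 2 * L + X - i)
    (v1 : Val T r l') (v2 : Val T r w) (lev : On (fun s => s.1 ≤ L) l') (w0 : On (fun s => s.1 = 0) w)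
    (wc : w.degree ≤ cm) (om : wt (fun i => B ^ (L - i)) l' ≤ a * d ^ (2 * L + X + 1))
    (mass : wt (d ^ ·) l' + d ^ (2 * L + X + 1) * w.degree + d ^ (2 * L + X + 1) * k.degree =
      X * d ^ (2 * L + X + 1)) : Inv d L B a cm X T r l' (w + sh k) := by
  have hdeg : (sh k).degree = k.degree := Finsupp.degree_mapDomain _ _
  refine ⟨v1, v2.add (val_sh (on_add.1 h.v2).1), lev, om, fun i hi => ?_, fun i hi => ?_,
    by rw [map_add, hdeg, mul_add, ← add_assoc, mass]⟩
  · rcases i with _ | i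
    · simpa using (wt_const (ω := hdw 0) (c := 0) (fun s _ => by simp [hdw])).le
    · have h1 := h.hd i (by omega)
      have h2 := hd_tl (i + 1) w
      have e : (fun j => hdw (i + 1) (j + 1)) = hdw i := by ext j; simp [hdw]
      rw [wt_add] at h1
      rw [wt_add, wt_sh, e, Nat.succ_mul]
      omega
  · rcases eq_or_lt_of_le hi with rfl | hi'
    · have h1 := hd_tl (2 * L) (w + sh k)
      have h2 : w.degree + k.degree ≤ X := by
        refine Nat.le_of_mul_le_mul_right (c := d ^ (2 * L + X + 1)) ?_ (C.d1 _)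
        rw [add_mul, mul_comm w.degree, mul_comm k.degree]
        omega
      rw [map_add, hdeg] at h1
      omega
    · obtain ⟨i, rfl⟩ : ∃ j, i = j + 1 := ⟨i - 1, by omega⟩
      have h1 := hk i (by omega)
      have e : (fun j => tlw (i + 1) (j + 1)) = tlw i := by ext j; simp [tlw]
      rw [wt_add, wt_sh, e, tl_on (w0.imp fun s hs => by omega)]
      omega

theorem lattice0 [Fintype ι] (G n : ℕ) (hG : 0 < G) (h : G * (n + Fintype.card ι) ≤ wt (hdw 1) ν) :
    ∃ l' w, ν = l' + G • w ∧ On (fun s => s.1 = 0) w ∧ w.degree = n := by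
  classical
  obtain ⟨n1, n2, rfl, o1, o2⟩ := split_on (· = 0) ν
  rw [wt_add, wt_const (c := 1) (o1.imp fun s hs => by simp [hdw, hs]),
    wt_const (c := 0) (o2.imp fun s hs => by simp [hdw, hs])] at h
  obtain ⟨w, w1, w2, w3⟩ := lattice ({0} ×ˢ Finset.univ) n1 G n hG (by
    rw [← Finset.sum_subset (s₁ := n1.support), ← Finsupp.degree_apply]
    · simpa using h
    · intro s hs
      exact Finset.mem_product.2 ⟨Finset.mem_singleton.2 (o1 s (Finsupp.mem_support_iff.1 hs)),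
        Finset.mem_univ _⟩
    · intro s _ hs
      exact Finsupp.notMem_support_iff.1 hs)
  obtain ⟨x, rfl⟩ := exists_add_of_le w3
  exact ⟨x + n2, w, by abel, 
    fun s hs => Finset.mem_singleton.1 (Finset.mem_product.1 (w1 s hs)).1, w2⟩

theorem inv_finite [Fintype ι] [NeZero P] (C : Cst d L m B a c cm X) :
    {b : ZMod P × (ℕ × ι →₀ ℕ) × (ℕ × ι →₀ ℕ) | Inv d L B a cm X T b.1 b.2.1 b.2.2}.Finite := by
  classical
  let S : Finset (ℕ × ι) := Finset.range (2 * L + X + 1) ×ˢ Finset.univ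
  let M : ℕ × ι →₀ ℕ := Finsupp.indicator S fun _ _ => X * d ^ (2 * L + X + 1)
  have key : ∀ ν : ℕ × ι →₀ ℕ, On (fun s => s.1 < 2 * L + X + 1) ν →
      ν.degree ≤ X * d ^ (2 * L + X + 1) → ν ∈ Set.Iic M := by
    intro ν h1 h2 s
    by_cases h0 : ν s = 0
    · simp [h0]
    · rw [Finsupp.indicator_of_mem (by simpa [S] using h1 s h0)]
      exact (Finsupp.le_degree s ν).trans h2
  refine (Set.finite_univ.prod ((Set.finite_Iic M).prod (Set.finite_Iic M))).subset ?_
  rintro ⟨r, l, u⟩ h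
  have h1 := h.mass
  have h2 : wt (fun _ => 1) l ≤ wt (d ^ ·) l := wt_le' fun s _ => C.d1 _
  have h3 : u.degree ≤ d ^ (2 * L + X + 1) * u.degree := Nat.le_mul_of_pos_left _ (C.d1 _)
  rw [wt_one] at h2
  simp only at h1
  exact ⟨trivial, key l (h.lev.imp fun s hs => by omega) (by omega), key u h.age (by omega)⟩

end Pool.Agent.MP_93dc40_an.St

end

section

namespace Pool.Agent.MP_93dc40_an.St

open Finset MvPolynomial

variable {ι : Type} [Fintype ι] [DecidableEq ι] {P : ℕ}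

/-- the base with loose tokens `b.2.1` and units `b.2.2` -/
noncomputable def pb (d : ℕ) (Q : ZMod P → Matrix ι ι ℕ) (T : ZMod P → Finset ι) (H : ℕ)
    (b : ZMod P × (ℕ × ι →₀ ℕ) × (ℕ × ι →₀ ℕ)) : MvPolynomial ι ℚ :=
  tp d Q T b.1 b.2.1 * tp d Q T b.1 (up d H b.2.2) ^ d

/-- its perturbations -/
noncomputable def PPb (d : ℕ) (Q : ZMod P → Matrix ι ι ℕ) (T : ZMod P → Finset ι) (H D : ℕ)
    (b : ZMod P × (ℕ × ι →₀ ℕ) × (ℕ × ι →₀ ℕ)) : Submodule ℚ (MvPolynomial ι ℚ) :=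
  GG (T b.1) (tp d Q T b.1 (up d H b.2.2)) (d ^ H * b.2.2.degree) d 1 D

variable {d L B a c cm X : ℕ} {Q : ZMod P → Matrix ι ι ℕ} {T : ZMod P → Finset ι} {r : ZMod P}

omit [Fintype ι] [DecidableEq ι] in
theorem mass_up {H : ℕ} {u : ℕ × ι →₀ ℕ} (h : On (fun s => s.1 ≤ H) u) :
    wt (d ^ ·) (up d H u) = d ^ H * u.degree := by
  rw [wt_up]
  exact wt_const (h.imp fun s hs => by rw [← pow_add, Nat.sub_add_cancel hs])

theorem om_arith {x o e B' B a G y z c0 n : ℕ} (hB : 2 * (e + 1) ≤ B) (h1 : B * x ≤ o + e * o)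
    (h2 : o ≤ a * G) (h3 : y ≤ B' * (z * G)) (ha : 2 * B' * (z + n) ≤ a) {N : ℕ}
    (h4 : N ≤ G * (c0 + n)) : x + y + B' * N ≤ a * G + B' * (G * c0) := by
  have k1 : 2 * x ≤ o := by
    refine Nat.le_of_mul_le_mul_left (a := 2 * x) (b := o) (c := e + 1) ?_ (by omega)
    have := Nat.mul_le_mul_right x hB
    nlinarith
  have k2 := Nat.mul_le_mul_left B' h4
  have k3 := Nat.mul_le_mul_right G ha
  nlinarith

theorem kid_main (fr : Frame Q T L) (C : Cst d L (Fintype.card ι) B a c cm X)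
    {S : Finset (ZMod P × (ℕ × ι →₀ ℕ) × (ℕ × ι →₀ ℕ))}
    (hS : ∀ b, b ∈ S ↔ Inv d L B a cm X T b.1 b.2.1 b.2.2) {μ ρ l2 k v ε γ γ1 w : ℕ × ι →₀ ℕ}
    (h : Inv d L B a cm X T (r + 1) (d • μ + ρ + l2) (k + v))
    (o1 : On (fun s => s.1 < L) (d • μ + ρ)) (o2 : On (fun s => s.1 = L) l2)
    (hρ : ρ.degree ≤ L * Fintype.card ι * d) (hv : v.degree = c) (ov : On (fun s => 2 * L ≤ s.1) v)
    (hk : ∀ i, 2 * L ≤ i → wt (tlw i) k ≤ 2 * L + X - i)
    (hε : Hs d Q T r d (tp d Q T r (sh (d • μ + ρ))) ε)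
    (cε : ∀ ω, wt ω ε = wt ω (sh μ) + wt ω ρ) (vγ : Val T r γ) (oγ : On (fun s => s.1 ≤ L) γ)
    (bγ : B * wt (fun i => B ^ (L - i)) γ ≤ wt (fun i => B ^ (L - i)) (d • μ + ρ)) {n : ℕ}
    (hn : γ.degree + n = c * d ^ (X + 1)) (hn' : (Fintype.card ι + 1) * d ^ (X + 1) ≤ n)
    (v1 : Val T r γ1) (z1 : On (fun s => s.1 = 0) γ1) (vw : Val T r w) (zw : On (fun s => s.1 = 0) w)
    (hN : γ1.degree + d ^ L * d ^ (X + 1) * w.degree = d ^ L * n + l2.degree)
    (hN' : γ1.degree ≤ (Fintype.card ι + 2) * (d ^ L * d ^ (X + 1))) :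
    Kid d S Prod.fst (pb d Q T (2 * L + X)) r
      (psi d (Q r) (T (r + 1)) (T r) 0 (pb d Q T (2 * L + X) (r + 1, d • μ + ρ + l2, k + v)))
      (r, ε + up d (2 * L) γ + d ^ L • γ1, w + sh k) := by
  have hd := C.hd
  have hL := C.hL
  set m := Fintype.card ι
  obtain ⟨G1, hG1⟩ : ∃ G1, G1 = d ^ L * d ^ (X + 1) := ⟨_, rfl⟩
  obtain ⟨G, hG⟩ : ∃ G, G = d ^ (2 * L + X + 1) := ⟨_, rfl⟩
  have eG : G = d ^ L * G1 := by rw [hG, hG1]; ring
  have pG1 : 0 < G1 := by rw [hG1]; positivity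
  have pG : 0 < G := by rw [hG]; positivity
  have dG : d ≤ G := by rw [hG, pow_succ]; exact Nat.le_mul_of_pos_left _ (C.d1 _)
  rw [← hG1] at hN hN'
  have hv1 := on_add.1 h.v1
  have hv2 := on_add.1 h.v2
  have oμ : On (fun s => s.1 < L) μ := fun s hs => (on_add.1 o1).1 s (by
    rw [Finsupp.smul_apply, smul_eq_mul]; exact Nat.mul_ne_zero (by omega) hs)
  have ak : On (fun s => s.1 < 2 * L + X) k := on_tl (by have := hk (2 * L + X) (by omega); omega)
  have av := (on_add.1 h.age).2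
  obtain ⟨N, eN⟩ : ∃ N, N = d ^ L * n + l2.degree := ⟨_, rfl⟩
  have dγ : (γ1 + G1 • w).degree = N := by rw [map_add, map_nsmul, smul_eq_mul, hN, eN]
  have zγ : On (fun s => s.1 = 0) (γ1 + G1 • w) := z1.add (zw.smul _)
  have hH := hε.mul (two (d := d) fr n ((val_sh (hv2.2.up d (2 * L + X))).smul d)
    ((On.sh ((ov.up d _).imp fun s hs => by omega)).smul d) (val_sh hv1.2)
    (On.sh (o2.imp fun s hs => by simp [hs])) vγ oγ (v1.add (vw.smul G1)) zγ (by
      rw [hn, wt_smul, wt_sh, wt_up, wt_const (c := d ^ X) ((ov.and av).imp fun s hs => by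
        rw [← pow_add]; congr 1; omega), hv]
      ring) (by rw [dγ, eN, sh, Finsupp.degree_mapDomain]))
  set ξ := ε + (up d (2 * L) γ + d ^ L • (γ1 + G1 • w)) with hξ
  have eF : psi d (Q r) (T (r + 1)) (T r) 0 (pb d Q T (2 * L + X) (r + 1, d • μ + ρ + l2, k + v)) =
      tp d Q T r (sh (d • μ + ρ)) * (tp d Q T r (d • sh (up d (2 * L + X) v)) * tp d Q T r (sh l2)) *
        (tp d Q T r (up d (2 * L + X) (sh k)) ^ d) ^ d := by
    simp only [pb, map_mul, map_pow]
    rw [psi_tp (by omega) h.v1, psi_tp (by omega) (h.v2.up d _), up_add, sh_add (ν' := l2),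
      sh_add (ν := up d _ k), sh_up d _ ak, tp_add, tp_add, tp_smul, tp_smul]
    ring
  have hom := h.om
  have hmass := h.mass
  rw [← hG] at hom hmass
  rw [wt_add] at hom
  have f1 : wt (tlw (L + 1)) ξ = 0 := by
    rw [hξ, wt_add, cε, tl_on (On.sh (oμ.imp fun s hs => by omega)),
      tl_on ((on_add.1 o1).2.imp fun s hs => by omega), tl_on (((oγ.up d _).imp fun s hs => by
        omega).add ((zγ.smul _).imp fun s hs => by omega))]
  have f2 : wt (d ^ ·) ξ + G * k.degree = X * G := by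
    rw [hξ, wt_add, cε, wt_add, mass_up (oγ.imp fun s hs => by omega), wt_smul,
      wt_const (c := 1) (zγ.imp fun s hs => by simp [hs]), dγ, eN, ← hmass, wt_add, wt_add, wt_smul,
      wt_const (c := d ^ L) (o2.imp fun s hs => by simp [hs]), map_add, hv, wt_sh]
    have e1 : wt (fun l => d ^ (l + 1)) μ = d * wt (d ^ ·) μ := by
      refine le_antisymm ?_ ?_
      · simpa using wt_le 1 d (ω := fun l => d ^ (l + 1)) (ω' := (d ^ ·)) (ν := μ)
          fun s _ => by simp [pow_succ']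
      · simpa using wt_le d 1 (ω' := fun l => d ^ (l + 1)) (ω := (d ^ ·)) (ν := μ)
          fun s _ => by simp [pow_succ']
    have e2 : G * c = d ^ (2 * L) * (γ.degree + n) := by rw [hn, hG]; ring
    rw [e1, mul_add G, e2]
    ring
  have l2le : l2.degree ≤ a * d ^ L * G1 := by
    have := wt_const (ω := fun i => B ^ (L - i)) (c := 1) (o2.imp fun s hs => by simp [hs])
    rw [mul_assoc, ← eG]
    omega
  have Nle : N ≤ G1 * cm := by
    have e1 : d ^ L * n ≤ c * G1 := by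
      rw [hG1, mul_left_comm]; exact Nat.mul_le_mul_left _ (by omega)
    have e2 := Nat.mul_le_mul_right G1 C.hcm
    rw [add_mul] at e2
    rw [mul_comm]
    omega
  have f3 : ∀ c0, N ≤ G1 * (c0 + (m + 2)) →
      wt (fun i => B ^ (L - i)) ξ ≤ a * G + B ^ L * (G * c0) := by
    intro c0 hc0
    have e1 : B * wt (fun i => B ^ (L - i)) (sh μ) ≤ 1 * wt (fun i => B ^ (L - i)) μ := by
      rw [wt_sh]
      exact wt_le _ _ (oμ.imp fun s hs => by
        rw [one_mul, ← pow_succ']; exact (congrArg _ (by omega)).le)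
    have e2 : 1 * wt (fun i => B ^ (L - i)) (up d (2 * L) γ) ≤
        d ^ (2 * L) * wt (fun i => B ^ (L - i)) γ := by
      rw [wt_up]
      exact wt_le _ _ fun s _ => by
        simp only [one_mul]
        exact Nat.mul_le_mul_right _ (Nat.pow_le_pow_right (by omega) (Nat.sub_le _ _))
    have e3 : wt (fun i => B ^ (L - i)) μ ≤ wt (fun i => B ^ (L - i)) (d • μ + ρ) := by
      rw [wt_add, wt_smul]
      exact (Nat.le_mul_of_pos_left _ (by omega)).trans (Nat.le_add_right _ _)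
    have e4 : 1 * wt (fun i => B ^ (L - i)) ρ ≤ B ^ L * wt (fun _ => 1) ρ :=
      wt_le _ _ fun s _ => by
        simp only [one_mul, mul_one]
        exact Nat.pow_le_pow_right (by have := C.hB; omega) (Nat.sub_le _ _)
    rw [wt_one, one_mul] at e4
    have e5 := om_arith (x := wt (fun i => B ^ (L - i)) (sh μ) +
      wt (fun i => B ^ (L - i)) (up d (2 * L) γ)) (o := wt (fun i => B ^ (L - i)) (d • μ + ρ))
      (y := wt (fun i => B ^ (L - i)) ρ) (z := L * m) (n := m + 2) (G := G) (c0 := c0)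
      (N := d ^ L * N) C.hB (by
        have := Nat.mul_le_mul_left B e2
        have := Nat.mul_le_mul_left (d ^ (2 * L)) bγ
        rw [mul_add]
        nlinarith) (by omega : _ ≤ a * G)
      (e4.trans (Nat.mul_le_mul_left _ (hρ.trans (Nat.mul_le_mul_left _ dG)))) C.ha
      (by rw [eG, mul_assoc]; exact Nat.mul_le_mul_left _ hc0)
    rw [hξ, wt_add, cε, wt_add, wt_smul, wt_const (c := B ^ L) (zγ.imp fun s hs => by simp [hs]), dγ,
      mul_left_comm]
    omega
  have child : ∀ l' w' : ℕ × ι →₀ ℕ, Val T r (l' + G • w') → On (fun s => s.1 = 0) w' →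
      (∀ ω, wt ω (l' + G • w') = wt ω ξ) → N ≤ G1 * (w'.degree + (m + 2)) → w'.degree ≤ cm →
      (r, l', w' + sh k) ∈ S ∧ pb d Q T (2 * L + X) (r, l', w' + sh k) =
        tp d Q T r (l' + G • w') * tp d Q T r (up d (2 * L + X) (sh k)) ^ d := by
    intro l' w' a1 a2 a3 a4 a5
    rw [Val, on_add] at a1
    refine ⟨(hS _).2 (h.child C hk a1.1 (fun s hs => a1.2 s (by
      rw [Finsupp.smul_apply, smul_eq_mul]; exact Nat.mul_ne_zero pG.ne' hs))
      ((on_add.1 (on_tl ((a3 _).trans f1))).1.imp fun s hs => by omega) a2 a5 ?_ ?_), ?_⟩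
    · have := f3 _ a4
      rw [← a3, wt_add, wt_smul, wt_const (c := B ^ L) (a2.imp fun s hs => by simp [hs]),
        mul_left_comm] at this
      rw [← hG]
      exact Nat.le_of_add_le_add_right this
    · rw [← hG, ← f2, ← a3, wt_add, wt_smul, wt_const (c := 1) (a2.imp fun s hs => by simp [hs]),
        one_mul]
    · simp only [pb]
      rw [up_add, up_level0 d _ a2, tp_add, tp_add, tp_smul, tp_smul, hG]
      ring
  have eξ : ξ = ε + up d (2 * L) γ + d ^ L • γ1 + G • w := by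
    rw [hξ, smul_add, smul_smul, ← eG]; abel
  have dw : w.degree ≤ cm := Nat.le_of_mul_le_mul_left (by omega) pG1
  obtain ⟨b1, b2⟩ := child _ w (eξ ▸ hH.1) zw (fun ω => by rw [eξ]) (by
    rw [mul_add, mul_comm G1 (m + 2)]; omega) dw
  rw [eF]
  refine hH.kid b1 rfl (eξ ▸ b2) fun ζ a1 a2 => ?_
  have Nge : (m + 1) * G1 ≤ N := by
    have := Nat.mul_le_mul_left (d ^ L) hn'
    rw [mul_left_comm, ← hG1] at this
    omega
  obtain ⟨c0, hc0⟩ : ∃ c0, N / G1 = c0 + (m + 1) :=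
    ⟨N / G1 - (m + 1), by have := (Nat.le_div_iff_mul_le pG1).2 Nge; omega⟩
  have i1 := Nat.div_add_mod N G1
  have i2 := Nat.mod_lt N pG1
  rw [hc0, ← add_assoc, mul_add, mul_one] at i1
  obtain ⟨l', w', rfl, z', d'⟩ := lattice0 (ν := ζ) G c0 pG (by
    rw [a2, hξ, wt_add, wt_add, wt_smul, wt_const (c := 1) (zγ.imp fun s hs => by simp [hdw, hs]), dγ,
      eG, mul_assoc, one_mul]
    exact (Nat.mul_le_mul_left _ (by omega : G1 * (c0 + m) ≤ N)).trans
      ((Nat.le_add_left _ _).trans (Nat.le_add_left _ _)))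
  obtain ⟨c1, c2⟩ := child l' w' a1 z' a2 (by rw [d', ← add_assoc, mul_add]; omega) (by
    rw [mul_add] at i1
    rw [d']; exact Nat.le_of_mul_le_mul_left (by omega) pG1)
  exact ⟨_, c1, rfl, c2⟩

end Pool.Agent.MP_93dc40_an.St

end
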