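import Pool.Agent.Mg.F93dc40.G3c607e

section

namespace Pool.Agent.MP_93dc40_an

open Finset

/-- square roots of the numbers `ys 2` -/
def rt {k : ℕ} (M : Matrix (Fin k) (Fin k) ℕ) : ℕ → Fin k → ℕ
  | 0, _ => 1
  | n + 1, r => ∑ j, M r j * rt M n j ^ 2

theorem ys_rt {k : ℕ} (M : Matrix (Fin k) (Fin k) ℕ) : ∀ n r, ys 2 M n r = rt M n r ^ 2
  | 0, _ => rfl
  | n + 1, r => by simp only [ys, rt, ys_rt M n]

/-- the weighted system of types -/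
theorem weights {m : ℕ} (Q : Matrix (Fin m) (Fin m) ℕ) (U : Finset (Fin m)) (i0 : Fin m)
    (h0 : i0 ∈ U) (a b : Fin m → ℚ) (ha : ∀ i, 0 ≤ a i) (hb : ∀ i, 0 < b i)
    (low : ∀ z ∉ U, ∀ j ∈ U, Q z j = 0)
    (h1 : ∀ i ∈ U, ∀ z ∉ U, ∀ z', a i * Q z z' ≤ Q i z')
    (h2 : ∀ i ∈ U, ∀ z ∉ U, (∑ z', Q i z' : ℚ) + b i * ∑ z', (Q z z' : ℚ) ≤
      ∑ j ∈ U, (Q i j : ℚ) * (a j * b j))
    (v : Fin m × Fin m × ℚ) (hv : v.1 ∈ U)
    (hv' : v.2 ∈ insert (i0, (0 : ℚ)) (Uᶜ ×ˢ {-a v.1, b v.1})) :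
    ∃ P : Fin m → Fin m × ℚ → ℚ,
      (∀ j, ∀ τ ∈ insert (i0, (0 : ℚ)) (Uᶜ ×ˢ {-a j, b j}), 0 ≤ P j τ) ∧
      (∀ j, ∃ τ ∈ insert (i0, (0 : ℚ)) (Uᶜ ×ˢ {-a j, b j}), P j τ ≠ 0) ∧ ∀ y : Fin m → ℚ,
        ∑ j ∈ U, (Q v.1 j : ℚ) * ∑ τ ∈ insert (i0, (0 : ℚ)) (Uᶜ ×ˢ {-a j, b j}),
          P j τ * (y j + τ.2 * y τ.1) ^ 2 =
        ∑ j, (Q v.1 j : ℚ) * y j ^ 2 + v.2.2 * ∑ j, (Q v.2.1 j : ℚ) * y j ^ 2 ∧
      ∑ j ∈ U, (Q v.1 j : ℚ) * y j ^ 2 ≤
        ∑ j, (Q v.1 j : ℚ) * y j ^ 2 + v.2.2 * ∑ j, (Q v.2.1 j : ℚ) * y j ^ 2 := by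
  obtain ⟨i, z, t⟩ := v
  dsimp only at hv hv' ⊢
  obtain ⟨κ, hκ⟩ : ∃ κ, κ = ∑ j ∈ U, (Q i j : ℚ) * (a j * b j) := ⟨_, rfl⟩
  have κ0 : 0 ≤ κ := hκ ▸ sum_nonneg fun j _ => by
    have := ha j
    have := hb j
    positivity
  have hc : (∀ j ∈ U, t * Q z j = 0) ∧ (∀ z', 0 ≤ (Q i z' : ℚ) + t * Q z z') ∧
      (∑ z' ∈ Uᶜ, ((Q i z' : ℚ) + t * Q z z') ≤ κ) := by
    have hs : ∀ r, ∑ z' ∈ Uᶜ, (Q r z' : ℚ) ≤ ∑ z', (Q r z' : ℚ) := fun r =>
      sum_le_sum_of_subset_of_nonneg (subset_univ _) fun _ _ _ => by positivity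
    have hs0 : ∀ r, 0 ≤ ∑ z' ∈ Uᶜ, (Q r z' : ℚ) := fun r => sum_nonneg fun _ _ => by positivity
    rw [sum_add_distrib, ← mul_sum]
    rcases mem_insert.1 hv' with h | h
    · obtain ⟨-, rfl⟩ := Prod.mk.inj h
      refine ⟨by simp, fun _ => by simp, ?_⟩
      rcases (Uᶜ).eq_empty_or_nonempty with h | ⟨w, hw⟩
      · simpa [h] using κ0
      · have := h2 i hv w (mem_compl.1 hw)
        have := mul_nonneg (hb i).le ((hs0 w).trans (hs w))
        linarith [hs i]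
    · obtain ⟨hz, ht⟩ := mem_product.1 h
      have hz' : z ∉ U := mem_compl.1 hz
      have t1 : -a i ≤ t ∧ t ≤ b i := by
        have := ha i
        have := hb i
        rcases mem_insert.1 ht with h | h
        · constructor <;> linarith
        · have := mem_singleton.1 h
          constructor <;> linarith
      refine ⟨fun j hj => by simp [low z hz' j hj], fun z' => ?_, ?_⟩
      · have := mul_le_mul_of_nonneg_right t1.1 (show (0 : ℚ) ≤ Q z z' by positivity)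
        linarith [h1 i hv z hz' z']
      · have := mul_le_mul t1.2 (hs z) (hs0 z) (hb i).le
        linarith [h2 i hv z hz', hs i]
  obtain ⟨c1, c2, c3⟩ := hc
  have c4 : ∀ z' ∈ Uᶜ, κ * (((Q i z' : ℚ) + t * Q z z') / κ) = Q i z' + t * Q z z' := fun z' hz' => by
    rcases κ0.eq_or_lt with h | h
    · have := single_le_sum (fun x _ => c2 x) hz'
      rw [← h, zero_mul]
      linarith [c2 z']
    · field_simp
  have := fun j => law Uᶜ i0 (by simpa using h0) (a j) (b j) (ha j) (hb j)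
    (fun z' => ((Q i z' : ℚ) + t * Q z z') / κ) (fun z' _ => div_nonneg (c2 z') κ0)
    (by rw [← sum_div]; exact div_le_one_of_le₀ c3 κ0)
  choose P P1 P2 using this
  refine ⟨P, P1, fun j => ?_, fun y => ?_⟩
  · have := P2 j 1 0
    obtain ⟨τ, h, h'⟩ := exists_ne_zero_of_sum_ne_zero (this.trans_ne (by simp))
    exact ⟨τ, h, left_ne_zero_of_mul h'⟩
  · have e1 : ∑ j, (Q i j : ℚ) * y j ^ 2 + t * ∑ j, (Q z j : ℚ) * y j ^ 2 =
        ∑ j ∈ U, (Q i j : ℚ) * y j ^ 2 + ∑ z' ∈ Uᶜ, ((Q i z' : ℚ) + t * Q z z') * y z' ^ 2 := by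
      rw [mul_sum, ← sum_add_distrib, ← sum_add_sum_compl U]
      congr 1
      · exact sum_congr rfl fun j hj => by rw [← mul_assoc, c1 j hj]; ring
      · exact sum_congr rfl fun j _ => by ring
    rw [e1]
    refine ⟨?_, le_add_of_nonneg_right (sum_nonneg fun z' _ => mul_nonneg (c2 z') (sq_nonneg _))⟩
    simp only [P2, mul_add, sum_add_distrib, ← mul_assoc]
    rw [← sum_mul, show ∑ j ∈ U, (Q i j : ℚ) * a j * b j = κ by simp only [hκ, mul_assoc], mul_sum]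
    congr 1
    exact sum_congr rfl fun z' hz' => by rw [← mul_assoc, c4 z' hz']

end Pool.Agent.MP_93dc40_an

end

section

namespace Pool.Agent.MP_93dc40_an

open Finset

theorem nat_bound {α : Type} (S : Finset α) (f : α → ℚ) : ∃ C : ℕ, 1 ≤ C ∧ ∀ x ∈ S, f x ≤ C := by
  obtain ⟨C, hC⟩ := exists_nat_ge (∑ x ∈ S, |f x|)
  refine ⟨C + 1, by omega, fun x hx => ?_⟩
  have := single_le_sum (f := fun x => |f x|) (fun _ _ => abs_nonneg _) hx
  push_cast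
  linarith [le_abs_self (f x)]

theorem stable {m : ℕ} (Q : Matrix (Fin m) (Fin m) ℕ) (U : Finset (Fin m)) (lam Lam : Fin m → ℚ)
    (hU : U.Nonempty) (irr : ∀ i ∈ U, ∀ j ∈ U, ∃ n, 1 ≤ n ∧ 0 < (Q ^ n) i j)
    (low : ∀ z ∉ U, (∀ j ∈ U, Q z j = 0) ∧ 0 < ∑ j, Q z j)
    (hl : ∀ i, 0 ≤ lam i) (hL : ∀ i, 0 < Lam i)
    (h1 : ∀ i ∈ U, ∀ z ∉ U, ∀ j, lam i * Q z j ≤ Q i j)
    (h2 : ∀ i ∈ U, ∀ z ∉ U,
      Lam i * ∑ j, (Q z j : ℚ) < ∑ j ∈ U, (Q i j : ℚ) * (lam j * Lam j)) :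
    ∃ L₀ : ℕ, 1 ≤ L₀ ∧ ∀ L, 1 ≤ L → L₀ ∣ L →
      ∀ (k : ℕ) (M : Matrix (Fin k) (Fin k) ℕ) (π : Fin k → Fin m), IsBinary M →
        Function.Surjective π → (∀ v j, ∑ w with π w = j, M v w = L * Q (π v) j) →
        ∃ (k' : ℕ) (N : Matrix (Fin k') (Fin k') ℕ) (h : ℝ),
          IsBinary N ∧ IsIrred N ∧ HasEntropy 2 M h ∧ HasEntropy 2 N h := by
  classical
  obtain ⟨i0, h0⟩ := hU
  obtain ⟨θ, t, θ0, θ1, t0, θ2, hθ⟩ := slopes U Uᶜ lam Lam (fun i => ∑ j, (Q i j : ℚ))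
    (fun i => ∑ j, (Q i j : ℚ)) (fun i j => Q i j) fun i hi z hz => h2 i hi z (mem_compl.1 hz)
  obtain ⟨a, ha⟩ : ∃ a : Fin m → ℚ, ∀ i, a i = θ * lam i := ⟨_, fun _ => rfl⟩
  obtain ⟨b, hb⟩ : ∃ b : Fin m → ℚ, ∀ i, b i = t * Lam i := ⟨_, fun _ => rfl⟩
  simp only [← ha, ← hb] at θ2 hθ
  have a0 : ∀ i, 0 ≤ a i := fun i => ha i ▸ mul_nonneg θ0.le (hl i)
  have b0 : ∀ i, 0 < b i := fun i => hb i ▸ mul_pos t0 (hL i)
  have a1 : ∀ i ∈ U, ∀ z ∉ U, ∀ j, a i * Q z j ≤ Q i j := fun i hi z hz j => by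
    refine le_trans (mul_le_mul_of_nonneg_right ?_ (by positivity)) (h1 i hi z hz j)
    rw [ha]
    exact mul_le_of_le_one_left (hl i) θ1
  have hw := weights Q U i0 h0 a b a0 b0 (fun z hz => (low z hz).1) a1
    fun i hi z hz => hθ i hi z (mem_compl.2 hz)
  obtain ⟨T, hT⟩ : ∃ T : Fin m → Finset (Fin m × ℚ),
    ∀ j, T j = insert (i0, (0 : ℚ)) (Uᶜ ×ˢ {-a j, b j}) := ⟨_, fun _ => rfl⟩
  simp only [← hT] at hw
  choose! P P1 P2 P3 using hw
  obtain ⟨S, hS⟩ : ∃ S : Finset (Fin m × Fin m × ℚ), ∀ v, v ∈ S ↔ v.1 ∈ U ∧ v.2 ∈ T v.1 :=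
    ⟨U.biUnion fun j => (T j).image (Prod.mk j), fun v => by
      simp only [mem_biUnion, mem_image]
      exact ⟨by rintro ⟨j, h1, τ, h2, rfl⟩; exact ⟨h1, h2⟩, fun h => ⟨_, h.1, _, h.2, rfl⟩⟩⟩
  have ne : ∀ v ∈ S, 1 + v.2.2 ≠ 0 := fun v hv => by
    have := ((hS v).1 hv).2
    rw [hT] at this
    rcases mem_insert.1 this with h | h
    · simp [h]
    · rcases mem_insert.1 (mem_product.1 h).2 with h | h
      · intro h'
        exact θ2 v.1 (by linarith)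
      · have := mem_singleton.1 h
        exact (show 0 < 1 + v.2.2 by linarith [b0 v.1]).ne'
  obtain ⟨L₀, L1, hL₀⟩ := denoms (S ×ˢ S) (fun p => (Q p.1.1 p.2.1 : ℚ) * P p.1 p.2.1 p.2.2 *
    (1 + p.2.2.2) ^ 2 / |1 + p.1.2.2|) fun p hp => by
      obtain ⟨p1, p2⟩ := mem_product.1 hp
      have := P1 _ ((hS _).1 p1).1 ((hS _).1 p1).2 _ _ ((hS _).1 p2).2
      positivity
  refine ⟨L₀, L1, fun L L2 L3 k M π bM sπ eq => ?_⟩
  obtain ⟨n, hn⟩ := hL₀ L L3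
  have hn' : ∀ v ∈ S, ∀ w ∈ S, |1 + v.2.2| * n (v, w) =
      L * (Q v.1 w.1 * P v w.1 w.2) * (1 + w.2.2) ^ 2 := fun v hv w hw => by
    rw [hn _ (mem_product.2 ⟨hv, hw⟩)]
    have := abs_ne_zero.2 (ne v hv)
    field_simp
  have back : ∀ l, ∀ j ∈ U, 0 < Q l j → l ∈ U := fun l j hj h => by
    by_contra hl
    exact h.ne' ((low l hl).1 j hj)
  have up : ∀ n l, ∀ j ∈ U, 0 < (Q ^ n) l j → l ∈ U := fun n => by
    induction n with
    | zero =>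
      intro l j hj h
      rw [pow_zero, Matrix.one_apply] at h
      split_ifs at h with h'
      exacts [h' ▸ hj, absurd h (lt_irrefl 0)]
    | succ n ih =>
      intro l j hj h
      rw [pow_succ] at h
      obtain ⟨a, h1, h2⟩ := pow_step _ _ _ _ h
      exact ih l a (back a j hj h2) h1
  have succ : ∀ i ∈ U, ∃ j ∈ U, 0 < Q i j := fun i hi => by
    obtain ⟨n, n1, hn⟩ := irr i hi i hi
    obtain ⟨n, rfl⟩ := Nat.exists_eq_add_of_le' n1
    rw [pow_succ'] at hn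
    obtain ⟨a, h1, h2⟩ := pow_step _ _ _ _ hn
    exact ⟨a, up n a i hi h2, h1⟩
  have pred : ∀ j ∈ U, ∃ i ∈ U, 0 < Q i j := fun j hj => by
    obtain ⟨n, n1, hn⟩ := irr j hj j hj
    obtain ⟨n, rfl⟩ := Nat.exists_eq_add_of_le' n1
    rw [pow_succ] at hn
    obtain ⟨a, -, h2⟩ := pow_step _ _ _ _ hn
    exact ⟨a, back a j hj h2, h2⟩
  have kid : ∀ v ∈ S, ∀ j ∈ U, 0 < Q v.1 j → ∃ w ∈ S, n (v, w) ≠ 0 ∧ w.1 = j :=
    fun v hv j hj h => by
      obtain ⟨τ, h3, h4⟩ := P2 _ ((hS _).1 hv).1 ((hS _).1 hv).2 j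
      have hw : (j, τ) ∈ S := (hS _).2 ⟨hj, h3⟩
      refine ⟨_, hw, fun h5 => ?_, rfl⟩
      have h6 := hn' v hv _ hw
      have h7 := ne _ hw
      rw [h5] at h6
      simp [h4, h.ne', (show L ≠ 0 by omega)] at h6
      exact h7 h6
  obtain ⟨k', N, ρ, k0, bN, iN, ρS, ρc, ρs⟩ := realize' S
    ⟨(i0, i0, 0), (hS _).2 ⟨h0, by simp [hT]⟩⟩ (fun v w => n (v, w)) fun v hv => by
      obtain ⟨j, hj, h⟩ := succ _ ((hS _).1 hv).1
      obtain ⟨w, w1, w2, -⟩ := kid v hv j hj h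
      exact ⟨w, w1, w2⟩
  have ρU : ∀ v, (ρ v).1 ∈ U := fun v => ((hS _).1 (ρS v)).1
  have nxt : ∀ v, ∀ j ∈ U, 0 < Q (ρ v).1 j → ∃ w, N v w = 1 ∧ (ρ w).1 = j := fun v j hj h => by
    obtain ⟨w, w1, w2, rfl⟩ := kid _ (ρS v) j hj h
    obtain ⟨u, u1, rfl⟩ := ρc v w w1 w2
    exact ⟨u, u1, rfl⟩
  have rN : ∀ v, ∃ w, N v w = 1 := fun v => by
    obtain ⟨j, hj, h⟩ := succ _ (ρU v)
    obtain ⟨w, hw, -⟩ := nxt v j hj h
    exact ⟨w, hw⟩
  have onto : ∀ j ∈ U, ∃ w, (ρ w).1 = j := by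
    have : ∀ n, ∀ j ∈ U, 0 < (Q ^ n) (ρ ⟨0, k0⟩).1 j → ∃ w, (ρ w).1 = j := fun n => by
      induction n with
      | zero =>
        intro j hj h
        rw [pow_zero, Matrix.one_apply] at h
        split_ifs at h with h'
        exacts [⟨_, h'⟩, absurd h (lt_irrefl 0)]
      | succ n ih =>
        intro j hj h
        rw [pow_succ] at h
        obtain ⟨a, h1, h2⟩ := pow_step _ _ _ _ h
        obtain ⟨v, rfl⟩ := ih a (back a j hj h2) h1
        obtain ⟨w, -, hw⟩ := nxt v j hj h2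
        exact ⟨w, hw⟩
    intro j hj
    obtain ⟨n, -, hn⟩ := irr _ (ρU ⟨0, k0⟩) j hj
    exact this n j hj hn
  have fib : ∀ v (g : Fin m → ℕ), ∑ w, M v w * g (π w) = L * ∑ j, Q (π v) j * g j := fun v g => by
    rw [← sum_fiberwise univ π, mul_sum]
    refine sum_congr rfl fun j _ => ?_
    rw [← mul_assoc, ← eq, sum_mul]
    exact sum_congr rfl fun w hw => by rw [(mem_filter.1 hw).2]
  have rM : ∀ v, ∃ w, M v w = 1 := fun v => by
    have h3 : 0 < ∑ j, Q (π v) j := by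
      by_cases hv : π v ∈ U
      · obtain ⟨j, -, h⟩ := succ _ hv
        exact sum_pos' (fun _ _ => Nat.zero_le _) ⟨j, mem_univ _, h⟩
      · exact (low _ hv).2
    have h4 := fib v fun _ => 1
    simp only [mul_one] at h4
    obtain ⟨w, -, hw⟩ := exists_ne_zero_of_sum_ne_zero (h4.trans_ne (Nat.mul_pos L2 h3).ne')
    exact ⟨w, (bM v w).resolve_left hw⟩
  obtain ⟨y, y0, ys'⟩ : ∃ y : ℕ → Fin m → ℕ, (∀ i, y 0 i = 1) ∧
      ∀ n i, y (n + 1) i = L * ∑ j, Q i j * y n j ^ 2 :=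
    ⟨fun n => Nat.rec (fun _ => 1) (fun _ x i => L * ∑ j, Q i j * x j ^ 2) n, fun _ => rfl,
      fun _ _ => rfl⟩
  have yq : ∀ n i, (y (n + 1) i : ℚ) = L * ∑ j, (Q i j : ℚ) * (y n j : ℚ) ^ 2 := fun n i => by
    rw [ys']
    push_cast
    rfl
  have My : ∀ n v, rt M n v = y n (π v) := fun n => by
    induction n with
    | zero => exact fun v => (y0 _).symm
    | succ n ih => exact fun v => by simp only [rt, ih, ys', fib v fun j => y n j ^ 2]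
  have step : ∀ n, (∀ v, ((1 + (ρ v).2.2) * rt N n v) ^ 2 =
      (y n (ρ v).1 + (ρ v).2.2 * y n (ρ v).2.1) ^ 2) → ∀ v, |1 + (ρ v).2.2| * rt N (n + 1) v =
        y (n + 1) (ρ v).1 + (ρ v).2.2 * y (n + 1) (ρ v).2.1 := fun n' ih v => by
    have h3 := ρs v fun w => (y n' w.1 + w.2.2 * y n' w.2.1) ^ 2 / (1 + w.2.2) ^ 2
    have h4 : (rt N (n' + 1) v : ℚ) = ∑ j, (N v j : ℚ) *
        ((y n' (ρ j).1 + (ρ j).2.2 * y n' (ρ j).2.1) ^ 2 / (1 + (ρ j).2.2) ^ 2) := by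
      rw [rt]
      push_cast
      refine sum_congr rfl fun j _ => ?_
      have := ne _ (ρS j)
      rw [← ih j]
      field_simp
    rw [h4, h3, yq, yq, mul_left_comm, ← mul_add,
      ← (P3 _ (ρU v) ((hS _).1 (ρS v)).2 fun j => y n' j).1, mul_sum, sum_finset_product S U T hS,
      mul_sum]
    refine sum_congr rfl fun j hj => ?_
    rw [mul_sum, mul_sum]
    refine sum_congr rfl fun τ hτ => ?_
    have hw : (j, τ) ∈ S := (hS _).2 ⟨hj, hτ⟩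
    have := ne _ hw
    rw [← mul_assoc, hn' _ (ρS v) _ hw]
    field_simp
  have inv : ∀ n v, ((1 + (ρ v).2.2) * rt N n v) ^ 2 =
      (y n (ρ v).1 + (ρ v).2.2 * y n (ρ v).2.1) ^ 2 := fun n => by
    induction n with
    | zero => exact fun v => by simp [rt, y0]
    | succ n ih => exact fun v => by rw [← step n ih v, mul_pow, mul_pow, sq_abs]
  obtain ⟨C1, c1, hC1⟩ := nat_bound U fun i => (a i)⁻¹
  obtain ⟨C2, c2, hC2⟩ := nat_bound S fun v => |1 + v.2.2| + (1 + |v.2.2|) / |1 + v.2.2|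
  have dom : ∀ n r, ∃ j ∈ U, y n r ≤ C1 * y n j := fun n r => by
    by_cases hr : r ∈ U
    · exact ⟨r, hr, Nat.le_mul_of_pos_left _ c1⟩
    have h3 : (0 : ℚ) < ∑ j, (Q r j : ℚ) := by exact_mod_cast (low r hr).2
    obtain ⟨j, hj, h4⟩ := exists_ne_zero_of_sum_ne_zero
      ((mul_pos (hL i0) h3).trans (h2 i0 h0 r hr)).ne'
    have h5 : 0 < a j := ha j ▸ mul_pos θ0
      ((hl j).lt_of_ne' (left_ne_zero_of_mul (right_ne_zero_of_mul h4)))
    refine ⟨j, hj, ?_⟩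
    rcases n with _ | n
    · simpa [y0] using c1
    · have h6 : a j * y (n + 1) r ≤ y (n + 1) j := by
        rw [yq, yq, mul_left_comm, mul_sum]
        refine mul_le_mul_of_nonneg_left (sum_le_sum fun l _ => ?_) (by positivity)
        rw [← mul_assoc]
        exact mul_le_mul_of_nonneg_right (a1 j hj r hr l) (sq_nonneg _)
      have h7 := ((le_inv_mul_iff₀ h5).2 h6).trans
        (mul_le_mul_of_nonneg_right (hC1 j hj) (by positivity))
      exact_mod_cast h7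
  obtain ⟨C, hC⟩ : ∃ C, C = (L * ∑ r, ∑ j, Q r j + 1) * C1 ^ 2 * C2 := ⟨_, rfl⟩
  obtain ⟨v0, -⟩ := sπ i0
  obtain ⟨h, e1, e2⟩ := same_entropy M N (Fin.pos v0) k0 bM bN rM rN ((k + k') * C ^ 2)
    (fun n => by
      simp only [ys_rt, My]
      refine sum_cmp _ _ C _ (by omega) fun r => ?_
      obtain ⟨j, hj, hmax⟩ := exists_max_image U (y n) ⟨i0, h0⟩
      obtain ⟨i, hi, hij⟩ := pred j hj
      obtain ⟨v, rfl⟩ := onto i hi
      refine ⟨v, ?_⟩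
      have f1 : y (n + 1) (π r) ≤ (L * ∑ r, ∑ j, Q r j + 1) * C1 ^ 2 * y n j ^ 2 := by
        rw [ys', mul_assoc, ← mul_pow]
        refine le_trans (Nat.mul_le_mul_left L (sum_le_sum fun l _ => Nat.mul_le_mul_left _
          (Nat.pow_le_pow_left (m := C1 * y n j) ?_ 2))) ?_
        · obtain ⟨u, hu, h⟩ := dom n l
          exact h.trans (Nat.mul_le_mul_left _ (hmax u hu))
        · rw [← sum_mul, ← mul_assoc]
          exact Nat.mul_le_mul_right _ (Nat.le_succ_of_le (Nat.mul_le_mul_left _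
            (single_le_sum (f := fun r => ∑ j, Q r j) (fun _ _ => Nat.zero_le _) (mem_univ _))))
      have f2 : y n j ^ 2 ≤ C2 * rt N (n + 1) v := by
        have g1 := step n (inv n) v
        rw [yq, yq, mul_left_comm, ← mul_add] at g1
        have g2 := (P3 _ (ρU v) ((hS _).1 (ρS v)).2 fun j => y n j).2
        have g3 := single_le_sum (f := fun l => (Q (ρ v).1 l : ℚ) * (y n l : ℚ) ^ 2)
          (fun _ _ => by positivity) hj
        have g4 : (1 : ℚ) * (y n j : ℚ) ^ 2 ≤ Q (ρ v).1 j * (y n j : ℚ) ^ 2 :=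
          mul_le_mul_of_nonneg_right (by exact_mod_cast hij) (sq_nonneg _)
        have g5 := le_mul_of_one_le_left (((by positivity : (0 : ℚ) ≤ _).trans g3).trans g2)
          (show (1 : ℚ) ≤ L by exact_mod_cast L2)
        have g6 : |1 + (ρ v).2.2| * rt N (n + 1) v ≤ C2 * rt N (n + 1) v :=
          mul_le_mul_of_nonneg_right ((le_add_of_nonneg_right (by positivity)).trans
            (hC2 _ (ρS v))) (by positivity)
        have g7 : (y n j : ℚ) ^ 2 ≤ C2 * rt N (n + 1) v := by linarith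
        exact_mod_cast g7
      rw [hC, mul_assoc _ C2]
      exact f1.trans (Nat.mul_le_mul_left _ f2))
    (fun n => by
      simp only [ys_rt, My]
      refine sum_cmp _ _ C _ (by omega) fun v => ?_
      obtain ⟨j, -, hmax⟩ := exists_max_image univ (y (n + 1)) ⟨i0, mem_univ _⟩
      obtain ⟨r, rfl⟩ := sπ j
      refine ⟨r, le_trans ?_ (Nat.mul_le_mul_right _ (show C2 ≤ C by
        rw [hC]; exact Nat.le_mul_of_pos_left _ (by positivity)))⟩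
      have g1 := step n (inv n) v
      have g2 : (y (n + 1) (ρ v).1 : ℚ) ≤ y (n + 1) (π r) := by exact_mod_cast hmax _ (mem_univ _)
      have g3 : (y (n + 1) (ρ v).2.1 : ℚ) ≤ y (n + 1) (π r) := by
        exact_mod_cast hmax _ (mem_univ _)
      have g4 := mul_le_mul (le_abs_self (ρ v).2.2) g3 (by positivity) (abs_nonneg _)
      have g5 := abs_pos.2 (ne _ (ρS v))
      have g6 : (rt N (n + 1) v : ℚ) ≤ (1 + |(ρ v).2.2|) / |1 + (ρ v).2.2| * y (n + 1) (π r) := by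
        rw [div_mul_eq_mul_div, le_div_iff₀ g5]
        linarith
      have g7 := g6.trans (mul_le_mul_of_nonneg_right
        ((le_add_of_nonneg_left g5.le).trans (hC2 _ (ρS v))) (by positivity))
      exact_mod_cast g7)
  exact ⟨k', N, h, bN, iN, e1, e2⟩

end Pool.Agent.MP_93dc40_an

end
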