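import Pool.Agent.Mg.F93dc40.G8158ea

namespace Pool.Agent.MP_93dc40_an.St

open Finset MvPolynomial Filter Topology

section

variable {ι : Type} [Fintype ι] [DecidableEq ι]

theorem cont_Asm (d : ℕ) (Q : Matrix ι ι ℕ) (T' T : Finset ι) (g : MvPolynomial ι ℚ) :
    ∀ l : MvPolynomial ι ℚ →ₗ[ℚ] ℚ, Continuous fun η : ℚ => l (psi d Q T' T η g) := by
  induction g using MvPolynomial.induction_on with
  | C a =>
    intro l
    simp only [psi, aeval_C]
    exact continuous_const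
  | add f g hf hg =>
    intro l
    simp only [map_add]
    exact (hf l).add (hg l)
  | mul_X f i hf =>
    intro l
    have e : ∀ η : ℚ, l (psi d Q T' T η (f * X i)) = ∑ j,
        ((Q i j : ℚ) * η ^ (if i ∈ T' then if j ∈ T then 0 else d else d - 1)) *
          (l ∘ₗ LinearMap.mulRight ℚ (X j ^ d)) (psi d Q T' T η f) := by
      intro η
      rw [map_mul]
      conv_lhs => rw [psi, aeval_X, mul_sum, map_sum]
      refine sum_congr rfl fun j _ => ?_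
      rw [mul_left_comm, ← smul_eq_C_mul, map_smul]
      rfl
    simp only [e]
    exact continuous_finsetSum _ fun j _ => Continuous.mul (by fun_prop) (hf _)

theorem low_var_Asm {T : Finset ι} {n : ι →₀ ℕ} (h : 1 ≤ yd T n) :
    ∃ i n', i ∉ T ∧ n = n' + Finsupp.single i 1 := by
  have : ∃ i, i ∉ T ∧ n i ≠ 0 := by
    by_contra hc
    push Not at hc
    have : yd T n = 0 := by
      rw [yd, Finsupp.weight_apply, Finsupp.sum]
      refine sum_eq_zero fun i _ => ?_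
      by_cases hi : i ∈ T
      · simp [hi]
      · simp [hc i hi]
    omega
  obtain ⟨i, h1, h2⟩ := this
  refine ⟨i, n - Finsupp.single i 1, h1, ?_⟩
  rw [tsub_add_cancel_of_le]
  rw [Finsupp.single_le_iff]
  omega

theorem mono_split_Asm (n' : ι →₀ ℕ) (i : ι) :
    (monomial (n' + Finsupp.single i 1) 1 : MvPolynomial ι ℚ) = monomial n' 1 * X i := by
  rw [X, monomial_mul, mul_one]

theorem kill_Asm {d : ℕ} (hd : 2 ≤ d) (Q : Matrix ι ι ℕ) (T' T : Finset ι) {D : ℕ}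
    {f : MvPolynomial ι ℚ} (hf : f ∈ JJ T' 1 D) : psi d Q T' T 0 f = 0 := by
  induction hf using Submodule.span_induction with
  | mem f hf =>
    obtain ⟨n, h1, -, rfl⟩ := hf
    obtain ⟨i, n', hi, rfl⟩ := low_var_Asm h1
    rw [mono_split_Asm, map_mul]
    refine mul_eq_zero_of_right _ ?_
    have : d - 1 ≠ 0 := by omega
    simp [psi, hi, this]
  | zero => simp
  | add f g _ _ hf hg => rw [map_add, hf, hg, add_zero]
  | smul a f _ hf => rw [map_smul, hf, smul_zero]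

theorem mono_le_Asm (y : ι → ℚ) (a : ℚ) (hy : ∀ i, 0 ≤ y i ∧ y i ≤ a) (n : ι →₀ ℕ) :
    0 ≤ eval y (monomial n (1 : ℚ)) ∧ eval y (monomial n (1 : ℚ)) ≤ a ^ n.degree := by
  rw [eval_monomial, one_mul, Finsupp.prod_fintype _ _ (by simp), Finsupp.degree_eq_sum,
    ← prod_pow_eq_pow_sum]
  exact ⟨prod_nonneg fun i _ => pow_nonneg (hy i).1 _,
    prod_le_prod (fun i _ => pow_nonneg (hy i).1 _) fun i _ => pow_le_pow_left₀ (hy i).1 (hy i).2 _⟩

theorem big_Asm (y : ℕ → ι → ℚ) (t : ℕ → ℚ) (M : ℚ) (hy : ∀ n i, 0 ≤ y n i ∧ y n i ≤ M * t n)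
    (M0 : 0 ≤ M) (t0 : ∀ n, 0 < t n) {T : Finset ι} {s D : ℕ} {f : MvPolynomial ι ℚ}
    (hf : f ∈ JJ T s D) : ∃ c : ℚ, 0 ≤ c ∧ ∀ n, |eval (y n) f| ≤ c * t n ^ D := by
  induction hf using Submodule.span_induction with
  | mem f hf =>
    obtain ⟨n, -, h2, rfl⟩ := hf
    refine ⟨M ^ D, by positivity, fun m => ?_⟩
    have := mono_le_Asm (y m) _ (hy m) n
    rw [abs_of_nonneg this.1, ← mul_pow, ← h2]
    exact this.2
  | zero => exact ⟨0, le_rfl, fun n => by simp⟩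
  | add f g _ _ hf hg =>
    obtain ⟨a, a0, ha⟩ := hf
    obtain ⟨b, b0, hb⟩ := hg
    refine ⟨a + b, by positivity, fun n => ?_⟩
    rw [map_add, add_mul]
    exact (abs_add_le _ _).trans (add_le_add (ha n) (hb n))
  | smul a f _ hf =>
    obtain ⟨b, b0, hb⟩ := hf
    refine ⟨|a| * b, by positivity, fun n => ?_⟩
    rw [smul_eval, abs_mul, mul_assoc]
    exact mul_le_mul_of_nonneg_left (hb n) (abs_nonneg a)

theorem small_Asm (y : ℕ → ι → ℚ) (t : ℕ → ℚ) (M : ℚ) (hy : ∀ n i, 0 ≤ y n i ∧ y n i ≤ M * t n)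
    (M0 : 0 < M) (t0 : ∀ n, 0 < t n) (U : ℕ → Finset ι)
    (hs : ∀ ε : ℚ, 0 < ε → ∀ᶠ n : ℕ in atTop, ∀ z ∉ U n, y n z ≤ ε * t n)
    {T : Finset ι} {D : ℕ} {f : MvPolynomial ι ℚ} (hf : f ∈ JJ T 1 D) :
    ∀ ε : ℚ, 0 < ε → ∀ᶠ n : ℕ in atTop, U n = T → |eval (y n) f| ≤ ε * t n ^ D := by
  induction hf using Submodule.span_induction with
  | mem f hf =>
    obtain ⟨n, h1, h2, rfl⟩ := hf
    obtain ⟨i, n', hi, rfl⟩ := low_var_Asm h1
    intro ε hε
    filter_upwards [hs (ε / M ^ n'.degree) (by positivity)] with m hm hU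
    have h3 := mono_le_Asm (y m) _ (hy m) n'
    have h4 := hm i (hU ▸ hi)
    have h5 := t0 m
    rw [mono_split_Asm, map_mul, eval_X, abs_of_nonneg (mul_nonneg h3.1 (hy m i).1), ← h2, map_add,
      Finsupp.degree_single]
    refine (mul_le_mul h3.2 h4 (hy m i).1 (by positivity)).trans_eq ?_
    rw [mul_pow]
    field_simp
    ring
  | zero =>
    intro ε hε
    exact Eventually.of_forall fun n _ => by simpa using (mul_pos hε (pow_pos (t0 n) D)).le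
  | add f g _ _ hf hg =>
    intro ε hε
    filter_upwards [hf (ε / 2) (by positivity), hg (ε / 2) (by positivity)] with n h1 h2 hU
    rw [map_add]
    linarith [abs_add_le (eval (y n) f) (eval (y n) g), h1 hU, h2 hU]
  | smul a f _ hf =>
    intro ε hε
    filter_upwards [hf (ε / (|a| + 1)) (by positivity)] with n h1 hU
    rw [smul_eval, abs_mul]
    have h2 := pow_pos (t0 n) D
    have h3 := abs_nonneg a
    calc |a| * |eval (y n) f| ≤ (|a| + 1) * (ε / (|a| + 1) * t n ^ D) :=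
          mul_le_mul (by linarith) (h1 hU) (abs_nonneg _) (by positivity)
      _ = _ := by field_simp

theorem eval_psi_Asm {d : ℕ} (hd : 2 ≤ d) (Q : Matrix ι ι ℕ) (T' T : Finset ι)
    (closed : ∀ i ∉ T', ∀ j ∈ T, Q i j = 0) {η : ℚ} (hη : 0 < η) (x x' : ι → ℚ)
    (h : ∀ i, x' i = ∑ j, Q i j * x j ^ d) (f : MvPolynomial ι ℚ) :
    eval (fun i => if i ∈ T then x i else x i / η) (psi d Q T' T η f) =
      eval (fun i => if i ∈ T' then x' i else x' i / η) f := by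
  induction f using MvPolynomial.induction_on with
  | C a => simp [psi]
  | add f g hf hg => simp only [map_add, hf, hg]
  | mul_X f i hf =>
    rw [map_mul, map_mul, map_mul, hf]
    congr 1
    simp only [psi, aeval_X, map_sum, map_mul, eval_C, map_pow, eval_X, h, sum_div]
    obtain ⟨e, rfl⟩ : ∃ e, d = e + 1 := ⟨d - 1, by omega⟩
    by_cases hi : i ∈ T'
    · simp only [hi, if_true]
      refine sum_congr rfl fun j _ => ?_
      by_cases hj : j ∈ T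
      · simp [hj]
      · simp only [hj, if_false, div_pow]
        field_simp
    · simp only [hi, if_false]
      refine sum_congr rfl fun j _ => ?_
      by_cases hj : j ∈ T
      · simp [closed i hi j hj]
      · simp only [hj, if_false, div_pow, Nat.add_one_sub_one]
        field_simp
        ring

theorem avg_Asm {d P : ℕ} {κ : Type} {B : Finset κ} {ph : κ → ZMod P} {p : κ → MvPolynomial ι ℚ}
    {r : ZMod P} {F : MvPolynomial ι ℚ} (h0 : ∃ a, Kid d B ph p r F a) {β : Type} (s : Finset β)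
    (f : β → κ) (hs : ∀ u ∈ s, Kid d B ph p r F (f u)) :
    ∃ (c : κ → ℚ) (m : ℚ), 0 < m ∧ (∀ a, 0 ≤ c a) ∧ (∀ u ∈ s, m ≤ c (f u)) ∧
      (∀ a, ph a ≠ r → c a = 0) ∧ ∑ a ∈ B, c a • p a ^ d = F := by
  classical
  induction s using Finset.induction_on with
  | empty =>
    obtain ⟨a, -, -, c, h1, -, h3, h4⟩ := h0
    exact ⟨c, 1, one_pos, h1, by simp, h3, h4⟩
  | insert u s _ ih =>
    obtain ⟨c, m, m0, h1, h2, h3, h4⟩ := ih fun v hv => hs v (mem_insert_of_mem hv)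
    obtain ⟨-, -, c', g1, g2, g3, g4⟩ := hs u (mem_insert_self _ _)
    refine ⟨fun a => (1 / 2) * c a + (1 / 2) * c' a, min m (c' (f u)) / 2, by positivity,
      fun a => by have := h1 a; have := g1 a; positivity, fun v hv => ?_,
      fun a ha => by simp [h3 a ha, g3 a ha], ?_⟩
    · rcases mem_insert.1 hv with rfl | hv
      · linarith [min_le_right m (c' (f v)), h1 (f v)]
      · linarith [min_le_left m (c' (f u)), h2 v hv, g1 (f v)]
    · simp only [add_smul, mul_smul, sum_add_distrib, ← smul_sum, h4, g4]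
      rw [← add_smul]
      norm_num

theorem rep_Asm {d P : ℕ} {κ : Type} [DecidableEq κ] {B : Finset κ} {ph : κ → ZMod P}
    {p : κ → MvPolynomial ι ℚ} {r : ZMod P} {F f : MvPolynomial ι ℚ}
    {S S' : Finset (κ × MvPolynomial ι ℚ)} (hS : S' ⊆ S) (hB : ∀ a ∈ B, (a, 0) ∈ S)
    (hS' : ∀ u ∈ S', u.1 ∈ B ∧ ph u.1 = r) {c : κ → ℚ} {m : ℚ} (m0 : 0 < m) (h1 : ∀ a, 0 ≤ c a)
    (h2 : ∀ u ∈ S', m ≤ c u.1) (h3 : ∀ a, ph a ≠ r → c a = 0) (h4 : ∑ a ∈ B, c a • p a ^ d = F)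
    {w : κ × MvPolynomial ι ℚ → ℚ} (w0 : ∀ u, 0 ≤ w u) (w1 : ∑ u ∈ S', w u ≤ 1)
    (w2 : ∑ u ∈ S', w u • ((p u.1 + u.2) ^ d - p u.1 ^ d) = m⁻¹ • f) :
    ∃ V : κ × MvPolynomial ι ℚ → ℚ, (∀ u, 0 ≤ V u) ∧ (∀ u, ph u.1 ≠ r → V u = 0) ∧
      ∑ u ∈ S, V u • (p u.1 + u.2) ^ d = F + f := by
  classical
  let e : κ → ℚ := fun a => c a - m * ∑ u ∈ S' with u.1 = a, w u
  have e0 : ∀ a, 0 ≤ e a := fun a => by
    rcases (S'.filter fun u => u.1 = a).eq_empty_or_nonempty with h | ⟨u, hu⟩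
    · simp [e, h, h1 a]
    · obtain ⟨hu', rfl⟩ := mem_filter.1 hu
      have h5 : ∑ v ∈ S' with v.1 = u.1, w v ≤ 1 :=
        (sum_le_sum_of_subset_of_nonneg (filter_subset _ _) fun v _ _ => w0 v).trans w1
      have := h2 u hu'
      simp only [e]
      nlinarith
  refine ⟨fun u => (if u.1 ∈ B ∧ u.2 = 0 then e u.1 else 0) + if u ∈ S' then m * w u else 0,
    fun u => ?_, fun u hu => ?_, ?_⟩
  · have := e0 u.1
    have := w0 u
    beta_reduce
    split_ifs <;> positivity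
  · have h5 : u ∉ S' := fun h => hu (hS' u h).2
    have h6 : (S'.filter fun v => v.1 = u.1) = ∅ :=
      filter_eq_empty_iff.2 fun v hv h => hu (h ▸ (hS' v hv).2)
    simp [h5, e, h6, h3 _ hu]
  · have s1 : ∑ u ∈ S, (if u.1 ∈ B ∧ u.2 = 0 then e u.1 else 0) • (p u.1 + u.2) ^ d =
        ∑ a ∈ B, e a • p a ^ d := by
      symm
      refine sum_of_injOn (fun a => (a, 0)) (fun a _ b _ h => (Prod.mk.inj h).1)
        (fun a ha => hB a ha) (fun u _ hu => ?_) (fun a ha => by simp [ha])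
      rw [if_neg, zero_smul]
      rintro ⟨g1, g2⟩
      exact hu ⟨u.1, g1, Prod.ext rfl g2.symm⟩
    have s2 : ∑ u ∈ S, (if u ∈ S' then m * w u else 0) • (p u.1 + u.2) ^ d =
        ∑ u ∈ S', (m * w u) • (p u.1 + u.2) ^ d := by
      simp only [ite_smul, zero_smul]
      rw [sum_ite_mem, inter_eq_right.2 hS]
    have s3 : ∑ a ∈ B, (m * ∑ u ∈ S' with u.1 = a, w u) • p a ^ d =
        ∑ u ∈ S', (m * w u) • p u.1 ^ d := by
      rw [← sum_fiberwise_of_maps_to (g := Prod.fst) (fun u hu => (hS' u hu).1)]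
      refine sum_congr rfl fun a _ => ?_
      rw [mul_sum, sum_smul]
      exact sum_congr rfl fun u hu => by rw [(mem_filter.1 hu).2]
    have s4 : f = ∑ u ∈ S', (m * w u) • (p u.1 + u.2) ^ d - ∑ u ∈ S', (m * w u) • p u.1 ^ d := by
      rw [← sum_sub_distrib, ← smul_inv_smul₀ m0.ne' f, ← w2, smul_sum]
      exact sum_congr rfl fun u _ => by rw [smul_smul, smul_sub]
    simp only [add_smul, sum_add_distrib, s1, s2, e, sub_smul, sum_sub_distrib, h4, s3]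
    rw [s4]
    abel

theorem key_Asm {d : ℕ} (hd : 2 ≤ d) {P : ℕ} {Q : ZMod P → Matrix ι ι ℕ} {T : ZMod P → Finset ι}
    {κ : Type} {B : Finset κ} {ph : κ → ZMod P} {p : κ → MvPolynomial ι ℚ}
    {PP : κ → Submodule ℚ (MvPolynomial ι ℚ)} {D : ℕ} (G : Game d Q T B ph p PP D) :
    ∃ (S : Finset (κ × MvPolynomial ι ℚ)) (η : ℚ), S.Nonempty ∧ 0 < η ∧
      (∀ v ∈ S, v.1 ∈ B ∧ v.2 ∈ PP v.1) ∧ ∀ v ∈ S, ∀ r, ph v.1 = r + 1 →
      ∃ V : κ × MvPolynomial ι ℚ → ℚ, (∀ u, 0 ≤ V u) ∧ (∀ u, ph u.1 ≠ r → V u = 0) ∧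
        ∑ u ∈ S, V u • (p u.1 + u.2) ^ d = psi d (Q r) (T (r + 1)) (T r) η (p v.1 + v.2) := by
  classical
  have h0 : ∀ b, ph b = ph b - 1 + 1 := fun b => (sub_add_cancel _ _).symm
  have h1 := fun b (hb : b ∈ B) => G.step b hb _ (h0 b)
  choose! W hW hW' using h1
  simp only [Absorb] at hW
  choose! S n l η hS η0 hA using hW
  have h2 := fun b (hb : b ∈ B) => avg_Asm (G.rep b hb _ (h0 b)) (S b) Prod.fst
    fun u hu => (hS b hb u hu).1
  choose! c m m0 c0 c1 c2 c3 using h2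
  let S0 := B.image (fun b => (b, (0 : MvPolynomial ι ℚ))) ∪ B.biUnion S
  have g0 : ∀ a ∈ B, (a, 0) ∈ S0 := fun a ha => mem_union_left _ (mem_image_of_mem _ ha)
  have g1 : ∀ v ∈ S0, v.1 ∈ B ∧ v.2 ∈ PP v.1 := fun v hv => by
    rcases mem_union.1 hv with hv | hv
    · obtain ⟨b, hb, rfl⟩ := mem_image.1 hv
      exact ⟨hb, zero_mem _⟩
    · obtain ⟨b, hb, hv⟩ := mem_biUnion.1 hv
      exact ⟨(hS b hb v hv).1.1, (hS b hb v hv).2⟩
  have g2 : ∀ᶠ e : ℚ in 𝓝 0, ∀ v ∈ S0, ∀ i, |l v.1 i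
      (psi d (Q (ph v.1 - 1)) (T (ph v.1 - 1 + 1)) (T (ph v.1 - 1)) e (p v.1 + v.2) -
        psi d (Q (ph v.1 - 1)) (T (ph v.1 - 1 + 1)) (T (ph v.1 - 1)) 0 (p v.1))| <
          m v.1 * η v.1 := by
    refine (eventually_all_finset _).2 fun v hv => eventually_all.2 fun i => ?_
    obtain ⟨v1, v2⟩ := g1 v hv
    simp only [map_sub]
    refine ContinuousAt.eventually_lt ((cont_Asm d _ _ _ _ _).sub
      continuous_const).abs.continuousAt continuousAt_const ?_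
    have := kill_Asm hd (Q (ph v.1 - 1)) (T (ph v.1)) (T (ph v.1 - 1)) (G.per _ v1 v2)
    simpa [this] using mul_pos (m0 _ v1) (η0 _ v1)
  obtain ⟨e, g3, e0⟩ := ((eventually_nhdsWithin_of_eventually_nhds (s := Set.Ioi 0) g2).and
    self_mem_nhdsWithin).exists
  obtain ⟨b0, hb0⟩ := G.ne
  refine ⟨S0, e, ⟨_, g0 b0 hb0⟩, e0, g1, fun v hv r hr => ?_⟩
  obtain rfl : r = ph v.1 - 1 := eq_sub_of_add_eq hr.symm
  obtain ⟨v1, v2⟩ := g1 v hv
  have m1 := m0 _ v1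
  obtain ⟨w, w0, w1, w2⟩ := hA v.1 v1 _ ((W v.1).smul_mem (m v.1)⁻¹ (hW' v.1 v1 e v.2 v2))
    fun i => by
      rw [map_smul, smul_eq_mul, abs_mul, abs_of_pos (inv_pos.2 m1), inv_mul_le_iff₀ m1]
      exact (g3 v hv i).le
  obtain ⟨V, V0, V1, V2⟩ := rep_Asm (S := S0)
    (fun u hu => mem_union_right _ (mem_biUnion.2 ⟨_, v1, hu⟩)) g0
    (fun u hu => ⟨(hS _ v1 u hu).1.1, (hS _ v1 u hu).1.2.1⟩) m1 (c0 _ v1) (c1 _ v1) (c2 _ v1)
    (c3 _ v1) w0 w1 w2
  exact ⟨V, V0, V1, by rw [V2, add_sub_cancel]⟩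

end

theorem assemble {ι : Type} [Fintype ι] [DecidableEq ι] (d : ℕ) (hd : 2 ≤ d) {P : ℕ} [NeZero P]
    (Q : ZMod P → Matrix ι ι ℕ) (T : ZMod P → Finset ι)
    (closed : ∀ r, ∀ i ∉ T (r + 1), ∀ j ∈ T r, Q r i j = 0) {κ : Type} (B : Finset κ)
    (ph : κ → ZMod P) (p : κ → MvPolynomial ι ℚ) (PP : κ → Submodule ℚ (MvPolynomial ι ℚ)) (D : ℕ)
    (G : Game d Q T B ph p PP D) (x : ℕ → ι → ℚ) (t : ℕ → ℚ) (K : ℚ) (O : Orb d Q T x t K) :
    ∃ (α : Type) (S : Finset α) (W : α → α → ℚ) (γ : ℕ → α → ℚ) (n0 : ℕ) (c : ℚ), 0 < c ∧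
      Sys d S W γ ∧ (∀ n, ∀ v ∈ S, γ n v ≤ c * t (n + n0) ^ D) ∧
      ∀ v ∈ S, ∃ᶠ n in atTop, t (n + n0) ^ D ≤ c * γ n v := by
  classical
  obtain ⟨S, η, hS, η0, S1, S2⟩ := key_Asm hd G
  have h1 : ∀ v : κ × MvPolynomial ι ℚ, ∃ V : κ × MvPolynomial ι ℚ → ℚ, (∀ u, 0 ≤ V u) ∧
      (v ∈ S → (∀ u, ph u.1 ≠ ph v.1 - 1 → V u = 0) ∧ ∑ u ∈ S, V u • (p u.1 + u.2) ^ d =
        psi d (Q (ph v.1 - 1)) (T (ph v.1 - 1 + 1)) (T (ph v.1 - 1)) η (p v.1 + v.2)) := by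
    intro v
    by_cases hv : v ∈ S
    · obtain ⟨V, V0, V1⟩ := S2 v hv _ (sub_add_cancel _ _).symm
      exact ⟨V, V0, fun _ => V1⟩
    · exact ⟨0, fun _ => le_rfl, fun h => absurd h hv⟩
  choose V V0 V1 using h1
  obtain ⟨y, hy⟩ : ∃ y : ℕ → ι → ℚ, ∀ n, y n = fun i => if i ∈ T n then x n i else x n i / η :=
    ⟨_, fun _ => rfl⟩
  have K0 := O.K0
  have t0 := O.t0
  have y0 : ∀ n i, 0 ≤ y n i ∧ y n i ≤ (1 + η⁻¹) * t n := fun n i => by
    have g1 := O.bd n i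
    have g2 := mul_le_mul_of_nonneg_left g1.2 (inv_pos.2 η0).le
    have g3 := mul_nonneg (inv_pos.2 η0).le g1.1
    have g4 := t0 n
    simp only [hy, div_eq_inv_mul]
    split_ifs <;> constructor <;> linarith [g1.1, g1.2]
  have y1 : ∀ ε : ℚ, 0 < ε → ∀ᶠ n : ℕ in atTop, ∀ z ∉ T n, y n z ≤ ε * t n := fun ε hε => by
    filter_upwards [O.small (ε * η) (by positivity)] with n hn z hz
    simp only [hy, hz, if_false]
    rw [div_le_iff₀ η0]
    linarith [hn z hz]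
  have up : ∀ v ∈ S, ∃ c : ℚ, 0 ≤ c ∧ ∀ n, eval (y n) (p v.1 + v.2) ≤ c * t n ^ D := fun v hv => by
    obtain ⟨a, a0, ha⟩ := big_Asm y t _ y0 (by positivity) t0 (G.hom _ (S1 v hv).1)
    obtain ⟨b, b0, hb⟩ := big_Asm y t _ y0 (by positivity) t0 (G.per _ (S1 v hv).1 (S1 v hv).2)
    refine ⟨a + b, by positivity, fun n => ?_⟩
    rw [map_add, add_mul]
    exact add_le_add ((le_abs_self _).trans (ha n)) ((le_abs_self _).trans (hb n))
  choose! c c0 c1 using up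
  have lo : ∀ᶠ n : ℕ in atTop, ∀ v ∈ S, (n : ZMod P) = ph v.1 →
      t n ^ D ≤ 2 * K ^ D * eval (y n) (p v.1 + v.2) := by
    refine (eventually_all_finset _).2 fun v hv => ?_
    filter_upwards [O.top, small_Asm y t _ y0 (by positivity) t0 (fun n => T n) y1
      (G.per _ (S1 v hv).1 (S1 v hv).2) (1 / (2 * K ^ D)) (by positivity)] with n g1 g2 g3
    have g4 := (abs_le.1 (g2 (by rw [g3]))).1
    have g5 := G.low _ (S1 v hv).1 (y n) (t n / K) (div_pos (t0 n) K0).le fun k hk => by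
      rw [← g3] at hk
      simp only [hy, hk, if_true]
      rw [div_le_iff₀ K0]
      linarith [g1 k hk]
    have g6 : 0 < K ^ D := pow_pos K0 D
    rw [div_pow, div_le_iff₀ g6] at g5
    have g7 := mul_le_mul_of_nonneg_left g4 (show 0 ≤ 2 * K ^ D by positivity)
    have g8 : 2 * K ^ D * -(1 / (2 * K ^ D) * t n ^ D) = -t n ^ D := by field_simp
    rw [map_add]
    linarith
  obtain ⟨a, ha⟩ := eventually_atTop.1 lo
  have P0 : 0 < P := Nat.pos_of_ne_zero (NeZero.ne P)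
  obtain ⟨ν, hν⟩ : ∃ ν : ℕ → ZMod P → ℕ, ∀ m r,
      ν m r = P * a + (m + P - ((m : ZMod P) - r).val) := ⟨_, fun _ _ => rfl⟩
  have ν1 : ∀ m r, ν (m + 1) r = ν m (r - 1) + 1 := fun m r => by
    have := ZMod.val_lt ((m : ZMod P) - (r - 1))
    rw [hν, hν, show ((m + 1 : ℕ) : ZMod P) - r = m - (r - 1) by push_cast; ring]
    omega
  have ν2 : ∀ m r, ((ν m r : ℕ) : ZMod P) = r := fun m r => by
    have := ZMod.val_lt ((m : ZMod P) - r)
    rw [hν, Nat.cast_add, Nat.cast_sub (by omega)]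
    simp
  have ν3 : ∀ m r, a ≤ ν m r := fun m r => by
    rw [hν]
    nlinarith [Nat.zero_le (m + P - ((m : ZMod P) - r).val)]
  have cs : 0 ≤ ∑ v ∈ S, c v := sum_nonneg c0
  have KD : 0 < 2 * K ^ D := by positivity
  have ps : ∀ m, ∀ v ∈ S, 0 < eval (y (ν m (ph v.1))) (p v.1 + v.2) := fun m v hv =>
    (mul_pos_iff_of_pos_left KD).1 ((pow_pos (t0 _) D).trans_le (ha _ (ν3 m _) v hv (ν2 m _)))
  refine ⟨_, S, V, fun m v => eval (y (ν m (ph v.1))) (p v.1 + v.2), P * a + P,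
    ∑ v ∈ S, c v + 2 * K ^ D, by positivity, ⟨hS, V0, ps, fun m v hv => ?_⟩, fun m v hv => ?_,
    fun v hv => frequently_atTop.2 fun b => ?_⟩
  · have g1 := ν2 m (ph v.1 - 1)
    have g2 := eval_psi_Asm hd (Q (ph v.1 - 1)) (T (ph v.1 - 1 + 1)) (T (ph v.1 - 1))
      (closed _) η0 (x (ν m (ph v.1 - 1))) (x (ν m (ph v.1 - 1) + 1))
      (fun i => by rw [O.step, g1]) (p v.1 + v.2)
    rw [ν1, hy, Nat.cast_succ, g1, ← g2, ← (V1 v hv).2, map_sum]
    refine sum_congr rfl fun u _ => ?_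
    by_cases hu : ph u.1 = ph v.1 - 1
    · rw [smul_eval, map_pow, hu, hy, g1]
    · simp [(V1 v hv).1 u hu]
  · have g1 := pow_le_pow_left₀ (t0 _).le
      (O.mono (show ν m (ph v.1) ≤ m + (P * a + P) by rw [hν]; omega)) D
    have g2 := single_le_sum c0 hv
    exact (c1 v hv _).trans (mul_le_mul (by linarith) g1 (pow_pos (t0 _) D).le (by positivity))
  · refine ⟨(ph v.1).val + P * b, by nlinarith, ?_⟩
    have g1 : ν ((ph v.1).val + P * b) (ph v.1) = (ph v.1).val + P * b + (P * a + P) := by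
      simp [hν]
      omega
    have g2 := ha _ (ν3 ((ph v.1).val + P * b) _) v hv (ν2 _ _)
    have g3 := ps ((ph v.1).val + P * b) v hv
    rw [← g1]
    nlinarith

end Pool.Agent.MP_93dc40_an.St
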