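import Mathlib
import Pool.Agent.Mg.F93dc40.G24b968
import Pool.Agent.MP_93dc40_an.Defs

section

namespace Pool.Agent.MP_93dc40_an

open Finset MvPolynomial

variable {ι : Type}

/-- weighted sum of the absolute values of the coefficients -/
noncomputable def nrm (θ : ℚ) (p : MvPolynomial ι ℚ) : ℚ :=
  ∑ γ ∈ p.support, |coeff γ p| * θ ^ γ.degree

theorem nrm_eq (θ : ℚ) (p : MvPolynomial ι ℚ) (s : Finset (ι →₀ ℕ)) (h : p.support ⊆ s) :
    nrm θ p = ∑ γ ∈ s, |coeff γ p| * θ ^ γ.degree :=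
  sum_subset h fun γ _ hγ => by simp [notMem_support_iff.1 hγ]

theorem nrm_nonneg {θ : ℚ} (hθ : 0 ≤ θ) (p : MvPolynomial ι ℚ) : 0 ≤ nrm θ p :=
  sum_nonneg fun _ _ => by positivity

theorem nrm_zero (θ : ℚ) : nrm θ (0 : MvPolynomial ι ℚ) = 0 := by simp [nrm]

theorem nrm_add {θ : ℚ} (hθ : 0 ≤ θ) (p q : MvPolynomial ι ℚ) :
    nrm θ (p + q) ≤ nrm θ p + nrm θ q := by
  classical
  rw [nrm_eq θ _ _ support_add, nrm_eq θ p _ subset_union_left, nrm_eq θ q _ subset_union_right,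
    ← sum_add_distrib]
  refine sum_le_sum fun γ _ => ?_
  rw [← add_mul, coeff_add]
  exact mul_le_mul_of_nonneg_right (abs_add_le _ _) (by positivity)

theorem nrm_neg (θ : ℚ) (p : MvPolynomial ι ℚ) : nrm θ (-p) = nrm θ p := by simp [nrm]

theorem nrm_sub {θ : ℚ} (hθ : 0 ≤ θ) (p q : MvPolynomial ι ℚ) :
    nrm θ (p - q) ≤ nrm θ p + nrm θ q := by
  rw [sub_eq_add_neg, ← nrm_neg θ q]
  exact nrm_add hθ _ _

theorem nrm_sum {θ : ℚ} (hθ : 0 ≤ θ) {α : Type} (s : Finset α) (f : α → MvPolynomial ι ℚ) :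
    nrm θ (∑ a ∈ s, f a) ≤ ∑ a ∈ s, nrm θ (f a) :=
  le_sum_of_subadditive _ (nrm_zero θ).le (nrm_add hθ) s f

theorem nrm_monomial (θ : ℚ) (γ : ι →₀ ℕ) (c : ℚ) : nrm θ (monomial γ c) = |c| * θ ^ γ.degree := by
  classical
  rw [nrm_eq θ _ _ support_monomial_subset]
  simp

theorem nrm_C (θ c : ℚ) : nrm θ (C c : MvPolynomial ι ℚ) = |c| := by
  simpa using nrm_monomial θ (0 : ι →₀ ℕ) c

theorem nrm_one (θ : ℚ) : nrm θ (1 : MvPolynomial ι ℚ) = 1 := by
  simpa using nrm_C (ι := ι) θ 1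

theorem nrm_X (i : ι) : nrm 1 (X i : MvPolynomial ι ℚ) = 1 := by
  simp [X, nrm_monomial]

theorem nrm_mul {θ : ℚ} (hθ : 0 ≤ θ) (p q : MvPolynomial ι ℚ) :
    nrm θ (p * q) ≤ nrm θ p * nrm θ q := by
  conv_lhs => rw [p.as_sum, q.as_sum, sum_mul_sum]
  conv_rhs => rw [nrm, nrm, sum_mul_sum]
  refine (nrm_sum hθ _ _).trans (sum_le_sum fun a _ => (nrm_sum hθ _ _).trans
    (sum_le_sum fun b _ => ?_))
  rw [monomial_mul, nrm_monomial, map_add, pow_add, abs_mul]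
  exact le_of_eq (by ring)

theorem nrm_mul_le {p q : MvPolynomial ι ℚ} {a b : ℚ} (hp : nrm 1 p ≤ a) (hq : nrm 1 q ≤ b) :
    nrm 1 (p * q) ≤ a * b :=
  (nrm_mul zero_le_one p q).trans
    (mul_le_mul hp hq (nrm_nonneg zero_le_one _) ((nrm_nonneg zero_le_one _).trans hp))

theorem nrm_pow_le {p : MvPolynomial ι ℚ} {a : ℚ} (hp : nrm 1 p ≤ a) : ∀ n : ℕ, nrm 1 (p ^ n) ≤ a ^ n
  | 0 => by simp [nrm_one]
  | n + 1 => by
    rw [pow_succ, pow_succ]
    exact nrm_mul_le (nrm_pow_le hp n) hp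

theorem nrm_prod_le {α : Type} (s : Finset α) (f : α → MvPolynomial ι ℚ) (a : α → ℚ)
    (h : ∀ i, nrm 1 (f i) ≤ a i) : nrm 1 (∏ i ∈ s, f i) ≤ ∏ i ∈ s, a i := by
  classical
  induction s using Finset.induction_on with
  | empty => simp [nrm_one]
  | insert i s hi ih =>
    rw [prod_insert hi, prod_insert hi]
    exact nrm_mul_le (h i) ih

theorem abs_eval_le {θ : ℚ} (w : ι → ℚ) (hw : ∀ i, |w i| ≤ θ) (p : MvPolynomial ι ℚ) :
    |eval w p| ≤ nrm θ p := by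
  rw [eval_eq]
  refine (abs_sum_le_sum_abs _ _).trans (sum_le_sum fun γ _ => ?_)
  rw [abs_mul, abs_prod, Finsupp.degree_apply, ← prod_pow_eq_pow_sum]
  refine mul_le_mul_of_nonneg_left (prod_le_prod (fun _ _ => abs_nonneg _) fun i _ => ?_)
    (abs_nonneg _)
  rw [abs_pow]
  exact pow_le_pow_left₀ (abs_nonneg _) (hw i) _

theorem expand_bound (n : ℕ) (B : ℚ) (hB : 0 ≤ B) : ∃ K : ℚ, 1 ≤ K ∧
    ∀ (ι : Type) (y p : MvPolynomial ι ℚ) (l : ℚ), nrm 1 y ≤ B → nrm 1 p ≤ l → l ≤ 1 →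
      nrm 1 ((y + p) ^ (n + 1) - y ^ (n + 1)) ≤ K * l ∧
      nrm 1 ((y + p) ^ (n + 1) - y ^ (n + 1) - C (n + 1 : ℚ) * (y ^ n * p)) ≤ K * l ^ 2 := by
  induction n with
  | zero =>
    refine ⟨1, le_rfl, fun ι y p l _ hp _ => ⟨by simpa using hp, ?_⟩⟩
    simp [nrm_zero, sq_nonneg]
  | succ n ih =>
    obtain ⟨K, K1, hK⟩ := ih
    have p1 : 0 ≤ B ^ (n + 1) := by positivity
    have p2 : 0 ≤ (n + 1 : ℚ) * B ^ n := by positivity
    refine ⟨(B + 1) * K + B ^ (n + 1) + (n + 1) * B ^ n, by nlinarith, fun ι y p l hy hp hl => ?_⟩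
    obtain ⟨h1, h2⟩ := hK ι y p l hy hp hl
    have l0 : 0 ≤ l := (nrm_nonneg zero_le_one _).trans hp
    have h3 : nrm 1 (y + p) ≤ B + 1 := (nrm_add zero_le_one _ _).trans (by linarith)
    constructor
    · rw [show (y + p) ^ (n + 1 + 1) - y ^ (n + 1 + 1) =
        (y + p) * ((y + p) ^ (n + 1) - y ^ (n + 1)) + y ^ (n + 1) * p by ring]
      refine (nrm_add zero_le_one _ _).trans ((add_le_add (nrm_mul_le h3 h1)
        (nrm_mul_le (nrm_pow_le hy _) hp)).trans ?_)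
      nlinarith [mul_nonneg p2 l0]
    · rw [show (y + p) ^ (n + 1 + 1) - y ^ (n + 1 + 1) - C ((n + 1 : ℕ) + 1 : ℚ) * (y ^ (n + 1) * p) =
        (y + p) * ((y + p) ^ (n + 1) - y ^ (n + 1) - C (n + 1 : ℚ) * (y ^ n * p)) +
          C (n + 1 : ℚ) * (y ^ n * p ^ 2) by simp only [map_add, map_natCast, map_one]; push_cast; ring]
      refine (nrm_add zero_le_one _ _).trans ((add_le_add (nrm_mul_le h3 h2)
        (nrm_mul_le (a := n + 1) (by rw [nrm_C, abs_of_nonneg (by positivity)])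
          (nrm_mul_le (nrm_pow_le hy _) (nrm_pow_le hp 2)))).trans ?_)
      nlinarith [mul_nonneg p1 (sq_nonneg l)]

/-- iterated differences -/
def dif {R : Type} [CommRing R] : List R → (R → R) → R → R
  | [], g => g
  | a :: l, g => dif l fun x => g (x + a) - g x

theorem dif_sum {R : Type} [CommRing R] {α : Type} (s : Finset α) (c : α → R) :
    ∀ (l : List R) (g : α → R → R) (x : R),
      dif l (fun x => ∑ i ∈ s, c i * g i x) x = ∑ i ∈ s, c i * dif l (g i) x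
  | [], _, _ => rfl
  | a :: l, g, x => by
    simp only [dif, ← sum_sub_distrib, ← mul_sub]
    exact dif_sum s c l (fun i x => g i (x + a) - g i x) x

theorem dif_pow {R : Type} [CommRing R] : ∀ (l : List R) (n : ℕ) (x : R), n ≤ l.length →
    dif l (· ^ n) x = if n = l.length then (n.factorial : R) * l.prod else 0
  | [], n, x, h => by simp [dif, show n = 0 by simpa using h]
  | a :: l, n, x, h => by
    have e : (fun x : R => (x + a) ^ n - x ^ n) =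
        fun x => ∑ i ∈ range n, (a ^ (n - i) * n.choose i) * x ^ i := by
      funext x
      rw [add_pow, sum_range_succ]
      simp only [Nat.sub_self, pow_zero, Nat.choose_self, Nat.cast_one, mul_one, add_sub_cancel_right]
      exact sum_congr rfl fun i _ => by ring
    rw [List.length_cons] at h
    rw [dif, e, dif_sum (range n) (fun i => a ^ (n - i) * n.choose i) l fun i x => x ^ i,
      sum_congr rfl fun i hi => by rw [dif_pow l i x (by have := mem_range.1 hi; omega)]]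
    simp only [mul_ite, mul_zero, sum_ite_eq', mem_range, List.length_cons, List.prod_cons]
    by_cases hn : n = l.length + 1
    · subst hn
      simp [Nat.factorial_succ]
      ring
    · rw [if_neg (by omega), if_neg hn]

theorem dif_bound {R : Type} [CommRing R] (μ : R →+ ℝ) (c : ℝ) : ∀ (l : List R) (g : R → R) (x : R),
    (∀ s : List R, s.Sublist l → |μ (g (x + s.sum))| ≤ c) → |μ (dif l g x)| ≤ 2 ^ l.length * c := by
  intro l
  induction l generalizing c with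
  | nil => exact fun g x h => by simpa [dif] using h [] (List.Sublist.refl _)
  | cons a l ih =>
    intro g x h
    rw [dif, List.length_cons, pow_succ, mul_assoc]
    refine ih _ _ _ fun s hs => ?_
    have h1 := h (a :: s) (hs.cons_cons a)
    have h2 := h s (hs.cons a)
    rw [List.sum_cons, add_comm a, ← add_assoc] at h1
    rw [map_sub]
    exact (abs_sub _ _).trans (by linarith)

theorem polar {R : Type} [CommRing R] [Algebra ℚ R] (μ : R →ₗ[ℚ] ℝ) (l : List R) :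
    ∃ s : List R, s.Sublist l ∧ |μ l.prod| ≤ 2 ^ l.length * |μ (s.sum ^ l.length)| := by
  classical
  obtain ⟨s, hs, hm⟩ := exists_max_image l.sublists.toFinset (fun s => |μ (s.sum ^ l.length)|)
    ⟨[], by simp⟩
  refine ⟨s, by simpa using hs, le_trans ?_ (dif_bound μ.toAddMonoidHom _ l (· ^ l.length) 0
    fun t ht => by simpa using hm t (by simpa using ht))⟩
  rw [dif_pow l _ 0 le_rfl, if_pos rfl, ← nsmul_eq_mul, map_nsmul, nsmul_eq_mul, abs_mul,
    Nat.abs_cast]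
  exact le_mul_of_one_le_left (abs_nonneg _) (by exact_mod_cast Nat.factorial_pos _)

theorem split_exp (k D : ℕ) (hk : k ≤ D) : ∀ (j : ℕ) (γ : ι →₀ ℕ), (j + 1) * k ≤ γ.degree →
    γ.degree ≤ (j + 1) * D → ∃ l : List (ι →₀ ℕ), l.length = j + 1 ∧ l.sum = γ ∧
      ∀ δ ∈ l, k ≤ δ.degree ∧ δ.degree ≤ D
  | 0, γ, h1, h2 => ⟨[γ], rfl, by simp, by simpa using ⟨by simpa using h1, by simpa using h2⟩⟩
  | j + 1, γ, h1, h2 => by
    have := Nat.mul_le_mul_left (j + 1) hk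
    rw [add_mul, one_mul] at h1 h2
    obtain ⟨δ, hδ, e⟩ := Finsupp.exists_le_degree_eq γ (max k (γ.degree - (j + 1) * D)) (by omega)
    obtain ⟨ε, rfl⟩ := exists_add_of_le hδ
    rw [map_add] at h1 h2 e
    obtain ⟨l, l1, l2, l3⟩ := split_exp k D hk j ε (by omega) (by omega)
    refine ⟨δ :: l, by simp [l1], by simp [l2], fun x hx => ?_⟩
    rcases List.mem_cons.1 hx with rfl | hx
    · omega
    · exact l3 x hx

end Pool.Agent.MP_93dc40_an

end

section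

namespace Pool.Agent.MP_93dc40_an

open Finset Filter Topology

theorem lim_le {D : ℝ} (hD : 1 < D) (p q : ℕ → ℕ) (C : ℕ) (hp : ∀ n, 0 < p n) (hq : ∀ n, 0 < q n)
    (h : ∃ᶠ n in atTop, p n ≤ C * q n) {L L' : ℝ}
    (h1 : Tendsto (fun n : ℕ => Real.log (p n) / (D ^ (n + 1) - 1)) atTop (𝓝 L))
    (h2 : Tendsto (fun n : ℕ => Real.log (q n) / (D ^ (n + 1) - 1)) atTop (𝓝 L')) : L ≤ L' := by
  have hi := h2.add ((den_tendsto' hD).const_mul (Real.log C))
  rw [mul_zero, add_zero] at hi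
  refine le_of_tendsto_of_tendsto_of_frequently h1 hi (h.mono fun n hn => ?_)
  have hC : 0 < C := Nat.pos_of_mul_pos_right ((hp n).trans_le hn)
  have := hp n
  have := hq n
  rw [← div_eq_mul_inv, ← add_div, ← Real.log_mul (by positivity) (by positivity)]
  exact div_le_div_of_nonneg_right (Real.log_le_log (by positivity)
    (by exact_mod_cast mul_comm C _ ▸ hn)) (sub_pos.2 (one_lt_pow₀ hD n.succ_ne_zero)).le

theorem same_entropy'' (d : ℕ) (hd : 2 ≤ d) {k k' : ℕ} (M : Matrix (Fin k) (Fin k) ℕ)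
    (N : Matrix (Fin k') (Fin k') ℕ) (hk : 0 < k) (hk' : 0 < k') (bM : IsBinary M) (bN : IsBinary N)
    (rM : ∀ r, ∃ j, M r j = 1) (rN : ∀ r, ∃ j, N r j = 1) (C : ℕ)
    (h1 : ∃ᶠ n in atTop, ∀ i, ∃ j, rtd d M n i ≤ C * rtd d N n j)
    (h2 : ∃ᶠ n in atTop, ∀ j, ∃ i, rtd d N n j ≤ C * rtd d M n i) :
    ∃ h, HasEntropy d M h ∧ HasEntropy d N h := by
  have lim : ∀ {k : ℕ} (M : Matrix (Fin k) (Fin k) ℕ), 0 < k → IsBinary M → (∀ r, ∃ j, M r j = 1) →
      (∀ n, 0 < ∑ r, ys d M n r) ∧ ∃ L, Tendsto (fun n : ℕ => Real.log (∑ r, ys d M n r : ℕ) /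
        ((d : ℝ) ^ (n + 1) - 1)) atTop (𝓝 L) ∧ HasEntropy d M (L * (d - 1)) := by
    intro k M hk bM rM
    have pM : ∀ n, 0 < ∑ r, ys d M n r := fun n =>
      sum_pos (fun r _ => ys_pos d M rM n r) ⟨⟨0, hk⟩, mem_univ _⟩
    obtain ⟨L, hL⟩ := seq_limit' d hd (fun n => ∑ r, ys d M n r) k hk pM fun n => by
      refine (sum_le_card_nsmul _ _ ((∑ r, ys d M n r) ^ d) fun r _ => ?_).trans (by simp)
      refine Nat.pow_le_pow_left (sum_le_sum fun j _ => ?_) d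
      rcases bM r j with h | h <;> simp [h]
    obtain ⟨t, ht, -⟩ := exists_point d M rM ⟨0, hk⟩
    refine ⟨pM, L, hL, ⟨t, ht⟩, (hL.mul_const _).congr fun n => ?_⟩
    rw [blocks_eq d M bM rM, div_div_eq_mul_div, div_mul_eq_mul_div]
  obtain ⟨pM, L, hL, eM⟩ := lim M hk bM rM
  obtain ⟨pN, L', hL', eN⟩ := lim N hk' bN rN
  have d1 : (1 : ℝ) < d := by exact_mod_cast hd
  obtain rfl : L = L' := le_antisymm
    (lim_le d1 _ _ ((k + k') * C ^ d) pM pN (h1.mono fun n hn => by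
      simpa only [ys_rtd] using sum_cmp' d _ _ C _ (by omega) hn) hL hL')
    (lim_le d1 _ _ ((k + k') * C ^ d) pN pM (h2.mono fun n hn => by
      simpa only [ys_rtd] using sum_cmp' d _ _ C _ (by omega) hn) hL' hL)
  exact ⟨_, eM, eN⟩

theorem finish' (d : ℕ) (hd : 2 ≤ d) {α : Type} {S : Finset α} {W : α → α → ℚ} {g : ℕ → α → ℚ}
    (h : Sys d S W g) (m : ℕ) (z : ℕ → ℚ) (C : ℚ) (hC : 0 < C)
    (hz : ∀ n, ∀ v ∈ S, g n v ≤ C * z n) (hz' : ∀ v ∈ S, ∃ᶠ n in atTop, z n ≤ C * g n v) :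
    ∃ L₀ : ℕ, 1 ≤ L₀ ∧ ∀ L, 1 ≤ L → L₀ ∣ L → ∀ (k : ℕ) (M : Matrix (Fin k) (Fin k) ℕ), 0 < k →
      IsBinary M → (∀ r, ∃ j, M r j = 1) →
      (∀ n i, (rtd d M (n + m) i : ℚ) ≤ sc d L (n + m) * (C * z n)) →
      (∀ n, ∃ i, sc d L (n + m) * z n ≤ C * (rtd d M (n + m) i : ℚ)) →
      ∃ (k' : ℕ) (N : Matrix (Fin k') (Fin k') ℕ) (h : ℝ),
        IsBinary N ∧ IsIrred N ∧ HasEntropy d M h ∧ HasEntropy d N h := by
  obtain ⟨β, S', W', g', π, h1, h2, h3⟩ := h.backs (by omega) m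
  obtain ⟨L₀, L1, hL⟩ := h1.sim
  refine ⟨L₀, L1, fun L L2 L3 k M hk bM rM u1 u2 => ?_⟩
  obtain ⟨k', N, ρ, k0, bN, iN, rN, ρS, hN⟩ := hL L L2 L3
  obtain ⟨C', -, hC'⟩ := nat_bound' S' fun v => C * C * g' 0 v + C * C / g' 0 v
  obtain ⟨e, e1, e2⟩ := same_entropy'' d hd M N hk k0 bM bN rM rN C'
    ((tendsto_add_atTop_nat m).frequently ((hz' _ (h2 _ (ρS ⟨0, k0⟩))).mono fun n a2 i => by
      refine ⟨⟨0, k0⟩, ?_⟩
      have a0 := h1.pos 0 _ (ρS ⟨0, k0⟩)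
      have a1 := hN (n + m) ⟨0, k0⟩
      rw [← h3] at a2
      have a3 : (rtd d M (n + m) i : ℚ) ≤ C * C * g' 0 (ρ ⟨0, k0⟩) * rtd d N (n + m) ⟨0, k0⟩ := by
        rw [mul_assoc, a1]
        refine (u1 n i).trans ((mul_le_mul_of_nonneg_left (mul_le_mul_of_nonneg_left a2 hC.le)
          (by positivity)).trans_eq (by ring))
      have a4 := a3.trans (mul_le_mul_of_nonneg_right ((le_add_of_nonneg_right (by positivity)).trans
        (hC' _ (ρS _))) (by positivity))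
      exact_mod_cast a4))
    ((tendsto_add_atTop_nat m).frequently (Frequently.of_forall fun n j => by
      obtain ⟨i, hi⟩ := u2 n
      refine ⟨i, ?_⟩
      have a0 := h1.pos 0 _ (ρS j)
      have a1 := hN (n + m) j
      have a2 := hz n _ (h2 _ (ρS j))
      rw [← h3] at a2
      have a3 : (rtd d N (n + m) j : ℚ) ≤ C * C / g' 0 (ρ j) * rtd d M (n + m) i := by
        rw [div_mul_eq_mul_div, le_div_iff₀ a0, mul_comm, a1, mul_assoc]
        exact (mul_le_mul_of_nonneg_left a2 (by positivity)).trans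
          ((mul_left_comm _ _ _).trans_le (mul_le_mul_of_nonneg_left hi hC.le))
      have a4 := a3.trans (mul_le_mul_of_nonneg_right ((le_add_of_nonneg_left (by positivity)).trans
        (hC' _ (ρS _))) (by positivity))
      exact_mod_cast a4))
  exact ⟨k', N, e, bN, iN, e1, e2⟩

theorem growth (d : ℕ) (t : ℕ → ℚ) (a : ℚ) (ha : 0 < a) (t0 : ∀ j, 0 < t j)
    (h : ∀ j, t (j + 1) ≤ a * t j ^ d ∧ t j ^ d ≤ a * t (j + 1)) :
    ∀ s : ℕ, ∃ C : ℚ, 0 < C ∧ ∀ j, t (j + s) ≤ C * t j ^ d ^ s ∧ t j ^ d ^ s ≤ C * t (j + s)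
  | 0 => ⟨1, one_pos, fun j => by simp⟩
  | s + 1 => by
    obtain ⟨C, C0, hC⟩ := growth d t a ha t0 h s
    refine ⟨a * C ^ d, by positivity, fun j => ⟨?_, ?_⟩⟩
    · refine (h (j + s)).1.trans ?_
      rw [mul_assoc, pow_succ, pow_mul, ← mul_pow]
      exact mul_le_mul_of_nonneg_left (pow_le_pow_left₀ (t0 _).le (hC j).1 d) ha.le
    · rw [pow_succ, pow_mul, mul_comm a, mul_assoc]
      refine (pow_le_pow_left₀ (pow_pos (t0 _) _).le (hC j).2 d).trans ?_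
      rw [mul_pow]
      exact mul_le_mul_of_nonneg_left (h (j + s)).2 (by positivity)

theorem ev_bound {J : Type} (s : Finset J) (f : J → ℕ → ℚ) (l : J → ℝ)
    (h : ∀ j ∈ s, Tendsto (fun N => (f j N : ℝ)) atTop (𝓝 (l j))) :
    ∃ A : ℚ, 0 < A ∧ ∀ᶠ N in atTop, ∀ j ∈ s, |f j N| ≤ A := by
  obtain ⟨A, hA⟩ := exists_rat_gt (∑ j ∈ s, |l j|)
  refine ⟨A, by exact_mod_cast (sum_nonneg fun _ _ => abs_nonneg _).trans_lt hA,
    (eventually_all_finset _).2 fun j hj => ?_⟩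
  filter_upwards [(h j hj).abs.eventually (gt_mem_nhds
    ((single_le_sum (f := fun j => |l j|) (fun _ _ => abs_nonneg _) hj).trans_lt hA))] with N hN
  exact_mod_cast hN.le

end Pool.Agent.MP_93dc40_an

end

section

namespace Pool.Agent.MP_93dc40_an

/-- the count vectors: `cnt 0 = 1` and `cnt (n + 1) i = ∑ j, Q i j * cnt n j ^ d` -/
def cnt (d : ℕ) {m : ℕ} (Q : Matrix (Fin m) (Fin m) ℕ) : ℕ → Fin m → ℕ
  | 0, _ => 1
  | n + 1, i => ∑ j, Q i j * cnt d Q n j ^ d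

/-- the normalised map `x ↦ F x / ∑ k, F x k` with `F x i = ∑ j, Q i j * x j ^ d` -/
noncomputable def nmap (d : ℕ) {m : ℕ} (Q : Matrix (Fin m) (Fin m) ℕ) (x : Fin m → ℝ) (i : Fin m) : ℝ :=
  (∑ j, Q i j * x j ^ d) / ∑ k, ∑ j, Q k j * x j ^ d

/-- the Jacobian matrix of `nmap` at `x` -/
noncomputable def jac (d : ℕ) {m : ℕ} (Q : Matrix (Fin m) (Fin m) ℕ) (x : Fin m → ℝ) :
    Matrix (Fin m) (Fin m) ℝ := fun i j =>
  d * x j ^ (d - 1) * (Q i j - nmap d Q x i * ∑ k, (Q k j : ℝ)) / ∑ k, ∑ l, Q k l * x l ^ d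

/-- the product `jac (a (r + k - 1)) * ⋯ * jac (a r)` -/
noncomputable def jprod (d : ℕ) {m : ℕ} (Q : Matrix (Fin m) (Fin m) ℕ) (a : ℕ → Fin m → ℝ) :
    ℕ → ℕ → Matrix (Fin m) (Fin m) ℝ
  | _, 0 => 1
  | r, k + 1 => jprod d Q a (r + 1) k * jac d Q (a r)

end Pool.Agent.MP_93dc40_an

end

section

namespace Pool.Agent.MP_93dc40_an.St

open Finset MvPolynomial Filter Topology

variable {ι : Type} [Fintype ι] [DecidableEq ι]

/-- degree in the variables outside `T` -/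
noncomputable def yd (T : Finset ι) (n : ι →₀ ℕ) : ℕ :=
  Finsupp.weight (fun i => if i ∈ T then 0 else 1) n

/-- forms of degree `N` of order at least `s` in the variables outside `T` -/
noncomputable def JJ (T : Finset ι) (s N : ℕ) : Submodule ℚ (MvPolynomial ι ℚ) :=
  Submodule.span ℚ {f | ∃ n : ι →₀ ℕ, s ≤ yd T n ∧ n.degree = N ∧ f = monomial n 1}

/-- the substitution of one step, with the variables outside the top sets rescaled by `η` -/
noncomputable def psi (d : ℕ) (Q : Matrix ι ι ℕ) (T' T : Finset ι) (η : ℚ) :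
    MvPolynomial ι ℚ →ₐ[ℚ] MvPolynomial ι ℚ :=
  aeval fun i => ∑ j, C ((Q i j : ℚ) * η ^ (if i ∈ T' then if j ∈ T then 0 else d else d - 1)) *
    X j ^ d

/-- walks inside the top sets, going down in phase -/
def twalk {P : ℕ} (Q : ZMod P → Matrix ι ι ℕ) (T : ZMod P → Finset ι) (r : ZMod P) :
    ℕ → ι → ι → Prop
  | 0, i, k => i = k
  | l + 1, i, k => ∃ j ∈ T (r + l), 0 < Q (r + l) i j ∧ twalk Q T r l j k

/-- the top sets are closed upwards and mixing -/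
structure Frame {P : ℕ} (Q : ZMod P → Matrix ι ι ℕ) (T : ZMod P → Finset ι) (L : ℕ) : Prop where
  pos : 1 ≤ L
  ne : ∀ r, (T r).Nonempty
  closed : ∀ r, ∀ i ∉ T (r + 1), ∀ j ∈ T r, Q r i j = 0
  kid : ∀ r, ∀ i ∈ T (r + 1), ∃ j ∈ T r, 0 < Q r i j
  prim : ∀ r (l : ℕ), L ≤ l → ∀ i ∈ T (r + l), ∀ k ∈ T r, twalk Q T r l i k

/-- an orbit on which the top variables have the size `t` and the others are negligible -/
structure Orb (d : ℕ) {P : ℕ} (Q : ZMod P → Matrix ι ι ℕ) (T : ZMod P → Finset ι)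
    (x : ℕ → ι → ℚ) (t : ℕ → ℚ) (K : ℚ) : Prop where
  K0 : 0 < K
  t0 : ∀ n, 0 < t n
  mono : Monotone t
  bd : ∀ n i, 0 ≤ x n i ∧ x n i ≤ t n
  step : ∀ (n : ℕ) i, x (n + 1) i = ∑ j, Q n i j * x n j ^ d
  top : ∀ᶠ n : ℕ in atTop, ∀ k ∈ T n, t n ≤ K * x n k
  small : ∀ ε : ℚ, 0 < ε → ∀ᶠ n : ℕ in atTop, ∀ z ∉ T n, x n z ≤ ε * t n

/-- `F` is a nonnegative combination of `d`-th powers of bases of phase `r`, with positive weight
on `b` -/
def Kid (d : ℕ) {P : ℕ} {κ : Type} (B : Finset κ) (ph : κ → ZMod P) (p : κ → MvPolynomial ι ℚ)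
    (r : ZMod P) (F : MvPolynomial ι ℚ) (b : κ) : Prop :=
  b ∈ B ∧ ph b = r ∧ ∃ c : κ → ℚ, (∀ a, 0 ≤ c a) ∧ 0 < c b ∧ (∀ a, ph a ≠ r → c a = 0) ∧
    ∑ a ∈ B, c a • p a ^ d = F

/-- small elements of `W` are combinations of total weight at most one of finitely many
differences -/
def Absorb (d : ℕ) {κ : Type} (A : Set (κ × MvPolynomial ι ℚ)) (p : κ → MvPolynomial ι ℚ)
    (W : Submodule ℚ (MvPolynomial ι ℚ)) : Prop :=
  ∃ (S : Finset (κ × MvPolynomial ι ℚ)) (n : ℕ) (l : Fin n → MvPolynomial ι ℚ →ₗ[ℚ] ℚ) (η : ℚ),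
    (∀ u ∈ S, u ∈ A) ∧ 0 < η ∧ ∀ f ∈ W, (∀ i, |l i f| ≤ η) → ∃ w : κ × MvPolynomial ι ℚ → ℚ,
      (∀ u, 0 ≤ w u) ∧ ∑ u ∈ S, w u ≤ 1 ∧ ∑ u ∈ S, w u • ((p u.1 + u.2) ^ d - p u.1 ^ d) = f

/-- a closed family of bases `p` with spaces `PP` of perturbations -/
structure Game (d : ℕ) {P : ℕ} (Q : ZMod P → Matrix ι ι ℕ) (T : ZMod P → Finset ι) {κ : Type}
    (B : Finset κ) (ph : κ → ZMod P) (p : κ → MvPolynomial ι ℚ)
    (PP : κ → Submodule ℚ (MvPolynomial ι ℚ)) (D : ℕ) : Prop where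
  ne : B.Nonempty
  low : ∀ b ∈ B, ∀ (y : ι → ℚ) (θ : ℚ), 0 ≤ θ → (∀ k ∈ T (ph b), θ ≤ y k) → θ ^ D ≤ eval y (p b)
  hom : ∀ b ∈ B, p b ∈ JJ (T (ph b)) 0 D
  per : ∀ b ∈ B, PP b ≤ JJ (T (ph b)) 1 D
  rep : ∀ b ∈ B, ∀ r, ph b = r + 1 →
    ∃ a, Kid d B ph p r (psi d (Q r) (T (r + 1)) (T r) 0 (p b)) a
  step : ∀ b ∈ B, ∀ r, ph b = r + 1 → ∃ W : Submodule ℚ (MvPolynomial ι ℚ),
    Absorb d {u | Kid d B ph p r (psi d (Q r) (T (r + 1)) (T r) 0 (p b)) u.1 ∧ u.2 ∈ PP u.1} p W ∧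
    ∀ (η : ℚ), ∀ π ∈ PP b,
      psi d (Q r) (T (r + 1)) (T r) η (p b + π) - psi d (Q r) (T (r + 1)) (T r) 0 (p b) ∈ W

end Pool.Agent.MP_93dc40_an.St

end

section

namespace Pool.Agent.MP_93dc40_an.St

open Finset MvPolynomial

theorem mul_span {K A : Type} [CommSemiring K] [CommSemiring A] [Algebra K A] {S S' : Set A}
    {U : Submodule K A} (h : ∀ a ∈ S, ∀ b ∈ S', a * b ∈ U) {f g : A}
    (hf : f ∈ Submodule.span K S) (hg : g ∈ Submodule.span K S') : f * g ∈ U := by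
  have := Submodule.mul_mem_mul hf hg
  rw [Submodule.span_mul_span] at this
  refine Submodule.span_le.2 ?_ this
  rintro _ ⟨a, ha, b, hb, rfl⟩
  exact h a ha b hb

/-- lattice points below a vector with a large mass on `S` -/
theorem lattice {σ : Type} [DecidableEq σ] (S : Finset σ) (n : σ →₀ ℕ) (a c : ℕ) (ha : 0 < a)
    (h : a * (c + S.card) ≤ ∑ s ∈ S, n s) :
    ∃ ρ : σ →₀ ℕ, (∀ s, ρ s ≠ 0 → s ∈ S) ∧ ρ.degree = c ∧ a • ρ ≤ n := by
  let ρ0 : σ →₀ ℕ := Finsupp.onFinset S (fun s => if s ∈ S then n s / a else 0)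
    (by intro s hs; by_contra hc; simp [hc] at hs)
  have hd : ρ0.degree = ∑ s ∈ S, n s / a := by
    rw [Finsupp.degree_apply, Finset.sum_subset (s₂ := S) Finsupp.support_onFinset_subset]
    · exact Finset.sum_congr rfl fun s hs => by simp [ρ0, hs]
    · intro s _ hs
      exact Finsupp.notMem_support_iff.1 hs
  have h1 : ∑ s ∈ S, n s ≤ a * (∑ s ∈ S, n s / a) + a * S.card := by
    rw [Finset.mul_sum, Finset.card_eq_sum_ones, Finset.mul_sum, ← Finset.sum_add_distrib]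
    refine Finset.sum_le_sum fun s _ => ?_
    have := Nat.div_add_mod (n s) a
    have := Nat.mod_lt (n s) ha
    omega
  have h2 : c ≤ ρ0.degree := by
    rw [hd]
    have : a * c ≤ a * ∑ s ∈ S, n s / a := by nlinarith
    exact Nat.le_of_mul_le_mul_left this ha
  obtain ⟨ρ, hρ, hc⟩ := Finsupp.exists_le_degree_eq ρ0 c h2
  refine ⟨ρ, fun s hs => ?_, hc, fun s => ?_⟩
  · by_contra hc'
    have := hρ s
    simp [ρ0, hc'] at this
    exact hs this
  · have := hρ s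
    simp only [ρ0, Finsupp.onFinset_apply] at this
    simp only [Finsupp.smul_apply, smul_eq_mul]
    calc a * ρ s ≤ a * (n s / a) := Nat.mul_le_mul_left _ (this.trans (by split_ifs <;> simp))
      _ ≤ n s := Nat.mul_div_le _ _

variable {ι : Type} [Fintype ι] [DecidableEq ι]

/-- forms of degree `N` that have degree exactly `y` in the variables outside `T` -/
noncomputable def EE (T : Finset ι) (y N : ℕ) : Submodule ℚ (MvPolynomial ι ℚ) :=
  Submodule.span ℚ {f | ∃ n : ι →₀ ℕ, yd T n = y ∧ n.degree = N ∧ f = monomial n 1}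

/-- forms of degree `N` of order `a` along `R` and the variables outside `T`, and of order `s`
along the latter -/
noncomputable def GG (T : Finset ι) (R : MvPolynomial ι ℚ) (δ a s N : ℕ) :
    Submodule ℚ (MvPolynomial ι ℚ) :=
  Submodule.span ℚ {f | ∃ (b : ℕ) (n : ι →₀ ℕ), a ≤ b + yd T n ∧ s ≤ yd T n ∧
    b * δ + n.degree = N ∧ f = R ^ b * monomial n 1}

section basic
variable {T : Finset ι} {R : MvPolynomial ι ℚ} {δ a s N a' s' N' y y' : ℕ} {f g : MvPolynomial ι ℚ}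

omit [Fintype ι] in
theorem yd_add (n n' : ι →₀ ℕ) : yd T (n + n') = yd T n + yd T n' := map_add _ _ _

omit [Fintype ι] in
@[simp] theorem yd_zero : yd T 0 = 0 := map_zero _

omit [Fintype ι] in
theorem yd_smul (c : ℕ) (n : ι →₀ ℕ) : yd T (c • n) = c * yd T n := by
  unfold yd; rw [map_nsmul, smul_eq_mul]

omit [Fintype ι] in
theorem yd_single (i : ι) (c : ℕ) : yd T (Finsupp.single i c) = if i ∈ T then 0 else c := by
  unfold yd; rw [Finsupp.weight_single]; split_ifs <;> simp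

theorem yd_sum (n : ι →₀ ℕ) : yd T n = ∑ i ∈ Tᶜ, n i := by
  unfold yd
  rw [Finsupp.weight_eq_sum, ← Finset.sum_add_sum_compl T]
  rw [Finset.sum_eq_zero (s := T) (fun i hi => by simp [hi]), zero_add]
  exact Finset.sum_congr rfl fun i hi => by simp [Finset.mem_compl.1 hi]

theorem yd_deg (n : ι →₀ ℕ) : ∑ i ∈ T, n i + yd T n = n.degree := by
  rw [yd_sum, Finsupp.degree_eq_sum, Finset.sum_add_sum_compl]

theorem yd_eq_zero {n : ι →₀ ℕ} : yd T n = 0 ↔ ∀ i, n i ≠ 0 → i ∈ T := by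
  rw [yd_sum, Finset.sum_eq_zero_iff]
  constructor
  · intro h i hi
    by_contra hc
    exact hi (h i (Finset.mem_compl.2 hc))
  · intro h i hi
    by_contra hc
    exact Finset.mem_compl.1 hi (h i hc)

omit [Fintype ι] in
theorem EE_mul (hf : f ∈ EE T y N) (hg : g ∈ EE T y' N') : f * g ∈ EE T (y + y') (N + N') := by
  refine mul_span ?_ hf hg
  rintro _ ⟨n, h1, h2, rfl⟩ _ ⟨n', h1', h2', rfl⟩
  exact Submodule.subset_span ⟨n + n', by rw [yd_add, h1, h1'], by rw [map_add, h2, h2'],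
    by rw [monomial_mul, one_mul]⟩

omit [Fintype ι] in
theorem EE_mon (n : ι →₀ ℕ) : monomial n (1 : ℚ) ∈ EE T (yd T n) n.degree :=
  Submodule.subset_span ⟨n, rfl, rfl, rfl⟩

omit [Fintype ι] in
theorem EE_one : (1 : MvPolynomial ι ℚ) ∈ EE T 0 0 := by
  simpa using EE_mon (T := T) 0

omit [Fintype ι] in
theorem EE_pow (hf : f ∈ EE T y N) (k : ℕ) : f ^ k ∈ EE T (k * y) (k * N) := by
  induction k with
  | zero => simpa using EE_one
  | succ k ih => rw [pow_succ, Nat.succ_mul, Nat.succ_mul]; exact EE_mul ih hf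

omit [Fintype ι] in
theorem EE_mul0 (hf : f ∈ EE T 0 N) (hg : g ∈ EE T 0 N') : f * g ∈ EE T 0 (N + N') := by
  have := EE_mul hf hg
  rwa [add_zero] at this

omit [Fintype ι] in
theorem EE_pow0 (hf : f ∈ EE T 0 N) (k : ℕ) : f ^ k ∈ EE T 0 (k * N) := by
  have := EE_pow hf k
  rwa [mul_zero] at this

omit [Fintype ι] in
theorem EE_le_JJ (h : s ≤ y) : EE T y N ≤ JJ T s N := by
  refine Submodule.span_mono ?_
  rintro _ ⟨n, h1, h2, rfl⟩
  exact ⟨n, h1 ▸ h, h2, rfl⟩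

omit [Fintype ι] in
theorem JJ_mul (hf : f ∈ JJ T s N) (hg : g ∈ JJ T s' N') : f * g ∈ JJ T (s + s') (N + N') := by
  refine mul_span ?_ hf hg
  rintro _ ⟨n, h1, h2, rfl⟩ _ ⟨n', h1', h2', rfl⟩
  exact Submodule.subset_span ⟨n + n', by rw [yd_add]; omega, by rw [map_add, h2, h2'],
    by rw [monomial_mul, one_mul]⟩

omit [Fintype ι] in
theorem JJ_mono (h : s' ≤ s) : JJ T s N ≤ JJ T s' N := by
  refine Submodule.span_mono ?_
  rintro _ ⟨n, h1, h2, rfl⟩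
  exact ⟨n, h.trans h1, h2, rfl⟩

omit [Fintype ι] in
theorem JJ_pow (hf : f ∈ JJ T s N) (k : ℕ) : f ^ k ∈ JJ T (k * s) (k * N) := by
  induction k with
  | zero => simpa using EE_le_JJ le_rfl EE_one
  | succ k ih => rw [pow_succ, Nat.succ_mul, Nat.succ_mul]; exact JJ_mul ih hf

instance JJ_fin : FiniteDimensional ℚ (JJ T s N) := by
  refine FiniteDimensional.span_of_finite ℚ ?_
  refine ((Finsupp.finite_of_degree_eq (σ := ι) N).image (fun n => monomial n (1 : ℚ))).subset ?_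
  rintro _ ⟨n, -, h2, rfl⟩
  exact ⟨n, h2, rfl⟩

omit [Fintype ι] in
theorem GG_mul (hf : f ∈ GG T R δ a s N) (hg : g ∈ GG T R δ a' s' N') :
    f * g ∈ GG T R δ (a + a') (s + s') (N + N') := by
  refine mul_span ?_ hf hg
  rintro _ ⟨b, n, h0, h1, h2, rfl⟩ _ ⟨b', n', h0', h1', h2', rfl⟩
  refine Submodule.subset_span ⟨b + b', n + n', by rw [yd_add]; omega, by rw [yd_add]; omega,
    by rw [map_add, ← h2, ← h2']; ring, ?_⟩
  rw [mul_mul_mul_comm, monomial_mul, one_mul, pow_add]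

omit [Fintype ι] in
theorem GG_mono (ha : a' ≤ a) (hs : s' ≤ s) : GG T R δ a s N ≤ GG T R δ a' s' N := by
  refine Submodule.span_mono ?_
  rintro _ ⟨b, n, h0, h1, h2, rfl⟩
  exact ⟨b, n, ha.trans h0, hs.trans h1, h2, rfl⟩

omit [Fintype ι] in
theorem JJ_le_GG : JJ T s N ≤ GG T R δ s s N := by
  refine Submodule.span_mono ?_
  rintro _ ⟨n, h1, h2, rfl⟩
  exact ⟨0, n, by omega, h1, by omega, by simp⟩

omit [Fintype ι] in
theorem EE_GG (hf : f ∈ EE T 0 N) : f ∈ GG T R δ 0 0 N := JJ_le_GG (EE_le_JJ le_rfl hf)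

omit [Fintype ι] in
theorem GG_pow (hf : f ∈ GG T R δ a s N) (k : ℕ) : f ^ k ∈ GG T R δ (k * a) (k * s) (k * N) := by
  induction k with
  | zero => simpa using EE_GG EE_one
  | succ k ih => rw [pow_succ, Nat.succ_mul, Nat.succ_mul, Nat.succ_mul]; exact GG_mul ih hf

omit [Fintype ι] in
theorem GG_self (b : ℕ) : R ^ b ∈ GG T R δ b 0 (b * δ) :=
  Submodule.subset_span ⟨b, 0, by simp, by simp, by simp, by simp⟩

omit [Fintype ι] in
theorem GG_cast (hf : f ∈ GG T R δ a s N) (ha : a' ≤ a) (hs : s' ≤ s) (hN : N = N') :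
    f ∈ GG T R δ a' s' N' := hN ▸ GG_mono ha hs hf

omit [Fintype ι] in
theorem GG_le_JJ (hR : R ∈ EE T 0 δ) : GG T R δ a s N ≤ JJ T s N := by
  refine Submodule.span_le.2 ?_
  rintro _ ⟨b, n, -, h1, h2, rfl⟩
  exact h2 ▸ EE_le_JJ (by omega) (EE_mul (EE_pow0 hR b) (EE_mon n))

omit [Fintype ι] in
theorem GG_left {R0 : MvPolynomial ι ℚ} {δ0 : ℕ} (hR : R0 ∈ EE T 0 δ0) :
    GG T (R * R0) (δ + δ0) a s N ≤ GG T R δ a s N := by
  refine Submodule.span_le.2 ?_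
  rintro _ ⟨b, n, h0, h1, h2, rfl⟩
  have h3 : R ^ b * monomial n 1 ∈ GG T R δ a s (b * δ + n.degree) :=
    Submodule.subset_span ⟨b, n, h0, h1, rfl, rfl⟩
  have := GG_mul h3 (EE_GG (EE_pow0 hR b))
  rw [mul_pow, mul_right_comm]
  exact GG_cast this (by omega) (by omega) (by rw [← h2]; ring)

omit [Fintype ι] in
/-- the tight generators span -/
theorem GG_tight (hR : R ∈ EE T 0 δ) (U : Submodule ℚ (MvPolynomial ι ℚ))
    (h : ∀ n : ι →₀ ℕ, s ≤ yd T n → (a - yd T n) * δ + n.degree = N →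
      R ^ (a - yd T n) * monomial n 1 ∈ U) : GG T R δ a s N ≤ U := by
  refine Submodule.span_le.2 ?_
  rintro _ ⟨b, n, h0, h1, h2, rfl⟩
  obtain ⟨e, rfl⟩ : ∃ e, b = (a - yd T n) + e := ⟨b - (a - yd T n), by omega⟩
  have h3 := EE_mul (EE_pow0 hR e) (EE_mon (T := T) n)
  rw [pow_add, mul_assoc]
  have h4 : EE T (0 + yd T n) (e * δ + n.degree) ≤
      U.comap (LinearMap.mulLeft ℚ (R ^ (a - yd T n))) := by
    refine Submodule.span_le.2 ?_
    rintro _ ⟨n', h1', h2', rfl⟩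
    rw [zero_add] at h1'
    have := h n' (by omega) (by rw [h1', h2', ← h2]; ring)
    rw [h1'] at this
    exact this
  exact h4 h3

omit [Fintype ι] in
theorem GG_tele (hf : f ∈ GG T R δ a 0 N) (hg : g ∈ GG T R δ a 0 N)
    (h : f - g ∈ GG T R δ a s N) (k : ℕ) : f ^ k - g ^ k ∈ GG T R δ (k * a) s (k * N) := by
  induction k with
  | zero => simp
  | succ k ih =>
    have e : f ^ (k + 1) - g ^ (k + 1) = (f ^ k - g ^ k) * f + g ^ k * (f - g) := by ring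
    rw [e, Nat.succ_mul, Nat.succ_mul]
    exact add_mem (GG_cast (GG_mul ih hf) le_rfl (by omega) rfl)
      (GG_cast (GG_mul (GG_pow hg k) h) le_rfl (by omega) rfl)

omit [Fintype ι] in
theorem GG_binom (hf : f ∈ GG T R δ a 0 N) (hg : g ∈ GG T R δ a 1 N) (k : ℕ) :
    ∃ U, U ∈ GG T R δ (k * a) 1 (k * N) ∧ (f + g) ^ (k + 1) - f ^ (k + 1) = g ^ (k + 1) + f * U := by
  induction k with
  | zero => exact ⟨0, by simp, by ring⟩
  | succ k ih =>
    obtain ⟨U, hU, e⟩ := ih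
    refine ⟨g ^ (k + 1) + f ^ k * g + U * f + U * g, ?_, ?_⟩
    · refine add_mem (add_mem (add_mem ?_ ?_) ?_) ?_
      · exact GG_cast (GG_pow hg (k + 1)) le_rfl (by omega) rfl
      · exact GG_cast (GG_mul (GG_pow hf k) hg) (by rw [Nat.succ_mul]) (by omega)
          (by rw [Nat.succ_mul])
      · exact GG_cast (GG_mul hU hf) (by rw [Nat.succ_mul]) (by omega) (by rw [Nat.succ_mul])
      · exact GG_cast (GG_mul hU hg) (by rw [Nat.succ_mul]) (by omega) (by rw [Nat.succ_mul])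
    · rw [sub_eq_iff_eq_add] at e
      rw [pow_succ (f + g), e]
      ring

theorem sub_of (n : ι →₀ ℕ) (u y : ℕ) (hu : u + yd T n ≤ n.degree) (hy : y ≤ yd T n) :
    ∃ n1 n2 : ι →₀ ℕ, n = n1 + n2 ∧ yd T n1 = y ∧ n1.degree = u + y := by
  have e : n.filter (· ∈ T) + n.filter (fun i => ¬ i ∈ T) = n := Finsupp.filter_add_filter_not _ _
  have h1 : yd T (n.filter (· ∈ T)) = 0 := yd_eq_zero.2 fun i hi => by
    by_contra hc; simp [hc] at hi
  have h2 : ∑ i ∈ T, n.filter (fun i => ¬ i ∈ T) i = 0 :=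
    Finset.sum_eq_zero fun i hi => by simp [hi]
  have h3 := congrArg (yd T) e
  have h4 := congrArg Finsupp.degree e
  rw [yd_add] at h3
  rw [map_add] at h4
  have h5 := yd_deg (T := T) (n.filter (fun i => ¬ i ∈ T))
  obtain ⟨g1, hg1, d1⟩ := Finsupp.exists_le_degree_eq (n.filter (· ∈ T)) u (by omega)
  obtain ⟨g2, hg2, d2⟩ := Finsupp.exists_le_degree_eq (n.filter (fun i => ¬ i ∈ T)) y (by omega)
  have h6 : yd T g1 = 0 := yd_eq_zero.2 fun i hi => by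
    by_contra hc
    have := hg1 i
    simp [hc] at this
    exact hi this
  have h7 : ∑ i ∈ T, g2 i = 0 := Finset.sum_eq_zero fun i hi => by
    have := hg2 i
    simpa [hi] using this
  have h8 := yd_deg (T := T) g2
  obtain ⟨n2, hn2⟩ := exists_add_of_le (e ▸ add_le_add hg1 hg2 : g1 + g2 ≤ n)
  exact ⟨g1 + g2, n2, hn2, by rw [yd_add]; omega, by rw [map_add]; omega⟩

/-- a tight generator is a product of `j` perturbations -/
theorem split (d D : ℕ) (hd : 1 ≤ d) (hD : d * δ + d ≤ D) (j : ℕ) : ∀ (b : ℕ) (n : ι →₀ ℕ),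
    b ≤ j * (d - 1) → j ≤ yd T n → j * d ≤ b + yd T n → b * δ + n.degree = j * D →
    ∃ l : List (MvPolynomial ι ℚ), l.length = j ∧ (∀ π ∈ l, π ∈ GG T R δ d 1 D) ∧
      l.prod = R ^ b * monomial n 1 := by
  obtain ⟨e, rfl⟩ : ∃ e, d = e + 1 := ⟨d - 1, by omega⟩
  simp only [Nat.add_sub_cancel]
  induction j with
  | zero =>
    intro b n hb _ _ hn
    obtain rfl : b = 0 := by omega
    obtain rfl : n = 0 := (Finsupp.degree_eq_zero_iff n).1 (by omega)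
    exact ⟨[], rfl, by simp, by simp⟩
  | succ j ih =>
    intro b n hb h1 h2 hn
    obtain ⟨b1, b2, rfl, hb1, hb2, hb3⟩ : ∃ b1 b2, b = b1 + b2 ∧ b1 ≤ e ∧ b2 ≤ j * e ∧
        (b1 = e ∨ b2 = 0) := by
      rw [Nat.succ_mul] at hb
      exact ⟨min b e, b - min b e, by omega, by omega, by omega, by omega⟩
    have hyd := yd_deg (T := T) n
    have k1 : b1 * δ ≤ e * δ := Nat.mul_le_mul_right _ hb1
    have k2 : b2 * δ ≤ j * (e * δ) := by
      rw [← mul_assoc]; exact Nat.mul_le_mul_right _ hb2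
    have k3 : j * (e * δ) + j * (e + 1) ≤ j * D := by
      rw [← mul_add]; exact Nat.mul_le_mul_left _ (by nlinarith)
    have k4 : j ≤ j * (e + 1) := by nlinarith
    rw [Nat.succ_mul] at h2 hn
    rw [add_mul] at hn hD
    obtain ⟨n1, n2, rfl, y1, d1⟩ := sub_of (T := T) n
      (D - b1 * δ - max (e + 1 - b1) (D - b1 * δ - ∑ i ∈ T, n i))
      (max (e + 1 - b1) (D - b1 * δ - ∑ i ∈ T, n i)) (by omega) (by omega)
    rw [yd_add] at h1 h2 hyd
    rw [map_add] at hn hyd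
    obtain ⟨l, hl, hm, hp⟩ := ih b2 n2 hb2 (by omega) (by omega) (by omega)
    refine ⟨(R ^ b1 * monomial n1 1) :: l, by simp [hl], ?_, ?_⟩
    · intro π hπ
      rcases List.mem_cons.1 hπ with rfl | hπ
      · exact Submodule.subset_span ⟨b1, n1, by omega, by omega, by omega, rfl⟩
      · exact hm π hπ
    · rw [List.prod_cons, hp, mul_mul_mul_comm, monomial_mul, one_mul, pow_add]

end basic

end Pool.Agent.MP_93dc40_an.St

end

section

namespace Pool.Agent.MP_93dc40_an.St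

open Finset Filter Topology

section aux

variable {m : ℕ} (A : Matrix (Fin m) (Fin m) ℕ)

/-- chains of edges -/
def walk_Frame : ℕ → Fin m → Fin m → Prop
  | 0, i, k => i = k
  | l + 1, i, k => ∃ j, 0 < A i j ∧ walk_Frame l j k

theorem add_Frame (b : ℕ) (k : Fin m) : ∀ (a : ℕ) (i : Fin m),
    walk_Frame A (b + a) i k ↔ ∃ j, walk_Frame A a i j ∧ walk_Frame A b j k
  | 0, i => ⟨fun h => ⟨i, rfl, h⟩, fun ⟨_, h1, h2⟩ => (show i = _ from h1) ▸ h2⟩
  | a + 1, i => by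
    constructor
    · rintro ⟨j, h1, h2⟩
      obtain ⟨j', h3, h4⟩ := (add_Frame b k a j).1 h2
      exact ⟨j', ⟨j, h1, h3⟩, h4⟩
    · rintro ⟨j', ⟨j, h1, h3⟩, h4⟩
      exact ⟨j, h1, (add_Frame b k a j).2 ⟨j', h3, h4⟩⟩

theorem per_Frame : ∃ L P : ℕ, 2 ≤ P ∧ ∀ l l' : ℕ, L ≤ l → L ≤ l' → (l : ZMod P) = l' →
    walk_Frame A l = walk_Frame A l' := by
  obtain ⟨a, b, hab, h⟩ : ∃ a b : ℕ, a < b ∧ walk_Frame A (2 * a) = walk_Frame A (2 * b) := by
    obtain ⟨a, b, hab, h⟩ := Finite.exists_ne_map_eq_of_infinite fun l : ℕ => walk_Frame A (2 * l)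
    rcases hab.lt_or_gt with h' | h'
    exacts [⟨a, b, h', h⟩, ⟨b, a, h', h.symm⟩]
  obtain ⟨P, hP⟩ : ∃ P, 2 * b = 2 * a + P := ⟨2 * b - 2 * a, by omega⟩
  have h1 : ∀ c, walk_Frame A (2 * a + c + P) = walk_Frame A (2 * a + c) := fun c => by
    funext i k
    rw [add_right_comm, ← hP, add_Frame, add_Frame, h]
  have h2 : ∀ c e, walk_Frame A (2 * a + c + P * e) = walk_Frame A (2 * a + c) := fun c e => by
    induction e with
    | zero => rfl
    | succ e ih =>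
      rw [show 2 * a + c + P * (e + 1) = 2 * a + (c + P * e) + P by ring, h1, ← add_assoc, ih]
  have h3 : ∀ l l' : ℕ, 2 * a ≤ l → l ≤ l' → (l : ZMod P) = l' →
      walk_Frame A l = walk_Frame A l' := fun l l' hl hl' e => by
    obtain ⟨c, rfl⟩ := Nat.exists_eq_add_of_le hl
    obtain ⟨e, he⟩ := (Nat.modEq_iff_dvd' hl').1 ((ZMod.natCast_eq_natCast_iff _ _ _).1 e)
    rw [show l' = 2 * a + c + P * e by omega, h2]
  refine ⟨2 * a, P, by omega, fun l l' hl hl' e => ?_⟩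
  rcases le_total l l' with h' | h'
  exacts [h3 l l' hl h' e, (h3 l' l hl' h' e.symm).symm]

variable (d : ℕ)

theorem low_Frame (n : ℕ) (k : Fin m) : ∀ (l : ℕ) (i : Fin m), walk_Frame A l i k →
    cnt d A n k ^ d ^ l ≤ cnt d A (n + l) i
  | 0, i, h => by rw [show i = k from h]; simp
  | l + 1, i, ⟨j, h1, h2⟩ => by
    rw [pow_succ, pow_mul]
    exact (Nat.pow_le_pow_left (low_Frame n k l j h2) d).trans
      ((Nat.le_mul_of_pos_left _ h1).trans (single_le_sum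
        (f := fun j => A i j * cnt d A (n + l) j ^ d) (fun _ _ => Nat.zero_le _) (mem_univ j)))

theorem row_Frame (n : ℕ) (i : Fin m) (b : ℕ) (h : ∀ j, 0 < A i j → cnt d A n j ≤ b) :
    cnt d A (n + 1) i ≤ (∑ j, A i j) * b ^ d := by
  rw [cnt, sum_mul]
  refine sum_le_sum fun j _ => ?_
  rcases Nat.eq_zero_or_pos (A i j) with h0 | h0
  · simp [h0]
  · exact Nat.mul_le_mul_left _ (Nat.pow_le_pow_left (h j h0) d)

variable (hA : ∀ i, ∃ j, 0 < A i j)
include hA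

theorem up_Frame : ∀ l : ℕ, ∃ K : ℕ, ∀ n i, ∃ k, walk_Frame A l i k ∧
    cnt d A (n + l) i ≤ K * cnt d A n k ^ d ^ l
  | 0 => ⟨1, fun n i => ⟨i, rfl, by simp⟩⟩
  | l + 1 => by
    obtain ⟨K, hK⟩ := up_Frame l
    refine ⟨(∑ i, ∑ j, A i j) * K ^ d, fun n i => ?_⟩
    obtain ⟨j, hj, hm⟩ := exists_max_image (univ.filter fun j => 0 < A i j) (cnt d A (n + l))
      ((hA i).imp fun j hj => mem_filter.2 ⟨mem_univ _, hj⟩)
    obtain ⟨k, h1, h2⟩ := hK n j
    refine ⟨k, ⟨j, (mem_filter.1 hj).2, h1⟩, (row_Frame A d (n + l) i _ fun j' hj' =>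
      (hm j' (mem_filter.2 ⟨mem_univ _, hj'⟩)).trans h2).trans ?_⟩
    rw [mul_pow, pow_succ d, pow_mul, mul_assoc]
    exact Nat.mul_le_mul_right _ (single_le_sum (f := fun i => ∑ j, A i j)
      (fun _ _ => Nat.zero_le _) (mem_univ i))

theorem mono_Frame : ∀ n i, 1 ≤ cnt d A n i ∧ cnt d A n i ≤ cnt d A (n + 1) i
  | 0, i => by
    obtain ⟨l, hl⟩ := hA i
    exact ⟨le_rfl, sum_pos' (fun _ _ => Nat.zero_le _) ⟨l, mem_univ _, by simpa [cnt] using hl⟩⟩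
  | n + 1, i => ⟨(mono_Frame n i).1.trans (mono_Frame n i).2, sum_le_sum fun l _ =>
      Nat.mul_le_mul_left _ (Nat.pow_le_pow_left (mono_Frame n l).2 _)⟩

theorem grow_Frame (hm : 0 < m) : ∃ a : ℕ, ∀ n,
    (∑ i, cnt d A n i) ^ d ≤ a * ∑ i, cnt d A (n + 1) i := by
  obtain ⟨L, P, hP, h⟩ := per_Frame A
  obtain ⟨K, hK⟩ := up_Frame A d hA L
  have mo : Monotone fun n => ∑ i, cnt d A n i :=
    monotone_nat_of_le_succ fun n => sum_le_sum fun i _ => (mono_Frame A d hA n i).2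
  refine ⟨(m * K) ^ d + (∑ i, cnt d A L i) ^ d, fun n => ?_⟩
  rw [add_mul]
  rcases le_total n L with hn | hn
  · refine le_add_left ((Nat.pow_le_pow_left (mo hn) d).trans (Nat.le_mul_of_pos_right _ ?_))
    exact sum_pos (fun i _ => (mono_Frame A d hA _ i).1) ⟨⟨0, hm⟩, mem_univ _⟩
  · obtain ⟨n, rfl⟩ := Nat.exists_eq_add_of_le' hn
    obtain ⟨i, -, hi⟩ := exists_max_image univ (cnt d A (n + L)) ⟨⟨0, hm⟩, mem_univ _⟩
    obtain ⟨j, h1, h2⟩ := hK n i
    rw [h L (L + 1 + (P - 1)) le_rfl (by omega)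
      (by rw [show L + 1 + (P - 1) = L + P by omega]; simp), add_Frame] at h1
    obtain ⟨k, -, h3⟩ := h1
    have h4 : ∑ i, cnt d A (n + L) i ≤ m * K * cnt d A n j ^ d ^ L := by
      refine (sum_le_card_nsmul _ _ _ fun i' h' => (hi i' h').trans h2).trans_eq ?_
      simp [mul_assoc]
    refine le_add_right ((Nat.pow_le_pow_left h4 d).trans ?_)
    rw [mul_pow, ← pow_mul, ← pow_succ]
    exact Nat.mul_le_mul_left _ ((low_Frame A d n j _ k h3).trans
      (single_le_sum (f := cnt d A (n + L + 1)) (fun _ _ => Nat.zero_le _) (mem_univ k)))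

omit hA in
theorem dich_Frame (hd : 2 ≤ d) (ρ : ℕ → ℚ) (B : ℚ) (hB : 1 ≤ B) (h0 : ∀ n, 0 ≤ ρ n)
    (h : ∀ n, ρ (n + 1) ≤ B * ρ n ^ d) (n₀ : ℕ) (h1 : ρ n₀ ≤ 1 / (2 * B)) (ε : ℚ) (hε : 0 < ε) :
    ∀ᶠ n in atTop, ρ n ≤ ε := by
  have hκ : 1 / (2 * B) ≤ 1 := by rw [div_le_one (by linarith)]; linarith
  have key : ∀ k, ρ (n₀ + k) ≤ 1 / (2 * B) * (1 / 2) ^ k := fun k => by
    induction k with
    | zero => simpa using h1
    | succ k ih =>
      have a1 : ρ (n₀ + k) ≤ 1 / (2 * B) :=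
        ih.trans (mul_le_of_le_one_right (by positivity) (pow_le_one₀ (by norm_num) (by norm_num)))
      have a2 : ρ (n₀ + k) ^ d ≤ ρ (n₀ + k) ^ 2 := pow_le_pow_of_le_one (h0 _) (a1.trans hκ) hd
      calc ρ (n₀ + k + 1) ≤ B * (ρ (n₀ + k) * ρ (n₀ + k)) :=
            (h _).trans (mul_le_mul_of_nonneg_left (sq (ρ _) ▸ a2) (by linarith))
        _ ≤ B * (1 / (2 * B) * (1 / (2 * B) * (1 / 2) ^ k)) :=
            mul_le_mul_of_nonneg_left (mul_le_mul a1 ih (h0 _) (by positivity)) (by linarith)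
        _ = _ := by rw [pow_succ]; field_simp
  obtain ⟨k₀, hk⟩ := exists_pow_lt_of_lt_one hε (show (1 / 2 : ℚ) < 1 by norm_num)
  filter_upwards [eventually_ge_atTop (n₀ + k₀)] with n hn
  obtain ⟨k, rfl⟩ := Nat.exists_eq_add_of_le (le_of_add_le_left hn)
  exact (key k).trans ((mul_le_of_le_one_left (by positivity) hκ).trans
    ((pow_le_pow_of_le_one (by norm_num) (by norm_num) (by omega)).trans hk.le))

end aux

theorem frame (d : ℕ) (hd : 2 ≤ d) {m : ℕ} (hm : 0 < m) (A : Matrix (Fin m) (Fin m) ℕ)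
    (hA : ∀ i, ∃ j, 0 < A i j) :
    ∃ (P : ℕ) (_ : NeZero P) (Q : ZMod P → Matrix (Fin m) (Fin m) ℕ) (T : ZMod P → Finset (Fin m))
      (L : ℕ) (x : ℕ → Fin m → ℚ) (K a : ℚ), Frame Q T L ∧
      Orb d Q T x (fun n => ∑ i, (cnt d A n i : ℚ)) K ∧ 0 < a ∧
      ∀ n, ∑ i, (cnt d A (n + 1) i : ℚ) ≤ a * (∑ i, (cnt d A n i : ℚ)) ^ d ∧
        (∑ i, (cnt d A n i : ℚ)) ^ d ≤ a * ∑ i, (cnt d A (n + 1) i : ℚ) := by
  classical
  obtain ⟨L, P, hP, per⟩ := per_Frame A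
  have : NeZero P := ⟨by omega⟩
  have : Fact (1 < P) := ⟨hP⟩
  obtain ⟨a, ha⟩ := grow_Frame A d hA hm
  obtain ⟨c, hc⟩ : ∃ c : ℕ, c = ∑ i, ∑ j, A i j := ⟨_, rfl⟩
  obtain ⟨t, ht⟩ : ∃ t : ℕ → ℚ, t = fun n => ∑ i, (cnt d A n i : ℚ) := ⟨_, rfl⟩
  have t0 : ∀ n, 0 < t n := fun n => ht ▸
    sum_pos (fun i _ => Nat.cast_pos.2 (mono_Frame A d hA n i).1) ⟨⟨0, hm⟩, mem_univ _⟩
  have ta : ∀ n, t n ^ d ≤ a * t (n + 1) := fun n => by simp only [ht]; exact_mod_cast ha n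
  have xt : ∀ n i, (cnt d A n i : ℚ) ≤ t n := fun n i => ht ▸
    single_le_sum (f := fun i => (cnt d A n i : ℚ)) (fun _ _ => Nat.cast_nonneg _) (mem_univ i)
  let Cl : (ZMod P → Finset (Fin m)) → Prop := fun V =>
    ∀ r, ∀ i ∈ V (r + 1), ∀ j, 0 < A i j → j ∈ V r
  let u : (ZMod P → Finset (Fin m)) → ℕ → ℕ := fun V n => ∑ j ∈ V n, cnt d A n j
  have us : ∀ V, Cl V → ∀ n, u V (n + 1) ≤ c * u V n ^ d := fun V hV n => by
    refine (sum_le_sum fun i hi => row_Frame A d n i (u V n) fun j hj =>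
      single_le_sum (f := cnt d A n) (fun _ _ => Nat.zero_le _)
        (hV n i (Nat.cast_succ (R := ZMod P) n ▸ hi) j hj)).trans ?_
    rw [← sum_mul, hc]
    exact Nat.mul_le_mul_right _ (sum_le_sum_of_subset (subset_univ _))
  have ut : ∀ n, (u (fun _ => univ) n : ℚ) = t n := fun n => by simp [u, ht]
  obtain ⟨κ, hκ⟩ : ∃ κ : ℚ, κ = 1 / (2 * (c * a + 1)) := ⟨_, rfl⟩
  have κ0 : 0 < κ := by rw [hκ]; positivity
  have dich : ∀ V, Cl V → (¬ ∀ n, κ * t n ≤ u V n) → ∀ ε : ℚ, 0 < ε →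
      ∀ᶠ n in atTop, (u V n : ℚ) ≤ ε * t n := fun V hV h ε hε => by
    obtain ⟨n₀, h₀⟩ := not_forall.1 h
    refine (dich_Frame d hd (fun n => u V n / t n) (c * a + 1)
      (le_add_of_nonneg_left (by positivity)) (fun n => div_nonneg (Nat.cast_nonneg _) (t0 n).le)
      (fun n => ?_) n₀ (hκ ▸ (div_le_iff₀ (t0 n₀)).2 (not_le.1 h₀).le) ε hε).mono
      fun n hn => (div_le_iff₀ (t0 n)).1 hn
    have h1 : (u V (n + 1) : ℚ) ≤ c * u V n ^ d := by exact_mod_cast us V hV n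
    have h2 := pow_pos (t0 n) d
    have h3 := t0 (n + 1)
    rw [div_pow, ← mul_div_assoc, div_le_div_iff₀ h3 h2]
    calc _ ≤ (c * u V n ^ d : ℚ) * (a * t (n + 1)) :=
          mul_le_mul h1 (ta n) h2.le (by positivity)
      _ = c * a * u V n ^ d * t (n + 1) := by ring
      _ ≤ _ := by gcongr; linarith
  obtain ⟨V, hV⟩ := exists_minimal_of_wellFoundedLT (fun V => Cl V ∧ ∀ n, κ * t n ≤ u V n)
    ⟨fun _ => univ, fun _ _ _ _ _ => mem_univ _, fun n => by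
      rw [ut]
      refine mul_le_of_le_one_left (t0 n).le ?_
      have : (0 : ℚ) ≤ c * a := by positivity
      rw [hκ, div_le_one (by positivity)]
      linarith⟩
  obtain ⟨cl, full⟩ := hV.prop
  let R : ZMod P → Fin m → ZMod P → Fin m → Prop := fun r i s k =>
    ∃ l : ℕ, r = s + l ∧ walk_Frame A l i k
  obtain ⟨T, hT⟩ : ∃ T : ZMod P → Finset (Fin m), ∀ {r i}, i ∈ T r ↔
      i ∈ V r ∧ ∀ s, ∀ k ∈ V s, R r i s k :=
    ⟨fun r => (V r).filter fun i => ∀ s, ∀ k ∈ V s, R r i s k, mem_filter⟩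
  obtain ⟨W, hW⟩ : ∃ W : ZMod P → Fin m → ZMod P → Finset (Fin m), ∀ {s k r i}, i ∈ W s k r ↔
      i ∈ V r ∧ ¬ R r i s k :=
    ⟨fun s k r => (V r).filter fun i => ¬ R r i s k, mem_filter⟩
  let Q : ZMod P → Matrix (Fin m) (Fin m) ℕ := fun r i j => if i ∈ V (r + 1) then A i j else 0
  have small : ∀ ε : ℚ, 0 < ε → ∀ᶠ n : ℕ in atTop, ∀ z ∈ V n, z ∉ T n →
      (cnt d A n z : ℚ) ≤ ε * t n := fun ε hε => by
    have h1 : ∀ s k, k ∈ V s → ∀ᶠ n : ℕ in atTop,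
        (u (W s k) n : ℚ) ≤ ε * t n := fun s k hk => by
      have c1 : Cl (W s k) := fun r i hi j hj =>
        hW.2 ⟨cl r i (hW.1 hi).1 j hj, fun ⟨l, e, w⟩ =>
          (hW.1 hi).2 ⟨l + 1, by rw [e, Nat.cast_succ, add_assoc], j, hj, w⟩⟩
      refine dich _ c1 (fun h => ?_) ε hε
      have h2 : V ≤ W s k := hV.le_of_le ⟨c1, h⟩ fun r i hi => (hW.1 hi).1
      exact (hW.1 (h2 s hk)).2 ⟨0, by simp, rfl⟩
    filter_upwards [eventually_all.2 fun s => (eventually_all_finset (V s)).2 (h1 s)]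
      with n hn z hz hz'
    obtain ⟨s, k, hk, h2⟩ : ∃ s, ∃ k ∈ V s, ¬ R n z s k := by
      by_contra! h
      exact hz' (hT.2 ⟨hz, h⟩)
    exact le_trans (Nat.cast_le.2 (single_le_sum (f := cnt d A n) (fun _ _ => Nat.zero_le _)
      (hW.2 ⟨hz, h2⟩))) (hn s k hk)
  have m0 : (0 : ℚ) < m := Nat.cast_pos.2 hm
  have big : ∀ n : ℕ, ∃ j ∈ V n, κ / (2 * m) * t n < cnt d A n j := fun n => by
    by_contra! h
    have h1 : (u V n : ℚ) ≤ m * (κ / (2 * m) * t n) := by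
      simp only [u, Nat.cast_sum]
      refine (sum_le_card_nsmul _ _ _ h).trans ?_
      rw [nsmul_eq_mul]
      exact mul_le_mul_of_nonneg_right (Nat.cast_le.2 (card_finset_fin_le _))
        (mul_pos (by positivity) (t0 n)).le
    have h2 : m * (κ / (2 * m) * t n) = κ * t n / 2 := by field_simp
    linarith [full n, mul_pos κ0 (t0 n)]
  have ne : ∀ r, (T r).Nonempty := fun r => by
    obtain ⟨N, hN⟩ := eventually_atTop.1 (small (κ / (2 * m)) (by positivity))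
    obtain ⟨j, hj, h⟩ := big (r.val + P * N)
    refine ⟨j, by_contra fun h' => h.not_ge (hN _ (by nlinarith) j hj ?_)⟩
    simpa using h'
  have long : ∀ (N : ℕ) r, ∀ i ∈ T r, ∀ s, ∀ k ∈ V s,
      ∃ l : ℕ, N ≤ l ∧ r = s + l ∧ walk_Frame A l i k := fun N => by
    induction N with
    | zero => exact fun r i hi s k hk => ((hT.1 hi).2 s k hk).imp fun l h => ⟨l.zero_le, h⟩
    | succ N ih =>
      intro r i hi s k hk
      obtain ⟨j, hj⟩ := ne (r - 1)
      obtain ⟨l₁, e₁, w₁⟩ := (hT.1 hi).2 _ j (hT.1 hj).1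
      obtain ⟨l₂, h₂, e₂, w₂⟩ := ih _ j hj s k hk
      have : l₁ ≠ 0 := by
        rintro rfl
        exact one_ne_zero (α := ZMod P) (by linear_combination e₁)
      exact ⟨l₂ + l₁, by omega, by rw [Nat.cast_add, ← add_assoc, ← e₂, ← e₁],
        (add_Frame A _ _ _ _).2 ⟨j, w₁, w₂⟩⟩
  have exa : ∀ s (l : ℕ), L ≤ l → ∀ i ∈ T (s + l), ∀ k ∈ V s, walk_Frame A l i k :=
    fun s l hl i hi k hk => by
      obtain ⟨l', h1, e, w⟩ := long L _ i hi s k hk
      rwa [per l l' hl h1 (add_left_cancel e)]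
  have up : ∀ s (l : ℕ), ∀ i ∈ V (s + l), ∀ k ∈ T s, walk_Frame A l i k → i ∈ T (s + l) :=
    fun s l i hi k hk w => hT.2 ⟨hi, fun s' k' hk' => by
      obtain ⟨l', e, w'⟩ := (hT.1 hk).2 s' k' hk'
      exact ⟨l' + l, by rw [e, Nat.cast_add, add_assoc], (add_Frame A _ _ _ _).2 ⟨k, w, w'⟩⟩⟩
  have tw : ∀ s, ∀ k ∈ T s, ∀ (l : ℕ), ∀ i ∈ V (s + l), walk_Frame A l i k →
      twalk Q T s l i k := fun s k hk l => by
    induction l with
    | zero => exact fun i _ w => w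
    | succ l ih =>
      rintro i hi ⟨j, h1, w⟩
      rw [Nat.cast_succ, ← add_assoc] at hi
      have hj := cl _ i hi j h1
      exact ⟨j, up s l j hj k hk w, by simpa only [Q, if_pos hi] using h1, ih j hj w⟩
  have prim : ∀ r (l : ℕ), L + 1 ≤ l → ∀ i ∈ T (r + l), ∀ k ∈ T r, twalk Q T r l i k :=
    fun r l hl i hi k hk => tw r k hk l i (hT.1 hi).1
      (exa r l (by omega) i hi k (hT.1 hk).1)
  obtain ⟨K, hK⟩ := up_Frame A d hA L
  refine ⟨P, ‹_›, Q, T, L + 1, fun n i => if i ∈ V n then cnt d A n i else 0,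
    (m * K + 1) / (κ / (2 * m)) ^ d ^ L, c + a + 1,
    ⟨by omega, ne, fun r i hi j hj => ?_, fun r i hi => ?_, prim⟩, ht ▸ ⟨by positivity, t0, ?_,
      fun n i => ?_, fun n i => ?_, ?_, fun ε hε => ?_⟩, by positivity, fun n => ?_⟩
  · by_contra h
    by_cases h1 : i ∈ V (r + 1)
    · simp only [Q, if_pos h1] at h
      have := up r 1 i (by simpa using h1) j hj ⟨j, Nat.pos_of_ne_zero h, rfl⟩
      exact hi (by simpa using this)
    · exact h (if_neg h1)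
  · obtain ⟨k, hk⟩ := ne (r - L)
    have := prim (r - L) (L + 1) le_rfl i
      (by rwa [Nat.cast_succ, ← add_assoc, sub_add_cancel]) k hk
    obtain ⟨j, h1, h2, -⟩ := this
    rw [sub_add_cancel] at h1 h2
    exact ⟨j, h1, h2⟩
  · rw [ht]
    exact monotone_nat_of_le_succ fun n => sum_le_sum fun i _ =>
      Nat.cast_le.2 (mono_Frame A d hA n i).2
  · split_ifs
    exacts [⟨Nat.cast_nonneg _, xt n i⟩, ⟨le_rfl, (t0 n).le⟩]
  · simp only [Q, Nat.cast_succ]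
    split_ifs with h
    · rw [cnt, Nat.cast_sum]
      refine sum_congr rfl fun j _ => ?_
      rcases Nat.eq_zero_or_pos (A i j) with h0 | h0
      · simp [h0]
      · simp [cl _ i h j h0]
    · simp
  · filter_upwards [eventually_ge_atTop L] with n hn k hk
    obtain ⟨n, rfl⟩ := Nat.exists_eq_add_of_le' hn
    rw [if_pos (hT.1 hk).1]
    obtain ⟨j, hj, h1⟩ := big n
    have h2 : (cnt d A n j : ℚ) ^ d ^ L ≤ cnt d A (n + L) k := by
      exact_mod_cast low_Frame A d n j L k (exa n L le_rfl k (Nat.cast_add (R := ZMod P) n L ▸ hk) j hj)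
    have h3 : t (n + L) ≤ (m * K + 1) * t n ^ d ^ L := by
      have h4 : ∀ i ∈ univ, (cnt d A (n + L) i : ℚ) ≤ K * t n ^ d ^ L := fun i _ => by
        obtain ⟨k, -, h⟩ := hK n i
        calc (cnt d A (n + L) i : ℚ) ≤ K * cnt d A n k ^ d ^ L := by exact_mod_cast h
          _ ≤ _ := by gcongr; exact xt n k
      have h5 := sum_le_card_nsmul _ _ _ h4
      rw [card_fin, nsmul_eq_mul] at h5
      have h6 := pow_pos (t0 n) (d ^ L)
      have h7 : t (n + L) = ∑ i, (cnt d A (n + L) i : ℚ) := by rw [ht]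
      linarith
    have h4 := (pow_le_pow_left₀ (mul_pos (by positivity) (t0 n)).le h1.le (d ^ L)).trans h2
    rw [mul_pow, ← le_div_iff₀' (by positivity)] at h4
    refine h3.trans ((mul_le_mul_of_nonneg_left h4 (by positivity)).trans_eq (by ring))
  · filter_upwards [small ε hε] with n hn z hz
    split_ifs with h
    exacts [hn z h hz, (mul_pos hε (t0 n)).le]
  · have h1 : t (n + 1) ≤ c * t n ^ d := by
      rw [← ut, ← ut]
      exact_mod_cast us _ (fun _ _ _ _ _ => mem_univ _) n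
    have h2 := ta n
    have h3 := pow_pos (t0 n) d
    have h4 := t0 (n + 1)
    simp only [ht] at h1 h2 h3 h4
    constructor <;> nlinarith [Nat.cast_nonneg (α := ℚ) c, Nat.cast_nonneg (α := ℚ) a]

end Pool.Agent.MP_93dc40_an.St

end

section

namespace Pool.Agent.MP_93dc40_an.St

open Finset Filter Topology

/-- from a weighted system of the right growth to an irreducible matrix -/
theorem stable_of (d : ℕ) (hd : 2 ≤ d) {m : ℕ} (hm : 0 < m) (A : Matrix (Fin m) (Fin m) ℕ)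
    (hA : ∀ i, ∃ j, 0 < A i j) (a : ℚ) (a0 : 0 < a)
    (gr : ∀ n, ∑ i, (cnt d A (n + 1) i : ℚ) ≤ a * (∑ i, (cnt d A n i : ℚ)) ^ d ∧
        (∑ i, (cnt d A n i : ℚ)) ^ d ≤ a * ∑ i, (cnt d A (n + 1) i : ℚ))
    {α : Type} (S : Finset α) (W : α → α → ℚ) (γ : ℕ → α → ℚ) (n0 s : ℕ) (c : ℚ) (c0 : 0 < c)
    (sys : Sys d S W γ) (up : ∀ n, ∀ v ∈ S, γ n v ≤ c * (∑ i, (cnt d A (n + n0) i : ℚ)) ^ d ^ s)
    (lo : ∀ v ∈ S, ∃ᶠ n in atTop, (∑ i, (cnt d A (n + n0) i : ℚ)) ^ d ^ s ≤ c * γ n v) :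
    ∃ L₀ : ℕ, 1 ≤ L₀ ∧ ∀ L, 1 ≤ L → L₀ ∣ L →
      ∀ (k : ℕ) (M : Matrix (Fin k) (Fin k) ℕ) (π : Fin k → Fin m), IsBinary M →
        Function.Surjective π → (∀ v j, ∑ w with π w = j, M v w = L * A (π v) j) →
        ∃ (k' : ℕ) (N : Matrix (Fin k') (Fin k') ℕ) (h : ℝ),
          IsBinary N ∧ IsIrred N ∧ HasEntropy d M h ∧ HasEntropy d N h := by
  classical
  have m0 : (univ : Finset (Fin m)).Nonempty := ⟨⟨0, hm⟩, mem_univ _⟩
  have c1 : ∀ j i, 0 < cnt d A j i := fun j => by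
    induction j with
    | zero => exact fun _ => Nat.one_pos
    | succ j ih =>
      intro i
      obtain ⟨l, hl⟩ := hA i
      exact sum_pos' (fun _ _ => Nat.zero_le _) ⟨l, mem_univ _, Nat.mul_pos hl (pow_pos (ih l) d)⟩
  obtain ⟨x, hx⟩ : ∃ x : ℕ → Fin m → ℚ, ∀ j i, x j i = cnt d A j i := ⟨_, fun _ _ => rfl⟩
  obtain ⟨t, hS⟩ : ∃ t : ℕ → ℚ, ∀ j, t j = ∑ i, x j i := ⟨_, fun _ => rfl⟩
  simp only [← hx, ← hS] at gr up lo
  have x0 : ∀ j i, 0 < x j i := fun j i => by rw [hx]; exact_mod_cast c1 j i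
  have s0 : ∀ j, 0 < t j := fun j => hS j ▸ sum_pos (fun i _ => x0 j i) m0
  have xs : ∀ j i, x j i ≤ t j := fun j i =>
    hS j ▸ single_le_sum (f := x j) (fun l _ => (x0 j l).le) (mem_univ i)
  obtain ⟨C, C0, hC⟩ := growth d t a a0 s0 gr s
  have m1 : (1 : ℚ) ≤ m := by exact_mod_cast hm
  obtain ⟨L₀, L1, hL⟩ := finish' d hd sys (n0 + s)
    (fun j => t (j + n0) ^ d ^ s) (c + C * m) (by positivity)
    (fun j v hv => (up j v hv).trans (mul_le_mul_of_nonneg_right (le_add_of_nonneg_right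
      (by positivity)) (pow_pos (s0 _) _).le))
    fun v hv => (lo v hv).mono fun j h => h.trans (mul_le_mul_of_nonneg_right
      (le_add_of_nonneg_right (by positivity)) (sys.pos j v hv).le)
  refine ⟨L₀, L1, fun L L2 L3 k M π bM sπ eq => ?_⟩
  have fib : ∀ v (g : Fin m → ℕ), ∑ w, M v w * g (π w) = L * ∑ j, A (π v) j * g j := fun v g => by
    rw [← sum_fiberwise univ π, mul_sum]
    refine sum_congr rfl fun j _ => ?_
    rw [← mul_assoc, ← eq, sum_mul]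
    exact sum_congr rfl fun w hw => by rw [(mem_filter.1 hw).2]
  have val : ∀ j v, rtd d M j v = sc d L j * cnt d A j (π v) := fun j => by
    induction j with
    | zero => exact fun v => rfl
    | succ j ih =>
      intro v
      simp only [rtd, ih, sc, cnt, fib v fun i => (sc d L j * cnt d A j i) ^ d, mul_assoc]
      rw [mul_sum, mul_sum, mul_sum]
      exact sum_congr rfl fun i _ => by ring
  obtain ⟨v0, -⟩ := sπ ⟨0, hm⟩
  refine hL L L2 L3 k M (Fin.pos v0) bM (fun v => ?_) (fun j v => ?_) fun j => ?_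
  · obtain ⟨j, hj⟩ := hA (π v)
    obtain ⟨w, -, hw⟩ := exists_ne_zero_of_sum_ne_zero ((eq v j).trans_ne (Nat.mul_pos L2 hj).ne')
    exact ⟨w, (bM v w).resolve_left hw⟩
  · rw [val, Nat.cast_mul, ← hx]
    refine mul_le_mul_of_nonneg_left ((xs _ _).trans ?_) (by positivity)
    rw [← add_assoc]
    exact (hC (j + n0)).1.trans (mul_le_mul_of_nonneg_right (by nlinarith) (pow_pos (s0 _) _).le)
  · obtain ⟨i, -, hi⟩ := exists_max_image univ (x (j + (n0 + s))) m0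
    obtain ⟨v, rfl⟩ := sπ i
    refine ⟨v, ?_⟩
    rw [val, Nat.cast_mul, ← hx, mul_left_comm]
    refine mul_le_mul_of_nonneg_left ((hC (j + n0)).2.trans ?_) (by positivity)
    have h1 := sum_le_card_nsmul _ _ _ hi
    rw [← hS, card_fin, nsmul_eq_mul] at h1
    rw [add_assoc]
    nlinarith [x0 (j + (n0 + s)) (π v)]

end Pool.Agent.MP_93dc40_an.St

end

section

namespace Pool.Agent.MP_93dc40_an.St

open Finset Filter Topology

theorem log_sc_Fin (d L : ℕ) (hL : 1 ≤ L) : ∀ n, 0 < sc d L n ∧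
    ((d : ℝ) - 1) * Real.log (sc d L n) = ((d : ℝ) ^ n - 1) * Real.log L
  | 0 => by simp [sc]
  | n + 1 => by
    obtain ⟨h1, h2⟩ := log_sc_Fin d L hL n
    refine ⟨Nat.mul_pos hL (pow_pos h1 d), ?_⟩
    rw [sc, Nat.cast_mul, Nat.cast_pow, Real.log_mul (by positivity) (by positivity), Real.log_pow]
    linear_combination (d : ℝ) * h2

theorem prune_Fin (d : ℕ) (hd : 2 ≤ d) {k : ℕ} (M : Matrix (Fin k) (Fin k) ℕ) (hM : IsBinary M)
    (ne : (TreeShift d M).Nonempty) : ∃ (m : ℕ) (A : Matrix (Fin m) (Fin m) ℕ), 0 < m ∧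
      IsBinary A ∧ (∀ i, ∃ j, A i j = 1) ∧ ∀ n, blocks d A n = blocks d M n := by
  classical
  obtain ⟨E, hE⟩ : ∃ E : Finset (Fin k), ∀ i, i ∈ E ↔ ∃ t ∈ TreeShift d M, t [] = i :=
    ⟨univ.filter fun i => ∃ t ∈ TreeShift d M, t [] = i,
      fun i => mem_filter.trans (and_iff_right (mem_univ i))⟩
  have all : ∀ t ∈ TreeShift d M, ∀ g, t g ∈ E := fun t ht g =>
    (hE _).2 ⟨fun u => t (g ++ u), fun u i => by
      have := ht (g ++ u) i
      rwa [List.append_assoc] at this, by simp⟩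
  obtain ⟨e, ei, eE, es⟩ : ∃ e : Fin E.card → Fin k, Function.Injective e ∧ (∀ i, e i ∈ E) ∧
      ∀ x ∈ E, ∃ i, e i = x :=
    ⟨fun i => E.equivFin.symm i, Subtype.val_injective.comp E.equivFin.symm.injective,
      fun i => (E.equivFin.symm i).2, fun x hx => ⟨E.equivFin ⟨x, hx⟩, by simp⟩⟩
  obtain ⟨t0, ht0⟩ := ne
  refine ⟨E.card, fun i j => M (e i) (e j), card_pos.2 ⟨_, all t0 ht0 []⟩, fun i j => hM _ _,
    fun i => ?_, fun n => ?_⟩
  · obtain ⟨t, ht, h0⟩ := (hE _).1 (eE i)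
    obtain ⟨j, hj⟩ := es _ (all t ht ([] ++ [⟨0, by omega⟩]))
    refine ⟨j, ?_⟩
    show M (e i) (e j) = 1
    rw [hj, ← h0]
    exact ht _ _
  · unfold blocks
    rw [← Set.ncard_image_of_injective _
      (ei.comp_left (α := {g : List (Fin d) // g.length ≤ n}))]
    congr 1
    ext f
    constructor
    · rintro ⟨_, ⟨u, hu, rfl⟩, rfl⟩
      exact ⟨fun g => e (u g), fun g i => hu g i, rfl⟩
    · rintro ⟨t, ht, rfl⟩
      choose u hu using fun g => es _ (all t ht g)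
      refine ⟨_, ⟨u, fun g i => ?_, rfl⟩, funext fun g => hu g.1⟩
      show M (e (u g)) (e (u (g ++ [i]))) = 1
      rw [hu, hu]
      exact ht g i

theorem blow_Fin (d : ℕ) {m : ℕ} (A : Matrix (Fin m) (Fin m) ℕ) (bA : IsBinary A)
    (rA : ∀ i, ∃ j, A i j = 1) (L : ℕ) (hL : 1 ≤ L) :
    ∃ (k : ℕ) (M : Matrix (Fin k) (Fin k) ℕ) (π : Fin k → Fin m), IsBinary M ∧
      Function.Surjective π ∧ (∀ v j, ∑ w with π w = j, M v w = L * A (π v) j) ∧
      ∀ n, blocks d M n = sc d L (n + 1) * blocks d A n := by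
  obtain ⟨π, sπ, fib⟩ : ∃ π : Fin (m * L) → Fin m, Function.Surjective π ∧
      ∀ g : Fin m → ℕ, ∑ w, g (π w) = L * ∑ j, g j := by
    refine ⟨fun w => (finProdFinEquiv.symm w).1,
      fun j => ⟨finProdFinEquiv (j, ⟨0, hL⟩), by simp⟩, fun g => ?_⟩
    rw [finProdFinEquiv.symm.sum_comp fun p : Fin m × Fin L => g p.1, Fintype.sum_prod_type,
      mul_sum]
    simp
  have bM : IsBinary (fun v w => A (π v) (π w) : Matrix (Fin (m * L)) (Fin (m * L)) ℕ) :=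
    fun v w => bA _ _
  have val : ∀ n v, rtd d (fun v w => A (π v) (π w) : Matrix (Fin (m * L)) (Fin (m * L)) ℕ) n v
      = sc d L n * rtd d A n (π v) := fun n => by
    induction n with
    | zero => exact fun v => rfl
    | succ n ih =>
      intro v
      simp only [rtd, ih, sc]
      rw [fib fun i => A (π v) i * (sc d L n * rtd d A n i) ^ d, mul_sum, mul_sum]
      exact sum_congr rfl fun i _ => by ring
  refine ⟨m * L, fun v w => A (π v) (π w), π, bM, sπ, fun v j => ?_, fun n => ?_⟩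
  · rw [sum_filter, fib fun i => if i = j then A (π v) i else 0]
    simp
  · rw [blocks_eq d _ bM (fun v => ?_), blocks_eq d A bA rA]
    · simp only [ys_rtd, val, sc]
      rw [fib fun i => (sc d L n * rtd d A n i) ^ d, mul_sum, mul_sum]
      exact sum_congr rfl fun i _ => by ring
    · obtain ⟨j, hj⟩ := rA (π v)
      obtain ⟨w, rfl⟩ := sπ j
      exact ⟨w, hj⟩

/-- removal of dead symbols and blow-up by a factor -/
theorem final_of (d : ℕ) (hd : 2 ≤ d)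
    (H : ∀ (m : ℕ), 0 < m → ∀ A : Matrix (Fin m) (Fin m) ℕ, (∀ i, ∃ j, 0 < A i j) →
      ∃ L₀ : ℕ, 1 ≤ L₀ ∧ ∀ L, 1 ≤ L → L₀ ∣ L →
        ∀ (k : ℕ) (M : Matrix (Fin k) (Fin k) ℕ) (π : Fin k → Fin m), IsBinary M →
          Function.Surjective π → (∀ v j, ∑ w with π w = j, M v w = L * A (π v) j) →
          ∃ (k' : ℕ) (N : Matrix (Fin k') (Fin k') ℕ) (h : ℝ),
            IsBinary N ∧ IsIrred N ∧ HasEntropy d M h ∧ HasEntropy d N h)
    {k : ℕ} (M : Matrix (Fin k) (Fin k) ℕ) (hM : IsBinary M) (h : ℝ) (hh : HasEntropy d M h) :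
    ∃ L₀ : ℕ, 1 ≤ L₀ ∧ ∀ L : ℕ, 1 ≤ L → L₀ ∣ L → ∃ (k' : ℕ) (N : Matrix (Fin k') (Fin k') ℕ),
      IsBinary N ∧ IsIrred N ∧ HasEntropy d N (h + Real.log L) := by
  obtain ⟨m, A, hm, bA, rA, hb⟩ := prune_Fin d hd M hM hh.1
  obtain ⟨L₀, L1, hL⟩ := H m hm A fun i => (rA i).imp fun j hj => by omega
  refine ⟨L₀, L1, fun L L2 L3 => ?_⟩
  obtain ⟨k1, M1, π, b1, sπ, e1, e2⟩ := blow_Fin d A bA rA L L2
  obtain ⟨k', N, h', bN, iN, g1, g2⟩ := hL L L2 L3 k1 M1 π b1 sπ e1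
  have d1 : (1 : ℝ) < d := by exact_mod_cast (by omega : 1 < d)
  have key : Tendsto (fun n : ℕ => Real.log (blocks d M1 n) / (((d : ℝ) ^ (n + 1) - 1) / (d - 1)))
      atTop (𝓝 (h + Real.log L)) := by
    refine (hh.2.add_const (Real.log L)).congr fun n => ?_
    obtain ⟨s1, s2⟩ := log_sc_Fin d L L2 (n + 1)
    have p1 : 0 < blocks d A n := by
      rw [blocks_eq d A bA rA]
      exact sum_pos (fun r _ => ys_pos d A rA n r) ⟨⟨0, hm⟩, mem_univ _⟩
    have q1 : (0 : ℝ) < (d : ℝ) ^ (n + 1) - 1 := sub_pos.2 (one_lt_pow₀ d1 n.succ_ne_zero)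
    have q2 : (0 : ℝ) < (d : ℝ) - 1 := sub_pos.2 d1
    rw [e2, ← hb, Nat.cast_mul, Real.log_mul (by positivity) (by positivity)]
    field_simp
    linear_combination (-1 : ℝ) * s2
  rw [← tendsto_nhds_unique g1.2 key]
  exact ⟨k', N, bN, iN, g2⟩

end Pool.Agent.MP_93dc40_an.St

end
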