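import Pool.Agent.Mg.F93dc40.G8158ea
import Pool.Agent.Mg.F93dc40.G3c8540
import Pool.Agent.Mg.F93dc40.G68a076

section

namespace Pool.Agent.MP_93dc40_an.St

open Finset MvPolynomial Filter Topology

theorem low_Hull (n : ℕ) (c : ℕ → ℝ)
    (h : ∀ η : ℚ, 0 < η → 0 ≤ ∑ i ∈ range (n + 1), c i * (η : ℝ) ^ i) : 0 ≤ c 0 := by
  have h1 : Tendsto (fun η : ℝ => ∑ i ∈ range (n + 1), c i * η ^ i) (𝓝 0)
      (𝓝 (∑ i ∈ range (n + 1), c i * 0 ^ i)) := Continuous.tendsto (by fun_prop) 0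
  have h2 := h1.comp (tendsto_one_div_add_atTop_nhds_zero_nat (𝕜 := ℝ))
  have h3 := ge_of_tendsto' h2 (fun k => by
    have := h (1 / ((k : ℚ) + 1)) (by positivity)
    push_cast at this
    exact this)
  simpa [sum_range_succ'] using h3

theorem expand_Hull {A : Type} [CommRing A] [Algebra ℚ A] (Λ : A →ₗ[ℚ] ℝ) (R V : A) (η : ℚ)
    (n : ℕ) : Λ ((η • R + V) ^ n) =
      ∑ i ∈ range (n + 1), (n.choose i * Λ (R ^ i * V ^ (n - i))) * (η : ℝ) ^ i := by
  rw [add_pow, map_sum]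
  refine sum_congr rfl fun i _ => ?_
  have : (η • R) ^ i * V ^ (n - i) * (n.choose i : A) =
      ((n.choose i : ℚ) * η ^ i) • (R ^ i * V ^ (n - i)) := by
    simp only [Algebra.smul_def, map_mul, map_pow, map_natCast]
    ring
  rw [this, map_smul, Rat.smul_def]
  push_cast
  ring

theorem first_Hull {A : Type} [CommRing A] [Algebra ℚ A] (Λ : A →ₗ[ℚ] ℝ) (d : ℕ) (hd : 1 ≤ d)
    (p : A) (U : Submodule ℚ A) (H : ∀ π ∈ U, 0 ≤ Λ ((p + π) ^ d - p ^ d)) :
    ∀ π ∈ U, Λ (p ^ (d - 1) * π) = 0 := by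
  obtain ⟨e, rfl⟩ : ∃ e, d = e + 1 := ⟨d - 1, by omega⟩
  have h1 : ∀ π ∈ U, 0 ≤ Λ (p ^ e * π) := by
    intro π hπ
    have := low_Hull e (fun i => ((e + 1).choose (i + 1) : ℝ) *
      Λ (π ^ (i + 1) * p ^ (e + 1 - (i + 1)))) fun η hη => by
        have h := H (η • π) (U.smul_mem η hπ)
        rw [map_sub, add_comm p, expand_Hull, sum_range_succ'] at h
        simp only [Nat.choose_zero_right, pow_zero, one_mul, Nat.cast_one, Nat.sub_zero, mul_one,
          add_sub_cancel_right] at h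
        have hη' : (0 : ℝ) < η := by exact_mod_cast hη
        refine nonneg_of_mul_nonneg_left ?_ hη'
        rw [sum_mul]
        simpa only [pow_succ (η : ℝ), mul_assoc] using h
    simp only [zero_add, Nat.choose_one_right, pow_one, Nat.add_sub_cancel] at this
    rw [mul_comm π] at this
    exact nonneg_of_mul_nonneg_right this (by positivity)
  intro π hπ
  have h2 := h1 (-π) (U.neg_mem hπ)
  rw [mul_neg, map_neg] at h2
  rw [Nat.add_sub_cancel]
  linarith [h1 π hπ]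

theorem last_Hull {A : Type} [CommRing A] [Algebra ℚ A] (Λ : A →ₗ[ℚ] ℝ) (d : ℕ) (ho : Odd d)
    (p : A) (U : Submodule ℚ A) (H : ∀ π ∈ U, 0 ≤ Λ ((p + π) ^ d - p ^ d)) :
    ∀ π ∈ U, Λ (π ^ d) = 0 := by
  have h1 : ∀ π ∈ U, 0 ≤ Λ (π ^ d) := by
    intro π hπ
    obtain ⟨e, rfl⟩ : ∃ e, d = e + 1 := ⟨d - 1, by have := ho.pos; omega⟩
    have := low_Hull e (fun i => ((e + 1).choose i : ℝ) * Λ (p ^ i * π ^ (e + 1 - i)))
      fun η hη => by
        have hη' : (0 : ℝ) < η := by exact_mod_cast hη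
        have h := mul_nonneg (pow_pos hη' (e + 1)).le (H (η⁻¹ • π) (U.smul_mem _ hπ))
        have e1 : η • (p + η⁻¹ • π) = η • p + π := by
          rw [smul_add, smul_smul, mul_inv_cancel₀ hη.ne', one_smul]
        have e2 : (η : ℝ) ^ (e + 1) * Λ ((p + η⁻¹ • π) ^ (e + 1)) = Λ ((η • p + π) ^ (e + 1)) := by
          rw [← e1, _root_.smul_pow, map_smul, Rat.smul_def]
          push_cast
          rfl
        rw [map_sub, mul_sub, e2, expand_Hull, sum_range_succ] at h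
        simp only [Nat.choose_self, Nat.cast_one, Nat.sub_self, pow_zero, mul_one, one_mul] at h
        linarith
    simpa using this
  intro π hπ
  have h2 := h1 (-π) (U.neg_mem hπ)
  rw [ho.neg_pow, map_neg] at h2
  linarith [h1 π hπ]

theorem prod_Hull {A : Type} [CommRing A] [Algebra ℚ A] (Λ : A →ₗ[ℚ] ℝ) (d : ℕ)
    (U : Submodule ℚ A) (H : ∀ π ∈ U, Λ (π ^ d) = 0) (l : List A) (hl : l.length = d)
    (hm : ∀ π ∈ l, π ∈ U) : Λ l.prod = 0 := by
  obtain ⟨s, hs, hb⟩ := polar Λ l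
  rw [hl, H s.sum (list_sum_mem fun x hx => hm x (hs.subset hx)), abs_zero, mul_zero] at hb
  exact abs_nonpos_iff.1 hb

/-- real functional obtained from rational coordinates -/
noncomputable def lam_Hull {A : Type} [AddCommGroup A] [Module ℚ A] {n : ℕ}
    (g : A →ₗ[ℚ] (Fin n → ℚ)) (f : (Fin n → ℝ) →L[ℝ] ℝ) : A →ₗ[ℚ] ℝ where
  toFun x := f fun i => (g x i : ℝ)
  map_add' x y := by
    rw [← map_add f]
    congr 1
    funext i
    simp
  map_smul' c x := by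
    have : (fun i => (g (c • x) i : ℝ)) = (c : ℝ) • fun i => (g x i : ℝ) := by
      funext i
      simp
    rw [this, map_smul, RingHom.id_apply, Rat.smul_def, smul_eq_mul]

theorem hull {ι : Type} (d : ℕ) (hd : 3 ≤ d) (ho : Odd d) {κ : Type} (p : κ → MvPolynomial ι ℚ)
    (W : Submodule ℚ (MvPolynomial ι ℚ)) [FiniteDimensional ℚ W]
    (F : Set (κ × Submodule ℚ (MvPolynomial ι ℚ))) (hF : F.Nonempty)
    (gen : ∀ u ∈ F, ∀ π ∈ u.2, (p u.1 + π) ^ d - p u.1 ^ d ∈ W)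
    (van : ∀ Λ : MvPolynomial ι ℚ →ₗ[ℚ] ℝ, (∀ u ∈ F, ∀ π ∈ u.2, Λ (p u.1 ^ (d - 1) * π) = 0) →
      (∀ u ∈ F, ∀ l : List (MvPolynomial ι ℚ), l.length = d → (∀ π ∈ l, π ∈ u.2) → Λ l.prod = 0) →
      ∀ f ∈ W, Λ f = 0) :
    Absorb d {v | ∃ u ∈ F, v.1 = u.1 ∧ v.2 ∈ u.2} p W := by
  classical
  set A : Set (κ × MvPolynomial ι ℚ) := {v | ∃ u ∈ F, v.1 = u.1 ∧ v.2 ∈ u.2} with hA
  set b := Module.finBasis ℚ W with hb
  obtain ⟨g, hg⟩ := LinearMap.exists_extend (b.equivFun.toLinearMap)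
  have hgW : ∀ x : W, g x = b.equivFun x := fun x => LinearMap.congr_fun hg x
  obtain ⟨u₀, hu₀⟩ := hF
  have hAW : ∀ v ∈ A, (p v.1 + v.2) ^ d - p v.1 ^ d ∈ W := by
    rintro v ⟨u, hu, e, hv⟩
    rw [e]
    exact gen u hu _ hv
  obtain ⟨S, η, hη, -, hS⟩ := box_hull
    (fun v : A => g ((p v.1.1 + v.1.2) ^ d - p v.1.1 ^ d))
    ⟨(u₀.1, 0), u₀, hu₀, rfl, u₀.2.zero_mem⟩ (by simp)
    (fun f hf => by
      have H : ∀ u ∈ F, ∀ π ∈ u.2, 0 ≤ lam_Hull g f ((p u.1 + π) ^ d - p u.1 ^ d) :=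
        fun u hu π hπ => hf ⟨(u.1, π), u, hu, rfl, hπ⟩
      have hz := van (lam_Hull g f)
        (fun u hu => first_Hull _ d (by omega) (p u.1) u.2 (H u hu))
        (fun u hu l hl hm => prod_Hull _ d u.2 (last_Hull _ d ho (p u.1) u.2 (H u hu)) l hl hm)
      have hj : ∀ j, f (Pi.single j 1) = 0 := by
        intro j
        have h1 : f (fun i => (g (b j) i : ℝ)) = 0 := hz (b j) (b j).2
        rw [← h1]
        congr 1
        funext i
        rw [hgW, Module.Basis.equivFun_self]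
        by_cases e : j = i
        · subst e; simp
        · simp [e]
      have : (f : (Fin (Module.finrank ℚ W) → ℝ) →ₗ[ℝ] ℝ) = 0 :=
        (Pi.basisFun ℝ _).ext fun j => by simpa using hj j
      exact ContinuousLinearMap.ext fun x => LinearMap.congr_fun this x)
  refine ⟨S.map (Function.Embedding.subtype _), _, fun i => (LinearMap.proj i).comp g, η, ?_, hη,
    fun f hf hl => ?_⟩
  · intro u hu
    obtain ⟨v, -, rfl⟩ := mem_map.1 hu
    exact v.2
  · obtain ⟨w, hw0, hw1, hw2⟩ := hS (g f) hl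
    refine ⟨fun u => if h : u ∈ A then w ⟨u, h⟩ else 0, fun u => ?_, ?_, ?_⟩
    · by_cases h : u ∈ A
      · simp only [dif_pos h]; exact hw0 _
      · simp only [dif_neg h]; exact le_rfl
    · rw [sum_map, ← hw1]
      refine le_of_eq (sum_congr rfl fun v _ => ?_)
      exact dif_pos v.2
    · rw [sum_map]
      have e1 : ∑ v ∈ S, (if h : (Function.Embedding.subtype (· ∈ A)) v ∈ A then
            w ⟨(Function.Embedding.subtype (· ∈ A)) v, h⟩ else 0) •
            ((p ((Function.Embedding.subtype (· ∈ A)) v).1 +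
              ((Function.Embedding.subtype (· ∈ A)) v).2) ^ d -
              p ((Function.Embedding.subtype (· ∈ A)) v).1 ^ d) =
          ∑ v ∈ S, w v • ((p v.1.1 + v.1.2) ^ d - p v.1.1 ^ d) :=
        sum_congr rfl fun v _ => by
          congr 1
          exact dif_pos v.2
      refine e1.trans ?_
      have hm : ∑ v ∈ S, w v • ((p v.1.1 + v.1.2) ^ d - p v.1.1 ^ d) ∈ W :=
        W.sum_mem fun v _ => W.smul_mem _ (hAW v.1 v.2)
      have h3 : b.equivFun ⟨_, hm⟩ = b.equivFun ⟨f, hf⟩ := by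
        rw [← hgW, ← hgW]
        show g (∑ v ∈ S, w v • ((p v.1.1 + v.1.2) ^ d - p v.1.1 ^ d)) = g f
        rw [map_sum, ← hw2]
        exact sum_congr rfl fun v _ => map_smul _ _ _
      exact congrArg Subtype.val (b.equivFun.injective h3)

end Pool.Agent.MP_93dc40_an.St

end

section

namespace Pool.Agent.MP_93dc40_an.St

open Finset MvPolynomial

variable {ι : Type} [Fintype ι] [DecidableEq ι] {T : Finset ι}

theorem lattice_top (n : ι →₀ ℕ) (a c : ℕ) (ha : 0 < a)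
    (h : a * (c + Fintype.card ι) + yd T n ≤ n.degree) :
    ∃ ρ n' : ι →₀ ℕ, yd T ρ = 0 ∧ ρ.degree = c ∧ n = a • ρ + n' := by
  have h1 := yd_deg (T := T) n
  have h2 : a * (c + T.card) ≤ a * (c + Fintype.card ι) :=
    Nat.mul_le_mul_left _ (Nat.add_le_add_left (Finset.card_le_univ T) _)
  obtain ⟨ρ, k1, k2, k3⟩ := lattice T n a c ha (by omega)
  obtain ⟨n', hn⟩ := exists_add_of_le k3
  exact ⟨ρ, n', yd_eq_zero.2 k1, k2, hn⟩

omit [Fintype ι] in
theorem EE_smon {ρ : ι →₀ ℕ} (h : yd T ρ = 0) (g : ℕ) :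
    monomial (g • ρ) (1 : ℚ) ∈ EE T 0 (g * ρ.degree) := by
  have := EE_mon (T := T) (g • ρ)
  rwa [yd_smul, h, mul_zero, map_nsmul, smul_eq_mul] at this

omit [Fintype ι] [DecidableEq ι] in
theorem Absorb.mono {d : ℕ} {κ : Type} {A A' : Set (κ × MvPolynomial ι ℚ)}
    {p : κ → MvPolynomial ι ℚ} {W : Submodule ℚ (MvPolynomial ι ℚ)} (h : Absorb d A p W)
    (hA : A ⊆ A') : Absorb d A' p W := by
  obtain ⟨S, n, l, η, h1, h2⟩ := h
  exact ⟨S, n, l, η, fun u hu => hA (h1 u hu), h2⟩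

theorem arith1 {u b y g m co v : ℕ} (h : u = b + y) (hy : 1 ≤ y) (hg : 1 ≤ g) (hc : m * u + 1 ≤ co) :
    b * g * (co + m) + y ≤ u * (g * co) + v := by
  have i2 : b * g * m ≤ g * (m * u) := by
    rw [mul_comm _ g, mul_assoc, mul_comm _ m]
    exact Nat.mul_le_mul_left _ (Nat.mul_le_mul_left _ (by omega))
  have i3 : g * (m * u) + 1 ≤ g * co := by nlinarith
  have i4 : y * (g * (m * u) + 1) ≤ y * (g * co) := Nat.mul_le_mul_left _ i3
  have i5 : u * (g * co) = b * g * co + y * (g * co) := by rw [h]; ring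
  have i6 : g * (m * u) ≤ y * (g * (m * u)) := Nat.le_mul_of_pos_left _ hy
  rw [mul_add, mul_one] at i4
  rw [mul_add]
  omega

theorem arith2 {b y g co δ n : ℕ} (h : b * g * co + n = (b + y) * (g * co) + y * δ) :
    n = y * (δ + g * co) := by nlinarith

/-- the special and the ordinary kids together absorb the target space -/
theorem cover (d : ℕ) (hd : 3 ≤ d) (hodd : Odd d) (hT : T.Nonempty) {κ : Type}
    (p : κ → MvPolynomial ι ℚ) (PP : κ → Submodule ℚ (MvPolynomial ι ℚ)) (Kd : κ → Prop)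
    (r Λ : MvPolynomial ι ℚ) (E : Set (MvPolynomial ι ℚ)) (δ D g ε α cs co fill : ℕ) (hg : 1 ≤ g)
    (hr : r ∈ EE T 0 δ) (hE : ∀ e ∈ E, e ∈ EE T 0 ε)
    (hΛ : Λ ∈ Submodule.span ℚ ((· ^ d) '' E))
    (hs : ∀ ρ : ι →₀ ℕ, yd T ρ = 0 → ρ.degree = cs → ∃ b, Kd b ∧ ∃ a ∈ EE T 0 α,
      p b = Λ * a * (r * monomial (g • ρ) 1) ^ d ∧
      PP b = GG T (r * monomial (g • ρ) 1) (δ + g * cs) d 1 D)
    (ho : ∀ e ∈ E, ∀ φ ρ : ι →₀ ℕ, yd T φ = 0 → φ.degree = 1 → yd T ρ = 0 → ρ.degree = co →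
      ∃ b, Kd b ∧ p b = e * monomial (fill • φ) 1 * (r * monomial (g • ρ) 1) ^ d ∧
      PP b = GG T (r * monomial (g • ρ) 1) (δ + g * co) d 1 D)
    (n1 : d * ε + α + d * (δ + g * cs) = D)
    (n2 : d * δ + (cs + Fintype.card ι) * (d * g) + d ≤ D)
    (n3 : ε + fill + d * (δ + g * co) = D) (n4 : fill ≤ d * g)
    (n5 : Fintype.card ι * (d * d) + Fintype.card ι + 2 ≤ co) :
    ∃ W : Submodule ℚ (MvPolynomial ι ℚ), Absorb d {u | Kd u.1 ∧ u.2 ∈ PP u.1} p W ∧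
      GG T r δ (d * d) d (d * D) ≤ W := by
  obtain ⟨d1, rfl⟩ : ∃ e, d = e + 1 := ⟨d - 1, by omega⟩
  set d := d1 + 1 with hd1
  set m := Fintype.card ι with hm
  obtain ⟨D1, rfl⟩ : ∃ D1, D = ε + D1 := ⟨D - ε, by omega⟩
  let V : Submodule ℚ (MvPolynomial ι ℚ) :=
    Submodule.span ℚ {f | ∃ e ∈ E, ∃ u ∈ GG T r δ (d * d) 1 (d * D1), f = e ^ d * u}
  let W := GG T r δ (d * d) d (d * (ε + D1)) ⊔ V
  have hW : W ≤ JJ T 0 (d * (ε + D1)) := by
    refine sup_le ((GG_le_JJ hr).trans (JJ_mono (Nat.zero_le _))) (Submodule.span_le.2 ?_)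
    rintro _ ⟨e, he, u, hu, rfl⟩
    rw [mul_add]
    exact JJ_mono (Nat.zero_le _) (JJ_mul (EE_le_JJ le_rfl (EE_pow0 (hE e he) d)) (GG_le_JJ hr hu))
  have : FiniteDimensional ℚ W := Submodule.finiteDimensional_of_le hW
  have hΛV : ∀ u ∈ GG T r δ (d * d) 1 (d * D1), Λ * u ∈ V := by
    intro u hu
    have : Submodule.span ℚ ((· ^ d) '' E) ≤ V.comap (LinearMap.mulRight ℚ u) := by
      refine Submodule.span_le.2 ?_
      rintro _ ⟨e, he, rfl⟩
      exact Submodule.subset_span ⟨e, he, u, hu, rfl⟩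
    exact this hΛ
  have hΛE : Λ ∈ EE T 0 (d * ε) := by
    refine Submodule.span_le.2 ?_ hΛ
    rintro _ ⟨e, he, rfl⟩
    exact EE_pow0 (hE e he) d
  have hRd : ∀ (ρ : ι →₀ ℕ), yd T ρ = 0 →
      (r * monomial (g • ρ) 1) ^ d ∈ GG T r δ d 0 (d * (δ + g * ρ.degree)) := fun ρ h =>
    GG_left (EE_smon h g) (GG_self d)
  let F : Set (κ × Submodule ℚ (MvPolynomial ι ℚ)) :=
    {u | ∃ ρ : ι →₀ ℕ, yd T ρ = 0 ∧ ρ.degree = cs ∧ Kd u.1 ∧ ∃ a ∈ EE T 0 α,
      p u.1 = Λ * a * (r * monomial (g • ρ) 1) ^ d ∧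
      PP u.1 = GG T (r * monomial (g • ρ) 1) (δ + g * cs) d 1 (ε + D1) ∧ u.2 = PP u.1} ∪
    {u | ∃ e ∈ E, ∃ φ ρ : ι →₀ ℕ, yd T φ = 0 ∧ φ.degree = 1 ∧ yd T ρ = 0 ∧ ρ.degree = co ∧
      Kd u.1 ∧ p u.1 = e * monomial (fill • φ) 1 * (r * monomial (g • ρ) 1) ^ d ∧
      PP u.1 = GG T (r * monomial (g • ρ) 1) (δ + g * co) d 1 (ε + D1) ∧
      u.2 = (GG T (r * monomial (g • ρ) 1) (δ + g * co) d 1 (d * (δ + g * co))).map
        (LinearMap.mulLeft ℚ (e * monomial (fill • φ) 1))}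
  obtain ⟨k0, hk0⟩ := hT
  have hk : yd T (Finsupp.single k0 cs) = 0 := by rw [yd_single, if_pos hk0]
  refine ⟨W, (hull d hd hodd p W F ?_ ?_ ?_).mono ?_, le_sup_left⟩
  · obtain ⟨b, h1, a, h2, h3, h4⟩ := hs _ hk (Finsupp.degree_single _ _)
    exact ⟨(b, PP b), Or.inl ⟨_, hk, Finsupp.degree_single _ _, h1, a, h2, h3, h4, rfl⟩⟩
  · rintro ⟨b, U⟩ (⟨ρ, h1, h2, -, a, h3, h4, h5, h6⟩ | ⟨e, he, φ, ρ, h1, h2, h3, h4, -, h5, -, h6⟩)
      π hπ
    · simp only at h4 h5 h6 hπ ⊢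
      rw [h6, h5, ← h2] at hπ
      replace hπ := GG_left (EE_smon h1 g) hπ
      have h7 := GG_mul (EE_GG h3) (hRd ρ h1)
      have h8 : p b ∈ GG T r δ d 0 (ε + D1) := by
        rw [h4, mul_assoc]
        exact GG_cast (GG_mul (EE_GG hΛE) h7) (by omega) (by omega) (by rw [h2]; omega)
      obtain ⟨S, hS, e⟩ := GG_binom h8 hπ d1
      rw [e]
      refine add_mem (Submodule.mem_sup_left (GG_cast (GG_pow hπ d) le_rfl (by omega) rfl))
        (Submodule.mem_sup_right ?_)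
      rw [h4, mul_assoc Λ, mul_assoc Λ]
      refine hΛV _ (GG_cast (GG_mul h7 hS) (by rw [hd1]; nlinarith) (by omega) ?_)
      rw [h2]
      have : d * (ε + D1) = d1 * (ε + D1) + (ε + D1) := by rw [hd1]; ring
      rw [mul_add d ε] at this
      omega
    · simp only at h5 h6 hπ ⊢
      rw [h6] at hπ
      obtain ⟨π0, k1, rfl⟩ := hπ
      rw [← h4] at k1
      replace k1 := GG_left (EE_smon h3 g) k1
      have k2 := EE_GG (R := r) (δ := δ) (EE_smon h1 fill)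
      have k3 : monomial (fill • φ) 1 * (r * monomial (g • ρ) 1) ^ d ∈ GG T r δ d 0 D1 :=
        GG_cast (GG_mul k2 (hRd ρ h3)) (by omega) (by omega) (by rw [h2, h4]; omega)
      have k4 : monomial (fill • φ) 1 * π0 ∈ GG T r δ d 1 D1 :=
        GG_cast (GG_mul k2 k1) (by omega) (by omega) (by rw [h2, h4]; omega)
      have k5 := GG_tele (add_mem k3 (GG_mono le_rfl (Nat.zero_le _) k4)) k3
        (by rw [add_sub_cancel_left]; exact k4) d
      refine Submodule.mem_sup_right (Submodule.subset_span ⟨e, he, _, k5, ?_⟩)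
      rw [h5, LinearMap.mulLeft_apply, mul_assoc e, mul_assoc e, ← mul_add, mul_pow e, mul_pow e,
        mul_sub]
  · intro L hL1 hL2
    have hA : GG T r δ (d * d) d (d * (ε + D1)) ≤ LinearMap.ker L := by
      refine GG_tight hr _ fun n k1 k2 => ?_
      obtain ⟨ρ, n', j1, j2, j3⟩ : ∃ ρ n' : ι →₀ ℕ, yd T ρ = 0 ∧ ρ.degree = cs ∧
          n = (d * d - yd T n) • g • ρ + n' := by
        by_cases hy : d * d ≤ yd T n
        · exact ⟨_, n, hk, Finsupp.degree_single _ _, by rw [Nat.sub_eq_zero_of_le hy]; simp⟩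
        · have j0 : (d * d - yd T n) * δ ≤ d * d * δ := Nat.mul_le_mul_right _ (by omega)
          have j4 := Nat.mul_le_mul_left d n2
          obtain ⟨ρ, n', j1, j2, j3⟩ := lattice_top (T := T) n (d * d * g) cs (by positivity)
            (by rw [← hm]; nlinarith)
          refine ⟨ρ, yd T n • g • ρ + n', j1, j2, ?_⟩
          rw [← add_assoc, ← add_smul, Nat.sub_add_cancel (by omega), smul_smul]
          exact j3
      obtain ⟨b, h1, a, h2, h3, h4⟩ := hs ρ j1 j2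
      have j5 : yd T n = yd T n' := by
        conv_lhs => rw [j3]
        rw [yd_add, yd_smul, yd_smul, j1]; simp
      have j6 : n.degree = (d * d - yd T n) * (g * cs) + n'.degree := by
        conv_lhs => rw [j3]
        rw [map_add, map_nsmul, map_nsmul, j2]; simp
      obtain ⟨l, l1, l2, l3⟩ := split (T := T) (R := r * monomial (g • ρ) 1) (δ := δ + g * cs) d
        (ε + D1) (by omega) (by nlinarith) d (d * d - yd T n) n'
        (by rw [Nat.mul_sub_one]; omega) (by omega) (by omega) (by rw [mul_add]; omega)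
      have := hL2 (b, PP b) (Or.inl ⟨ρ, j1, j2, h1, a, h2, h3, h4, rfl⟩) l l1
        (fun π hπ => by rw [h4]; exact l2 π hπ)
      rw [l3, mul_pow, monomial_pow, one_pow, mul_assoc, monomial_mul, one_mul, ← j3] at this
      exact this
    intro f hf
    refine (sup_le hA (Submodule.span_le.2 ?_) : W ≤ LinearMap.ker L) hf
    rintro _ ⟨e, he, u, hu, rfl⟩
    refine GG_tight hr ((LinearMap.ker L).comap (LinearMap.mulLeft ℚ (e ^ d))) (fun n k1 k2 => ?_) hu
    change e ^ d * _ ∈ LinearMap.ker L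
    by_cases hy : d ≤ yd T n
    · refine hA (GG_cast (GG_mul (EE_GG (EE_pow0 (hE e he) d)) (Submodule.subset_span
        ⟨_, n, le_refl (d * d - yd T n + yd T n), le_rfl, k2, rfl⟩)) (by omega) (by omega) (by ring))
    obtain ⟨y, hy1⟩ : ∃ y, yd T n = y := ⟨_, rfl⟩
    obtain ⟨z, hz⟩ : ∃ z, d = y + z := ⟨d - y, by omega⟩
    have hb : d * d - y = d1 * d + z := by
      have : d * d = d1 * d + z + y := by rw [add_assoc, add_comm z, ← hz, hd1]; ring
      omega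
    rw [hy1] at k1 k2 ⊢
    rw [hb] at k2 ⊢
    have hdeg : n.degree = d * fill + d * d * (g * co) + y * δ := by
      have j1 : d * D1 = d * fill + d * d * (g * co) + y * δ + (d1 * d + z) * δ := by
        have : D1 = fill + d * (δ + g * co) := by omega
        rw [this, add_assoc (d * fill + d * d * (g * co)), ← add_mul, ← hb,
          Nat.add_sub_cancel' (by nlinarith)]
        ring
      omega
    have j2 : d * d * g * (m + 2) ≤ d * d * (g * co) := by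
      rw [mul_assoc (d * d)]
      exact Nat.mul_le_mul_left _ (Nat.mul_le_mul_left _ (by omega))
    have j3 : d ≤ d * d * g := by nlinarith
    obtain ⟨φ, n1', f1, f2, f3⟩ := lattice_top (T := T) n (d * d * g) 1 (by positivity)
      (by rw [← hm]; nlinarith)
    obtain ⟨w, hw⟩ : ∃ w, d * d * g = d * fill + w := ⟨d * d * g - d * fill, by
      have := Nat.mul_le_mul_left d n4
      rw [mul_assoc]; omega⟩
    rw [hw, add_smul, add_assoc] at f3
    generalize w • φ + n1' = n2' at f3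
    have g1 : yd T n2' = y := by rw [← hy1, f3, yd_add, yd_smul, f1]; simp
    have g2 : n2'.degree = d * d * (g * co) + y * δ := by
      rw [f3, map_add, map_nsmul, f2, smul_eq_mul, mul_one, add_assoc] at hdeg
      omega
    obtain ⟨ρ, n0, e1, e2, e3⟩ := lattice_top (T := T) n2' ((d1 * d + z) * g) co
      (Nat.mul_pos (by omega) hg) (by
        rw [← hm, g1, g2]
        exact arith1 (by omega) k1 hg (by omega))
    obtain ⟨b, h1, h2, h3⟩ := ho e he φ ρ f1 f2 e1 e2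
    have g3 : yd T n0 = y := by rw [← g1, e3, yd_add, yd_smul, e1]; simp
    have g4 : z * (δ + g * co) + n0.degree = d * (δ + g * co) := by
      rw [e3, map_add, map_nsmul, e2, smul_eq_mul] at g2
      have i1 : d * d = d1 * d + z + y := by omega
      rw [i1] at g2
      rw [arith2 g2, hz]; ring
    have := hL1 (b, _) (Or.inr ⟨e, he, φ, ρ, f1, f2, e1, e2, h1, h2, h3, rfl⟩)
      (e * monomial (fill • φ) 1 * ((r * monomial (g • ρ) 1) ^ z * monomial n0 1))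
      ⟨_, Submodule.subset_span ⟨z, n0, by omega, by omega, g4, rfl⟩, rfl⟩
    rw [LinearMap.mem_ker, ← this, h2, hd1, Nat.add_sub_cancel, ← hd1]
    congr 1
    have i1 : (monomial n 1 : MvPolynomial ι ℚ) = monomial (fill • φ) 1 ^ d *
        (monomial (g • ρ) 1 ^ (d1 * d + z) * monomial n0 1) := by
      rw [monomial_pow, monomial_pow, monomial_mul, monomial_mul, smul_smul, smul_smul, f3, e3]
      simp
    rw [i1]
    generalize (monomial (fill • φ) 1 : MvPolynomial ι ℚ) = A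
    generalize (monomial (g • ρ) 1 : MvPolynomial ι ℚ) = B
    rw [hd1]
    ring
  · rintro ⟨b, π⟩ ⟨⟨b', U⟩, (⟨ρ, -, -, h1, a, -, -, -, h6⟩ |
      ⟨e, he, φ, ρ, h1, h2, h3, h4, h7, -, h5, h6⟩), rfl, hπ⟩
    · exact ⟨h1, h6 ▸ hπ⟩
    · refine ⟨h7, ?_⟩
      simp only at h5 h6 hπ ⊢
      rw [h6] at hπ
      obtain ⟨π0, k1, rfl⟩ := hπ
      rw [h5]
      exact GG_cast (GG_mul (EE_GG (EE_mul0 (hE e he) (EE_smon h1 fill))) k1) (by omega) (by omega)
        (by rw [h2]; omega)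

end Pool.Agent.MP_93dc40_an.St

end

section

namespace Pool.Agent.MP_93dc40_an.St

open Finset MvPolynomial

variable {ι : Type} [Fintype ι] [DecidableEq ι] {P : ℕ}
  {d L B a c cm X : ℕ} {Q : ZMod P → Matrix ι ι ℕ} {T : ZMod P → Finset ι} {r : ZMod P}

theorem val_lift {ρ : ι →₀ ℕ} (h : yd (T r) ρ = 0) : Val T r (lift ρ) :=
  On.lift fun k hk => by simpa using yd_eq_zero.1 h k hk

theorem game_step (fr : Frame Q T L) (C : Cst d L (Fintype.card ι) B a c cm X) (ho : Odd d)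
    {S : Finset (ZMod P × (ℕ × ι →₀ ℕ) × (ℕ × ι →₀ ℕ))}
    (hS : ∀ b, b ∈ S ↔ Inv d L B a cm X T b.1 b.2.1 b.2.2) {l u : ℕ × ι →₀ ℕ}
    (h : Inv d L B a cm X T (r + 1) l u) :
    (∃ b, Kid d S Prod.fst (pb d Q T (2 * L + X)) r
      (psi d (Q r) (T (r + 1)) (T r) 0 (pb d Q T (2 * L + X) (r + 1, l, u))) b) ∧
    ∃ W : Submodule ℚ (MvPolynomial ι ℚ), Absorb d {x | Kid d S Prod.fst (pb d Q T (2 * L + X)) r
      (psi d (Q r) (T (r + 1)) (T r) 0 (pb d Q T (2 * L + X) (r + 1, l, u))) x.1 ∧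
      x.2 ∈ PPb d Q T (2 * L + X) (X * d ^ (2 * L + X + 1)) x.1} (pb d Q T (2 * L + X)) W ∧
      ∀ (η : ℚ), ∀ π ∈ PPb d Q T (2 * L + X) (X * d ^ (2 * L + X + 1)) (r + 1, l, u),
        psi d (Q r) (T (r + 1)) (T r) η (pb d Q T (2 * L + X) (r + 1, l, u) + π) -
          psi d (Q r) (T (r + 1)) (T r) 0 (pb d Q T (2 * L + X) (r + 1, l, u)) ∈ W := by
  have hd := C.hd
  obtain ⟨k, v, rfl, hv, ov, hk⟩ := h.drop C
  obtain ⟨l1, l2, rfl, o1, o2⟩ := split_on (· < L) l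
  replace o2 : On (fun s => s.1 = L) l2 := (o2.and (on_add.1 h.lev).2).imp fun s hs => by omega
  obtain ⟨μ, ρ, rfl, hρ⟩ := divmod (d := d) (by omega) o1
  have hv1 := on_add.1 h.v1
  have hv2 := on_add.1 h.v2
  have vμ : Val T (r + 1) μ := fun s hs => (on_add.1 hv1.1).1 s (by
    rw [Finsupp.smul_apply, smul_eq_mul]; exact Nat.mul_ne_zero (by omega) hs)
  obtain ⟨ε1, a1, a2⟩ := along (d := d) fr (on_add.1 hv1.1).2
  have hε : Hs d Q T r d (tp d Q T r (sh (d • μ + ρ))) (sh μ + ε1) := by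
    rw [sh_add, sh_smul, tp_add, tp_smul]
    exact (Hs.refl (val_sh vμ)).mul a1
  have cε : ∀ ω, wt ω (sh μ + ε1) = wt ω (sh μ) + wt ω ρ := fun ω => by rw [wt_add, a2]
  have km := fun ε γ γ1 w => kid_main (ε := ε) (γ := γ) (γ1 := γ1) (w := w) fr C hS h o1 o2 hρ hv ov hk
  generalize sh μ + ε1 = ε0 at hε cε
  generalize hl1 : d • μ + ρ = l1 at *
  set m := Fintype.card ι
  obtain ⟨G1, hG1⟩ : ∃ G1, G1 = d ^ L * d ^ (X + 1) := ⟨_, rfl⟩
  obtain ⟨g, hg⟩ : ∃ g, g = d ^ (2 * L + X) := ⟨_, rfl⟩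
  have eG : d * g = d ^ L * G1 := by rw [hg, hG1]; ring
  have eG' : d ^ (2 * L + X + 1) = d * g := by rw [hg, pow_succ']
  have pG1 : 0 < G1 := by rw [hG1]; positivity
  have pg : 1 ≤ g := hg ▸ C.d1 _
  rw [← hG1] at km
  have ak : On (fun s => s.1 < 2 * L + X) k := on_tl (by have := hk (2 * L + X) (by omega); omega)
  have av := (on_add.1 h.age).2
  have dk : (sh k).degree = k.degree := Finsupp.degree_mapDomain _ _
  obtain ⟨k0, hk0⟩ := fr.ne r
  have y0 : ∀ n, yd (T r) (Finsupp.single k0 n) = 0 := fun n => by rw [yd_single, if_pos hk0]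
  have zl : ∀ x : ι →₀ ℕ, On (fun s => s.1 = 0) (lift x) := fun x => On.lift fun _ _ => rfl
  obtain ⟨R, hR⟩ : ∃ R, R = tp d Q T r (up d (2 * L + X) (sh k)) := ⟨_, rfl⟩
  have hRE : R ∈ EE (T r) 0 (g * k.degree) := by
    have := tp_EE (d := d) (Q := Q) ((val_sh hv2.1).up d (2 * L + X))
    rwa [mass_up (On.sh (ak.imp fun s hs => by omega)), dk, ← hR, ← hg] at this
  have eR : ∀ x : ι →₀ ℕ, tp d Q T r (up d (2 * L + X) (lift x + sh k)) = R * monomial (g • x) 1 := by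
    intro x
    rw [up_add, up_level0 d _ (zl x), tp_add, ← lift_smul, tp_lift, ← hR, ← hg, mul_comm]
  have ePP : ∀ (l' : ℕ × ι →₀ ℕ) (x : ι →₀ ℕ), PPb d Q T (2 * L + X) (X * (d * g)) (r, l', lift x + sh k) =
      GG (T r) (R * monomial (g • x) 1) (g * k.degree + g * x.degree) d 1 (X * (d * g)) := by
    intro l' x
    simp only [PPb]
    rw [eR, map_add, lift_deg, dk, ← hg, mul_add, add_comm]
  -- special kids
  have t1 : (sh l1).degree ≤ a * d ^ (2 * L) * d ^ (X + 1) := by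
    have h1 := h.om
    have h2 : wt (fun _ => 1) l1 ≤ wt (fun i => B ^ (L - i)) l1 := wt_le' fun s _ => C.B1 _
    rw [wt_one] at h2
    rw [wt_add] at h1
    rw [sh, Finsupp.degree_mapDomain, mul_assoc, ← pow_add, ← add_assoc]
    omega
  have t2 := Nat.mul_le_mul_right (d ^ (X + 1))
    (show a * d ^ (2 * L) + (m + 1) ≤ c by have := C.hc; omega)
  rw [add_mul] at t2
  obtain ⟨n, hn⟩ : ∃ n, (sh l1).degree + n = c * d ^ (X + 1) :=
    ⟨c * d ^ (X + 1) - (sh l1).degree, by omega⟩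
  have t3 : (m + 1) * G1 ≤ d ^ L * n + l2.degree := by
    rw [hG1, mul_left_comm]
    exact (Nat.mul_le_mul_left _ (by omega)).trans (Nat.le_add_right _ _)
  obtain ⟨cs, hcs⟩ : ∃ cs, (d ^ L * n + l2.degree) / G1 = cs + (m + 1) :=
    ⟨(d ^ L * n + l2.degree) / G1 - (m + 1), by have := (Nat.le_div_iff_mul_le pG1).2 t3; omega⟩
  have i1 := Nat.div_add_mod (d ^ L * n + l2.degree) G1
  have i2 := Nat.mod_lt (d ^ L * n + l2.degree) pG1
  rw [hcs, mul_add, mul_comm G1 (m + 1)] at i1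
  obtain ⟨x, hx⟩ := exists_add_of_le (le_up (ν := sh l1) (d := d) (by omega) (2 * L))
  obtain ⟨γs, hγs⟩ : ∃ γs : ℕ × ι →₀ ℕ, γs = Finsupp.single (0, k0)
    ((m + 1) * G1 + (d ^ L * n + l2.degree) % G1) := ⟨_, rfl⟩
  have vγs : Val T r γs := hγs ▸ On.single (by simpa using hk0) _
  have ks : ∀ y : ι →₀ ℕ, yd (T r) y = 0 → y.degree = cs → _ := fun y y1 y2 =>
    km ε0 (sh l1) γs (lift y) hε cε (val_sh hv1.1) (On.sh (o1.imp fun s hs => by omega)) (by
      rw [wt_sh]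
      simpa using wt_le B 1 (ω := fun i => B ^ (L - (i + 1))) (ω' := fun i => B ^ (L - i))
        (o1.imp fun s hs => by rw [one_mul, ← pow_succ']; exact (congrArg _ (by omega)).le))
      hn (by omega) vγs (hγs ▸ On.single (by simp) _) (val_lift y1) (zl y)
      (by rw [lift_deg, y2, hγs, Finsupp.degree_single]; omega)
      (by rw [hγs, Finsupp.degree_single, show m + 2 = m + 1 + 1 from rfl, add_mul (m + 1)]; omega)
  -- ordinary kids
  have j1 := Nat.div_add_mod (c * G1 + l2.degree) G1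
  have j2 := Nat.mod_lt (c * G1 + l2.degree) pG1
  have j3 : c ≤ (c * G1 + l2.degree) / G1 := (Nat.le_div_iff_mul_le pG1).2 (Nat.le_add_right _ _)
  generalize (c * G1 + l2.degree) / G1 = co at j1 j3
  generalize (c * G1 + l2.degree) % G1 = f at j1 j2
  have ko : ∀ ε, Hs d Q T r d (tp d Q T r (sh l1)) ε → (∀ ω, wt ω ε = wt ω ε0) →
      ∀ φ y : ι →₀ ℕ, yd (T r) φ = 0 → φ.degree = 1 → yd (T r) y = 0 → y.degree = co → _ :=
    fun ε e1 e2 φ y y1 y2 y3 y4 =>
    km ε 0 (f • lift φ) (lift y) e1 (fun ω => (e2 ω).trans (cε ω)) On.zero On.zero (by simp)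
      (n := c * d ^ (X + 1)) (by simp) (by omega) ((val_lift y1).smul _) ((zl φ).smul _) (val_lift y3) (zl y)
      (by rw [map_nsmul, lift_deg, lift_deg, y2, y4, smul_eq_mul, mul_left_comm, ← hG1]; omega)
      (by rw [map_nsmul, lift_deg, y2, smul_eq_mul, add_mul]; omega)
  have ks0 := ks _ (y0 cs) (Finsupp.degree_single _ _)
  have ko0 := ko ε0 hε (fun _ => rfl) _ _ (y0 1) (Finsupp.degree_single _ _) (y0 co)
    (Finsupp.degree_single _ _)
  refine ⟨⟨_, ks0⟩, ?_⟩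
  have ms := ((hS _).1 ks0.1).mass
  have mo := ((hS _).1 ko0.1).mass
  simp only [map_add, lift_deg, Finsupp.degree_single, dk, eG', up_zero, add_zero] at ms mo
  have va : Val T r (ε0 + x + d ^ L • γs) :=
    (hε.1.add (on_add.1 (hx ▸ (val_sh hv1.1).up d (2 * L))).2).add (vγs.smul _)
  have e1 : wt (d ^ ·) (sh l1) = d * wt (d ^ ·) ε0 := by
    rw [cε, ← hl1, sh_add, sh_smul, wt_add, wt_smul, mul_add, wt_sh (ν := ρ)]
    congr 1
    refine le_antisymm ?_ ?_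
    · simpa using wt_le 1 d (ω := fun l => d ^ (l + 1)) (ω' := (d ^ ·)) (ν := ρ)
        fun s _ => by simp [pow_succ']
    · simpa using wt_le d 1 (ω' := fun l => d ^ (l + 1)) (ω := (d ^ ·)) (ν := ρ)
        fun s _ => by simp [pow_succ']
  have e2 : ε0 + up d (2 * L) (sh l1) + d ^ L • γs = sh l1 + (ε0 + x + d ^ L • γs) := by
    rw [hx]; abel
  rw [e2, wt_add, e1] at ms
  rw [wt_add, wt_smul, wt_smul, wt_const (c := 1) ((zl _).imp fun s hs => by simp [hs]), lift_deg,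
    Finsupp.degree_single] at mo
  have e3 : (m + 1) * (d * g) ≤ wt (d ^ ·) (ε0 + x + d ^ L • γs) := by
    rw [wt_add, wt_smul, hγs, wt_single, eG, mul_left_comm]
    exact (Nat.mul_le_mul_left _ (by simp)).trans (Nat.le_add_left _ _)
  rw [eG']
  obtain ⟨W, w1, w2⟩ := cover d hd ho (fr.ne r) (pb d Q T (2 * L + X))
    (PPb d Q T (2 * L + X) (X * (d * g))) (Kid d S Prod.fst (pb d Q T (2 * L + X)) r
      (psi d (Q r) (T (r + 1)) (T r) 0 (pb d Q T (2 * L + X) (r + 1, l1 + l2, k + v)))) R _ _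
    (g * k.degree) (X * (d * g)) g (wt (d ^ ·) ε0) (wt (d ^ ·) (ε0 + x + d ^ L • γs)) cs co
    (d ^ L * f) pg hRE (by
      rintro _ ⟨ε, b1, b2, rfl⟩
      exact b2 _ ▸ tp_EE b1.1) (Cn_refine hε.mem)
    (fun y y1 y2 => ⟨_, ks y y1 y2, _, tp_EE (d := d) (Q := Q) va, by
      simp only [pb]; rw [eR, e2, tp_add], by rw [ePP, y2]⟩)
    (by
      rintro _ ⟨ε, b1, b2, rfl⟩ φ y y1 y2 y3 y4
      refine ⟨_, ko ε b1 b2 φ y y1 y2 y3 y4, ?_, by rw [ePP, y4]⟩
      simp only [pb]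
      rw [eR, up_zero, add_zero, tp_add, smul_smul, ← lift_smul, tp_lift])
    (by rw [← ms]; ring) (by
      have : d ≤ d * g := Nat.le_mul_of_pos_right _ pg
      change _ + (cs + m) * (d * g) + d ≤ _
      rw [add_mul, one_mul] at e3
      rw [← ms, add_mul, mul_add (d * g), ← mul_assoc, mul_comm cs]
      omega)
    (by rw [← mo]; ring) (by rw [eG]; exact Nat.mul_le_mul_left _ j2.le)
    (by have := C.hc; change m * (d * d) + m + 2 ≤ co; omega)
  refine ⟨W, w1, fun η π hπ => w2 ?_⟩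
  have hm := h.mass
  have au : On (fun s => s.1 ≤ 2 * L + X) (k + v) := h.age.imp fun s hs => by omega
  have hU := tp_EE (d := d) (Q := Q) (h.v2.up d (2 * L + X))
  rw [mass_up au] at hU
  have hq := tp_EE (d := d) (Q := Q) (val_sh (hv2.2.up d (2 * L + X)))
  have hχ := tp_EE (d := d) (Q := Q) (val_sh h.v1)
  have e4 : ∀ ν : ℕ × ι →₀ ℕ, wt (d ^ ·) (sh ν) = d * wt (d ^ ·) ν := fun ν => by
    rw [wt_sh]
    refine le_antisymm ?_ ?_
    · simpa using wt_le 1 d (ω := fun l => d ^ (l + 1)) (ω' := (d ^ ·)) (ν := ν)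
        fun s _ => by simp [pow_succ']
    · simpa using wt_le d 1 (ω' := fun l => d ^ (l + 1)) (ω := (d ^ ·)) (ν := ν)
        fun s _ => by simp [pow_succ']
  rw [e4, ← psi_tp (by omega) h.v1] at hχ
  rw [e4, mass_up (on_add.1 au).2] at hq
  refine psi_base (fr.closed r) η hU (tp_EE h.v1) hχ hq (by rw [map_add, ← hg]; ring)
    (by rw [← eG', ← hm]; ring) ?_ hπ
  rw [psi_tp (by omega) (h.v2.up d _), up_add, sh_add, sh_up d _ ak, tp_add, tp_smul, hR]

theorem game [NeZero P] (hd : 3 ≤ d) (ho : Odd d) (fr : Frame Q T L) :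
    ∃ (κ : Type) (S : Finset κ) (ph : κ → ZMod P) (p : κ → MvPolynomial ι ℚ)
      (PP : κ → Submodule ℚ (MvPolynomial ι ℚ)) (s : ℕ), Game d Q T S ph p PP (d ^ s) := by
  obtain ⟨B, a, c, cm, e, C⟩ : ∃ B a c cm e, Cst d L (Fintype.card ι) B a c cm (d ^ e) :=
    ⟨_, _, _, _, _, hd, fr.pos, le_rfl, le_rfl, le_rfl, le_rfl, (Nat.lt_pow_self (by omega)).le⟩
  obtain ⟨X, hX⟩ : ∃ X, X = d ^ e := ⟨_, rfl⟩
  rw [← hX] at C
  have hS := fun b => (inv_finite (T := T) C).mem_toFinset (a := b)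
  refine ⟨_, (inv_finite (T := T) C).toFinset, Prod.fst, pb d Q T (2 * L + X),
    PPb d Q T (2 * L + X) (X * d ^ (2 * L + X + 1)), e + (2 * L + X + 1), ?_⟩
  rw [pow_add d e, ← hX]
  have hE : ∀ b : ZMod P × (ℕ × ι →₀ ℕ) × (ℕ × ι →₀ ℕ), Inv d L B a cm X T b.1 b.2.1 b.2.2 →
      pb d Q T (2 * L + X) b = tp d Q T b.1 (b.2.1 + d • up d (2 * L + X) b.2.2) ∧
      Val T b.1 (b.2.1 + d • up d (2 * L + X) b.2.2) ∧
      wt (d ^ ·) (b.2.1 + d • up d (2 * L + X) b.2.2) = X * d ^ (2 * L + X + 1) := fun b h =>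
    ⟨by rw [tp_add, tp_smul, pb], h.v1.add ((h.v2.up d _).smul _), by
      rw [wt_add, wt_smul, mass_up (h.age.imp fun s hs => by omega), ← h.mass]; ring⟩
  refine ⟨?_, fun b hb y θ h0 hy => ?_, fun b hb => ?_, fun b hb => ?_, ?_, ?_⟩
  · obtain ⟨k, hk⟩ := fr.ne (0 + (2 * L : ℕ))
    refine ⟨(0, 0, Finsupp.single (2 * L, k) X), (hS _).2 ⟨On.zero, On.single hk _, On.zero, by simp,
      fun i hi => by simp [hdw, not_lt.2 hi], fun i hi => ?_, by simp [mul_comm]⟩⟩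
    simp only [wt_single, tlw]
    split_ifs <;> omega
  · obtain ⟨h1, h2, h3⟩ := hE b ((hS b).1 hb)
    rw [h1, ← h3]
    exact tp_low fr y θ h0 hy h2
  · obtain ⟨h1, h2, h3⟩ := hE b ((hS b).1 hb)
    rw [h1, ← h3]
    exact EE_le_JJ le_rfl (tp_EE h2)
  · have h := (hS b).1 hb
    have := tp_EE (d := d) (Q := Q) (h.v2.up d (2 * L + X))
    rw [mass_up (h.age.imp fun s hs => by omega)] at this
    exact GG_le_JJ this
  · rintro ⟨_, l, u⟩ hb r rfl
    exact (game_step fr C ho hS ((hS _).1 hb)).1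
  · rintro ⟨_, l, u⟩ hb r rfl
    exact (game_step fr C ho hS ((hS _).1 hb)).2

end Pool.Agent.MP_93dc40_an.St

end

section

namespace Pool.Agent.MP_93dc40_an.St

theorem quotient_form (d : ℕ) (hd : 3 ≤ d) (ho : Odd d) (m : ℕ) (hm : 0 < m)
    (A : Matrix (Fin m) (Fin m) ℕ) (hA : ∀ i, ∃ j, 0 < A i j) :
    ∃ L₀ : ℕ, 1 ≤ L₀ ∧ ∀ L, 1 ≤ L → L₀ ∣ L →
      ∀ (k : ℕ) (M : Matrix (Fin k) (Fin k) ℕ) (π : Fin k → Fin m), IsBinary M →
        Function.Surjective π → (∀ v j, ∑ w with π w = j, M v w = L * A (π v) j) →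
        ∃ (k' : ℕ) (N : Matrix (Fin k') (Fin k') ℕ) (h : ℝ),
          IsBinary N ∧ IsIrred N ∧ HasEntropy d M h ∧ HasEntropy d N h := by
  obtain ⟨P, _, Q, T, L, x, K, a, fr, O, a0, gr⟩ := frame d (by omega) hm A hA
  obtain ⟨κ, B, ph, p, PP, s, G⟩ := game hd ho fr
  obtain ⟨α, S, W, γ, n0, c, c0, sys, up, lo⟩ :=
    assemble d (by omega) Q T fr.closed B ph p PP _ G x _ K O
  exact stable_of d (by omega) hm A hA a a0 gr S W γ n0 s c c0 sys up lo

end Pool.Agent.MP_93dc40_an.St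

end
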