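import Mathlib
import Pool.Agent.Mg.F93dc40.G24b968

section

namespace Pool.Agent.MP_93dc40_an

open Finset Polynomial Filter Topology

theorem low_coeff : ∀ (m n : ℕ) (c : ℕ → ℝ), m < n → (∀ i < m, c i = 0) →
    (∀ η > 0, 0 ≤ ∑ i ∈ range n, c i * η ^ i) → 0 ≤ c m
  | _, 0, _, h, _, _ => absurd h (by omega)
  | 0, n + 1, c, _, _, h => by
    have h1 : Tendsto (fun η : ℝ => ∑ i ∈ range (n + 1), c i * η ^ i) (𝓝[>] 0)
        (𝓝 (∑ i ∈ range (n + 1), c i * 0 ^ i)) :=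
      (Continuous.tendsto (by fun_prop) 0).mono_left nhdsWithin_le_nhds
    have := ge_of_tendsto h1 (eventually_nhdsWithin_of_forall h)
    simpa [sum_range_succ'] using this
  | m + 1, n + 1, c, hm, h0, h => by
    refine low_coeff m n (fun i => c (i + 1)) (by omega) (fun i hi => h0 _ (by omega)) fun η hη => ?_
    have := h η hη
    rw [sum_range_succ', h0 0 (by omega), zero_mul, add_zero] at this
    refine nonneg_of_mul_nonneg_left ?_ hη
    rw [sum_mul]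
    simpa only [pow_succ, mul_assoc] using this

theorem zero_coeff (n : ℕ) (c : ℕ → ℝ) (h : ∀ η > 0, ∑ i ∈ range n, c i * η ^ i = 0) (m : ℕ) :
    m < n → c m = 0 := by
  induction m using Nat.strong_induction_on with
  | _ m ih =>
    intro hm
    have h1 := low_coeff m n c hm (fun i hi => ih i hi (by omega)) fun η hη => (h η hη).ge
    have h2 := low_coeff m n (fun i => -c i) hm (fun i hi => by simp [ih i hi (by omega)])
      fun η hη => by simp [h η hη]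
    linarith

theorem expand_pow (Λ : ℝ[X] →ₗ[ℝ] ℝ) (T R V : ℝ[X]) (η : ℝ) (n : ℕ) :
    Λ (T * (η • R + V) ^ n) =
      ∑ i ∈ range (n + 1), (n.choose i * Λ (T * (R ^ i * V ^ (n - i)))) * η ^ i := by
  rw [add_pow, mul_sum, map_sum]
  refine sum_congr rfl fun i _ => ?_
  have : T * ((η • R) ^ i * V ^ (n - i) * (n.choose i : ℝ[X])) =
      ((n.choose i : ℝ) * η ^ i) • (T * (R ^ i * V ^ (n - i))) := by
    simp only [smul_eq_C_mul, map_mul, map_pow, map_natCast]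
    ring
  rw [this, map_smul, smul_eq_mul]
  ring

theorem natDegree_U {d : ℕ} (_hd : 1 ≤ d) : (X ^ d + 1 : ℝ[X]).natDegree = d := by
  simpa using natDegree_X_pow_add_C (R := ℝ) (n := d) (r := 1)

theorem monic_U {d : ℕ} (hd : 1 ≤ d) : (X ^ d + 1 : ℝ[X]).Monic := by
  simpa using monic_X_pow_add_C (R := ℝ) 1 (n := d) (by omega)

/-- the first non-vanishing order is nonnegative -/
theorem order_step {d : ℕ} (Λ : ℝ[X] →ₗ[ℝ] ℝ) (hd : 1 ≤ d)
    (H : ∀ R : ℝ[X], R.natDegree < d → 0 ≤ Λ ((X ^ d + 1 + R) ^ d - (X ^ d + 1) ^ d)) (k : ℕ)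
    (hk : k < d) (ih : ∀ S : ℝ[X], S.natDegree < d * k → Λ ((X ^ d + 1) ^ (d - k) * S) = 0)
    (R : ℝ[X]) (hR : R.natDegree < d) : 0 ≤ Λ ((X ^ d + 1) ^ (d - (k + 1)) * R ^ (k + 1)) := by
  have := low_coeff (k + 1) (d + 1) (fun i => if i = 0 then 0 else
    d.choose i * Λ (1 * (R ^ i * (X ^ d + 1) ^ (d - i)))) (by omega) (fun i hi => by
      split_ifs with h
      · rfl
      have e : 1 * (R ^ i * (X ^ d + 1) ^ (d - i)) =
          (X ^ d + 1) ^ (d - k) * ((X ^ d + 1) ^ (k - i) * R ^ i) := by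
        rw [show d - i = d - k + (k - i) by omega]
        ring
      rw [e, ih, mul_zero]
      refine natDegree_mul_le.trans_lt ?_
      rw [natDegree_pow, natDegree_pow, natDegree_U hd]
      obtain ⟨j, rfl⟩ : ∃ j, k = i + j := ⟨k - i, by omega⟩
      have := (Nat.mul_lt_mul_left (Nat.pos_of_ne_zero h)).2 hR
      rw [Nat.add_sub_cancel_left]
      nlinarith)
    fun η _ => by
      have h := H (η • R) ((natDegree_smul_le _ _).trans_lt hR)
      rw [map_sub, add_comm _ (η • R), ← one_mul ((η • R + _) ^ d), expand_pow, sum_range_succ'] at h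
      rw [sum_range_succ']
      simpa using h
  rw [if_neg (by omega), one_mul, mul_comm (R ^ (k + 1))] at this
  exact nonneg_of_mul_nonneg_right this (by exact_mod_cast Nat.choose_pos hk)

theorem root_neg_one (e m : ℕ) (hm : 1 ≤ m) : ∃ Z : ℝ[X], X ^ (2 * e) + 1 ∣ Z ^ m + 1 := by
  have : ∀ (θ : ℝ) (j : ℕ), X ^ (2 * e) + 1 ∣ (C (Real.cos θ) + C (Real.sin θ) * X ^ e) ^ j -
      (C (Real.cos (j * θ)) + C (Real.sin (j * θ)) * X ^ e) := fun θ j => by
    induction j with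
    | zero => simp
    | succ j ih =>
      obtain ⟨q, hq⟩ := ih
      refine ⟨(C (Real.cos θ) + C (Real.sin θ) * X ^ e) * q +
        C (Real.sin θ) * C (Real.sin (j * θ)), ?_⟩
      push_cast
      rw [add_mul, one_mul, Real.cos_add, Real.sin_add]
      simp only [map_add, map_sub, map_mul] at hq ⊢
      linear_combination (C (Real.cos θ) + C (Real.sin θ) * X ^ e) * hq
  have h := this (Real.pi / m) m
  rw [mul_div_cancel₀ _ (by positivity)] at h
  exact ⟨_, by simpa using h⟩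

theorem no_fun_even {d : ℕ} (Λ : ℝ[X] →ₗ[ℝ] ℝ) (hd : 1 ≤ d) (he : Even d)
    (H : ∀ R : ℝ[X], R.natDegree < d → 0 ≤ Λ ((X ^ d + 1 + R) ^ d - (X ^ d + 1) ^ d)) :
    ∀ k ≤ d, ∀ S : ℝ[X], S.natDegree < d * k → Λ ((X ^ d + 1) ^ (d - k) * S) = 0
  | 0, _, _, h => absurd h (by simp)
  | k + 1, hk, S, hS => by
    have ih := no_fun_even Λ hd he H k (by omega)
    have mU := monic_U hd
    have dU := natDegree_U hd
    have U1 : (X ^ d + 1 : ℝ[X]) ≠ 1 := fun h => by rw [h] at dU; simp at dU; omega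
    have h1 : ∀ T : ℝ[X], T.natDegree < d * (k + 1) → X ^ d + 1 ∣ T →
        Λ ((X ^ d + 1) ^ (d - (k + 1)) * T) = 0 := by
      rintro _ hT ⟨Q, rfl⟩
      by_cases hQ : Q = 0
      · simp [hQ]
      rw [mU.natDegree_mul' hQ, dU] at hT
      rw [← mul_assoc, ← pow_succ, show d - (k + 1) + 1 = d - k by omega]
      exact ih Q (by rw [mul_add] at hT; omega)
    have hp : ∀ R : ℝ[X], R.natDegree < d → (R ^ (k + 1)).natDegree < d * (k + 1) := fun R hR => by
      rw [natDegree_pow, mul_comm]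
      exact (Nat.mul_lt_mul_right (by omega)).2 hR
    have h2 : ∀ R : ℝ[X], R.natDegree < d →
        Λ ((X ^ d + 1) ^ (d - (k + 1)) * R ^ (k + 1)) = 0 := fun R hR => by
      obtain ⟨e, rfl⟩ := he
      obtain ⟨Z, hZ⟩ := root_neg_one e (k + 1) (by omega)
      rw [two_mul] at hZ
      have hR' := natDegree_modByMonic_lt (Z * R) mU U1
      rw [dU] at hR'
      have a1 := order_step Λ hd H k hk ih R hR
      have a2 := order_step Λ hd H k hk ih _ hR'
      have a3 := h1 (R ^ (k + 1) + ((Z * R) %ₘ (X ^ (e + e) + 1)) ^ (k + 1))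
        (natDegree_add_le _ _ |>.trans_lt (max_lt (hp _ hR) (hp _ hR'))) (by
          have b1 : X ^ (e + e) + 1 ∣ Z * R - (Z * R) %ₘ (X ^ (e + e) + 1) :=
            ⟨(Z * R) /ₘ (X ^ (e + e) + 1), by
              linear_combination -modByMonic_add_div (Z * R) (X ^ (e + e) + 1)⟩
          have b2 := (hZ.mul_right (R ^ (k + 1))).sub (b1.trans (sub_dvd_pow_sub_pow _ _ (k + 1)))
          convert b2 using 1
          ring)
      rw [mul_add, map_add] at a3
      linarith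
    have h3 : ∀ R : ℝ[X], R.natDegree < d → Λ ((X ^ d + 1) ^ (d - (k + 1)) * R) = 0 := fun R hR => by
      have := zero_coeff (k + 1 + 1) _ (fun η _ => (expand_pow Λ _ R 1 η (k + 1)).symm.trans
        (h2 _ ((natDegree_add_le _ _).trans_lt (max_lt ((natDegree_smul_le _ _).trans_lt hR)
          (by simp; omega))))) 1 (by omega)
      simpa [Nat.cast_add_one_ne_zero] using this
    have hm := natDegree_modByMonic_lt S mU U1
    rw [dU] at hm
    rw [← modByMonic_add_div S (X ^ d + 1), mul_add, map_add, h3 _ hm, zero_add]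
    refine h1 _ ?_ (dvd_mul_right _ _)
    rw [show (X ^ d + 1) * (S /ₘ (X ^ d + 1)) = S - S %ₘ (X ^ d + 1) by
      linear_combination modByMonic_add_div S (X ^ d + 1)]
    exact (natDegree_sub_le _ _).trans_lt (max_lt hS (hm.trans_le (Nat.le_mul_of_pos_right _ (by omega))))

theorem natDegree_diff {d : ℕ} (hd : 1 ≤ d) : ∀ n : ℕ,
    ((X ^ d + 1) ^ (n + 1) - (X ^ d) ^ (n + 1) : ℝ[X]).natDegree ≤ d * n
  | 0 => by simp
  | n + 1 => by
    rw [show ((X ^ d + 1) ^ (n + 1 + 1) - (X ^ d) ^ (n + 1 + 1) : ℝ[X]) =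
      (X ^ d + 1) * ((X ^ d + 1) ^ (n + 1) - (X ^ d) ^ (n + 1)) + X ^ (d * (n + 1)) by ring]
    refine (natDegree_add_le _ _).trans (max_le (natDegree_mul_le.trans ?_) (by simp))
    rw [natDegree_U hd, mul_add]
    have := natDegree_diff hd n
    omega

theorem no_fun_odd {d : ℕ} (Λ : ℝ[X] →ₗ[ℝ] ℝ) (hd : 2 ≤ d) (ho : Odd d)
    (H : ∀ R : ℝ[X], R.natDegree < d → 0 ≤ Λ ((X ^ d + 1 + R) ^ d - (X ^ d + 1) ^ d)) :
    ∀ i < d * d, Λ (X ^ i) = 0 := by
  have o1 : ∀ R : ℝ[X], R.natDegree < d → 0 ≤ Λ (R ^ d) := fun R hR => by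
    have := low_coeff 0 d (fun i => d.choose i * Λ (1 * ((X ^ d + 1) ^ i * R ^ (d - i)))) (by omega)
      (by simp) fun η hη => by
        have h := mul_nonneg (pow_pos hη d).le (H (η⁻¹ • R) ((natDegree_smul_le _ _).trans_lt hR))
        have e : η • (X ^ d + 1 + η⁻¹ • R) = η • (X ^ d + 1) + R := by
          rw [smul_add, smul_smul, mul_inv_cancel₀ hη.ne', one_smul]
        rw [map_sub, mul_sub, ← smul_eq_mul, ← map_smul, ← _root_.smul_pow, e,
          ← one_mul ((η • _ + R) ^ d), expand_pow, sum_range_succ] at h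
        simpa [mul_comm] using h
    simpa using this
  have o2 : ∀ R : ℝ[X], R.natDegree < d → Λ (R ^ d) = 0 := fun R hR => by
    have := o1 (-R) (by simpa using hR)
    rw [ho.neg_pow, map_neg] at this
    linarith [o1 R hR]
  have o3 : ∀ j a, j + 1 < d → a ≤ d → Λ (X ^ (d * j + a)) = 0 := fun j a hj ha => by
    have := zero_coeff (d + 1) _ (fun η _ => (expand_pow Λ 1 (X ^ (j + 1)) (X ^ j) η d).symm.trans (by
      rw [one_mul]
      exact o2 _ ((natDegree_add_le _ _).trans_lt (max_lt ((natDegree_smul_le _ _).trans_lt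
        (by simpa using hj)) (by simp; omega))))) a (by omega)
    obtain ⟨b, rfl⟩ := Nat.exists_eq_add_of_le ha
    rw [Nat.add_sub_cancel_left, show (1 * ((X ^ (j + 1)) ^ a * (X ^ j) ^ b) : ℝ[X]) =
      X ^ ((a + b) * j + a) by ring] at this
    exact (mul_eq_zero.1 this).resolve_left (by exact_mod_cast (Nat.choose_pos ha).ne')
  obtain ⟨n, rfl⟩ : ∃ n, d = n + 2 := ⟨d - 2, by omega⟩
  have o4 : ∀ i ≤ (n + 2) * (n + 1), Λ (X ^ i) = 0 := fun i hi => by
    rcases hi.eq_or_lt with rfl | hi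
    · exact o3 n (n + 2) (by omega) le_rfl
    · rw [← Nat.div_add_mod i (n + 2)]
      have := (Nat.div_lt_iff_lt_mul (show 0 < n + 2 by omega)).2 (mul_comm (n + 2) _ ▸ hi)
      exact o3 _ _ (by omega) (Nat.mod_lt _ (by omega)).le
  have o5 : ∀ S : ℝ[X], S.natDegree ≤ (n + 2) * (n + 1) → Λ S = 0 := fun S hS => by
    rw [S.as_sum_range_C_mul_X_pow, map_sum]
    refine sum_eq_zero fun i hi => ?_
    rw [← smul_eq_C_mul, map_smul, o4 i (by have := mem_range.1 hi; omega), smul_zero]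
  intro i hi
  rcases le_or_gt i ((n + 2) * (n + 1)) with h | h
  · exact o4 i h
  obtain ⟨j, rfl⟩ := Nat.exists_eq_add_of_le h.le
  have hj : j < n + 2 := by nlinarith
  have a1 := order_step Λ (by omega) H 0 (by omega) (by simp) (X ^ j) (by simpa using hj)
  have a2 := order_step Λ (by omega) H 0 (by omega) (by simp) (-X ^ j) (by simpa using hj)
  have a3 := o5 (((X ^ (n + 2) + 1) ^ (n + 1) - (X ^ (n + 2)) ^ (n + 1)) * X ^ j)
    (natDegree_mul_le.trans (by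
      have := natDegree_diff (d := n + 2) (by omega) n
      rw [natDegree_X_pow, mul_add]
      omega))
  rw [sub_mul, map_sub, ← pow_mul, ← pow_add] at a3
  simp only [zero_add, pow_one, mul_neg, map_neg, show n + 2 - 1 = n + 1 from rfl] at a1 a2
  linarith

theorem no_fun {d : ℕ} (Λ : ℝ[X] →ₗ[ℝ] ℝ) (hd : 2 ≤ d)
    (H : ∀ R : ℝ[X], R.natDegree < d → 0 ≤ Λ ((X ^ d + 1 + R) ^ d - (X ^ d + 1) ^ d)) :
    ∀ i < d * d, Λ (X ^ i) = 0 := by
  rcases Nat.even_or_odd d with h | h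
  · intro i hi
    simpa using no_fun_even Λ (by omega) h H d le_rfl (X ^ i) (by simpa using hi)
  · exact no_fun_odd Λ hd h H

end Pool.Agent.MP_93dc40_an

end

section

namespace Pool.Agent.MP_93dc40_an

open Finset Polynomial Filter Topology

section
variable {Y R : Type} [TopologicalSpace Y] [CommRing R] [TopologicalSpace R] [IsTopologicalRing R]

/-- families of polynomials with continuous coefficients -/
structure CC (p : Y → R[X]) : Prop where
  out : ∀ i, Continuous fun y => (p y).coeff i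

omit [IsTopologicalRing R] in
theorem CC.const (p : R[X]) : CC fun _ : Y => p := ⟨fun _ => continuous_const⟩

omit [IsTopologicalRing R] in
theorem CC.C {g : Y → R} (h : Continuous g) : CC fun y => C (g y) := ⟨fun i => by
  simp only [coeff_C]
  split_ifs
  exacts [h, continuous_const]⟩

theorem CC.add {p q : Y → R[X]} (hp : CC p) (hq : CC q) : CC fun y => p y + q y := ⟨fun i => by
  simp only [coeff_add]
  exact (hp.out i).add (hq.out i)⟩

theorem CC.sub {p q : Y → R[X]} (hp : CC p) (hq : CC q) : CC fun y => p y - q y := ⟨fun i => by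
  simp only [coeff_sub]
  exact (hp.out i).sub (hq.out i)⟩

theorem CC.mul {p q : Y → R[X]} (hp : CC p) (hq : CC q) : CC fun y => p y * q y := ⟨fun i => by
  simp only [coeff_mul]
  exact continuous_finsetSum _ fun x _ => (hp.out _).mul (hq.out _)⟩

theorem CC.pow {p : Y → R[X]} (hp : CC p) : ∀ n : ℕ, CC fun y => p y ^ n
  | 0 => by simpa only [pow_zero] using CC.const 1
  | n + 1 => by simpa only [pow_succ] using (hp.pow n).mul hp

theorem CC.sum {ι : Type} (s : Finset ι) {p : ι → Y → R[X]} (hp : ∀ k, CC (p k)) :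
    CC fun y => ∑ k ∈ s, p k y := ⟨fun i => by
  simp only [finsetSum_coeff]
  exact continuous_finsetSum _ fun k _ => (hp k).out i⟩

end

theorem coeff_sub_zero {p q : ℚ[X]} {n : ℕ} (hp : p.IsMonicOfDegree n) (hq : q.IsMonicOfDegree n)
    (i : ℕ) (hi : n ≤ i) : (p - q).coeff i = 0 := by
  rcases hi.eq_or_lt with rfl | hi
  · have h1 := hp.monic.coeff_natDegree
    have h2 := hq.monic.coeff_natDegree
    rw [hp.natDegree_eq] at h1
    rw [hq.natDegree_eq] at h2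
    rw [coeff_sub, h1, h2, sub_self]
  · rw [coeff_sub, coeff_eq_zero_of_natDegree_lt (hp.natDegree_eq ▸ hi),
      coeff_eq_zero_of_natDegree_lt (hq.natDegree_eq ▸ hi), sub_self]

theorem no_fun' (d : ℕ) (hd : 2 ≤ d) (f : (Fin (d * d) → ℝ) →L[ℝ] ℝ)
    (hf : ∀ r : Fin d → ℚ, 0 ≤ f fun i => (((X ^ d + 1 + ∑ k, C (r k) * X ^ (k : ℕ)) ^ d -
      (X ^ d + 1) ^ d : ℚ[X]).coeff i : ℝ)) : f = 0 := by
  obtain ⟨Λ, hΛ⟩ : ∃ Λ : ℝ[X] →ₗ[ℝ] ℝ, ∀ p, Λ p = f fun i => p.coeff i :=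
    ⟨f.toLinearMap ∘ₗ LinearMap.pi fun i : Fin (d * d) => lcoeff ℝ i, fun p => rfl⟩
  obtain ⟨F, hF⟩ : ∃ F : (Fin d → ℝ) → ℝ[X], ∀ r, F r =
    (X ^ d + 1 + ∑ k, C (r k) * X ^ (k : ℕ)) ^ d - (X ^ d + 1) ^ d := ⟨_, fun _ => rfl⟩
  have c1 : CC F := by
    rw [funext hF]
    exact (((CC.const (X ^ d + 1)).add (CC.sum univ fun k : Fin d => (CC.C (continuous_apply k)).mul
      (CC.const (X ^ (k : ℕ))))).pow d).sub (CC.const ((X ^ d + 1) ^ d))
  have h1 : ∀ r : Fin d → ℝ, 0 ≤ f fun i => (F r).coeff i := fun r => by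
    refine (DenseRange.piMap fun _ : Fin d => Rat.denseRange_cast (𝕜 := ℝ)).induction_on
      (p := fun r : Fin d → ℝ => 0 ≤ f fun i => (F r).coeff i) r
      (isClosed_le continuous_const (f.continuous.comp (continuous_pi fun i => c1.out i)))
      fun r => ?_
    refine (hf r).trans_eq (congrArg f (funext fun i => ?_))
    rw [hF, ← eq_ratCast (algebraMap ℚ ℝ), ← coeff_map]
    simp [Polynomial.map_sum, Pi.map]
  have h2 := no_fun Λ hd fun R hR => by
    have := h1 fun k => R.coeff k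
    rwa [← hΛ, hF, Fin.sum_univ_eq_sum_range (fun k => C (R.coeff k) * X ^ k),
      ← R.as_sum_range_C_mul_X_pow' hR] at this
  ext x
  rw [← univ_sum_single x, map_sum]
  refine sum_eq_zero fun i _ => ?_
  have h3 := h2 i i.2
  rw [hΛ] at h3
  rw [show Pi.single i (x i) = x i • fun j : Fin (d * d) => (X ^ (i : ℕ) : ℝ[X]).coeff j by
    funext j
    simp [Pi.single_apply, coeff_X_pow, Fin.ext_iff], map_smul, h3, smul_zero]

theorem hull (d : ℕ) (hd : 2 ≤ d) : ∃ (S : Finset (Fin d → ℚ)) (η : ℚ), 0 < η ∧ S.Nonempty ∧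
    ∀ T : ℚ[X], T.IsMonicOfDegree (d * d) → (∀ i, |(T - (X ^ d + 1) ^ d).coeff i| ≤ η) →
      ∃ W : (Fin d → ℚ) → ℚ, (∀ p, 0 ≤ W p) ∧
        ∀ y : ℚ, ∑ p ∈ S, W p * (y ^ d + 1 + ∑ k, p k * y ^ (k : ℕ)) ^ d = T.eval y := by
  obtain ⟨F, hF⟩ : ∃ F : (Fin d → ℚ) → ℚ[X], ∀ r, F r =
    (X ^ d + 1 + ∑ k, C (r k) * X ^ (k : ℕ)) ^ d - (X ^ d + 1) ^ d := ⟨_, fun _ => rfl⟩
  obtain ⟨S, η, η0, h0, h⟩ := box_hull (fun (r : Fin d → ℚ) (i : Fin (d * d)) => (F r).coeff i) 0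
    (by funext i; simp [hF]) fun f hf => no_fun' d hd f (by simpa only [hF] using hf)
  refine ⟨S, η, η0, ⟨_, h0⟩, fun T hT hT' => ?_⟩
  obtain ⟨T', hT2⟩ : ∃ T', T' = T - (X ^ d + 1) ^ d := ⟨_, rfl⟩
  rw [← hT2] at hT'
  obtain ⟨W, W0, W1, W2⟩ := h (fun i => T'.coeff i) fun i => hT' i
  subst hT2
  have mU : ∀ R : ℚ[X], R.natDegree < d → ((X ^ d + 1 + R) ^ d).IsMonicOfDegree (d * d) :=
    fun R hR => by
      rw [add_assoc]
      exact ((isMonicOfDegree_X_pow ℚ d).add_right ((natDegree_add_le _ _).trans_lt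
        (max_lt (by simp; omega) hR))).pow d
  have mU0 : ((X ^ d + 1 : ℚ[X]) ^ d).IsMonicOfDegree (d * d) := by
    simpa using mU 0 (by simp; omega)
  have e : ∑ p ∈ S, W p • F p = T - (X ^ d + 1) ^ d := by
    ext i
    rw [finsetSum_coeff]
    rcases lt_or_ge i (d * d) with hi | hi
    · have := congrFun W2 ⟨i, hi⟩
      rwa [Finset.sum_apply] at this
    · rw [coeff_sub_zero hT mU0 i hi]
      refine sum_eq_zero fun p _ => ?_
      rw [coeff_smul, hF, coeff_sub_zero (mU _ ?_) mU0 i hi, smul_zero]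
      refine lt_of_le_of_lt (natDegree_sum_le_of_forall_le (n := d - 1) _ _ fun k _ =>
        (natDegree_C_mul_X_pow_le _ _).trans ?_) (by omega)
      have := k.2
      omega
  refine ⟨W, W0, fun y => ?_⟩
  have := congrArg (eval y) e
  simp only [hF, eval_finsetSum, eval_smul, eval_sub, eval_pow, eval_add, eval_X, eval_one, eval_mul,
    eval_C, smul_eq_mul, mul_sub, sum_sub_distrib, ← sum_mul, W1, one_mul] at this
  exact sub_left_injective this

/-- the family is closed under substitution of `κ (y ^ d + a)` for `a` near `1` and `κ` large -/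
theorem hull' (d : ℕ) (hd : 2 ≤ d) : ∃ (S : Finset (Fin d → ℚ)) (η : ℚ), 0 < η ∧ S.Nonempty ∧
    ∀ a κ : ℚ, |a - 1| < η → 1 < η * κ → ∀ v ∈ S, ∃ W : (Fin d → ℚ) → ℚ, (∀ p, 0 ≤ W p) ∧
      ∀ y : ℚ, ∑ p ∈ S, W p * (y ^ d + 1 + ∑ k, p k * y ^ (k : ℕ)) ^ d =
        (κ * (y ^ d + a)) ^ d + 1 + ∑ k, v k * (κ * (y ^ d + a)) ^ (k : ℕ) := by
  obtain ⟨S, η, η0, hS, h⟩ := hull d hd
  let T : (Fin d → ℚ) → ℚ × ℚ → ℚ[X] := fun v z => (X ^ d + C z.1) ^ d +
    (C (z.2 ^ d) + ∑ k, C (v k * z.2 ^ (d - k)) * (X ^ d + C z.1) ^ (k : ℕ))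
  have mX : ∀ a : ℚ, (X ^ d + C a).IsMonicOfDegree d := fun a =>
    (isMonicOfDegree_X_pow ℚ d).add_right (by simp; omega)
  have mT : ∀ v z, (T v z).IsMonicOfDegree (d * d) := fun v z => by
    refine ((mX z.1).pow d).add_right ((natDegree_add_le _ _).trans_lt (max_lt (by simp; omega) ?_))
    refine lt_of_le_of_lt (natDegree_sum_le_of_forall_le (n := (d - 1) * d) _ _ fun k _ =>
      (natDegree_C_mul_le _ _).trans ?_) ((Nat.mul_lt_mul_right (by omega)).2 (by omega))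
    rw [((mX z.1).pow k).natDegree_eq]
    rw [mul_comm (d - 1)]
    exact Nat.mul_le_mul_left _ (by have := k.2; omega)
  have ev : ∀ᶠ z : ℚ × ℚ in 𝓝 (1, 0), ∀ v ∈ S, ∀ i ∈ range (d * d),
      |(T v z - (X ^ d + 1) ^ d).coeff i| < η := by
    refine (eventually_all_finset _).2 fun v _ => (eventually_all_finset _).2 fun i _ => ?_
    have c1 : CC fun z : ℚ × ℚ => X ^ d + C z.1 := (CC.const (X ^ d)).add (CC.C continuous_fst)
    have c2 : CC fun z => T v z - (X ^ d + 1) ^ d :=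
      ((c1.pow d).add ((CC.C (g := fun z : ℚ × ℚ => z.2 ^ d) (by fun_prop)).add
        (CC.sum univ fun k : Fin d => (CC.C (g := fun z : ℚ × ℚ => v k * z.2 ^ (d - k))
          (by fun_prop)).mul (c1.pow k)))).sub (CC.const ((X ^ d + 1) ^ d))
    refine (c2.out i).abs.continuousAt.eventually (gt_mem_nhds ?_)
    have : ∀ k : Fin d, d - k ≠ 0 := fun k => by have := k.2; omega
    simpa [T, this, show d ≠ 0 by omega] using η0
  obtain ⟨ε, ε0, hε⟩ := Metric.eventually_nhds_iff.1 ev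
  obtain ⟨η', e1, e2⟩ := exists_rat_btwn ε0
  have e3 : 0 < η' := by exact_mod_cast e1
  refine ⟨S, η', e3, hS, fun a κ ha hκ v hv => ?_⟩
  have κ0 : 0 < κ := (pos_iff_pos_of_mul_pos (one_pos.trans hκ)).1 e3
  have hz := @hε (a, κ⁻¹) (by
    rw [Prod.dist_eq, max_lt_iff, ← Rat.dist_cast, ← Rat.dist_cast, Real.dist_eq, Real.dist_eq]
    refine ⟨lt_trans (by exact_mod_cast ha) e2, lt_trans ?_ e2⟩
    have : |κ⁻¹ - 0| < η' := by
      rw [sub_zero, abs_of_pos (inv_pos.2 κ0), inv_lt_iff_one_lt_mul₀ κ0]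
      exact hκ
    exact_mod_cast this) v hv
  obtain ⟨W, W0, hW⟩ := h (T v (a, κ⁻¹)) (mT _ _) fun i => by
    rcases lt_or_ge i (d * d) with hi | hi
    · exact (hz i (mem_range.2 hi)).le
    · rw [coeff_sub_zero (mT _ _) (by simpa using (mX 1).pow d) i hi, abs_zero]
      exact η0.le
  refine ⟨fun p => κ ^ d * W p, fun p => mul_nonneg (pow_pos κ0 d).le (W0 p), fun y => ?_⟩
  simp only [mul_assoc, ← mul_sum, hW, T, eval_add, eval_pow, eval_X, eval_C, eval_finsetSum,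
    eval_mul]
  rw [mul_add, mul_add, ← mul_pow κ κ⁻¹, mul_pow κ (y ^ d + a), mul_inv_cancel₀ κ0.ne', one_pow,
    add_assoc, mul_sum]
  congr 2
  refine sum_congr rfl fun k _ => ?_
  obtain ⟨j, hj⟩ := Nat.exists_eq_add_of_le k.2.le
  rw [mul_pow, show d - k = j by omega, show κ ^ d = κ ^ (k + j : ℕ) by rw [← hj], pow_add,
    inv_pow]
  field_simp

end Pool.Agent.MP_93dc40_an

end

section

namespace Pool.Agent.MP_93dc40_an

open Finset

theorem exists_scale (d : ℕ) (hd : 2 ≤ d) (α β η : ℚ) (hα : 0 < α) (hβ : 0 < β) (hη : 0 < η)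
    (h : 1 < η ^ d * (α * β ^ (d - 1))) :
    ∃ t : ℚ, 0 < t ∧ |β / (α * t ^ d) - 1| < η ∧ 1 < η * (α * t ^ (d - 1)) := by
  have α0 : (0 : ℝ) < α := by exact_mod_cast hα
  have β0 : (0 : ℝ) < β := by exact_mod_cast hβ
  have η0 : (0 : ℝ) < η := by exact_mod_cast hη
  obtain ⟨s, s0, hs⟩ : ∃ s : ℝ, 0 < s ∧ s ^ d = β / α :=
    ⟨((β : ℝ) / α) ^ ((d : ℝ)⁻¹), by positivity, Real.rpow_inv_natCast_pow (by positivity) (by omega)⟩
  have ho : IsOpen ({t : ℝ | 0 < t} ∩ {t | |β - α * t ^ d| < η * (α * t ^ d)} ∩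
      {t | 1 < η * (α * t ^ (d - 1))}) :=
    ((isOpen_lt continuous_const continuous_id).inter (isOpen_lt (by fun_prop) (by fun_prop))).inter
      (isOpen_lt continuous_const (by fun_prop))
  obtain ⟨t, ⟨t0, t1⟩, t2⟩ := Rat.denseRange_cast.exists_mem_open ho ⟨s, ⟨s0, by
    have : (α : ℝ) * s ^ d = β := by rw [hs]; field_simp
    simp only [Set.mem_ofPred_eq, this, sub_self, abs_zero]
    positivity⟩, by
    refine (one_lt_pow_iff_of_nonneg (a := (η : ℝ) * (α * s ^ (d - 1))) (by positivity)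
      (show d ≠ 0 by omega)).1 ?_
    obtain ⟨e, rfl⟩ : ∃ e, d = e + 1 := ⟨d - 1, by omega⟩
    rw [Nat.add_sub_cancel] at h ⊢
    have h' : (1 : ℝ) < η ^ (e + 1) * (α * β ^ e) := by exact_mod_cast h
    rw [mul_pow, mul_pow, ← pow_mul, mul_comm e, pow_mul, hs]
    refine h'.trans_eq ?_
    rw [pow_succ' (α : ℝ), div_pow]
    field_simp⟩
  have t0' : 0 < t := by exact_mod_cast (show (0 : ℝ) < t from t0)
  have t1' : |β - α * t ^ d| < η * (α * t ^ d) := by
    exact_mod_cast (show |(β : ℝ) - α * t ^ d| < η * (α * t ^ d) from t1)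
  refine ⟨t, t0', ?_, by exact_mod_cast (show (1 : ℝ) < η * (α * t ^ (d - 1)) from t2)⟩
  have p : 0 < α * t ^ d := by positivity
  rwa [div_sub_one p.ne', abs_div, abs_of_pos p, div_lt_iff₀ p]

theorem poly_bound {d : ℕ} (hd : 1 ≤ d) (p : Fin d → ℚ) (y : ℚ) (h : 2 * (1 + ∑ k, |p k|) ≤ y) :
    y ^ d / 2 ≤ y ^ d + 1 + ∑ k, p k * y ^ (k : ℕ) ∧
      y ^ d + 1 + ∑ k, p k * y ^ (k : ℕ) ≤ 2 * y ^ d := by
  have s0 : 0 ≤ ∑ k, |p k| := sum_nonneg fun _ _ => abs_nonneg _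
  have y1 : 1 ≤ y := by linarith
  obtain ⟨e, rfl⟩ : ∃ e, d = e + 1 := ⟨d - 1, by omega⟩
  have h1 : |∑ k, p k * y ^ (k : ℕ)| ≤ (∑ k, |p k|) * y ^ e := by
    rw [sum_mul]
    refine (abs_sum_le_sum_abs _ _).trans (sum_le_sum fun k _ => ?_)
    rw [abs_mul, abs_of_nonneg (by positivity : 0 ≤ y ^ (k : ℕ))]
    exact mul_le_mul_of_nonneg_left (pow_le_pow_right₀ y1 (by have := k.2; omega)) (abs_nonneg _)
  have h2 : 1 ≤ y ^ e := one_le_pow₀ y1
  have h3 := mul_le_mul_of_nonneg_right h (zero_le_one.trans h2)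
  rw [abs_le] at h1
  rw [pow_succ']
  constructor <;> nlinarith [h1.1, h1.2]

theorem sc_pos (d L : ℕ) (hL : 1 ≤ L) : ∀ n, 0 < sc d L n
  | 0 => Nat.one_pos
  | n + 1 => Nat.mul_pos hL (pow_pos (sc_pos d L hL n) d)

/-- from a weighted system to an irreducible matrix with the same entropy -/
theorem finish (d : ℕ) (hd : 2 ≤ d) {α : Type} {S : Finset α} {W : α → α → ℚ} {g : ℕ → α → ℚ}
    (h : Sys d S W g) (m : ℕ) (z : ℕ → ℚ) (C : ℚ) (hC : 0 < C)
    (hz : ∀ n, ∀ v ∈ S, g n v ≤ C * z n ∧ z n ≤ C * g n v) :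
    ∃ L₀ : ℕ, 1 ≤ L₀ ∧ ∀ L, 1 ≤ L → L₀ ∣ L → ∀ (k : ℕ) (M : Matrix (Fin k) (Fin k) ℕ), 0 < k →
      IsBinary M → (∀ r, ∃ j, M r j = 1) →
      (∀ n i, (rtd d M (n + m) i : ℚ) ≤ sc d L (n + m) * (C * z n)) →
      (∀ n, ∃ i, sc d L (n + m) * z n ≤ C * (rtd d M (n + m) i : ℚ)) →
      ∃ (k' : ℕ) (N : Matrix (Fin k') (Fin k') ℕ) (h : ℝ),
        IsBinary N ∧ IsIrred N ∧ HasEntropy d M h ∧ HasEntropy d N h := by
  obtain ⟨β, S', W', g', π, h1, h2, h3⟩ := h.backs (by omega) m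
  obtain ⟨L₀, L1, hL⟩ := h1.sim
  refine ⟨L₀, L1, fun L L2 L3 k M hk bM rM u1 u2 => ?_⟩
  obtain ⟨k', N, ρ, k0, bN, iN, rN, ρS, hN⟩ := hL L L2 L3
  obtain ⟨C', -, hC'⟩ := nat_bound' S' fun v => C * C * g' 0 v + C * C / g' 0 v
  obtain ⟨e, e1, e2⟩ := same_entropy' d hd M N hk k0 bM bN rM rN C' m (fun n hn i => by
      obtain ⟨n, rfl⟩ := Nat.exists_eq_add_of_le' hn
      refine ⟨⟨0, k0⟩, ?_⟩
      have a0 := h1.pos 0 _ (ρS ⟨0, k0⟩)
      have a1 := hN (n + m) ⟨0, k0⟩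
      have a2 := (hz n _ (h2 _ (ρS ⟨0, k0⟩))).2
      rw [← h3] at a2
      have a3 : (rtd d M (n + m) i : ℚ) ≤ C * C * g' 0 (ρ ⟨0, k0⟩) * rtd d N (n + m) ⟨0, k0⟩ := by
        rw [mul_assoc, a1]
        refine (u1 n i).trans ((mul_le_mul_of_nonneg_left (mul_le_mul_of_nonneg_left a2 hC.le)
          (by positivity)).trans_eq (by ring))
      have a4 := a3.trans (mul_le_mul_of_nonneg_right ((le_add_of_nonneg_right (by positivity)).trans
        (hC' _ (ρS _))) (by positivity))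
      exact_mod_cast a4)
    (fun n hn j => by
      obtain ⟨n, rfl⟩ := Nat.exists_eq_add_of_le' hn
      obtain ⟨i, hi⟩ := u2 n
      refine ⟨i, ?_⟩
      have a0 := h1.pos 0 _ (ρS j)
      have a1 := hN (n + m) j
      have a2 := (hz n _ (h2 _ (ρS j))).1
      rw [← h3] at a2
      have a3 : (rtd d N (n + m) j : ℚ) ≤ C * C / g' 0 (ρ j) * rtd d M (n + m) i := by
        rw [div_mul_eq_mul_div, le_div_iff₀ a0, mul_comm, a1, mul_assoc]
        exact (mul_le_mul_of_nonneg_left a2 (by positivity)).trans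
          ((mul_left_comm _ _ _).trans_le (mul_le_mul_of_nonneg_left hi hC.le))
      have a4 := a3.trans (mul_le_mul_of_nonneg_right ((le_add_of_nonneg_left (by positivity)).trans
        (hC' _ (ρS _))) (by positivity))
      exact_mod_cast a4)
  exact ⟨k', N, e, bN, iN, e1, e2⟩

theorem allD (d : ℕ) (hd : 2 ≤ d) : ∃ B : ℕ, ∀ A b c : ℕ, 1 ≤ c → B * c ^ d ≤ A * b ^ (d - 1) →
    ∃ L₀ : ℕ, 1 ≤ L₀ ∧ ∀ L, 1 ≤ L → L₀ ∣ L →
      ∀ (k : ℕ) (M : Matrix (Fin k) (Fin k) ℕ) (U : Finset (Fin k)), IsBinary M → U.Nonempty →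
        (∀ i ∈ U, ∑ j ∈ U, M i j = L * A ∧ ∑ j ∈ Uᶜ, M i j = L * b) →
        (∀ i ∉ U, ∑ j ∈ U, M i j = 0 ∧ ∑ j ∈ Uᶜ, M i j = L * c) →
        ∃ (k' : ℕ) (N : Matrix (Fin k') (Fin k') ℕ) (h : ℝ),
          IsBinary N ∧ IsIrred N ∧ HasEntropy d M h ∧ HasEntropy d N h := by
  obtain ⟨S, η, η0, hS, hh⟩ := hull' d hd
  obtain ⟨Y, Y2, hY⟩ := nat_bound' S fun p => 2 * (1 + ∑ k, |p k|)
  have Y2' : (2 : ℚ) ≤ Y := by exact_mod_cast Y2
  obtain ⟨ε, ε0, ε1, ε2⟩ : ∃ ε : ℚ, 0 < ε ∧ ε ≤ η ∧ ε * (2 * Y) ≤ 1 :=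
    ⟨min η (2 * Y)⁻¹, lt_min η0 (by positivity), min_le_left _ _,
      (le_div_iff₀ (by positivity)).1 ((min_le_right _ _).trans_eq (one_div _).symm)⟩
  obtain ⟨B, hB⟩ := exists_nat_gt (ε ^ d)⁻¹
  refine ⟨B, fun A b c hc h => ?_⟩
  have c0 : (0 : ℚ) < c := by exact_mod_cast hc
  have B0 : 0 < B := by exact_mod_cast (inv_pos.2 (pow_pos ε0 d)).trans hB
  have h0 : 0 < A * b ^ (d - 1) := (Nat.mul_pos B0 (pow_pos hc d)).trans_le h
  have A1 : 0 < A := Nat.pos_of_mul_pos_right h0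
  have b1 : 0 < b := Nat.pos_of_ne_zero fun hb => by simp [hb, show d - 1 ≠ 0 by omega] at h0
  have A0 : (0 : ℚ) < A := by exact_mod_cast A1
  have b0 : (0 : ℚ) < b := by exact_mod_cast b1
  obtain ⟨e, rfl⟩ : ∃ e, d = e + 1 := ⟨d - 1, by omega⟩
  obtain ⟨t, t0, t1, t2⟩ := exists_scale (e + 1) hd (A / c) (b / c) ε (by positivity) (by positivity)
    ε0 (by
      have h' : (B : ℚ) * c ^ (e + 1) ≤ A * b ^ (e + 1 - 1) := by exact_mod_cast h
      rw [← inv_lt_iff_one_lt_mul₀' (pow_pos ε0 _)]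
      refine hB.trans_le ?_
      rw [Nat.add_sub_cancel] at h' ⊢
      rwa [div_pow, div_mul_div_comm, ← pow_succ', le_div_iff₀ (by positivity)])
  rw [Nat.add_sub_cancel] at t2
  obtain ⟨a, ha⟩ : ∃ a : ℚ, a = b / c / (A / c * t ^ (e + 1)) := ⟨_, rfl⟩
  obtain ⟨κ, hκ⟩ : ∃ κ : ℚ, κ = A / c * t ^ e := ⟨_, rfl⟩
  rw [← ha] at t1
  rw [← hκ] at t2
  have κ0 : 0 < κ := by rw [hκ]; positivity
  have κ1 : 2 * Y ≤ κ := le_of_mul_le_mul_left (ε2.trans t2.le) ε0
  have a1 : 1 / 2 ≤ a := by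
    have := abs_lt.1 t1
    nlinarith [this.1]
  have := hh a κ (t1.trans_le ε1) (t2.trans_le (mul_le_mul_of_nonneg_right ε1 κ0.le))
  choose! W W0 hW using this
  obtain ⟨x, E, x0, E0, xs, Es⟩ : ∃ x E : ℕ → ℚ, x 0 = 1 ∧ E 0 = 1 ∧
      (∀ n, x (n + 1) = A * x n ^ (e + 1) + b * E n ^ (e + 1)) ∧
      ∀ n, E (n + 1) = c * E n ^ (e + 1) :=
    ⟨fun n => (Nat.rec (motive := fun _ => ℚ × ℚ) (1, 1)
        (fun _ p => (A * p.1 ^ (e + 1) + b * p.2 ^ (e + 1), c * p.2 ^ (e + 1))) n).1,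
      fun n => (Nat.rec (motive := fun _ => ℚ × ℚ) (1, 1)
        (fun _ p => (A * p.1 ^ (e + 1) + b * p.2 ^ (e + 1), c * p.2 ^ (e + 1))) n).2,
      rfl, rfl, fun _ => rfl, fun _ => rfl⟩
  have pos : ∀ n, 0 < x n ∧ 0 < E n := fun n => by
    induction n with
    | zero => simp [x0, E0]
    | succ n ih =>
      obtain ⟨i1, i2⟩ := ih
      rw [xs, Es]
      exact ⟨by positivity, by positivity⟩
  obtain ⟨y, hy⟩ : ∃ y : ℕ → ℚ, ∀ n, y n = x n / (t * E n) := ⟨_, fun _ => rfl⟩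
  have ys : ∀ n, y (n + 1) = κ * (y n ^ (e + 1) + a) := fun n => by
    have := (pos n).2
    rw [hy, hy, xs, Es, hκ, ha, div_pow, mul_pow]
    field_simp
    ring
  have y0 : ∀ n, 0 < y n := fun n => hy n ▸ div_pos (pos n).1 (mul_pos t0 (pos n).2)
  have y1 : ∀ n, (Y : ℚ) ≤ y (n + 1) := fun n => by
    have := pow_pos (y0 n) (e + 1)
    rw [ys]
    nlinarith
  have pb := fun n v (hv : v ∈ S) => poly_bound (by omega) v (y (n + 1)) ((hY v hv).trans (y1 n))
  have sys : Sys (e + 1) S (fun v w => |c ^ (e + 1) * W v w|) fun n v => E (n + 1) ^ (e + 1) *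
      (y (n + 1) ^ (e + 1) + 1 + ∑ k, v k * y (n + 1) ^ (k : ℕ)) :=
    ⟨hS, fun _ _ => abs_nonneg _, fun n v hv => mul_pos (pow_pos (pos _).2 _)
      ((half_pos (pow_pos (y0 _) _)).trans_le (pb n v hv).1), fun n v hv => by
        rw [ys (n + 1), ← hW v hv, Es (n + 1), mul_sum]
        refine sum_congr rfl fun w _ => ?_
        rw [abs_of_nonneg (mul_nonneg (by positivity) (W0 v hv w)), mul_pow, mul_pow]
        ring⟩
  have xE : ∀ n, x n = t * (E n * y n) := fun n => by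
    have := (pos n).2
    rw [hy]
    field_simp
  have z0 : ∀ n, 0 < (E n * y n) ^ (e + 1) := fun n => pow_pos (mul_pos (pos n).2 (y0 n)) _
  have Ez : ∀ n, E (n + 1) ^ (e + 1) ≤ (E (n + 1) * y (n + 1)) ^ (e + 1) := fun n =>
    pow_le_pow_left₀ (pos _).2.le (le_mul_of_one_le_right (pos _).2.le (by linarith [y1 n])) _
  have T0 : 0 < A * t ^ (e + 1) := by positivity
  have T1 := inv_pos.2 T0
  obtain ⟨C, hC⟩ : ∃ C : ℚ, C = 2 + A * t ^ (e + 1) + b + c + (A * t ^ (e + 1))⁻¹ := ⟨_, rfl⟩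
  have C2 : 2 ≤ C := by linarith
  obtain ⟨L₀, L1, hL⟩ := finish (e + 1) hd sys 2 (fun n => (E (n + 1) * y (n + 1)) ^ (e + 1)) C
    (by linarith) fun n v hv => by
      obtain ⟨p1, p2⟩ := pb n v hv
      have q0 := pow_pos (pos (n + 1)).2 (e + 1)
      have q1 := mul_le_mul_of_nonneg_left p1 q0.le
      have q2 := mul_le_mul_of_nonneg_left p2 q0.le
      have q3 := z0 (n + 1)
      rw [mul_pow] at q3 ⊢
      constructor <;> nlinarith
  refine ⟨L₀, L1, fun L L2 L3 k M U bM ⟨i0, hi0⟩ top low => ?_⟩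
  have val : ∀ n i, (rtd (e + 1) M n i : ℚ) = sc (e + 1) L n * if i ∈ U then x n else E n :=
    fun n => by
      induction n with
      | zero => simp [rtd, sc, x0, E0]
      | succ n ih =>
        intro i
        rw [rtd, sc]
        push_cast
        rw [← sum_add_sum_compl U, sum_congr rfl fun j hj => by rw [ih, if_pos hj],
          sum_congr (s₁ := Uᶜ) rfl fun j hj => by rw [ih, if_neg (mem_compl.1 hj)], ← sum_mul,
          ← sum_mul, ← Nat.cast_sum, ← Nat.cast_sum]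
        split_ifs with hi
        · rw [(top i hi).1, (top i hi).2, xs]
          push_cast
          ring
        · rw [(low i hi).1, (low i hi).2, Es]
          push_cast
          ring
  refine hL L L2 L3 k M (Fin.pos i0) bM (fun r => ?_) (fun n i => ?_) fun n => ⟨i0, ?_⟩
  · have : ∑ j ∈ Uᶜ, M r j ≠ 0 := by
      by_cases hr : r ∈ U
      · rw [(top r hr).2]
        exact (Nat.mul_pos L2 b1).ne'
      · rw [(low r hr).2]
        exact (Nat.mul_pos L2 hc).ne'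
    obtain ⟨j, -, hj⟩ := exists_ne_zero_of_sum_ne_zero this
    exact ⟨j, (bM r j).resolve_left hj⟩
  · rw [val]
    refine mul_le_mul_of_nonneg_left ?_ (by positivity)
    have q1 := z0 (n + 1)
    have q2 := Ez n
    split_ifs
    · rw [xs, xE, mul_pow t, hC]
      nlinarith
    · rw [Es, hC]
      nlinarith
  · rw [val, if_pos hi0, mul_left_comm]
    refine mul_le_mul_of_nonneg_left ?_ (by positivity)
    have q1 := z0 (n + 1)
    have q2 : A * t ^ (e + 1) * (E (n + 1) * y (n + 1)) ^ (e + 1) ≤ x (n + 2) := by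
      rw [xs, xE, mul_pow t, mul_assoc]
      exact le_add_of_nonneg_right (mul_pos b0 (pow_pos (pos _).2 _)).le
    exact ((le_inv_mul_iff₀ T0).2 q2).trans
      (mul_le_mul_of_nonneg_right (by linarith) (pos _).1.le)

end Pool.Agent.MP_93dc40_an

end
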